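import Pool.Agent.H75.Perc.Orbit

/-!
# Link patterns of a zone (route W, B8 (a)): the abstract part

`Ex T S c d` : the orbit of `c` under `T` leaves `S` for the first time at `d`.
`ex_swap` : exchanging two values of the permutation does not change this relation for the
entries, if one of the two strands through the exchanged pair returns to the pair inside `S`.
-/

set_option autoImplicit false

namespace H80.W

open Pool.Agent.H75.Perc

variable {α : Type*}

/-- the orbit of `c` leaves `S` for the first time at `d` -/
def Ex (T : α → α) (S : α → Prop) (c d : α) : Prop :=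
  ∃ n : ℕ, T^[n] c = d ∧ ¬ S d ∧ ∀ k < n, S (T^[k] c)

lemma Ex.zero {T : α → α} {S : α → Prop} {c : α} (h : ¬ S c) : Ex T S c c :=
  ⟨0, rfl, h, fun k hk => absurd hk (Nat.not_lt_zero k)⟩

/-- prolonging by a path inside `S` -/
lemma Ex.path {T : α → α} {S : α → Prop} {x y d : α} {j : ℕ} (hj : T^[j] x = y)
    (hS : ∀ k < j, S (T^[k] x)) (h : Ex T S y d) : Ex T S x d := by
  obtain ⟨n, h1, h2, h3⟩ := h
  refine ⟨n + j, by rw [Function.iterate_add_apply, hj, h1], h2, fun k hk => ?_⟩
  rcases lt_or_ge k j with h | h
  · exact hS k h
  · have e : k = (k - j) + j := by omega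
    rw [e, Function.iterate_add_apply, hj]
    exact h3 _ (by omega)

lemma Ex.step {T : α → α} {S : α → Prop} {x d : α} (hx : S x) (h : Ex T S (T x) d) :
    Ex T S x d :=
  Ex.path (j := 1) rfl (fun k hk => by
    have : k = 0 := by omega
    subst this
    exact hx) h

lemma Ex.det {T : α → α} {S : α → Prop} {x d d' : α} (h : Ex T S x d) (h' : Ex T S x d') :
    d = d' := by
  obtain ⟨n, h1, h2, h3⟩ := h
  obtain ⟨n', h1', h2', h3'⟩ := h'
  rcases lt_trichotomy n n' with hlt | heq | hgt
  · exact absurd (h1 ▸ h3' n hlt) h2
  · subst heq
    rw [← h1, h1']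
  · exact absurd (h1' ▸ h3 n' hgt) h2'

/-- the strand which leaves through `T p` returns to `p` or `q` inside `S` -/
def Ret (T : α → α) (S : α → Prop) (p q : α) : Prop :=
  ∃ n : ℕ, (T^[n] (T p) = p ∨ T^[n] (T p) = q) ∧
    ∀ k < n, S (T^[k] (T p)) ∧ T^[k] (T p) ≠ p ∧ T^[k] (T p) ≠ q

lemma Ret.swap {T T' : α → α} {S : α → Prop} {p q : α} (h : Ret T S p q)
    (hs : Swapped T T' p q) : Ret T' S q p := by
  obtain ⟨n, h1, h2⟩ := h
  have hag := hs.agree (T p) n (fun i hi => (h2 i hi).2)
  refine ⟨n, ?_, fun k hk => ?_⟩
  · rw [hs.atq, hag n le_rfl]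
    exact h1.symm
  · rw [hs.atq, hag k hk.le]
    exact ⟨(h2 k hk).1, (h2 k hk).2.2, (h2 k hk).2.1⟩

/-- one direction of `ex_swap` -/
theorem ex_swap_aux {T T' : α → α} {S : α → Prop} {p q : α} (hT : Function.Injective T)
    (hs : Swapped T T' p q) (hpq : p ≠ q) (hp : S p) (hq : S q) (hr : Ret T S p q) {c d : α}
    (hc : ∀ x, S x → T x ≠ c) (h : Ex T S c d) : Ex T' S c d := by
  obtain ⟨n0, hend, hin⟩ := hr
  set R : α → Prop := fun y => ∃ k ≤ n0, T^[k] (T p) = y with hR
  -- successors of points off `R` are off `R`
  have hsucc : ∀ x, x ≠ p → ¬ R x → ¬ R (T x) := by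
    rintro x hx hxR ⟨k, hk, h1⟩
    cases k with
    | zero => exact hx (hT h1).symm
    | succ k =>
      rw [Function.iterate_succ_apply'] at h1
      exact hxR ⟨k, by omega, hT h1⟩
  have hTq : ¬ R (T q) := by
    rintro ⟨k, hk, h1⟩
    cases k with
    | zero => exact hpq (hT h1)
    | succ k =>
      rw [Function.iterate_succ_apply'] at h1
      exact (hin k (by omega)).2.2 (hT h1)
  have hag := hs.agree (T p) n0 (fun i hi => (hin i hi).2)
  have key : ∀ m x, ¬ R x → T^[m] x = d → ¬ S d → (∀ k < m, S (T^[k] x)) → Ex T' S x d := by
    intro m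
    induction m using Nat.strong_induction_on with
    | _ m ih =>
      intro x hx h1 h2 h3
      cases m with
      | zero =>
        have : x = d := h1
        rw [this]
        exact Ex.zero h2
      | succ m =>
        have hSx : S x := h3 0 (Nat.succ_pos m)
        by_cases hxp : x = p
        · subst hxp
          -- the endpoint is `q`
          have hend' : T^[n0] (T x) = q := by
            rcases hend with h | h
            · exact absurd ⟨n0, le_rfl, h⟩ hx
            · exact h
          have hlt : n0 + 1 < m + 1 := by
            by_contra hcon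
            push Not at hcon
            have hd : T^[m] (T x) = d := by rw [← h1, Function.iterate_succ_apply]
            rcases lt_or_ge m n0 with h | h
            · exact h2 (hd ▸ (hin m h).1)
            · have : m = n0 := by omega
              subst this
              rw [hend'] at hd
              exact h2 (hd ▸ hq)
          have h6 : T^[n0 + 2] x = T q := by
            rw [Function.iterate_succ_apply', Function.iterate_succ_apply, hend']
          have h4 : T^[m - (n0 + 1)] (T q) = d := by
            rw [← h1, ← h6, ← Function.iterate_add_apply]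
            congr 1
            omega
          refine Ex.step hSx ?_
          rw [hs.atp]
          refine ih (m - (n0 + 1)) (by omega) (T q) hTq h4 h2 fun k hk => ?_
          have h5 := h3 (k + (n0 + 2)) (by omega)
          rw [Function.iterate_add_apply] at h5
          rwa [h6] at h5
        · by_cases hxq : x = q
          · subst hxq
            have hend' : T^[n0] (T p) = p := by
              rcases hend with h | h
              · exact h
              · exact absurd ⟨n0, le_rfl, h⟩ hx
            have h5 : Ex T' S (T x) d :=
              ih m (Nat.lt_succ_self m) (T x) hTq (by rw [← h1, Function.iterate_succ_apply]) h2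
                (fun k hk => by
                  have := h3 (k + 1) (by omega)
                  rwa [Function.iterate_succ_apply] at this)
            have h6 : Ex T' S p d := Ex.step hp (by rw [hs.atp]; exact h5)
            refine Ex.step hSx ?_
            rw [hs.atq]
            refine Ex.path (j := n0) (y := p) (by rw [hag n0 le_rfl, hend']) (fun k hk => ?_) h6
            rw [hag k hk.le]
            exact (hin k hk).1
          · refine Ex.step hSx ?_
            rw [hs.off x hxp hxq]
            refine ih m (Nat.lt_succ_self m) (T x) (hsucc x hxp hx)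
              (by rw [← h1, Function.iterate_succ_apply]) h2 (fun k hk => ?_)
            have := h3 (k + 1) (by omega)
            rwa [Function.iterate_succ_apply] at this
  obtain ⟨m, h1, h2, h3⟩ := h
  refine key m c ?_ h1 h2 h3
  rintro ⟨k, hk, h4⟩
  cases k with
  | zero => exact hc p hp h4
  | succ k =>
    rw [Function.iterate_succ_apply'] at h4
    exact hc _ (hin k (by omega)).1 h4

/-- **Exchanging two values does not change the pattern** if one of the strands through the
exchanged pair returns inside `S`. -/
theorem ex_swap {T T' : α → α} {S : α → Prop} {p q : α} (hT : Function.Injective T)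
    (hT' : Function.Injective T') (hs : Swapped T T' p q) (hpq : p ≠ q) (hp : S p) (hq : S q)
    (hr : Ret T S p q) {c d : α} (hc : ∀ x, S x → T x ≠ c) :
    Ex T S c d ↔ Ex T' S c d := by
  refine ⟨ex_swap_aux hT hs hpq hp hq hr hc, ?_⟩
  refine ex_swap_aux hT' hs.symm.comm hpq.symm hq hp (hr.swap hs) fun x hx => ?_
  by_cases h1 : x = p
  · rw [h1, hs.atp]; exact hc q hq
  · by_cases h2 : x = q
    · rw [h2, hs.atq]; exact hc p hp
    · rw [hs.off x h1 h2]; exact hc x hx

end H80.W
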