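import Pool.Agent.H39.Q1.Cut
import Pool.Agent.H80.W.Pat

/-!
# Link patterns of a plane zone (route W, B8 (a), (b))

`Z` : finite set of labels (the zone), `w ⊆ Z` : the open ones. `Pat Z w c d` : the strand which enters
the zone at the corner `c` leaves it at the corner `d`. `pat_A` .. `pat_D` : opening a label `e` does
not change the pattern if its ends are joined in the zone (A), or are not joined and the cluster of
one of them is enclosed (B), or its faces are joined off `e` by closed labels of the zone (C), or are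
not joined off it and the dual cluster of one of them is enclosed (D).
-/

set_option autoImplicit false
open Finset

namespace H80.W

open Pool.Agent.H75.Perc Pool.Agent.H75.TwoArm Pool.Agent.H75.Four Pool.Agent.H69.Q1
open Pool.Agent.Q1 Pool.Agent.H43.Q1 Pool.Agent.H39.Q1

variable {Z w w' : Finset (ℤ × ℤ)} {e u v x y f g φ ψ c d : ℤ × ℤ}

/-- the strand which enters the zone `Z` at `c` leaves it at `d` -/
def Pat (Z w : Finset (ℤ × ℤ)) (c d : ℤ × ℤ) : Prop := Ex (nx w) (fun c => lab c ∈ Z) c d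

/-- `c` is an entry of the zone: its predecessors do not meet labels of the zone -/
def Entry (Z : Finset (ℤ × ℤ)) (c : ℤ × ℤ) : Prop := ∀ x, lab x ∈ Z → nxO x ≠ c ∧ nxC x ≠ c

/-- a vertex at a label outside the zone -/
def OutV (Z : Finset (ℤ × ℤ)) (x : ℤ × ℤ) : Prop := ∃ y, IsUnit4 (y - x) ∧ x + y ∉ Z

/-- a face at a label outside the zone -/
def OutF (Z : Finset (ℤ × ℤ)) (x : ℤ × ℤ) : Prop := ∃ y, IsUnit4 (y - x) ∧ x + y - (1, 1) ∉ Z

/-- the complement of the zone is connected for closed paths -/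
def ZF (Z : Finset (ℤ × ℤ)) : Prop := ∀ a b, OutF Z a → OutF Z b → DCo Z a b

/-- the complement of the zone is connected for open paths -/
def ZV (Z : Finset (ℤ × ℤ)) : Prop :=
  ∀ a b, OutV Z a → OutV Z b → ∃ N, Co N a b ∧ Disjoint N Z

lemma nx_ne_of_entry (hc : Entry Z c) (w : Finset (ℤ × ℤ)) : ∀ x, lab x ∈ Z → nx w x ≠ c := by
  intro x hx
  unfold nx
  split_ifs
  · exact (hc x hx).1
  · exact (hc x hx).2

/-- the pattern depends on the labels of the zone only -/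
lemma iter_congr (h : w ∩ Z = w' ∩ Z) {n : ℕ} (hn : ∀ k < n, lab ((nx w)^[k] c) ∈ Z) :
    ∀ k ≤ n, (nx w')^[k] c = (nx w)^[k] c := by
  intro k
  induction k with
  | zero => intro _; rfl
  | succ k ih =>
    intro hk
    rw [Function.iterate_succ_apply', Function.iterate_succ_apply', ih (by omega)]
    have hl := hn k (by omega)
    unfold nx
    have : lab ((nx w)^[k] c) ∈ w' ↔ lab ((nx w)^[k] c) ∈ w := by
      have h1 := congrArg (fun s => lab ((nx w)^[k] c) ∈ s) h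
      simp only [mem_inter, hl, and_true, eq_iff_iff] at h1
      exact h1.symm
    unfold nx at this
    by_cases h2 : lab ((nx w)^[k] c) ∈ w
    · unfold nx at h2
      rw [if_pos h2, if_pos (this.2 h2)]
    · unfold nx at h2
      rw [if_neg h2, if_neg (fun h3 => h2 (this.1 h3))]

lemma pat_congr_aux (h : w ∩ Z = w' ∩ Z) (hp : Pat Z w c d) : Pat Z w' c d := by
  obtain ⟨n, h1, h2, h3⟩ := hp
  have h4 := iter_congr h h3
  exact ⟨n, by rw [h4 n le_rfl, h1], h2, fun k hk => by rw [h4 k hk.le]; exact h3 k hk⟩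

lemma pat_congr (h : w ∩ Z = w' ∩ Z) : Pat Z w c d ↔ Pat Z w' c d :=
  ⟨pat_congr_aux h, pat_congr_aux h.symm⟩

lemma pat_inter : Pat Z (w ∩ Z) c d ↔ Pat Z w c d :=
  pat_congr (by rw [inter_assoc, inter_self])

/-- the label of a corner is at the vertex and at the face of the corner -/
lemma lab_vx (z : ℤ × ℤ) : ∃ y, IsUnit4 (y - vx z) ∧ vx z + y = lab z :=
  ⟨vx (nxO z), (vx_nxO z).1, (vx_nxO z).2⟩

lemma lab_fi (z : ℤ × ℤ) : ∃ y, IsUnit4 (y - fi z) ∧ fi z + y - (1, 1) = lab z := by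
  have h := StrandAux.fi_nxC z
  exact ⟨fi (nxC z), h.1, face_sub h.2⟩

/-! ### The strand around an enclosed cluster -/

lemma ret_v (p q : ℤ × ℤ) (hq : ¬ Co w (vx p) (vx q))
    (hs : ∀ x, Co w (vx p) x → ¬ OutV Z x) :
    Ret (nx w) (fun c => lab c ∈ Z) p q := by
  obtain ⟨L, hL⟩ := exists_orb_nx w p
  have h1 : ∀ k, (nx w)^[k] (nx w p) = (nx w)^[k + 1] p :=
    fun k => (Function.iterate_succ_apply _ _ _).symm
  refine ⟨L - 1, Or.inl ?_, fun k hk => ⟨?_, ?_, ?_⟩⟩
  · rw [h1, Nat.sub_add_cancel hL.pos, hL.per]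
  · rw [h1]
    have h2 := co_orb w p (k + 1)
    have h3 := hs _ h2
    obtain ⟨y, hy1, hy2⟩ := lab_vx ((nx w)^[k + 1] p)
    by_contra hcon
    exact h3 ⟨y, hy1, by rw [hy2]; exact hcon⟩
  · rw [h1]
    exact (hL.inj 0 (k + 1) (by omega) (by omega)).symm
  · rw [h1]
    intro h2
    apply hq
    rw [← h2]
    exact co_orb w p (k + 1)

lemma ret_f (p q : ℤ × ℤ) (hq : ¬ DCo w (fi p) (fi q))
    (hs : ∀ x, DCo w (fi p) x → ¬ OutF Z x) :
    Ret (nx w) (fun c => lab c ∈ Z) p q := by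
  obtain ⟨L, hL⟩ := exists_orb_nx w p
  have h1 : ∀ k, (nx w)^[k] (nx w p) = (nx w)^[k + 1] p :=
    fun k => (Function.iterate_succ_apply _ _ _).symm
  refine ⟨L - 1, Or.inl ?_, fun k hk => ⟨?_, ?_, ?_⟩⟩
  · rw [h1, Nat.sub_add_cancel hL.pos, hL.per]
  · rw [h1]
    have h2 := dco_orb w p (k + 1)
    have h3 := hs _ h2
    obtain ⟨y, hy1, hy2⟩ := lab_fi ((nx w)^[k + 1] p)
    by_contra hcon
    exact h3 ⟨y, hy1, by rw [hy2]; exact hcon⟩
  · rw [h1]
    exact (hL.inj 0 (k + 1) (by omega) (by omega)).symm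
  · rw [h1]
    intro h2
    apply hq
    rw [← h2]
    exact dco_orb w p (k + 1)

/-! ### (B), (D) -/

/-- **(B)** -/
theorem pat_B (he : e ∈ Z) (hew : e ∉ w) (h1 : IsUnit4 (v - u)) (h2 : u + v = e)
    (h : ¬ Co w u v) (hs : ∀ x, Co w v x → ¬ OutV Z x) (hc : Entry Z c) :
    Pat Z w c d ↔ Pat Z (insert e w) c d := by
  have ho := odd_of_ends h1 h2
  have hsw := swapped_insert w e ho hew
  have hl1 : lab (in1 e) ∈ Z := by rw [lab_in1 e ho]; exact he
  have hl2 : lab (in2 e) ∈ Z := by rw [lab_in2 e ho]; exact he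
  rcases end_cases h1 h2 (in12_vx ho).1 (in12_vx ho).2 with ⟨a, b⟩ | ⟨a, b⟩
  · -- `vx (in1 e) = u`, `vx (in2 e) = v`
    refine ex_swap (nx_injective _) (nx_injective _) hsw.comm (in1_ne_in2 e).symm hl2 hl1 ?_
      (nx_ne_of_entry hc w)
    refine ret_v _ _ ?_ ?_
    · rw [b, a]; exact fun h3 => h h3.symm
    · rw [b]; exact hs
  · refine ex_swap (nx_injective _) (nx_injective _) hsw (in1_ne_in2 e) hl1 hl2 ?_
      (nx_ne_of_entry hc w)
    refine ret_v _ _ ?_ ?_
    · rw [a, b]; exact fun h3 => h h3.symm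
    · rw [a]; exact hs

/-- **(D)** -/
theorem pat_D (he : e ∈ Z) (hew : e ∉ w) (h1 : IsUnit4 (ψ - φ)) (h2 : φ + ψ = e + (1, 1))
    (h : ¬ DCo (insert e w) φ ψ) (hs : ∀ x, DCo (insert e w) φ x → ¬ OutF Z x)
    (hc : Entry Z c) : Pat Z w c d ↔ Pat Z (insert e w) c d := by
  have ho := odd_of_sides h1 h2
  have hsw := (swapped_insert w e ho hew).symm
  have hl1 : lab (in1 e) ∈ Z := by rw [lab_in1 e ho]; exact he
  have hl2 : lab (in2 e) ∈ Z := by rw [lab_in2 e ho]; exact he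
  symm
  rcases side_cases h1 h2 (in12_fi ho).1 (in12_fi ho).2 with ⟨a, b⟩ | ⟨a, b⟩
  · -- `fi (in1 e) = φ`
    refine ex_swap (nx_injective _) (nx_injective _) hsw (in1_ne_in2 e) hl1 hl2 ?_
      (nx_ne_of_entry hc _)
    refine ret_f _ _ ?_ ?_
    · rw [a, b]; exact h
    · rw [a]; exact hs
  · refine ex_swap (nx_injective _) (nx_injective _) hsw.comm (in1_ne_in2 e).symm hl2 hl1 ?_
      (nx_ne_of_entry hc _)
    refine ret_f _ _ ?_ ?_
    · rw [b, a]; exact h
    · rw [b]; exact hs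

/-! ### Planarity -/

/-- the two sides of a closed chain through `e` -/
lemma exists_side (he : e ∉ w) (h1 : IsUnit4 (v - u)) (h2 : u + v = e) (h : Co w u v) :
    ∃ s : ℤ × ℤ → ZMod 2,
      (∀ a b, IsUnit4 (b - a) → a + b - (1, 1) ∉ insert e w → s a = s b) ∧
      ∀ a b, IsUnit4 (b - a) → a + b = e + (1, 1) → s a ≠ s b := by
  have ho := odd_of_ends h1 h2
  obtain ⟨P, hP1, hP2, hP3⟩ := co_chain h
  have heP : e ∉ P := fun h => he (hP1 h)
  have hQ1 : ∀ l ∈ symmDiff P {e}, (l.1 + l.2) % 2 = 1 := by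
    intro l hl
    rw [mem_symmDiff, mem_singleton] at hl
    rcases hl with hl | hl
    · exact hP2 l hl.1
    · rw [hl.1]; exact ho
  have hQ2 : ∀ V, bd (symmDiff P {e}) V = 0 := by
    intro V
    rw [bd_symmDiff, hP3]
    have h4 : bd {e} V = V u + V v := by
      unfold bd
      rw [sum_singleton]
      rcases end_cases (ends_vx ho).1 (ends_vx ho).2 h1 h2 with ⟨a, b⟩ | ⟨a, b⟩
      · rw [← a, ← b]
      · rw [← a, ← b, add_comm]
    rw [h4]
    exact two_zero _
  obtain ⟨s, hs⟩ := face_fun hQ1 hQ2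
  have hone : ∀ a b : ZMod 2, a + b = 0 → a = b := fun a b h => by
    have := two_zero b
    calc a = a + b + b := by rw [add_assoc, this, add_zero]
      _ = b := by rw [h, zero_add]
  refine ⟨s, ?_, ?_⟩
  · intro a b h3 h4
    apply hone
    rw [hs a b _ h3 (face_add rfl), if_neg]
    intro h5
    rw [mem_symmDiff, mem_singleton] at h5
    apply h4
    rcases h5 with h5 | h5
    · exact mem_insert_of_mem (hP1 h5.1)
    · rw [h5.1]; exact mem_insert_self _ _
  · intro a b h3 h4 h5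
    have := hs a b e h3 h4
    rw [if_pos, h5, two_zero] at this
    · exact absurd this (by decide)
    · rw [mem_symmDiff]; exact Or.inr ⟨mem_singleton_self _, heP⟩

/-- if the ends of `e` are joined, its faces are not joined off it -/
theorem not_dco_of_co (he : e ∉ w) (h1 : IsUnit4 (v - u)) (h2 : u + v = e) (h : Co w u v)
    (h3 : IsUnit4 (ψ - φ)) (h4 : φ + ψ = e + (1, 1)) : ¬ DCo (insert e w) φ ψ := by
  obtain ⟨s, hs1, hs2⟩ := exists_side he h1 h2 h
  intro hd
  refine hs2 φ ψ h3 h4 ?_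
  refine DCo.ind (P := fun x => s φ = s x) hd rfl fun x y hx h5 h6 => ?_
  rw [hx]
  exact hs1 x y h5 h6

/-- **(A)** -/
theorem pat_A (hZ : ZF Z) (hw : w ⊆ Z) (he : e ∈ Z) (hew : e ∉ w) (h1 : IsUnit4 (v - u))
    (h2 : u + v = e) (h : Co w u v) (hc : Entry Z c) :
    Pat Z w c d ↔ Pat Z (insert e w) c d := by
  have ho := odd_of_ends h1 h2
  obtain ⟨hf1, hf2⟩ := in12_fi ho
  set φ := fi (in1 e) with hφ
  set ψ := fi (in2 e) with hψ
  have hno := not_dco_of_co hew h1 h2 h hf1 hf2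
  have hcl : ∀ a b, IsUnit4 (b - a) → a + b = e + (1, 1) → DCo w a b := by
    intro a b h3 h4
    exact DCo.step h3 (by rw [face_sub h4]; exact hew)
  have hone : (∀ x, DCo (insert e w) φ x → ¬ OutF Z x) ∨
      ∀ x, DCo (insert e w) ψ x → ¬ OutF Z x := by
    by_contra hcon
    rw [not_or] at hcon
    push Not at hcon
    obtain ⟨⟨a, ha1, ha2⟩, b, hb1, hb2⟩ := hcon
    apply hno
    have h5 : DCo w a b :=
      ((ha1.anti (subset_insert _ _)).symm.trans (hcl φ ψ hf1 hf2)).trans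
        (hb1.anti (subset_insert _ _))
    have h6 : DCo (insert e w) a b :=
      dco_insert_joined (M := Z) hew he h1 h2 (by rwa [inter_eq_left.2 hw]) (hZ a b ha2 hb2) h5
    exact (ha1.trans h6).trans hb1.symm
  rcases hone with h5 | h5
  · exact pat_D he hew hf1 hf2 hno h5 hc
  · refine pat_D he hew (φ := ψ) (ψ := φ) (unit_symm hf1) (by rw [add_comm]; exact hf2)
      (fun h6 => hno h6.symm) h5 hc

/-- **(C)** -/
theorem pat_C (hZ : ZV Z) (he : e ∈ Z) (hew : e ∉ w) (h1 : IsUnit4 (ψ - φ))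
    (h2 : φ + ψ = e + (1, 1)) (h : Co (du (Z.erase e) w) φ ψ) (hc : Entry Z c) :
    Pat Z w c d ↔ Pat Z (insert e w) c d := by
  have ho := odd_of_sides h1 h2
  obtain ⟨hv1, hv2⟩ := in12_vx ho
  set u := vx (in1 e) with hu
  set v := vx (in2 e) with hv
  have hd : DCo (insert e w) φ ψ := by
    refine ⟨Z.erase e, ?_⟩
    refine h.mono ?_
    unfold du
    refine map_subset_map.2 fun l hl => ?_
    obtain ⟨h3, h4⟩ := mem_sdiff.1 hl
    refine mem_sdiff.2 ⟨h3, fun h5 => ?_⟩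
    rcases mem_insert.1 h5 with h6 | h6
    · exact (mem_erase.1 h3).1 h6
    · exact h4 h6
  have hno : ¬ Co w u v := fun h3 => not_dco_of_co hew hv1 hv2 h3 h1 h2 hd
  have hone : (∀ x, Co w v x → ¬ OutV Z x) ∨ ∀ x, Co w u x → ¬ OutV Z x := by
    by_contra hcon
    rw [not_or] at hcon
    push Not at hcon
    obtain ⟨⟨a, ha1, ha2⟩, b, hb1, hb2⟩ := hcon
    obtain ⟨N, hN, hNZ⟩ := hZ b a hb2 ha2
    apply hno
    have h3 : Co (insert e w) u v :=
      Relation.ReflTransGen.single ⟨hv1, by rw [hv2]; exact mem_insert_self _ _⟩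
    have h4 : Co (insert e w) b a :=
      ((hb1.mono (subset_insert _ _)).symm.trans h3).trans (ha1.mono (subset_insert _ _))
    have h5 := co_insert_joined he h1 h2 h hN hNZ h4
    exact (hb1.trans h5).trans ha1.symm
  rcases hone with h3 | h3
  · exact pat_B he hew hv1 hv2 hno h3 hc
  · exact pat_B he hew (u := v) (v := u) (unit_symm hv1) (by rw [add_comm]; exact hv2)
      (fun h4 => hno h4.symm) h3 hc

/-! ### Functionals of the pattern -/

/-- `F` depends on the labels of the zone only through the strands which enter it at `Lg` -/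
structure PatF {β : Type*} (Z : Finset (ℤ × ℤ)) (Lg : Set (ℤ × ℤ)) (F : Finset (ℤ × ℤ) → β) :
    Prop where
  zf : ZF Z
  zv : ZV Z
  entry : ∀ c ∈ Lg, Entry Z c
  pat : ∀ w ⊆ Z, ∀ w' ⊆ Z, (∀ c ∈ Lg, ∀ d, Pat Z w c d ↔ Pat Z w' c d) → F w = F w'

namespace PatF

variable {β : Type*} {Lg : Set (ℤ × ℤ)} {F : Finset (ℤ × ℤ) → β} (h : PatF Z Lg F)
include h

theorem A (hw : w ⊆ Z) (he : e ∈ Z) (hew : e ∉ w) (h1 : IsUnit4 (v - u)) (h2 : u + v = e)
    (hj : Co w u v) : F w = F (insert e w) :=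
  h.pat w hw _ (insert_subset he hw) fun c hc _ => pat_A h.zf hw he hew h1 h2 hj (h.entry c hc)

theorem B (hw : w ⊆ Z) (he : e ∈ Z) (hew : e ∉ w) (h1 : IsUnit4 (v - u)) (h2 : u + v = e)
    (hj : ¬ Co w u v) (hs : ∀ x, Co w v x → ¬ OutV Z x) : F w = F (insert e w) :=
  h.pat w hw _ (insert_subset he hw) fun c hc _ => pat_B he hew h1 h2 hj hs (h.entry c hc)

theorem C (hw : w ⊆ Z) (he : e ∈ Z) (hew : e ∉ w) (h1 : IsUnit4 (ψ - φ))
    (h2 : φ + ψ = e + (1, 1)) (hj : Co (du (Z.erase e) w) φ ψ) : F w = F (insert e w) :=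
  h.pat w hw _ (insert_subset he hw) fun c hc _ => pat_C h.zv he hew h1 h2 hj (h.entry c hc)

theorem D (hw : w ⊆ Z) (he : e ∈ Z) (hew : e ∉ w) (h1 : IsUnit4 (ψ - φ))
    (h2 : φ + ψ = e + (1, 1)) (hj : ¬ DCo (insert e w) φ ψ)
    (hs : ∀ x, DCo (insert e w) φ x → ¬ OutF Z x) : F w = F (insert e w) :=
  h.pat w hw _ (insert_subset he hw) fun c hc _ => pat_D he hew h1 h2 hj hs (h.entry c hc)

end PatF

end H80.W
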