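import Pool.Agent.H80.W.PatZ

/-!
# Zones: rectangles of the tile frame (route W, B8)

The tile with label `e` is `((e1 + e2 - 1) / 2, (e2 - e1 - 1) / 2)`. `TR Z x0 x1 y0 y1` : `Z` is the tile
rectangle `[x0, x1) × [y0, y1)`. `TR.zf`, `TR.zv`: the complement is connected for closed and for open
paths. `entry_iff` : a corner is an entry iff the label behind it is not in the zone.
-/

set_option autoImplicit false
open Finset

namespace H80.W

open Pool.Agent.H75.Perc Pool.Agent.H75.TwoArm Pool.Agent.H75.Four Pool.Agent.H69.Q1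
open Pool.Agent.Q1 Pool.Agent.H43.Q1 Pool.Agent.H39.Q1

/-- `Z` is the tile rectangle `[x0, x1) × [y0, y1)` -/
def TR (Z : Finset (ℤ × ℤ)) (x0 x1 y0 y1 : ℤ) : Prop :=
  ∀ e : ℤ × ℤ, (e.1 + e.2) % 2 = 1 →
    (e ∈ Z ↔ 2 * x0 + 1 ≤ e.1 + e.2 ∧ e.1 + e.2 ≤ 2 * x1 - 1 ∧ 2 * y0 + 1 ≤ e.2 - e.1 ∧
      e.2 - e.1 ≤ 2 * y1 - 1)

section conn

variable {Z : Finset (ℤ × ℤ)} {R : ℤ × ℤ → ℤ × ℤ → Prop} {o : ℤ × ℤ}

/-- moves in a half plane of the complement -/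
lemma hp_move (tr : ∀ a b c, R a b → R b c → R a c) (rf : ∀ a, R a a)
    (st : ∀ a b, IsUnit4 (b - a) → a + b - o ∉ Z → R a b) {s1 s2 c : ℤ} (h1 : s1 = 1 ∨ s1 = -1)
    (h2 : s2 = 1 ∨ s2 = -1) (hZ : ∀ e : ℤ × ℤ, s1 * e.1 + s2 * e.2 < c → e ∉ Z)
    (a b : ℕ) : ∀ v : ℤ × ℤ, 2 * (s1 * v.1 + s2 * v.2) - (s1 * o.1 + s2 * o.2) ≤ c →
      R v (v.1 - s1 * a, v.2 - s2 * b) := by
  have hs1 : s1 * s1 = 1 := by rcases h1 with rfl | rfl <;> norm_num
  have hs2 : s2 * s2 = 1 := by rcases h2 with rfl | rfl <;> norm_num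
  have stepA : ∀ v : ℤ × ℤ, 2 * (s1 * v.1 + s2 * v.2) - (s1 * o.1 + s2 * o.2) ≤ c →
      R v (v.1 - s1, v.2) := by
    intro v hv
    refine st _ _ ?_ (hZ _ ?_)
    · unfold IsUnit4
      rcases h1 with rfl | rfl
      · right; right; left; ext <;> simp
      · left; ext <;> simp
    · simp only [Prod.fst_add, Prod.snd_add, Prod.fst_sub, Prod.snd_sub]
      nlinarith
  have stepB : ∀ v : ℤ × ℤ, 2 * (s1 * v.1 + s2 * v.2) - (s1 * o.1 + s2 * o.2) ≤ c →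
      R v (v.1, v.2 - s2) := by
    intro v hv
    refine st _ _ ?_ (hZ _ ?_)
    · unfold IsUnit4
      rcases h2 with rfl | rfl
      · right; right; right; ext <;> simp
      · right; left; ext <;> simp
    · simp only [Prod.fst_add, Prod.snd_add, Prod.fst_sub, Prod.snd_sub]
      nlinarith
  induction a with
  | zero =>
    induction b with
    | zero => intro v _; simpa using rf v
    | succ b ih =>
      intro v hv
      have k1 := stepB v hv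
      have k2 := ih (v.1, v.2 - s2) (by simp only; nlinarith)
      have k3 := tr _ _ _ k1 k2
      convert k3 using 2
      · push_cast; ring
  | succ a ih =>
    intro v hv
    have k1 := stepA v hv
    have k2 := ih (v.1 - s1, v.2) (by simp only; nlinarith)
    have k3 := tr _ _ _ k1 k2
    convert k3 using 2
    push_cast; ring

/-- any two points of a half plane of the complement are joined -/
lemma hp_conn (tr : ∀ a b c, R a b → R b c → R a c) (rf : ∀ a, R a a) (sy : ∀ a b, R a b → R b a)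
    (st : ∀ a b, IsUnit4 (b - a) → a + b - o ∉ Z → R a b) {s1 s2 c : ℤ} (h1 : s1 = 1 ∨ s1 = -1)
    (h2 : s2 = 1 ∨ s2 = -1) (hZ : ∀ e : ℤ × ℤ, s1 * e.1 + s2 * e.2 < c → e ∉ Z) {v v' : ℤ × ℤ}
    (hv : 2 * (s1 * v.1 + s2 * v.2) - (s1 * o.1 + s2 * o.2) ≤ c)
    (hv' : 2 * (s1 * v'.1 + s2 * v'.2) - (s1 * o.1 + s2 * o.2) ≤ c) : R v v' := by
  have hs1 : s1 * s1 = 1 := by rcases h1 with rfl | rfl <;> norm_num
  have hs2 : s2 * s2 = 1 := by rcases h2 with rfl | rfl <;> norm_num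
  have k1 := hp_move tr rf st h1 h2 hZ (s1 * (v.1 - v'.1)).toNat (s2 * (v.2 - v'.2)).toNat v hv
  have k2 := hp_move tr rf st h1 h2 hZ (s1 * (v'.1 - v.1)).toNat (s2 * (v'.2 - v.2)).toNat v' hv'
  have e1 : ∀ s : ℤ, (s = 1 ∨ s = -1) → ∀ x y : ℤ,
      x - s * ((s * (x - y)).toNat : ℤ) = y - s * ((s * (y - x)).toNat : ℤ) := by
    intro s hs x y
    rcases hs with rfl | rfl
    · rw [Int.toNat_eq_max, Int.toNat_eq_max]
      rcases le_total x y with h | h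
      · rw [max_eq_right (by linarith), max_eq_left (by linarith)]; ring
      · rw [max_eq_left (by linarith), max_eq_right (by linarith)]; ring
    · rw [Int.toNat_eq_max, Int.toNat_eq_max]
      rcases le_total x y with h | h
      · rw [max_eq_left (by linarith), max_eq_right (by linarith)]; ring
      · rw [max_eq_right (by linarith), max_eq_left (by linarith)]; ring
  rw [e1 s1 h1 v.1 v'.1, e1 s2 h2 v.2 v'.2] at k1
  exact tr _ _ _ k1 (sy _ _ k2)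

/-- the complement of a tile rectangle is connected -/
lemma tr_conn {x0 x1 y0 y1 : ℤ} (hT : TR Z x0 x1 y0 y1) (hodd : ∀ e ∈ Z, (e.1 + e.2) % 2 = 1)
    (ho : (o.1 + o.2) % 2 = 0)
    (tr : ∀ a b c, R a b → R b c → R a c) (rf : ∀ a, R a a) (sy : ∀ a b, R a b → R b a)
    (st : ∀ a b, IsUnit4 (b - a) → a + b - o ∉ Z → R a b) {v v' : ℤ × ℤ}
    (hv : ∃ y, IsUnit4 (y - v) ∧ v + y - o ∉ Z) (hv' : ∃ y, IsUnit4 (y - v') ∧ v' + y - o ∉ Z) :
    R v v' := by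
  have hL : ∀ e : ℤ × ℤ, 1 * e.1 + 1 * e.2 < 2 * x0 + 1 → e ∉ Z := by
    intro e h he
    have := ((hT e (hodd e he)).1 he).1
    linarith
  have hR : ∀ e : ℤ × ℤ, (-1) * e.1 + (-1) * e.2 < -(2 * x1 - 1) → e ∉ Z := by
    intro e h he
    have := ((hT e (hodd e he)).1 he).2.1
    linarith
  have hD : ∀ e : ℤ × ℤ, (-1) * e.1 + 1 * e.2 < 2 * y0 + 1 → e ∉ Z := by
    intro e h he
    have := ((hT e (hodd e he)).1 he).2.2.1
    linarith
  have hU : ∀ e : ℤ × ℤ, 1 * e.1 + (-1) * e.2 < -(2 * y1 - 1) → e ∉ Z := by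
    intro e h he
    have := ((hT e (hodd e he)).1 he).2.2.2
    linarith
  have p1 : (1:ℤ) = 1 ∨ (1:ℤ) = -1 := Or.inl rfl
  have p2 : (-1:ℤ) = 1 ∨ (-1:ℤ) = -1 := Or.inr rfl
  -- a far point
  obtain ⟨K, hK⟩ : ∃ K : ℤ, |x0| + |x1| + |y0| + |y1| + |o.1| + |o.2| ≤ K := ⟨_, le_rfl⟩
  have a1 := abs_le.1 (le_refl |x0|)
  have a2 := abs_le.1 (le_refl |x1|)
  have a3 := abs_le.1 (le_refl |y0|)
  have a4 := abs_le.1 (le_refl |y1|)
  have a5 := abs_le.1 (le_refl |o.1|)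
  have a6 := abs_le.1 (le_refl |o.2|)
  have n1 := abs_nonneg x0
  have n2 := abs_nonneg x1
  have n3 := abs_nonneg y0
  have n4 := abs_nonneg y1
  have n5 := abs_nonneg o.1
  have n6 := abs_nonneg o.2
  have key : ∀ v : ℤ × ℤ, (∃ y, IsUnit4 (y - v) ∧ v + y - o ∉ Z) → R v (0, -K - 1) := by
    rintro v ⟨y, hy, hyZ⟩
    have hyd : ∃ d : ℤ × ℤ, IsUnit4 d ∧ y = v + d := ⟨y - v, hy, by abel⟩
    obtain ⟨d, hd, rfl⟩ := hyd
    have hodd' : ((v + (v + d) - o).1 + (v + (v + d) - o).2) % 2 = 1 := by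
      simp only [Prod.fst_add, Prod.snd_add, Prod.fst_sub, Prod.snd_sub]
      rcases hd with rfl | rfl | rfl | rfl <;> simp only [] <;> omega
    have h4 : ¬ (2 * x0 + 1 ≤ (v + (v + d) - o).1 + (v + (v + d) - o).2 ∧
        (v + (v + d) - o).1 + (v + (v + d) - o).2 ≤ 2 * x1 - 1 ∧
        2 * y0 + 1 ≤ (v + (v + d) - o).2 - (v + (v + d) - o).1 ∧
        (v + (v + d) - o).2 - (v + (v + d) - o).1 ≤ 2 * y1 - 1) := fun h => hyZ ((hT _ hodd').2 h)
    simp only [Prod.fst_add, Prod.snd_add, Prod.fst_sub, Prod.snd_sub] at h4 hodd'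
    have hcase : 2 * (1 * v.1 + 1 * v.2) - (1 * o.1 + 1 * o.2) ≤ 2 * x0 + 1 ∨
        2 * ((-1) * v.1 + (-1) * v.2) - ((-1) * o.1 + (-1) * o.2) ≤ -(2 * x1 - 1) ∨
        2 * ((-1) * v.1 + 1 * v.2) - ((-1) * o.1 + 1 * o.2) ≤ 2 * y0 + 1 ∨
        2 * (1 * v.1 + (-1) * v.2) - (1 * o.1 + (-1) * o.2) ≤ -(2 * y1 - 1) := by
      by_contra hcon
      rw [not_or, not_or, not_or] at hcon
      obtain ⟨c1, c2, c3, c4⟩ := hcon
      apply h4
      rcases hd with rfl | rfl | rfl | rfl <;> simp only [] at hodd' ⊢ <;>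
        refine ⟨?_, ?_, ?_, ?_⟩ <;> omega
    rcases hcase with h | h | h | h
    · exact hp_conn tr rf sy st p1 p1 hL h (by simp only; omega)
    · refine tr _ (K + 1, 0) _ (hp_conn tr rf sy st p2 p2 hR h (by simp only; omega)) ?_
      exact hp_conn tr rf sy st p2 p1 hD (by simp only; omega) (by simp only; omega)
    · exact hp_conn tr rf sy st p2 p1 hD h (by simp only; omega)
    · refine tr _ (-K - 1, 0) _ (hp_conn tr rf sy st p1 p2 hU h (by simp only; omega)) ?_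
      exact hp_conn tr rf sy st p1 p1 hL (by simp only; omega) (by simp only; omega)
  exact tr _ _ _ (key v hv) (sy _ _ (key v' hv'))

end conn

variable {Z : Finset (ℤ × ℤ)} {x0 x1 y0 y1 : ℤ}

theorem TR.zf (hT : TR Z x0 x1 y0 y1) (hodd : ∀ e ∈ Z, (e.1 + e.2) % 2 = 1) : ZF Z := by
  intro a b ha hb
  exact tr_conn (R := DCo Z) (o := (1, 1)) hT hodd (by norm_num) (fun _ _ _ => DCo.trans)
    (fun a => DCo.refl _ a) (fun _ _ => DCo.symm) (fun _ _ h1 h2 => DCo.step h1 h2) ha hb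

theorem TR.zv (hT : TR Z x0 x1 y0 y1) (hodd : ∀ e ∈ Z, (e.1 + e.2) % 2 = 1) : ZV Z := by
  classical
  intro a b ha hb
  refine tr_conn (R := fun a b => ∃ N, Co N a b ∧ Disjoint N Z) (o := (0, 0)) hT hodd (by norm_num)
    ?_ (fun a => ⟨∅, Co.refl _ _, disjoint_empty_left _⟩)
    (fun a b ⟨N, h1, h2⟩ => ⟨N, h1.symm, h2⟩) ?_ ?_ ?_
  · rintro a b c ⟨N, h1, h2⟩ ⟨N', h3, h4⟩
    refine ⟨N ∪ N', (h1.mono subset_union_left).trans (h3.mono subset_union_right), ?_⟩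
    rw [disjoint_union_left]
    exact ⟨h2, h4⟩
  · intro a b h1 h2
    refine ⟨{a + b}, Relation.ReflTransGen.single ⟨h1, mem_singleton_self _⟩, ?_⟩
    rw [disjoint_singleton_left]
    rwa [show ((0, 0) : ℤ × ℤ) = 0 from rfl, sub_zero] at h2
  · obtain ⟨y, h1, h2⟩ := ha
    exact ⟨y, h1, by rwa [show ((0, 0) : ℤ × ℤ) = 0 from rfl, sub_zero]⟩
  · obtain ⟨y, h1, h2⟩ := hb
    exact ⟨y, h1, by rwa [show ((0, 0) : ℤ × ℤ) = 0 from rfl, sub_zero]⟩

end H80.W
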