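import Mathlib
import Pool.Agent.H71.W.J6C
import Pool.Agent.H73.W.JCut
import Pool.Agent.H50.W.JCell
import Pool.Agent.H35.W.Force

set_option autoImplicit false
set_option linter.unusedSectionVars false
open Finset

/-! # (C6) (J5) (c), XP: the two worlds, bookkeeping of the labels

Side `s = true` (upper bank), `n = 2 h`; tile `(x, y) = (cx e, cy e)`.
* `XA b h M bse o x1 a0 v` : world of the moving end `v`, two rows `0`, `1` deleted left of `x1` (inside the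
  solid plates), string of `v`; left of `a0` the plates have one more row on their top.
* `XB b h M bse o x1` : the world `GP` with the mark on the bank of `P` at `x1`, last row below the ceiling
  forced to the colour of the layer.
* `XS` : the part of the world above the mark, which goes one row down (its states flip); `XBl` : the block.
* `XPH` : numerical hypotheses. `XPH.lm` : bookkeeping of the labels (`LMove`). `XPH.st_DN` .. : states. -/

namespace Pool.Agent.H80.W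

open Pool.Agent.H61.W Pool.Agent.H6.W Pool.Agent.H58.W Pool.Agent.H21.W Pool.Agent.H50.W
open Pool.Agent.H82.W Pool.Agent.H13.W Pool.Agent.H71.W
open Pool.Agent.H73.W (LamT)
open Pool.Agent.H19.W (cx cy lt_cc cx_lt cy_lt cx_up cy_up cx_dn cy_dn tile_ext odd_dn odd_up)
open Pool.Agent.H33.Q1 (lt tt TL ct mem_TL lt_odd)

variable {δ σ : ℝ} {b : JBox} {h : ℕ} {M : Finset (Bool × ℕ)} {bse o : Bool}
  {x1 a0 a1 y1 : ℤ} {v : ℤ × ℤ}

/-- the plates left of `a0` with one more row on their top -/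
def lch (b : JBox) (n a0 x y : ℤ) : Option ℕ :=
  if x < a0 ∧ x < 0 ∧ y = ((b.τ : ℤ) + pin b n x) * n then some (pin b n x)
  else chn 0 b.M b.τ (x / n, y / n)

lemma lch_some {n x y : ℤ} (hM : 0 < b.M) (hn : 0 < n) {i : ℕ} : lch b n a0 x y = some i ↔
    (-((i + 1) * b.M * n : ℤ) ≤ x ∧ x < -(i * b.M * n : ℤ)) ∧ -(((b.τ : ℤ) + i) * n) ≤ y ∧
      (y < ((b.τ : ℤ) + i) * n ∨ (x < a0 ∧ y = ((b.τ : ℤ) + i) * n)) := by
  unfold lch
  split_ifs with h
  · obtain ⟨h1, h2, h3⟩ := h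
    rw [Option.some.injEq]
    constructor
    · intro h4
      have h5 := (pin_eq hM hn h2).1 h4
      rw [h4] at h3
      refine ⟨h5, ?_, Or.inr ⟨h1, h3⟩⟩
      rw [h3]
      have : (0 : ℤ) ≤ ((b.τ : ℤ) + i) * n := by positivity
      linarith
    · rintro ⟨h4, -⟩
      exact (pin_eq hM hn h2).2 h4
  · rw [chn_tile hM hn]
    constructor
    · rintro ⟨h1, h2, h3⟩
      exact ⟨h1, h2, Or.inl h3⟩
    · rintro ⟨h1, h2, h3 | ⟨h3, h4⟩⟩
      · exact ⟨h1, h2, h3⟩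
      · exfalso
        have h5 := plate_neg (b := b) hn h1.2
        rw [← (pin_eq hM hn h5).2 h1] at h4
        exact h ⟨h3, h5, h4⟩

/-- the plate of a label in the world `XA` -/
def lpl (b : JBox) (n a0 : ℤ) (e : ℤ × ℤ) : Option ℕ := lch b n a0 (cx e) (cy e)

lemma lpl_some {n : ℤ} {e : ℤ × ℤ} (hM : 0 < b.M) (hn : 0 < n) {i : ℕ} : lpl b n a0 e = some i ↔
    (-((i + 1) * b.M * n : ℤ) ≤ cx e ∧ cx e < -(i * b.M * n : ℤ)) ∧ -(((b.τ : ℤ) + i) * n) ≤ cy e ∧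
      (cy e < ((b.τ : ℤ) + i) * n ∨ (cx e < a0 ∧ cy e = ((b.τ : ℤ) + i) * n)) := lch_some hM hn

/-- last row below the ceiling -/
def CrR (b : JBox) (n : ℤ) (e : ℤ × ℤ) : Prop := 0 ≤ cy e ∧ ¬ InQ b n (cx e) (cy e + 1)

open Classical in
/-- **World of the moving end.** -/
noncomputable def XA (b : JBox) (h : ℕ) (M : Finset (Bool × ℕ)) (bse o : Bool) (x1 a0 : ℤ)
    (v : ℤ × ℤ) : WD ((ℤ × ℤ) ⊕ ℕ) where
  Λ := LamT b (2 * h) M
  D := lt '' (strD v ∪ {p | (p.2 = 0 ∨ p.2 = 1) ∧ p.1 < x1})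
  E := (b.B h).filter fun e => ¬ ∃ i < b.m, lpl b (2 * h) a0 e = some i
  b := blk (lpl b (2 * h) a0)
  F := ∅
  W := Wl b (2 * h) (colM bse M (some v.2)) ∪
    (b.B h).filter fun e => (∃ i < b.m, lpl b (2 * h) a0 e = some i) ∧ o = true

open Classical in
/-- **World of the mark on the bank.** -/
noncomputable def XB (b : JBox) (h : ℕ) (M : Finset (Bool × ℕ)) (bse o : Bool) (x1 : ℤ) :
    WD ((ℤ × ℤ) ⊕ ℕ) where
  Λ := Lam b (2 * h) M
  D := lt '' slD true x1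
  E := (b.B h).filter fun e => (¬ ∃ i < b.m, cpl b (2 * h) e = some i) ∧ ¬ CrR b (2 * h) e
  b := blk (cpl b (2 * h))
  F := (b.B h).filter fun e => (∃ i, b.m ≤ i ∧ cpl b (2 * h) e = some i) ∧ cx e < x1 ∧ 0 < cy e
  W := Wl b (2 * h) (colM (!bse) M none) ∪
    ((b.B h).filter (fun e => (∃ i < b.m, cpl b (2 * h) e = some i) ∧
      Xor (o = true) (cx e < x1 ∧ 0 < cy e)) ∪
    (b.B h).filter (fun e => CrR b (2 * h) e ∧
      lcol b (2 * h) (colM (!bse) M none) (cx e) (cy e + 1) = true))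

/-- the moved part -/
def XS (a0 a1 y1 r0 : ℤ) : Set (ℤ × ℤ) :=
  {e | (cx e < a0 ∧ 2 ≤ cy e) ∨ (a1 < cx e ∧ r0 < cy e) ∨ ((a0 ≤ cx e ∧ cx e ≤ a1) ∧ y1 < cy e)}

/-- the block -/
def XBl (a0 a1 y1 : ℤ) : Set (ℤ × ℤ) :=
  {e | (a0 ≤ cx e ∧ cx e ≤ a1) ∧ (1 ≤ cy e ∧ cy e ≤ y1)}

open Classical in
/-- the move of the labels -/
noncomputable def mvd (S : Set (ℤ × ℤ)) (e : ℤ × ℤ) : ℤ × ℤ := if e ∈ S then dn e else e

lemma mvd_in {S : Set (ℤ × ℤ)} {e : ℤ × ℤ} (h : e ∈ S) : mvd S e = dn e := if_pos h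
lemma mvd_out {S : Set (ℤ × ℤ)} {e : ℤ × ℤ} (h : e ∉ S) : mvd S e = e := if_neg h

lemma dn_inj' {a c : ℤ × ℤ} (h : dn a = dn c) : a = c := by
  unfold dn at h
  simp only [Prod.mk.injEq] at h
  exact Prod.ext (by omega) (by omega)

/-- **Numerical hypotheses.** -/
structure XPH (δ σ : ℝ) (b : JBox) (h : ℕ) (x1 a0 a1 y1 : ℤ) (v : ℤ × ℤ) : Prop where
  ok : b.Ok δ σ
  hh : 0 < h
  /-- thickness -/
  thk : (b.τ : ℤ) + nP b < b.H
  mn : b.m ≤ nP b
  /-- the block lies over the chunk `P` -/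
  am : -(b.m * b.M * (2 * h) : ℤ) ≤ a0
  a0x : a0 < x1
  xa1 : x1 < a1
  a0v : a0 < v.1
  va1 : v.1 < a1
  a10 : a1 < 0
  /-- the block is higher than the plates -/
  yb : ((b.τ : ℤ) + nP b) * (2 * h) < y1
  yH : y1 + 1 < b.H * (2 * h)
  vy : v.2 < y1
  /-- the moving end is above the slit -/
  vt : ∀ i : ℕ, v.1 < -(i * b.M * (2 * h) : ℤ) → i < nP b → ((b.τ : ℤ) + i) * (2 * h) ≤ v.2

open Classical in
/-- outside labels of the world `XA` -/
noncomputable def XO1 (b : JBox) (h : ℕ) (x1 a0 a1 y1 : ℤ) (v : ℤ × ℤ) : Finset (ℤ × ℤ) :=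
  (b.B h).filter fun e => (¬ ∃ i < b.m, lpl b (2 * h) a0 e = some i) ∧ e ∉ XBl a0 a1 y1 ∧
    ¬ (cy e = v.2 ∧ v.1 ≤ cx e) ∧ ¬ ((cy e = 0 ∨ cy e = 1) ∧ cx e < x1)

/-- their images -/
noncomputable def XO2 (b : JBox) (h : ℕ) (x1 a0 a1 y1 : ℤ) (v : ℤ × ℤ) : Finset (ℤ × ℤ) :=
  (XO1 b h x1 a0 a1 y1 v).image (mvd (XS a0 a1 y1 v.2))

lemma mem_XAD {e : ℤ × ℤ} (ho : (e.1 + e.2) % 2 = 1) : e ∈ (XA b h M bse o x1 a0 v).D ↔
    (cy e = v.2 ∧ v.1 ≤ cx e) ∨ ((cy e = 0 ∨ cy e = 1) ∧ cx e < x1) := by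
  show e ∈ lt '' (strD v ∪ _) ↔ _
  rw [Set.image_union, Set.mem_union, mem_strD ho]
  refine or_congr Iff.rfl ?_
  constructor
  · rintro ⟨p, hp, rfl⟩
    rw [cx_lt, cy_lt]
    exact hp
  · intro h
    exact ⟨(cx e, cy e), h, lt_cc ho⟩

lemma mem_XBD {e : ℤ × ℤ} (ho : (e.1 + e.2) % 2 = 1) : e ∈ (XB b h M bse o x1).D ↔
    (cy e = 0 ∧ cx e < x1) := by
  show e ∈ lt '' slD true x1 ↔ _
  constructor
  · rintro ⟨p, hp, rfl⟩
    rw [cx_lt, cy_lt]
    exact hp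
  · intro h
    exact ⟨(cx e, cy e), h, lt_cc ho⟩

namespace XPH

variable (U : XPH δ σ b h x1 a0 a1 y1 v)
include U

lemma hn : (0 : ℤ) < 2 * h := by
  have := U.hh
  positivity

lemma hM : 0 < b.M := U.ok.M0

lemma tau0 : (2 : ℤ) * h ≤ b.τ * (2 * h : ℤ) := by
  have h1 : (1 : ℤ) ≤ b.τ := by exact_mod_cast U.ok.τ0
  have := mul_le_mul_of_nonneg_right h1 U.hn.le
  linarith

lemma tau_le (i : ℕ) : (b.τ * (2 * h) : ℤ) ≤ ((b.τ : ℤ) + i) * (2 * h) := by
  have : (0 : ℤ) ≤ i * (2 * h : ℤ) := by positivity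
  linarith

lemma two_le (i : ℕ) : (2 : ℤ) ≤ ((b.τ : ℤ) + i) * (2 * h) := by
  have h1 := U.tau_le i
  have h2 := U.tau0
  have h3 : (1 : ℤ) ≤ h := by exact_mod_cast U.hh
  linarith

lemma v2 : (0 : ℤ) < v.2 := by
  have h1 := U.va1
  have h2 := U.a10
  have hXp : (0 : ℤ) < b.X := by exact_mod_cast X_pos U.ok
  have hP : 0 < nP b := nP_pos U.ok
  have := U.vt 0 (by simp only [CharP.cast_eq_zero, zero_mul, neg_zero]; linarith) hP
  have h3 := U.two_le 0
  linarith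

/-- tops of the plates -/
lemma tauY {i : ℕ} (hi : i < nP b) : ((b.τ : ℤ) + i) * (2 * h) < y1 ∧
    ((b.τ : ℤ) + i) * (2 * h) < b.H * (2 * h : ℤ) := by
  have h1 := U.yb
  have h2 := U.yH
  have h3 : (i : ℤ) < nP b := by exact_mod_cast hi
  have : ((b.τ : ℤ) + i) * (2 * h) ≤ ((b.τ : ℤ) + nP b) * (2 * h) :=
    mul_le_mul_of_nonneg_right (by linarith) U.hn.le
  constructor <;> linarith

/-- going down inside the box -/
lemma down {x y : ℤ} (hQ : InQ b (2 * h) x y) (hy : 1 ≤ y) : InQ b (2 * h) x (y - 1) := by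
  have g := Pool.Agent.H50.W.JC.geo_of_ok U.ok (d_pos U.ok)
  unfold InQ at hQ ⊢
  rw [g.mem_Q] at hQ ⊢
  simp only at hQ ⊢
  have hn := U.hn
  have h1 : (y - 1) / (2 * h) ≤ y / (2 * h : ℤ) := Int.ediv_le_ediv hn (by linarith)
  have h2 : 0 ≤ (y - 1) / (2 * h : ℤ) := Int.ediv_nonneg (by linarith) hn.le
  have h3 := Pool.Agent.H50.W.JC.Geo.ks_nonneg (b := b) (x / (2 * h : ℤ))
  exact ⟨hQ.1, by linarith, by linarith⟩

/-- rows of the ceiling -/
lemma ceil {x y : ℤ} (hQ : InQ b (2 * h) x y) (hy : 0 ≤ y) (hC : ¬ InQ b (2 * h) x (y + 1)) :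
    b.H * (2 * h : ℤ) ≤ y + 1 := by
  by_contra hc
  apply hC
  have hcol := InQ_col U.ok U.hn hQ
  have : (0 : ℤ) ≤ b.H * (2 * h : ℤ) := by positivity
  rw [InQ_band U.ok U.hn (by linarith) (by linarith)]
  exact hcol

lemma mem_XO1 {e : ℤ × ℤ} : e ∈ XO1 b h x1 a0 a1 y1 v ↔
    e ∈ b.B h ∧ (¬ ∃ i < b.m, lpl b (2 * h) a0 e = some i) ∧ e ∉ XBl a0 a1 y1 ∧
      e ∉ (XA b h M bse o x1 a0 v).D := by
  classical
  unfold XO1
  rw [mem_filter]
  constructor
  · rintro ⟨g1, g2, g3, g4, g5⟩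
    refine ⟨g1, g2, g3, ?_⟩
    rw [mem_XAD ((mem_B U.hh).1 g1).1]
    tauto
  · rintro ⟨g1, g2, g3, g4⟩
    rw [mem_XAD ((mem_B U.hh).1 g1).1] at g4
    exact ⟨g1, g2, g3, by tauto, by tauto⟩

/-- the image of an outside label is in the box -/
lemma mvd_B {e : ℤ × ℤ} (he : e ∈ b.B h) : mvd (XS a0 a1 y1 v.2) e ∈ b.B h := by
  by_cases hS : e ∈ XS a0 a1 y1 v.2
  · rw [mvd_in hS]
    obtain ⟨h1, h2⟩ := (mem_B U.hh).1 he
    have hy : 1 ≤ cy e := by
      have := U.v2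
      have := U.yb
      have := U.two_le (nP b)
      rcases hS with g | g | g <;> linarith [g.2]
    rw [mem_B U.hh, odd_dn, cx_dn, cy_dn]
    exact ⟨h1, U.down h2 hy⟩
  · rw [mvd_out hS]
    exact he

/-- plates of an outside label and of its image -/
lemma cpl_mvd {e : ℤ × ℤ} (he : e ∈ b.B h) :
    cpl b (2 * h) (mvd (XS a0 a1 y1 v.2) e) = lpl b (2 * h) a0 e := by
  have he' := (mem_B U.hh).1 he
  have ho := he'.1
  have hcol := InQ_col U.ok U.hn he'.2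
  have hn := U.hn
  have key : ∀ i, cpl b (2 * h) (mvd (XS a0 a1 y1 v.2) e) = some i ↔ lpl b (2 * h) a0 e = some i := by
    intro i
    have g0 := U.two_le i
    have hpl : cx e < -(i * b.M * (2 * h) : ℤ) → i < nP b := fun h1 => plate_lt U.ok hn hcol.1 h1
    by_cases hS : e ∈ XS a0 a1 y1 v.2
    · rw [mvd_in hS, lpl_some U.hM hn, cpl_some U.hM hn, cx_dn, cy_dn]
      rcases hS with ⟨a1', a2'⟩ | ⟨a1', a2'⟩ | ⟨⟨a1', a2'⟩, a3'⟩
      · constructor
        · rintro ⟨g1, g2, g3⟩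
          refine ⟨g1, by linarith, ?_⟩
          rcases (show cy e ≤ ((b.τ : ℤ) + i) * (2 * h) by linarith).lt_or_eq with g4 | g4
          · exact Or.inl g4
          · exact Or.inr ⟨a1', g4⟩
        · rintro ⟨g1, g2, g3⟩
          refine ⟨g1, by linarith, ?_⟩
          rcases g3 with g3 | ⟨-, g3⟩ <;> linarith
      · -- right of the block
        have hv := U.va1
        constructor
        · rintro ⟨g1, g2, g3⟩
          have := U.vt i (by linarith) (hpl g1.2)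
          linarith
        · rintro ⟨g1, g2, g3⟩
          have := U.vt i (by linarith) (hpl g1.2)
          rcases g3 with g3 | ⟨-, g3⟩ <;> linarith
      · constructor
        · rintro ⟨g1, g2, g3⟩
          have := U.tauY (hpl g1.2)
          linarith [this.1]
        · rintro ⟨g1, g2, g3⟩
          have := U.tauY (hpl g1.2)
          rcases g3 with g3 | ⟨-, g3⟩ <;> linarith [this.1]
    · rw [mvd_out hS, lpl_some U.hM hn, cpl_some U.hM hn]
      constructor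
      · rintro ⟨g1, g2, g3⟩
        exact ⟨g1, g2, Or.inl g3⟩
      · rintro ⟨g1, g2, g3⟩
        refine ⟨g1, g2, ?_⟩
        rcases g3 with g3 | ⟨g3, g4⟩
        · exact g3
        · exact absurd (Or.inl ⟨g3, by linarith⟩) hS
  rcases hc : lpl b (2 * h) a0 e with _ | i
  · rcases hr : cpl b (2 * h) (mvd (XS a0 a1 y1 v.2) e) with _ | i
    · rfl
    · rw [key i, hc] at hr
      exact absurd hr (by simp)
  · exact (key i).2 hc

/-- the map is injective on the outside labels -/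
lemma mvd_inj {e e' : ℤ × ℤ} (ho : (e.1 + e.2) % 2 = 1) (ho' : (e'.1 + e'.2) % 2 = 1)
    (hB : e ∉ XBl a0 a1 y1) (hB' : e' ∉ XBl a0 a1 y1)
    (hD : e ∉ (XA b h M bse o x1 a0 v).D) (hD' : e' ∉ (XA b h M bse o x1 a0 v).D)
    (hm : mvd (XS a0 a1 y1 v.2) e = mvd (XS a0 a1 y1 v.2) e') : e = e' := by
  have key : ∀ {e e' : ℤ × ℤ}, (e'.1 + e'.2) % 2 = 1 → e' ∉ XBl a0 a1 y1 →
      e' ∉ (XA b h M bse o x1 a0 v).D →
      e ∈ XS a0 a1 y1 v.2 → e' ∉ XS a0 a1 y1 v.2 → dn e = e' → False := by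
    intro e e' ho' hB' hD' hS hS' hm
    have c1 : cx e' = cx e := by rw [← hm, cx_dn]
    have c2 : cy e' = cy e - 1 := by rw [← hm, cy_dn]
    rw [mem_XAD ho'] at hD'
    have k1 := U.a0x
    have k2 := U.va1
    have k3 := U.yb
    have k4 := U.two_le (nP b)
    rcases hS with ⟨g1, g2⟩ | ⟨g1, g2⟩ | ⟨⟨g1, g2⟩, g3⟩
    · by_cases g : 2 ≤ cy e'
      · exact hS' (Or.inl ⟨by linarith, g⟩)
      · exact hD' (Or.inr ⟨Or.inr (by linarith), by linarith⟩)
    · by_cases g : v.2 < cy e'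
      · exact hS' (Or.inr (Or.inl ⟨by linarith, g⟩))
      · exact hD' (Or.inl ⟨by linarith, by linarith⟩)
    · by_cases g : y1 < cy e'
      · exact hS' (Or.inr (Or.inr ⟨⟨by linarith, by linarith⟩, g⟩))
      · exact hB' ⟨⟨by linarith, by linarith⟩, by linarith, by linarith⟩
  by_cases hS : e ∈ XS a0 a1 y1 v.2 <;> by_cases hS' : e' ∈ XS a0 a1 y1 v.2
  · rw [mvd_in hS, mvd_in hS'] at hm
    exact dn_inj' hm
  · rw [mvd_in hS, mvd_out hS'] at hm
    exact (key ho' hB' hD' hS hS' hm).elim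
  · rw [mvd_out hS, mvd_in hS'] at hm
    exact (key ho hB hD hS' hS hm.symm).elim
  · rwa [mvd_out hS, mvd_out hS'] at hm

/-- the image is not in the forced row -/
lemma not_CrR {e : ℤ × ℤ} (he : e ∈ b.B h) :
    ¬ CrR b (2 * h) (mvd (XS a0 a1 y1 v.2) e) := by
  obtain ⟨h1, h2⟩ := (mem_B U.hh).1 he
  by_cases hS : e ∈ XS a0 a1 y1 v.2
  · rw [mvd_in hS]
    rintro ⟨-, h3⟩
    rw [cx_dn, cy_dn, sub_add_cancel] at h3
    exact h3 h2
  · rw [mvd_out hS]
    rintro ⟨h3, h4⟩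
    have h5 := U.ceil h2 h3 h4
    have k1 := U.yH
    have k2 := U.yb
    have k3 := U.two_le (nP b)
    have k4 := U.vy
    apply hS
    rcases lt_or_ge (cx e) a0 with g | g
    · exact Or.inl ⟨g, by linarith⟩
    · rcases lt_or_ge a1 (cx e) with g' | g'
      · exact Or.inr (Or.inl ⟨g', by linarith⟩)
      · exact Or.inr (Or.inr ⟨⟨g, g'⟩, by linarith⟩)

/-- **Bookkeeping of the labels.** -/
theorem lm : LMove (XA b h M bse o x1 a0 v) (XB b h M bse o x1) (mvd (XS a0 a1 y1 v.2))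
    (XS a0 a1 y1 v.2) (XO1 b h x1 a0 a1 y1 v) (XO2 b h x1 a0 a1 y1 v) := by
  classical
  have hO : ∀ e, e ∈ XO1 b h x1 a0 a1 y1 v ↔ _ :=
    fun e => U.mem_XO1 (M := M) (bse := bse) (o := o) (e := e)
  have hE2 : ∀ e ∈ XO1 b h x1 a0 a1 y1 v, mvd (XS a0 a1 y1 v.2) e ∈ (XB b h M bse o x1).E := by
    intro e he
    obtain ⟨g1, g2, g3, g4⟩ := (hO e).1 he
    show _ ∈ (b.B h).filter _
    rw [mem_filter]
    refine ⟨U.mvd_B g1, ?_, U.not_CrR g1⟩
    rw [U.cpl_mvd g1]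
    exact g2
  constructor
  · intro e he
    obtain ⟨g1, g2, -, -⟩ := (hO e).1 he
    exact mem_filter.2 ⟨g1, g2⟩
  · intro e he
    unfold XO2 at he
    rw [mem_image] at he
    obtain ⟨e', he', rfl⟩ := he
    exact hE2 e' he'
  · rfl
  · intro e he e' he' hm
    obtain ⟨g1, -, g3, g4⟩ := (hO e).1 he
    obtain ⟨k1, -, k3, k4⟩ := (hO e').1 he'
    exact U.mvd_inj ((mem_B U.hh).1 g1).1 ((mem_B U.hh).1 k1).1 g3 k3 g4 k4 hm
  · intro e he e' he'
    obtain ⟨g1, -, g3, g4⟩ := (hO e).1 he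
    obtain ⟨k1, -, k3, k4⟩ := (hO e').1 he'
    show blk (lpl b (2 * h) a0) e = blk (lpl b (2 * h) a0) e' ↔ blk (cpl b (2 * h)) _ =
      blk (cpl b (2 * h)) _
    rw [blk_eq_iff, blk_eq_iff, U.cpl_mvd g1, U.cpl_mvd k1]
    refine or_congr ⟨fun hm => by rw [hm], fun hm => ?_⟩ Iff.rfl
    exact U.mvd_inj ((mem_B U.hh).1 g1).1 ((mem_B U.hh).1 k1).1 g3 k3 g4 k4 hm
  · intro e he e' he' hm hf
    obtain ⟨g1, g2, g3, g4⟩ := (hO e).1 he
    rcases hc : lpl b (2 * h) a0 e with _ | i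
    · have hm' : blk (lpl b (2 * h) a0) e = blk (lpl b (2 * h) a0) e' := hm
      rw [blk_eq_iff] at hm'
      rcases hm' with h1 | ⟨h1, -⟩
      · exact h1 ▸ hf
      · exact absurd hc h1
    · exfalso
      have hmi : b.m ≤ i := by
        by_contra hlt
        exact g2 ⟨i, not_le.1 hlt, hc⟩
      unfold fl at hf
      rw [mem_filter] at hf
      have e1 : e ∉ (XA b h M bse o x1 a0 v).F := by
        show e ∉ (∅ : Finset (ℤ × ℤ))
        exact notMem_empty e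
      have hcp := U.cpl_mvd g1
      rw [hc] at hcp
      have e2 : mvd (XS a0 a1 y1 v.2) e ∈ (XB b h M bse o x1).F ↔
          (cx (mvd (XS a0 a1 y1 v.2) e) < x1 ∧ 0 < cy (mvd (XS a0 a1 y1 v.2) e)) := by
        show _ ∈ (b.B h).filter _ ↔ _
        rw [mem_filter]
        exact ⟨fun g => g.2.2, fun g => ⟨U.mvd_B g1, ⟨i, hmi, hcp⟩, g⟩⟩
      rw [e2] at hf
      have hf2 := hf.2
      -- columns of the plate `i` are left of the block
      rw [lpl_some U.hM U.hn] at hc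
      have hx : cx e < a0 := by
        have h2 : (b.m : ℤ) * b.M * (2 * h) ≤ i * b.M * (2 * h) := by
          have : (b.m : ℤ) ≤ i := by exact_mod_cast hmi
          have hn := U.hn
          gcongr
        linarith [hc.1.2, U.am]
      have hx1 := U.a0x
      by_cases hS : e ∈ XS a0 a1 y1 v.2
      · rw [mvd_in hS, cx_dn, cy_dn] at hf2
        have hy : 2 ≤ cy e := by
          rcases hS with g | g | g
          · exact g.2
          · have := U.xa1; linarith [g.1]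
          · linarith [g.1.1]
        have q1 : cx e < x1 ∧ 0 < cy e - 1 := ⟨by linarith, by linarith⟩
        simp [hS, e1, q1, Xor] at hf2
        linarith
      · rw [mvd_out hS] at hf2
        have q1 : ¬ (cx e < x1 ∧ 0 < cy e) := by
          rintro ⟨-, q⟩
          by_cases q' : 2 ≤ cy e
          · exact hS (Or.inl ⟨hx, q'⟩)
          · rw [mem_XAD ((mem_B U.hh).1 g1).1] at g4
            exact g4 (Or.inr ⟨Or.inr (by linarith), by linarith⟩)
        simp [hS, e1, q1, Xor] at hf2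
  · intro e he hW
    obtain ⟨g1, g2, -, -⟩ := (hO e).1 he
    have hW' : e ∈ Wl b (2 * h) (colM bse M (some v.2)) ∪ _ := hW
    rw [mem_union] at hW'
    rcases hW' with h1 | h1
    · exact Wl_notMem h1 U.hh g1
    · rw [mem_filter] at h1
      exact g2 h1.2.1
  · intro e he hW
    unfold XO2 at he
    rw [mem_image] at he
    obtain ⟨e', he', rfl⟩ := he
    have h2 := hE2 e' he'
    have h2' : _ ∈ (b.B h).filter _ := h2
    rw [mem_filter] at h2'
    have hW' : mvd (XS a0 a1 y1 v.2) e' ∈ Wl b (2 * h) (colM (!bse) M none) ∪ _ := hW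
    rw [mem_union, mem_union, mem_filter, mem_filter] at hW'
    rcases hW' with h1 | h1 | h1
    · exact Wl_notMem h1 U.hh h2'.1
    · exact h2'.2.1 h1.2.1
    · exact h2'.2.2 h1.2.1

end XPH

end Pool.Agent.H80.W
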