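import Mathlib
import Pool.Agent.H80.W.XPDef

set_option autoImplicit false
set_option linter.unusedSectionVars false
open Finset

/-! # (C6) (J5) (c), XP: states of the tiles, laws

`XPH.st_lay1`, `st_lay2`, `st_F`, `st_DN`, `st_PL` : states of the tiles of two corresponding configurations.
`law_A`, `law_B` : the two worlds are `GX` with the first row of the room above the plates left of `a0` forced,
and `GP` with the last row below the ceiling forced. -/

namespace Pool.Agent.H80.W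

open Pool.Agent.H61.W Pool.Agent.H6.W Pool.Agent.H58.W Pool.Agent.H21.W Pool.Agent.H50.W
open Pool.Agent.H82.W Pool.Agent.H13.W Pool.Agent.H71.W
open Pool.Agent.H35.W (Force mem_Force)
open Pool.Agent.H73.W (LamT)
open Pool.Agent.H19.W (cx cy lt_cc cx_lt cy_lt cx_up cy_up cx_dn cy_dn tile_ext odd_dn odd_up)
open Pool.Agent.H33.Q1 (lt tt TL ct mem_TL lt_odd)

variable {δ σ : ℝ} {b : JBox} {h : ℕ} {M : Finset (Bool × ℕ)} {bse o : Bool}
  {x1 a0 a1 y1 : ℤ} {v : ℤ × ℤ}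

section states

variable (U : XPH δ σ b h x1 a0 a1 y1 v)
include U

omit U in
lemma mem_Astate {ω : Finset (ℤ × ℤ)} {e : ℤ × ℤ} : e ∈ (XA b h M bse o x1 a0 v).st ω ↔
    e ∈ ω ∨ e ∈ (XA b h M bse o x1 a0 v).W := by
  have hF : (XA b h M bse o x1 a0 v).F = ∅ := rfl
  unfold WD.st
  rw [hF, mem_union, mem_symmDiff]
  simp

/-- states of the solid plates, world `XA` -/
lemma st_PA {ω : Finset (ℤ × ℤ)} (hω : ω ⊆ (XA b h M bse o x1 a0 v).E) {e : ℤ × ℤ} (he : e ∈ b.B h)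
    (hi : ∃ i < b.m, lpl b (2 * h) a0 e = some i) : e ∈ (XA b h M bse o x1 a0 v).st ω ↔ o = true := by
  classical
  rw [mem_Astate]
  have h1 : e ∉ ω := fun h1 => (mem_filter.1 (show e ∈ (b.B h).filter _ from hω h1)).2 hi
  have h2 : e ∈ (XA b h M bse o x1 a0 v).W ↔ o = true := by
    show e ∈ Wl b (2 * h) (colM bse M (some v.2)) ∪ (b.B h).filter _ ↔ _
    rw [mem_union, mem_filter]
    constructor
    · rintro (g | g)
      · exact absurd he (Wl_notMem g U.hh)
      · exact g.2.2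
    · exact fun g => Or.inr ⟨he, hi, g⟩
  rw [h2]
  tauto

/-- states of the solid plates, world `XB` -/
lemma st_PB {ω : Finset (ℤ × ℤ)} (hω : ω ⊆ (XB b h M bse o x1).E) {e : ℤ × ℤ} (he : e ∈ b.B h)
    (hi : ∃ i < b.m, cpl b (2 * h) e = some i) (hC : ¬ CrR b (2 * h) e) :
    e ∈ (XB b h M bse o x1).st ω ↔ Xor (o = true) (cx e < x1 ∧ 0 < cy e) := by
  classical
  have h1 : e ∉ ω := fun h1 => (mem_filter.1 (show e ∈ (b.B h).filter _ from hω h1)).2.1 hi
  have h3 : e ∉ (XB b h M bse o x1).F := by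
    intro g
    have g' : e ∈ (b.B h).filter _ := g
    rw [mem_filter] at g'
    obtain ⟨i, hi1, hi2⟩ := hi
    obtain ⟨-, ⟨j, hj1, hj2⟩, -⟩ := g'
    rw [hi2, Option.some.injEq] at hj2
    omega
  rw [WD.mem_st' h1 h3]
  show e ∈ Wl b (2 * h) (colM (!bse) M none) ∪ ((b.B h).filter _ ∪ (b.B h).filter _) ↔ _
  rw [mem_union, mem_union, mem_filter, mem_filter]
  constructor
  · rintro (g | g | g)
    · exact absurd he (Wl_notMem g U.hh)
    · exact g.2.2
    · exact absurd g.2.1 hC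
  · exact fun g => Or.inr (Or.inl ⟨he, hi, g⟩)

omit U in
/-- tiles near the box are in the window of `Wl` -/
lemma st_win (hb : b.Ok δ σ) (hh : 0 < h) {cl : Cl} {x y : ℤ} (hQ : ¬ InQ b (2 * h) x y)
    (hL : ∃ i j : ℤ, |i| ≤ 3 ∧ |j| ≤ 3 ∧ InQ b (2 * h) (x + i) (y + j)) :
    lt (x, y) ∈ Wl b (2 * h) cl ↔ lcol b (2 * h) cl x y = true := by
  have hn : (0 : ℤ) < 2 * h := by positivity
  have h1 : Ly b (2 * h) x y := ⟨hQ, hL⟩
  have h2 := Ly_col hb hn h1
  have h3 := Ly_row hb hn h1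
  have := Pool.Agent.H71.W.mem_Wl hb hh (cl := cl) (e := lt (x, y)) (lt_odd _) (by rwa [cx_lt, cy_lt])
    (by rw [cx_lt]; exact h2.1) (by rw [cx_lt]; exact h2.2) (by rw [cy_lt]; exact h3.1)
    (by rw [cy_lt]; exact h3.2)
  rw [cx_lt, cy_lt] at this
  exact this

/-- **layer, world `XA`** -/
theorem st_lay1 {ω : Finset (ℤ × ℤ)} (hω : ω ⊆ (XA b h M bse o x1 a0 v).E) {x y : ℤ}
    (hQ : ¬ InQ b (2 * h) x y)
    (hL : ∃ i j : ℤ, |i| ≤ 3 ∧ |j| ≤ 3 ∧ InQ b (2 * h) (x + i) (y + j)) :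
    lt (x, y) ∈ (XA b h M bse o x1 a0 v).st ω ↔
      lcol b (2 * h) (colM bse M (some v.2)) x y = true := by
  classical
  have hB : lt (x, y) ∉ b.B h := fun g => by
    have := ((mem_B U.hh).1 g).2
    rw [cx_lt, cy_lt] at this
    exact hQ this
  rw [mem_Astate, ← st_win U.ok U.hh hQ hL]
  have h1 : lt (x, y) ∉ ω := fun h1 => hB (mem_filter.1 (show _ ∈ (b.B h).filter _ from hω h1)).1
  show _ ∨ lt (x, y) ∈ Wl b (2 * h) (colM bse M (some v.2)) ∪ (b.B h).filter _ ↔ _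
  rw [mem_union, mem_filter]
  tauto

/-- **layer, world `XB`** -/
theorem st_lay2 {ω : Finset (ℤ × ℤ)} (hω : ω ⊆ (XB b h M bse o x1).E) {x y : ℤ}
    (hQ : ¬ InQ b (2 * h) x y)
    (hL : ∃ i j : ℤ, |i| ≤ 3 ∧ |j| ≤ 3 ∧ InQ b (2 * h) (x + i) (y + j)) :
    lt (x, y) ∈ (XB b h M bse o x1).st ω ↔
      lcol b (2 * h) (colM (!bse) M none) x y = true := by
  classical
  have hB : lt (x, y) ∉ b.B h := fun g => by
    have := ((mem_B U.hh).1 g).2
    rw [cx_lt, cy_lt] at this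
    exact hQ this
  have h1 : lt (x, y) ∉ ω := fun h1 => hB (mem_filter.1 (show _ ∈ (b.B h).filter _ from hω h1)).1
  have h2 : lt (x, y) ∉ (XB b h M bse o x1).F :=
    fun h1 => hB (mem_filter.1 (show _ ∈ (b.B h).filter _ from h1)).1
  rw [WD.mem_st' h1 h2, ← st_win U.ok U.hh hQ hL]
  show lt (x, y) ∈ Wl b (2 * h) (colM (!bse) M none) ∪ ((b.B h).filter _ ∪ (b.B h).filter _) ↔ _
  rw [mem_union, mem_union, mem_filter, mem_filter]
  tauto

/-- the forced row is above the plates -/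
lemma CrR_cpl {e : ℤ × ℤ} (he : e ∈ b.B h) (hC : CrR b (2 * h) e) : cpl b (2 * h) e = none := by
  rcases hc : cpl b (2 * h) e with _ | i
  · rfl
  · exfalso
    have h2 := ((mem_B U.hh).1 he).2
    have h1 := U.ceil h2 hC.1 hC.2
    rw [cpl_some U.hM U.hn] at hc
    have hcol := InQ_col U.ok U.hn h2
    have hi := plate_lt U.ok U.hn hcol.1 hc.1.2
    have h3 := U.tauY hi
    have h4 := U.yH
    linarith [hc.2.2, h3.1]

/-- **forced row** -/
theorem st_F {ω : Finset (ℤ × ℤ)} (hω : ω ⊆ (XB b h M bse o x1).E) {x y : ℤ}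
    (hQ : InQ b (2 * h) x y) (hy : 0 ≤ y) (hC : ¬ InQ b (2 * h) x (y + 1)) :
    lt (x, y) ∈ (XB b h M bse o x1).st ω ↔
      lcol b (2 * h) (colM (!bse) M none) x (y + 1) = true := by
  classical
  have he : lt (x, y) ∈ b.B h := (mem_B U.hh).2 ⟨lt_odd _, by rwa [cx_lt, cy_lt]⟩
  have hCr : CrR b (2 * h) (lt (x, y)) := by
    unfold CrR; rw [cx_lt, cy_lt]; exact ⟨hy, hC⟩
  have hcp := CrR_cpl U he hCr
  have h1 : lt (x, y) ∉ ω :=
    fun h1 => (mem_filter.1 (show _ ∈ (b.B h).filter _ from hω h1)).2.2 hCr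
  have h2 : lt (x, y) ∉ (XB b h M bse o x1).F := by
    intro h1
    obtain ⟨-, ⟨i, -, hi⟩, -⟩ := mem_filter.1 (show _ ∈ (b.B h).filter _ from h1)
    rw [hcp] at hi
    simp at hi
  rw [WD.mem_st' h1 h2]
  show lt (x, y) ∈ Wl b (2 * h) (colM (!bse) M none) ∪ ((b.B h).filter _ ∪ (b.B h).filter _) ↔ _
  rw [mem_union, mem_union, mem_filter, mem_filter]
  constructor
  · rintro (g | g | g)
    · exact absurd he (Wl_notMem g U.hh)
    · obtain ⟨i, -, hi⟩ := g.2.1
      rw [hcp] at hi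
      simp at hi
    · have := g.2.2
      rw [cx_lt, cy_lt] at this
      exact this
  · intro g
    refine Or.inr (Or.inr ⟨he, hCr, ?_⟩)
    rw [cx_lt, cy_lt]
    exact g

/-- **the moved part** -/
theorem st_DN {ω1 ω2 : Finset (ℤ × ℤ)} (hC : Cor (XA b h M bse o x1 a0 v) (XB b h M bse o x1)
      (mvd (XS a0 a1 y1 v.2)) (XS a0 a1 y1 v.2) (XO1 b h x1 a0 a1 y1 v) (XO2 b h x1 a0 a1 y1 v) ω1 ω2)
    {e : ℤ × ℤ} (he : e ∈ b.B h) (hS : e ∈ XS a0 a1 y1 v.2) :
    dn e ∈ (XB b h M bse o x1).st ω2 ↔ e ∉ (XA b h M bse o x1 a0 v).st ω1 := by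
  classical
  have ho := ((mem_B U.hh).1 he).1
  have k1 := U.v2
  have k2 := U.yb
  have k3 := U.two_le (nP b)
  have k4 := U.a0x
  have k5 := U.vy
  have hBl : e ∉ XBl a0 a1 y1 := by
    rintro ⟨⟨g1, g2⟩, g3, g4⟩
    rcases hS with g | g | g
    · linarith [g.1]
    · linarith [g.1]
    · linarith [g.2]
  have hD : e ∉ (XA b h M bse o x1 a0 v).D := by
    rw [mem_XAD ho]
    have k6 := U.xa1
    have k7 := U.a0v
    have k8 := U.va1
    rintro (⟨g1, g2⟩ | ⟨g1, g2⟩)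
    · rcases hS with g | g | g
      · linarith [g.1]
      · linarith [g.2]
      · linarith [g.2]
    · rcases hS with g | g | g
      · rcases g1 with g1 | g1 <;> linarith [g.2]
      · linarith [g.1]
      · rcases g1 with g1 | g1 <;> linarith [g.2]
  by_cases hi : ∃ i < b.m, lpl b (2 * h) a0 e = some i
  · -- solid plate
    have hm := U.cpl_mvd (v := v) (a1 := a1) (y1 := y1) he
    have hCr := U.not_CrR (a1 := a1) (y1 := y1) he
    have hB2 := U.mvd_B he
    rw [mvd_in hS] at hm hCr hB2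
    have hi2 : ∃ i < b.m, cpl b (2 * h) (dn e) = some i := by rw [hm]; exact hi
    rw [st_PA U hC.1 he hi, st_PB U hC.2.1 hB2 hi2 hCr, cx_dn, cy_dn]
    -- the columns are left of `a0`
    have hx : cx e < a0 ∧ 2 ≤ cy e := by
      rcases hS with g | g | g
      · exact g
      · exfalso
        obtain ⟨i, -, hi⟩ := hi
        rw [lpl_some U.hM U.hn] at hi
        have hcol := InQ_col U.ok U.hn ((mem_B U.hh).1 he).2
        have hiP := plate_lt U.ok U.hn hcol.1 hi.1.2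
        have := U.vt i (by linarith [U.va1, hi.1.2, g.1]) hiP
        rcases hi.2.2 with g3 | ⟨g3, -⟩
        · linarith [g.2]
        · linarith [g.1, U.xa1]
      · exfalso
        obtain ⟨i, -, hi⟩ := hi
        rw [lpl_some U.hM U.hn] at hi
        have hcol := InQ_col U.ok U.hn ((mem_B U.hh).1 he).2
        have hiP := plate_lt U.ok U.hn hcol.1 hi.1.2
        have := (U.tauY hiP).1
        rcases hi.2.2 with g3 | ⟨g3, g3'⟩ <;> linarith [g.2]
    have q : (cx e < x1 ∧ 0 < cy e - 1) = True := eq_true ⟨by linarith, by linarith⟩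
    rw [q]
    cases o <;> simp [Xor]
  · have hO : e ∈ XO1 b h x1 a0 a1 y1 v :=
      (U.mem_XO1 (M := M) (bse := bse) (o := o)).2 ⟨he, hi, hBl, hD⟩
    have := U.lm.state hC hO
    rw [mvd_in hS] at this
    rw [this]
    by_cases q : e ∈ (XA b h M bse o x1 a0 v).st ω1 <;> simp [q, hS, Xor]

/-- **the rest** -/
theorem st_PL {ω1 ω2 : Finset (ℤ × ℤ)} (hC : Cor (XA b h M bse o x1 a0 v) (XB b h M bse o x1)
      (mvd (XS a0 a1 y1 v.2)) (XS a0 a1 y1 v.2) (XO1 b h x1 a0 a1 y1 v) (XO2 b h x1 a0 a1 y1 v) ω1 ω2)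
    {e : ℤ × ℤ} (he : e ∈ b.B h) (hS : e ∉ XS a0 a1 y1 v.2) (hBl : e ∉ XBl a0 a1 y1)
    (hD : e ∉ (XA b h M bse o x1 a0 v).D) :
    e ∈ (XB b h M bse o x1).st ω2 ↔ e ∈ (XA b h M bse o x1 a0 v).st ω1 := by
  classical
  have ho := ((mem_B U.hh).1 he).1
  by_cases hi : ∃ i < b.m, lpl b (2 * h) a0 e = some i
  · have hm := U.cpl_mvd (v := v) (a1 := a1) (y1 := y1) he
    have hCr := U.not_CrR (a1 := a1) (y1 := y1) he
    rw [mvd_out hS] at hm hCr
    have hi2 : ∃ i < b.m, cpl b (2 * h) e = some i := by rw [hm]; exact hi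
    rw [st_PA U hC.1 he hi, st_PB U hC.2.1 he hi2 hCr]
    have q : ¬ (cx e < x1 ∧ 0 < cy e) := by
      rintro ⟨q1, q2⟩
      rw [mem_XAD ho] at hD
      have k6 := U.xa1
      rcases lt_or_ge (cx e) a0 with g | g
      · by_cases q' : 2 ≤ cy e
        · exact hS (Or.inl ⟨g, q'⟩)
        · exact hD (Or.inr ⟨Or.inr (by linarith), q1⟩)
      · by_cases q' : cy e ≤ y1
        · exact hBl ⟨⟨g, by linarith⟩, by linarith, q'⟩
        · exact hS (Or.inr (Or.inr ⟨⟨g, by linarith⟩, by linarith⟩))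
    cases o <;> simp [q, Xor]
  · have hO : e ∈ XO1 b h x1 a0 a1 y1 v :=
      (U.mem_XO1 (M := M) (bse := bse) (o := o)).2 ⟨he, hi, hBl, hD⟩
    have := U.lm.state hC hO
    rw [mvd_out hS] at this
    rw [this]
    by_cases q : e ∈ (XA b h M bse o x1 a0 v).st ω1 <;> simp [q, hS, Xor]

end states

/-! ### Laws -/

/-- **Two descriptions of the same coins.** -/
theorem PB_coin {α β : Type*} [DecidableEq α] [DecidableEq β] {E E' : Finset α} {c c' : α → β}
    {P P' : Finset α → Prop} (h : E'.image c' ⊆ E.image c)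
    (hP : ∀ η : Finset β, P (up E c η) ↔ P' (up E' c' η)) : PB E c P = PB E' c' P' := by
  unfold PB
  rw [← Pool.Agent.H75.Perc.Pr_restrict h (fun ω => P' (up E' c' ω))]
  refine Pool.Agent.H75.Perc.Pr_congr fun ω _ => ?_
  have e : up E' c' (ω ∩ E'.image c') = up E' c' ω := by
    ext l
    simp only [mem_up, mem_inter, mem_image]
    constructor
    · rintro ⟨h1, h2, -⟩; exact ⟨h1, h2⟩
    · rintro ⟨h1, h2⟩; exact ⟨h1, h2, l, h1, rfl⟩
  show P (up E c ω) ↔ P' (up E' c' (ω ∩ E'.image c'))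
  rw [e]
  exact hP ω

open Classical in
/-- first row of the room above the plates, left of `a0` -/
noncomputable def FA (b : JBox) (h : ℕ) (a0 : ℤ) : Finset (ℤ × ℤ) :=
  (b.B h).filter fun e => cpl b (2 * h) e = none ∧ lpl b (2 * h) a0 e ≠ none

open Classical in
/-- last row of the room below the ceiling -/
noncomputable def FB (b : JBox) (h : ℕ) : Finset (ℤ × ℤ) := (b.B h).filter fun e => CrR b (2 * h) e

lemma lpl_of_cpl (hM : 0 < b.M) {n : ℤ} (hn : 0 < n) {e : ℤ × ℤ} {i : ℕ} (hc : cpl b n e = some i) :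
    lpl b n a0 e = some i := by
  rw [cpl_some hM hn] at hc
  rw [lpl_some hM hn]
  exact ⟨hc.1, hc.2.1, Or.inl hc.2.2⟩

/-- labels of `P` -/
lemma mem_PlB (hM : 0 < b.M) (hh : 0 < h) {e : ℤ × ℤ} (he : e ∈ b.B h) :
    e ∈ b.Pl h ↔ ∃ i < b.m, cpl b (2 * h) e = some i := by
  rw [mem_Pl' hM hh]
  exact and_iff_right ((mem_B hh).1 he).1

lemma Pl_sub' (hb : b.Ok δ σ) (hthk : (b.τ : ℤ) + nP b < b.H) (hm : b.m ≤ nP b) (hh : 0 < h) {e : ℤ × ℤ}
    (he : e ∈ b.Pl h) : e ∈ b.B h := by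
  have hn : (0 : ℤ) < 2 * h := by positivity
  obtain ⟨h1, i, h2, h3⟩ := (mem_Pl' hb.M0 hh).1 he
  rw [cpl_some hb.M0 hn] at h3
  rw [mem_B hh]
  refine ⟨h1, ?_⟩
  have hX := X_eq hb
  have hi : (i : ℤ) + 1 ≤ nP b := by omega
  have hMn : (0 : ℤ) ≤ b.M * (2 * h) := by positivity
  have e1 : ((b.τ : ℤ) + i) * (2 * h) ≤ b.H * (2 * h) := mul_le_mul_of_nonneg_right (by omega) hn.le
  have e2 : ((i : ℤ) + 1) * b.M * (2 * h) ≤ b.X * (2 * h) := by
    rw [hX]
    have : ((i : ℤ) + 1) * (b.M * (2 * h)) ≤ nP b * (b.M * (2 * h)) :=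
      mul_le_mul_of_nonneg_right hi hMn
    linarith
  have e3 : (0 : ℤ) ≤ i * b.M * (2 * h) := by positivity
  have e4 : (0 : ℤ) < b.X * (2 * h) := mul_pos (by exact_mod_cast X_pos hb) hn
  rw [InQ_band hb hn (by linarith [h3.2.1]) (by linarith [h3.2.2])]
  exact ⟨by linarith [h3.1.1], by linarith [h3.1.2]⟩

/-- the configuration, in terms of the coins -/
lemma mem_cfg_coin (hM : 0 < b.M) (hh : 0 < h) {η : Finset ((ℤ × ℤ) ⊕ ℕ)} {e : ℤ × ℤ} (he : e ∈ b.B h) :
    e ∈ cfg b h o (up (b.B h) (bk (2 * (h : ℤ)) (chn 0 b.M b.τ)) η) ↔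
      ((∃ i < b.m, cpl b (2 * h) e = some i) ∧ o = true) ∨
        ((¬ ∃ i < b.m, cpl b (2 * h) e = some i) ∧ blk (cpl b (2 * h)) e ∈ η) := by
  have h1 : e ∈ up (b.B h) (bk (2 * (h : ℤ)) (chn 0 b.M b.τ)) η ↔ blk (cpl b (2 * h)) e ∈ η := by
    rw [mem_up, ← blk_cpl]
    exact and_iff_right he
  have h2 := mem_PlB hM hh he
  unfold cfg
  cases o
  · rw [if_neg (by simp), mem_sdiff, h1, h2]
    generalize (∃ i < b.m, cpl b (2 * h) e = some i) = p1
    generalize (blk (cpl b (2 * h)) e ∈ η) = p2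
    simp only [Bool.false_eq_true, and_false, false_or]
    exact and_comm
  · rw [if_pos rfl, mem_union, h1, h2]
    generalize (∃ i < b.m, cpl b (2 * h) e = some i) = p1
    generalize (blk (cpl b (2 * h)) e ∈ η) = p2
    simp only [and_true]
    by_cases q : p1 <;> simp [q]

section laws

variable (U : XPH δ σ b h x1 a0 a1 y1 v)
include U

lemma notB_cfg {ω : Finset (ℤ × ℤ)} (hω : ω ⊆ b.B h) {e : ℤ × ℤ} (he : e ∉ b.B h) :
    e ∉ cfg b h o ω := by
  have h1 : e ∉ b.Pl h := fun g => he (Pl_sub' U.ok U.thk U.mn U.hh g)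
  have h2 : e ∉ ω := fun g => he (hω g)
  unfold cfg
  cases o
  · simp [h2]
  · simp [h1, h2]

/-- a forced tile of `XA` and the plate below it -/
lemma FA_dn {e : ℤ × ℤ} (he : e ∈ b.B h) {i : ℕ} (h1 : cpl b (2 * h) e = none)
    (h2 : lpl b (2 * h) a0 e = some i) : dn e ∈ b.B h ∧ cpl b (2 * h) (dn e) = some i := by
  rw [lpl_some U.hM U.hn] at h2
  obtain ⟨g1, g2, g3⟩ := h2
  have g4 := U.two_le i
  have g5 : cy e = ((b.τ : ℤ) + i) * (2 * h) := by
    rcases g3 with g | g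
    · exfalso
      have : cpl b (2 * h) e = some i := (cpl_some U.hM U.hn).2 ⟨g1, g2, g⟩
      rw [h1] at this
      simp at this
    · exact g.2
  constructor
  · rw [mem_B U.hh] at he ⊢
    rw [odd_dn, cx_dn, cy_dn]
    exact ⟨he.1, U.down he.2 (by linarith)⟩
  · rw [cpl_some U.hM U.hn, cx_dn, cy_dn]
    exact ⟨g1, by linarith, by linarith⟩

/-- **Law of the world `XA`**, coin by coin. -/
theorem eq_A (η : Finset ((ℤ × ℤ) ⊕ ℕ)) :
    Force (FA b h a0) dn (cfg b h o (up (b.B h) (bk (2 * (h : ℤ)) (chn 0 b.M b.τ)) η) ∪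
      Wl b (2 * h) (colM bse M (some v.2))) =
    (XA b h M bse o x1 a0 v).st (up (XA b h M bse o x1 a0 v).E (XA b h M bse o x1 a0 v).b η) := by
  classical
  have hE : ∀ e, e ∈ (XA b h M bse o x1 a0 v).E ↔ e ∈ b.B h ∧ ¬ ∃ i < b.m, lpl b (2 * h) a0 e = some i :=
    fun e => mem_filter
  have hW : ∀ e, e ∈ (XA b h M bse o x1 a0 v).W ↔ e ∈ Wl b (2 * h) (colM bse M (some v.2)) ∨
      (e ∈ b.B h ∧ (∃ i < b.m, lpl b (2 * h) a0 e = some i) ∧ o = true) := by
    intro e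
    show e ∈ Wl b (2 * h) (colM bse M (some v.2)) ∪ (b.B h).filter _ ↔ _
    rw [mem_union, mem_filter]
  have hFA : ∀ e, e ∈ FA b h a0 ↔ e ∈ b.B h ∧ cpl b (2 * h) e = none ∧ lpl b (2 * h) a0 e ≠ none :=
    fun e => mem_filter
  have hb' : (XA b h M bse o x1 a0 v).b = blk (lpl b (2 * h) a0) := rfl
  ext e
  rw [mem_Astate, mem_up, hE, hW, mem_Force, hFA, mem_union, mem_union, hb']
  by_cases he : e ∈ b.B h
  · have hWl : e ∉ Wl b (2 * h) (colM bse M (some v.2)) := fun g => Wl_notMem g U.hh he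
    rcases hl : lpl b (2 * h) a0 e with _ | i
    · have hcp : cpl b (2 * h) e = none := by
        rcases hc : cpl b (2 * h) e with _ | i
        · rfl
        · rw [lpl_of_cpl U.hM U.hn hc] at hl
          simp at hl
      rw [mem_cfg_coin U.hM U.hh he, blk_none hl, blk_none hcp, hcp]
      simp [he, hWl]
    · by_cases hcp : cpl b (2 * h) e = none
      · obtain ⟨g1, g2⟩ := FA_dn U he hcp hl
        have hWl2 : dn e ∉ Wl b (2 * h) (colM bse M (some v.2)) := fun g => Wl_notMem g U.hh g1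
        rw [mem_cfg_coin (e := dn e) U.hM U.hh g1, g2, blk_some g2, blk_some hl, hcp]
        by_cases hi : i < b.m <;> simp [he, hWl, hWl2, hi]
      · have hcp2 : cpl b (2 * h) e = some i := by
          rcases hc : cpl b (2 * h) e with _ | j
          · exact absurd hc hcp
          · have := lpl_of_cpl (a0 := a0) U.hM U.hn hc
            rw [hl] at this
            exact this.symm
        rw [mem_cfg_coin U.hM U.hh he, blk_some hl, blk_some hcp2, hcp2]
        by_cases hi : i < b.m <;> simp [he, hWl, hi]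
  · have h1 := notB_cfg U (o := o) (up_subset (b.B h) (bk (2 * (h : ℤ)) (chn 0 b.M b.τ)) η) he
    simp [he, h1]

lemma sub_A : (XA b h M bse o x1 a0 v).E.image (XA b h M bse o x1 a0 v).b ⊆
    (b.B h).image (bk (2 * (h : ℤ)) (chn 0 b.M b.τ)) := by
  classical
  intro y hy
  rw [mem_image] at hy
  obtain ⟨e, he, rfl⟩ := hy
  have he1 : e ∈ b.B h := (mem_filter.1 (show _ ∈ (b.B h).filter _ from he)).1
  show blk (lpl b (2 * h) a0) e ∈ _
  rw [← blk_cpl]
  rw [mem_image]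
  rcases hl : lpl b (2 * h) a0 e with _ | i
  · have hcp : cpl b (2 * h) e = none := by
      rcases hc : cpl b (2 * h) e with _ | i
      · rfl
      · rw [lpl_of_cpl U.hM U.hn hc] at hl
        simp at hl
    exact ⟨e, he1, by rw [blk_none hl, blk_none hcp]⟩
  · by_cases hcp : cpl b (2 * h) e = none
    · obtain ⟨g1, g2⟩ := FA_dn U he1 hcp hl
      exact ⟨dn e, g1, by rw [blk_some g2, blk_some hl]⟩
    · have hcp2 : cpl b (2 * h) e = some i := by
        rcases hc : cpl b (2 * h) e with _ | j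
        · exact absurd hc hcp
        · have := lpl_of_cpl (a0 := a0) U.hM U.hn hc
          rw [hl] at this
          exact this.symm
      exact ⟨e, he1, by rw [blk_some hl, blk_some hcp2]⟩

/-- **Law of the world `XA`.** -/
theorem law_A (Φ : Finset (ℤ × ℤ) → Prop) :
    b.PJ h (fun ω => Φ (Force (FA b h a0) dn (cfg b h o ω ∪ Wl b (2 * h) (colM bse M (some v.2))))) =
      PB (XA b h M bse o x1 a0 v).E (XA b h M bse o x1 a0 v).b
        (fun ω => Φ ((XA b h M bse o x1 a0 v).st ω)) := by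
  unfold JBox.PJ
  refine PB_coin (sub_A U) fun η => ?_
  rw [eq_A U η]

/-- **Law of the world `XB`**, coin by coin. -/
theorem eq_B (η : Finset ((ℤ × ℤ) ⊕ ℕ)) :
    Force (FB b h) up (symmDiff (cfg b h o (Pool.Agent.H58.W.up (b.B h)
      (bk (2 * (h : ℤ)) (chn 0 b.M b.τ)) η)) (flp b h true x1) ∪
      Wl b (2 * h) (colM (!bse) M none)) =
    (XB b h M bse o x1).st
      (Pool.Agent.H58.W.up (XB b h M bse o x1).E (XB b h M bse o x1).b η) := by
  classical
  have hE : ∀ e, e ∈ (XB b h M bse o x1).E ↔ e ∈ b.B h ∧ (¬ ∃ i < b.m, cpl b (2 * h) e = some i) ∧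
      ¬ CrR b (2 * h) e := fun e => mem_filter
  have hF : ∀ e, e ∈ (XB b h M bse o x1).F ↔ e ∈ b.B h ∧
      (∃ i, b.m ≤ i ∧ cpl b (2 * h) e = some i) ∧ cx e < x1 ∧ 0 < cy e := fun e => mem_filter
  have hW : ∀ e, e ∈ (XB b h M bse o x1).W ↔ e ∈ Wl b (2 * h) (colM (!bse) M none) ∨
      (e ∈ b.B h ∧ (∃ i < b.m, cpl b (2 * h) e = some i) ∧ Xor (o = true) (cx e < x1 ∧ 0 < cy e)) ∨
      (e ∈ b.B h ∧ CrR b (2 * h) e ∧
        lcol b (2 * h) (colM (!bse) M none) (cx e) (cy e + 1) = true) := by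
    intro e
    show e ∈ Wl b (2 * h) (colM (!bse) M none) ∪ ((b.B h).filter _ ∪ (b.B h).filter _) ↔ _
    rw [mem_union, mem_union, mem_filter, mem_filter]
  have hFB : ∀ e, e ∈ FB b h ↔ e ∈ b.B h ∧ CrR b (2 * h) e := fun e => mem_filter
  have hfl : ∀ e, e ∈ flp b h true x1 ↔ e ∈ b.B h ∧ cpl b (2 * h) e ≠ none ∧ cx e < x1 ∧ 0 < cy e := by
    intro e
    unfold flp
    rw [mem_filter]
    constructor
    · rintro ⟨g1, ⟨-, g2⟩, g3, g4⟩
      rw [if_pos rfl] at g4
      exact ⟨g1, g2, g3, g4⟩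
    · rintro ⟨g1, g2, g3, g4⟩
      exact ⟨g1, ⟨((mem_B U.hh).1 g1).2, g2⟩, g3, by rw [if_pos rfl]; exact g4⟩
  have hst : ∀ (ω : Finset (ℤ × ℤ)) (e : ℤ × ℤ), e ∈ (XB b h M bse o x1).st ω ↔
      Xor (e ∈ ω) (e ∈ (XB b h M bse o x1).F) ∨ e ∈ (XB b h M bse o x1).W := by
    intro ω e
    unfold WD.st
    rw [mem_union, mem_symmDiff]
    rfl
  have hb' : (XB b h M bse o x1).b = blk (cpl b (2 * h)) := rfl
  have hsub := up_subset (b.B h) (bk (2 * (h : ℤ)) (chn 0 b.M b.τ)) η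
  ext e
  rw [hst, mem_up, hE, hW, hF, mem_Force, hFB, mem_union, mem_union, hb', mem_symmDiff, mem_symmDiff,
    hfl, hfl]
  by_cases he : e ∈ b.B h
  · have hWl : e ∉ Wl b (2 * h) (colM (!bse) M none) := fun g => Wl_notMem g U.hh he
    by_cases hC : CrR b (2 * h) e
    · -- forced row
      have hcp := CrR_cpl U he hC
      have hup : up e ∉ b.B h := by
        intro g
        have := ((mem_B U.hh).1 g).2
        rw [cx_up, cy_up] at this
        exact hC.2 this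
      have h1 := notB_cfg U (o := o) hsub hup
      have hlay : up e ∈ Wl b (2 * h) (colM (!bse) M none) ↔
          lcol b (2 * h) (colM (!bse) M none) (cx e) (cy e + 1) = true := by
        have h3 := st_win U.ok U.hh (cl := colM (!bse) M none) (x := cx e) (y := cy e + 1) hC.2
          ⟨0, -1, by norm_num, by norm_num, by
            rw [add_zero, add_neg_cancel_right]
            exact ((mem_B U.hh).1 he).2⟩
        rw [← h3]
        have h4 : up e = lt (cx e, cy e + 1) := by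
          refine tile_ext (odd_up.2 ((mem_B U.hh).1 he).1) (lt_odd _) ?_ ?_
          · rw [cx_up, cx_lt]
          · rw [cy_up, cy_lt]
        rw [h4]
      simp [he, hC, hcp, hup, h1, hlay, hWl, Xor]
    · rw [mem_cfg_coin U.hM U.hh he]
      rcases hcp : cpl b (2 * h) e with _ | i
      · simp [he, hC, hWl, Xor]
      · by_cases hi : i < b.m
        · have hi2 : ¬ b.m ≤ i := by omega
          cases o <;> by_cases hx : cx e < x1 ∧ 0 < cy e <;>
            simp [he, hC, hWl, hi, hi2, hx, Xor]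
        · have hi2 : b.m ≤ i := by omega
          by_cases hx : cx e < x1 ∧ 0 < cy e <;>
            by_cases hη : blk (cpl b (2 * h)) e ∈ η <;>
            simp [he, hC, hWl, hi, hi2, hx, hη, Xor]
  · have h1 := notB_cfg U (o := o) hsub he
    simp [he, h1, Xor]

/-- **Law of the world `XB`.** -/
theorem law_B (Φ : Finset (ℤ × ℤ) → Prop) :
    b.PJ h (fun ω => Φ (Force (FB b h) up (symmDiff (cfg b h o ω) (flp b h true x1) ∪
      Wl b (2 * h) (colM (!bse) M none)))) =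
      PB (XB b h M bse o x1).E (XB b h M bse o x1).b (fun ω => Φ ((XB b h M bse o x1).st ω)) := by
  classical
  unfold JBox.PJ
  have hs : (XB b h M bse o x1).E.image (XB b h M bse o x1).b ⊆
      (b.B h).image (bk (2 * (h : ℤ)) (chn 0 b.M b.τ)) := by
    rw [← blk_cpl]
    exact image_subset_image fun e he => (mem_filter.1 (show _ ∈ (b.B h).filter _ from he)).1
  refine PB_coin hs fun η => ?_
  rw [eq_B U η]

end laws

end Pool.Agent.H80.W
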