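import Mathlib
import Pool.Agent.H87.W.Fields

set_option autoImplicit false

/-! # (C6) (J5) (c), XP: the statement for one mark and one state of the chunk

`eQ` : difference of the probabilities that the moving end near the bank `s` of `P` and the mark on this bank have
the far end `q`. `XQ` : its scale form. -/

namespace Pool.Agent.H80.W

open Pool.Agent.H6.W Pool.Agent.H61.W Pool.Agent.H87.Fld

/-- difference of the laws of the far end: moving end `v` against the mark on the bank `s` of `P` at `x1` -/
noncomputable def eQ (B : JBox) (h : ℕ) (w s o : Bool) (x1 : ℤ) (c2 c3 c4 q : Bool × ℕ) (v : ℤ × ℤ) : ℝ :=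
  |B.PJ h (fun ω => RF B (2 * h) (GX B h w c2 c3 c4 v o ω) (zc v) q) -
    B.PJ h (fun ω => RF B (2 * h) (GP B h w s x1 c2 c3 c4 o ω) (mc s x1) q)|

/-- one mark `j`, one state `o` of `P`, bank `s`, abscissa `x` -/
def XQ (σ : ℝ) (w s o : Bool) (x : ℝ) (c b3 b4 : Bool × ℝ) (j : Fin 3) : Prop :=
  ScB σ (x : ℂ) {z | 0 < sgn s * z.im} fun B h v =>
    eQ B h w s o (gp B (2 * h) x) (cor B c) (cor B b3) (cor B b4)
      (![cor B c, cor B b3, cor B b4] j) v

end Pool.Agent.H80.W
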