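import Mathlib
import Pool.Agent.H80.W.XPQ

set_option autoImplicit false

/-! # (C6) (J5) (c), XP: from the laws of the far end to the values

`ScB.add`, `ScB.mono` ; `xps_of_xq` : `XPS` for the bank `s` from `XQ` for the bank `s`. -/

namespace Pool.Agent.H80.W

open Pool.Agent.H6.W Pool.Agent.H61.W Pool.Agent.H87.Fld

variable {σ : ℝ} {z0 : ℂ} {Z : Set ℂ}

/-- sum of two scale pairs -/
theorem _root_.Pool.Agent.H87.Fld.ScB.add {e e' : JBox → ℕ → ℤ × ℤ → ℝ} (H : ScB σ z0 Z e)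
    (H' : ScB σ z0 Z e') : ScB σ z0 Z fun b h v => e b h v + e' b h v := by
  obtain ⟨C, c, r0, hc, hr0, H⟩ := H
  obtain ⟨C', c', r0', hc', hr0', H'⟩ := H'
  refine ⟨|C| + |C'|, min c c', min r0 r0', lt_min hc hc', lt_min hr0 hr0', fun s hs hsr η hη => ?_⟩
  obtain ⟨δ1, hδ1, h1⟩ := H s hs (hsr.trans_le (min_le_left _ _)) (η / 2) (half_pos hη)
  obtain ⟨δ2, hδ2, h2⟩ := H' s hs (hsr.trans_le (min_le_right _ _)) (η / 2) (half_pos hη)
  refine ⟨min δ1 δ2, lt_min hδ1 hδ2, ?_⟩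
  have hm : 0 < min r0 r0' := lt_min hr0 hr0'
  have key : ∀ {D d r : ℝ}, 0 < d → 0 < r → min c c' ≤ d → min r0 r0' ≤ r →
      D * (s / r) ^ d ≤ |D| * (s / min r0 r0') ^ (min c c') := by
    intro D d r hd hr g1 g2
    have a1 : 0 < s / r := by positivity
    have a2 : s / r ≤ s / min r0 r0' := by
      apply div_le_div_of_nonneg_left hs.le hm g2
    have a3 : s / min r0 r0' < 1 := by rwa [div_lt_one hm]
    have a4 : s / r ≤ 1 := a2.trans a3.le
    calc D * (s / r) ^ d ≤ |D| * (s / r) ^ d :=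
          mul_le_mul_of_nonneg_right (le_abs_self D) (Real.rpow_nonneg a1.le _)
      _ ≤ |D| * (s / r) ^ (min c c') :=
          mul_le_mul_of_nonneg_left (Real.rpow_le_rpow_of_exponent_ge a1 a4 g1) (abs_nonneg _)
      _ ≤ |D| * (s / min r0 r0') ^ (min c c') :=
          mul_le_mul_of_nonneg_left (Real.rpow_le_rpow a1.le a2 (lt_min hc hc').le) (abs_nonneg _)
  have k1 := key (D := C) hc hr0 (min_le_left _ _) (min_le_left _ _)
  have k2 := key (D := C') hc' hr0' (min_le_right _ _) (min_le_right _ _)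
  refine ((h1.mono (min_le_left _ _) subset_rfl fun b h v q => q).and
    (h2.mono (min_le_right _ _) subset_rfl fun b h v q => q)).mono le_rfl subset_rfl fun b h v q => ?_
  obtain ⟨q1, q2⟩ := q
  have e : (|C| + |C'|) * (s / min r0 r0') ^ (min c c') =
      |C| * (s / min r0 r0') ^ (min c c') + |C'| * (s / min r0 r0') ^ (min c c') := by ring
  rw [e]
  linarith

theorem _root_.Pool.Agent.H87.Fld.ScB.mono {e e' : JBox → ℕ → ℤ × ℤ → ℝ} (H : ScB σ z0 Z e)
    (h : ∀ b k v, e' b k v ≤ e b k v) : ScB σ z0 Z e' := by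
  obtain ⟨C, c, r0, hc, hr0, H⟩ := H
  refine ⟨C, c, r0, hc, hr0, fun s hs hsr η hη => ?_⟩
  obtain ⟨δ1, hδ1, h1⟩ := H s hs hsr η hη
  exact ⟨δ1, hδ1, h1.mono le_rfl subset_rfl fun b k v q => (h b k v).trans q⟩

/-- values of two worlds with close laws -/
lemma V0_diff (B : JBox) (h : ℕ) (w s o : Bool) (x1 : ℤ) (c2 c3 c4 : Bool × ℕ) (v : ℤ × ℤ) :
    ‖V0 B h c2 c3 c4 (GX B h w c2 c3 c4 v o) (zc v) - V0 B h c2 c3 c4 (GP B h w s x1 c2 c3 c4 o) (mc s x1)‖ ≤
      eQ B h w s o x1 c2 c3 c4 (![c2, c3, c4] 0) v + (eQ B h w s o x1 c2 c3 c4 (![c2, c3, c4] 1) v +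
        eQ B h w s o x1 c2 c3 c4 (![c2, c3, c4] 2) v) := by
  have h2 : eQ B h w s o x1 c2 c3 c4 (snd2 B c3 c4) v ≤
      eQ B h w s o x1 c2 c3 c4 (![c2, c3, c4] 1) v + eQ B h w s o x1 c2 c3 c4 (![c2, c3, c4] 2) v := by
    have p1 : 0 ≤ eQ B h w s o x1 c2 c3 c4 (![c2, c3, c4] 1) v := abs_nonneg _
    have p2 : 0 ≤ eQ B h w s o x1 c2 c3 c4 (![c2, c3, c4] 2) v := abs_nonneg _
    unfold snd2
    split_ifs
    · have : eQ B h w s o x1 c2 c3 c4 c4 v = eQ B h w s o x1 c2 c3 c4 (![c2, c3, c4] 2) v := rfl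
      linarith
    · have : eQ B h w s o x1 c2 c3 c4 c3 v = eQ B h w s o x1 c2 c3 c4 (![c2, c3, c4] 1) v := rfl
      linarith
  unfold V0
  have e : ∀ a a' k c c' : ℂ, (a + k * c) - (a' + k * c') = (a - a') + k * (c - c') := by
    intros; ring
  rw [e]
  refine (norm_add_le _ _).trans ?_
  rw [norm_mul, norm_K2, one_mul, ← Complex.ofReal_sub, ← Complex.ofReal_sub, Complex.norm_real,
    Complex.norm_real, Real.norm_eq_abs, Real.norm_eq_abs]
  have h3 : |B.PJ h (fun ω => RF B (2 * h) (GX B h w c2 c3 c4 v o ω) (zc v) (snd2 B c3 c4)) -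
      B.PJ h (fun ω => RF B (2 * h) (GP B h w s x1 c2 c3 c4 o ω) (mc s x1) (snd2 B c3 c4))| =
      eQ B h w s o x1 c2 c3 c4 (snd2 B c3 c4) v := rfl
  have h4 : |B.PJ h (fun ω => RF B (2 * h) (GX B h w c2 c3 c4 v o ω) (zc v) c2) -
      B.PJ h (fun ω => RF B (2 * h) (GP B h w s x1 c2 c3 c4 o ω) (mc s x1) c2)| =
      eQ B h w s o x1 c2 c3 c4 (![c2, c3, c4] 0) v := rfl
  rw [h3, h4]
  linarith

/-- **`XPS` from the laws of the far end.** -/
theorem xps_of_xq {w s : Bool} {x : ℝ} {c b3 b4 : Bool × ℝ}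
    (H : ∀ (o : Bool) (j : Fin 3), XQ σ w s o x c b3 b4 j) : XPS σ w (s, x) c b3 b4 := by
  have h1 := ((H true 0).add ((H true 1).add (H true 2))).add
    ((H false 0).add ((H false 1).add (H false 2)))
  refine h1.mono fun b h v => ?_
  have e : Xf b h w (cor b c) (cor b b3) (cor b b4) v - Gf b h w s (gp b (2 * h) x) (cor b c) (cor b b3)
      (cor b b4) =
      (V0 b h (cor b c) (cor b b3) (cor b b4) (GX b h w (cor b c) (cor b b3) (cor b b4) v true) (zc v) -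
        V0 b h (cor b c) (cor b b3) (cor b b4)
          (GP b h w s (gp b (2 * h) x) (cor b c) (cor b b3) (cor b b4) true) (mc s (gp b (2 * h) x))) -
      (V0 b h (cor b c) (cor b b3) (cor b b4) (GX b h w (cor b c) (cor b b3) (cor b b4) v false) (zc v) -
        V0 b h (cor b c) (cor b b3) (cor b b4)
          (GP b h w s (gp b (2 * h) x) (cor b c) (cor b b3) (cor b b4) false) (mc s (gp b (2 * h) x))) := by
    unfold Xf Gf
    ring
  rw [e]
  exact (norm_sub_le _ _).trans (add_le_add (V0_diff _ _ _ _ _ _ _ _ _ _) (V0_diff _ _ _ _ _ _ _ _ _ _))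

end Pool.Agent.H80.W
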