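import Mathlib
import Pool.Agent.H21.W.TileSG
import Pool.Agent.H47.W.Room2

set_option autoImplicit false
open Finset

/-! # Existence of the far end

Tile coordinates. `Λ` : a region `Q`, its layer and its diagonal tiles except those of `M` (marks). `Layer` :
local conditions on the tiles of the layer. `Layer.outer` : a side of `Λ` towards the outside which is not at
a mark is joined along the layer to another one. `Layer.far` : in every configuration the strand of an inner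
end arrives at a mark (or another inner end). -/

namespace Pool.Agent.H80.W

open Pool.Agent.H75.Perc Pool.Agent.H75.TwoArm Pool.Agent.H13.W Pool.Agent.H99.W Pool.Agent.H33.Q1
open Pool.Agent.H21.W Pool.Agent.H47.W

variable {Λ D : Set (ℤ × ℤ)} {w : Finset (ℤ × ℤ)} {x y : ℤ}

/-! ### Sides -/

lemma eW_sides (x y : ℤ) :
    (lt (x, y) = lab (eW (lt (x, y))) ∨ lt (x, y) = plab (eW (lt (x, y)))) ∧
    (lt (x - 1, y) = lab (eW (lt (x, y))) ∨ lt (x - 1, y) = plab (eW (lt (x, y)))) := by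
  refine ⟨of_side (lt_odd _) _ (Or.inl rfl), of_side (lt_odd _) _ (Or.inr (Or.inl ?_))⟩
  rw [eE_lt, sub_add_cancel]

lemma eS_sides (x y : ℤ) :
    (lt (x, y) = lab (eS (lt (x, y))) ∨ lt (x, y) = plab (eS (lt (x, y)))) ∧
    (lt (x, y - 1) = lab (eS (lt (x, y))) ∨ lt (x, y - 1) = plab (eS (lt (x, y)))) := by
  refine ⟨of_side (lt_odd _) _ (Or.inr (Or.inr (Or.inl rfl))),
    of_side (lt_odd _) _ (Or.inr (Or.inr (Or.inr ?_)))⟩
  rw [eN_lt, sub_add_cancel]

lemma isEnd_side {e c : ℤ × ℤ} (he : e ∉ Λ) (h : e = lab c ∨ e = plab c) : IsEnd (SG Λ D w) c := by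
  apply isEnd_of_notMem
  rcases h with rfl | rfl
  · exact Or.inl he
  · exact Or.inr he

/-- every corner is a vertical or a horizontal side -/
lemma side_exists (c : ℤ × ℤ) : (∃ x y, c = eW (lt (x, y))) ∨ ∃ x y, c = eS (lt (x, y)) := by
  obtain ⟨a, b⟩ := c
  rcases Int.emod_two_eq_zero_or_one (a + b) with h | h
  · right
    refine ⟨(a + b - 2) / 2, (b - a) / 2, ?_⟩
    unfold eS lt
    refine Prod.ext ?_ ?_ <;> simp only <;> omega
  · left
    refine ⟨(a + b - 1) / 2, (b - a - 1) / 2, ?_⟩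
    unfold eW lt
    refine Prod.ext ?_ ?_ <;> simp only <;> omega

lemma eW_inj' {x y x' y' : ℤ} (h : eW (lt (x, y)) = eW (lt (x', y'))) : x = x' ∧ y = y' := by
  unfold eW lt at h
  rw [Prod.ext_iff] at h
  simp only at h
  omega

lemma eS_inj' {x y x' y' : ℤ} (h : eS (lt (x, y)) = eS (lt (x', y'))) : x = x' ∧ y = y' := by
  unfold eS lt at h
  rw [Prod.ext_iff] at h
  simp only at h
  omega

lemma eW_ne_eS (x y x' y' : ℤ) : eW (lt (x, y)) ≠ eS (lt (x', y')) := by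
  intro h
  unfold eS eW lt at h
  rw [Prod.ext_iff] at h
  simp only at h
  omega

/-! ### Rotation around a point of the tile grid -/

/-- the `k`-th side at the point `(X, Y)` (lower left vertex of the tile `(X, Y)`): north, west, south,
east -/
def sv (X Y : ℤ) (k : ℕ) : ℤ × ℤ :=
  if k % 4 = 0 then eW (lt (X, Y)) else if k % 4 = 1 then eS (lt (X - 1, Y))
  else if k % 4 = 2 then eW (lt (X, Y - 1)) else eS (lt (X, Y))

/-- the tile between the sides `k` and `k + 1` -/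
def tv' (X Y : ℤ) (k : ℕ) : ℤ × ℤ :=
  if k % 4 = 0 then (X - 1, Y) else if k % 4 = 1 then (X - 1, Y - 1)
  else if k % 4 = 2 then (X, Y - 1) else (X, Y)

lemma mod4 (k : ℕ) : k % 4 = 0 ∨ k % 4 = 1 ∨ k % 4 = 2 ∨ k % 4 = 3 := by omega

lemma sv_add (X Y : ℤ) (k : ℕ) : sv X Y (k + 4) = sv X Y k := by
  unfold sv; rw [Nat.add_mod_right]

lemma tv'_add (X Y : ℤ) (k : ℕ) : tv' X Y (k + 4) = tv' X Y k := by
  unfold tv'; rw [Nat.add_mod_right]

/-- both tiles of the side `k` -/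
lemma sv_sides (X Y : ℤ) (k : ℕ) :
    (lt (tv' X Y k) = lab (sv X Y k) ∨ lt (tv' X Y k) = plab (sv X Y k)) ∧
    (lt (tv' X Y (k + 3)) = lab (sv X Y k) ∨ lt (tv' X Y (k + 3)) = plab (sv X Y k)) := by
  unfold tv' sv
  rcases mod4 k with h | h | h | h
  · have h3 : (k + 3) % 4 = 3 := by omega
    simp only [h, h3, if_true, OfNat.ofNat_ne_zero, OfNat.ofNat_ne_one, if_false,
      Nat.reduceEqDiff]
    exact ⟨(eW_sides X Y).2, (eW_sides X Y).1⟩
  · have h3 : (k + 3) % 4 = 0 := by omega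
    simp only [h, h3, if_true, one_ne_zero, if_false]
    exact ⟨(eS_sides (X - 1) Y).2, (eS_sides (X - 1) Y).1⟩
  · have h3 : (k + 3) % 4 = 1 := by omega
    simp only [h, h3, if_true, OfNat.ofNat_ne_zero, OfNat.ofNat_ne_one, one_ne_zero, if_false]
    exact ⟨(eW_sides X (Y - 1)).1, (eW_sides X (Y - 1)).2⟩
  · have h3 : (k + 3) % 4 = 2 := by omega
    simp only [h, h3, if_true, OfNat.ofNat_ne_zero, OfNat.ofNat_ne_one, if_false,
      Nat.reduceEqDiff]
    exact ⟨(eS_sides X Y).1, (eS_sides X Y).2⟩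

/-- the sides at a point are different -/
lemma sv_ne (X Y : ℤ) {k m : ℕ} (h1 : k < m) (h2 : m < k + 4) : sv X Y k ≠ sv X Y m := by
  intro h
  have hm : k % 4 ≠ m % 4 := by omega
  unfold sv at h
  rcases mod4 k with a | a | a | a <;> rcases mod4 m with b | b | b | b <;>
    first
    | exact hm (a.trans b.symm)
    | (simp only [a, b, if_true, OfNat.ofNat_ne_zero, OfNat.ofNat_ne_one, one_ne_zero, if_false,
        Nat.reduceEqDiff] at h
       first
       | exact eW_ne_eS _ _ _ _ h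
       | exact eW_ne_eS _ _ _ _ h.symm
       | (have := eW_inj' h; omega)
       | (have := eS_inj' h; omega))

/-- the tile `t` turns at the point `(X, Y)` -/
def Trn (w : Finset (ℤ × ℤ)) (X Y : ℤ) (t : ℤ × ℤ) : Prop := lt t ∈ w ↔ (X + Y) % 2 = 1

/-- a turning tile joins its two sides at the point -/
lemma adj_sv {X Y : ℤ} {k : ℕ} (hΛ : lt (tv' X Y k) ∈ Λ) (hD : lt (tv' X Y k) ∉ D)
    (ht : Trn w X Y (tv' X Y k)) : (SG Λ D w).Adj (sv X Y k) (sv X Y (k + 1)) := by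
  unfold Trn at ht
  unfold tv' at hΛ hD ht
  unfold sv
  rcases mod4 k with h | h | h | h
  · have h3 : (k + 1) % 4 = 1 := by omega
    simp only [h, h3, if_true, one_ne_zero, if_false] at hΛ hD ht ⊢
    have ha : Al w (X - 1) Y := by unfold Al; rw [ht]; omega
    have := (TJ_al hD ha).2
    rw [eE_lt, sub_add_cancel] at this
    exact ⟨_, hΛ, this.symm⟩
  · have h3 : (k + 1) % 4 = 2 := by omega
    simp only [h, h3, if_true, one_ne_zero, if_false, OfNat.ofNat_ne_zero, OfNat.ofNat_ne_one]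
      at hΛ hD ht ⊢
    have ha : ¬ Al w (X - 1) (Y - 1) := by unfold Al; rw [ht]; omega
    have := (TJ_be hD ha).2
    rw [eN_lt, eE_lt, sub_add_cancel, sub_add_cancel] at this
    exact ⟨_, hΛ, this⟩
  · have h3 : (k + 1) % 4 = 3 := by omega
    simp only [h, h3, if_true, one_ne_zero, if_false, OfNat.ofNat_ne_zero, OfNat.ofNat_ne_one,
      Nat.reduceEqDiff] at hΛ hD ht ⊢
    have ha : Al w X (Y - 1) := by unfold Al; rw [ht]; omega
    have := (TJ_al hD ha).1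
    rw [eN_lt, sub_add_cancel] at this
    exact ⟨_, hΛ, this⟩
  · have h3 : (k + 1) % 4 = 0 := by omega
    simp only [h, h3, if_true, one_ne_zero, if_false, OfNat.ofNat_ne_zero, OfNat.ofNat_ne_one,
      Nat.reduceEqDiff] at hΛ hD ht ⊢
    have ha : ¬ Al w X Y := by unfold Al; rw [ht]; omega
    exact ⟨_, hΛ, (TJ_be hD ha).1.symm⟩

/-- **Rotation.** If all tiles of `Λ` at the point are natural and turn there, an outer side at the point is
joined to another outer side at the point. -/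
lemma rot_pair {X Y : ℤ}
    (hA : ∀ k, lt (tv' X Y k) ∈ Λ → lt (tv' X Y k) ∉ D ∧ Trn w X Y (tv' X Y k)) {k : ℕ}
    (h : (lt (tv' X Y k) ∈ Λ ∧ lt (tv' X Y (k + 3)) ∉ Λ) ∨
      (lt (tv' X Y k) ∉ Λ ∧ lt (tv' X Y (k + 3)) ∈ Λ)) :
    ∃ m, sv X Y m ≠ sv X Y k ∧ (lt (tv' X Y m) ∉ Λ ∨ lt (tv' X Y (m + 3)) ∉ Λ) ∧
      (SG Λ D w).Reachable (sv X Y k) (sv X Y m) := by
  have hadj : ∀ k, lt (tv' X Y k) ∈ Λ → (SG Λ D w).Adj (sv X Y k) (sv X Y (k + 1)) :=
    fun k hk => adj_sv hk (hA k hk).1 (hA k hk).2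
  rcases h with ⟨h0, h3⟩ | ⟨h0, h3⟩
  · have r1 := (hadj _ h0).reachable
    by_cases h1 : lt (tv' X Y (k + 1)) ∈ Λ
    · have r2 := r1.trans (hadj _ h1).reachable
      by_cases h2 : lt (tv' X Y (k + 2)) ∈ Λ
      · have r3 := r2.trans (hadj _ h2).reachable
        exact ⟨k + 3, (sv_ne X Y (by omega) (by omega)).symm, Or.inl h3, r3⟩
      · exact ⟨k + 2, (sv_ne X Y (by omega) (by omega)).symm, Or.inl h2, r2⟩
    · exact ⟨k + 1, (sv_ne X Y (by omega) (by omega)).symm, Or.inl h1, r1⟩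
  · have r1 := (hadj _ h3).reachable.symm
    have e4 : sv X Y (k + 3 + 1) = sv X Y k := by rw [show k + 3 + 1 = k + 4 by rfl, sv_add]
    rw [e4] at r1
    by_cases h2 : lt (tv' X Y (k + 2)) ∈ Λ
    · have r2 := r1.trans (hadj _ h2).reachable.symm
      by_cases h1 : lt (tv' X Y (k + 1)) ∈ Λ
      · have r3 := r2.trans (hadj _ h1).reachable.symm
        refine ⟨k + 1, (sv_ne X Y (by omega) (by omega)).symm, Or.inr ?_, r3⟩
        rw [show k + 1 + 3 = k + 4 by rfl, tv'_add]; exact h0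
      · refine ⟨k + 2, (sv_ne X Y (by omega) (by omega)).symm, Or.inr ?_, r2⟩
        rw [show k + 2 + 3 = k + 1 + 4 by rfl, tv'_add]; exact h1
    · refine ⟨k + 3, (sv_ne X Y (by omega) (by omega)).symm, Or.inr ?_, r1⟩
      rw [show k + 3 + 3 = k + 2 + 4 by rfl, tv'_add]; exact h2

/-! ### Layers -/

/-- local conditions on the layer of the region `Q` in `Λ` (tile coordinates); `M` : diagonal tiles of the
marks, not in `Λ` -/
structure Layer (Λ D : Set (ℤ × ℤ)) (w : Finset (ℤ × ℤ)) (Q M : ℤ → ℤ → Prop) : Prop where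
  near : ∀ x y, lt (x, y) ∉ Λ → ¬ M x y → ∀ i j, -1 ≤ i → i ≤ 1 → -1 ≤ j → j ≤ 1 → ¬ Q (x + i) (y + j)
  same : ∀ x y i j a b, lt (x, y) ∈ Λ → lt (x + i, y + j) ∈ Λ → -1 ≤ i → i ≤ 1 → -1 ≤ j → j ≤ 1 →
    ¬ Q x y → ¬ Q (x + i) (y + j) → lt (x, y) ∉ D → lt (x + i, y + j) ∉ D →
    lt (a, b) ∉ Λ → ¬ M a b → -1 ≤ x - a → x - a ≤ 1 → -1 ≤ y - b → y - b ≤ 1 →
    -1 ≤ x + i - a → x + i - a ≤ 1 → -1 ≤ y + j - b → y + j - b ≤ 1 →
    (lt (x, y) ∈ w ↔ lt (x + i, y + j) ∈ w)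
  del : ∀ x y, lt (x, y) ∈ Λ → lt (x, y) ∈ D → ¬ Q x y → ∃ ε : ℤ, (ε = 1 ∨ ε = -1) ∧ Q (x - ε) y ∧
    lt (x + ε, y) ∉ Λ ∧ lt (x + ε, y + 1) ∉ Λ ∧ lt (x + ε, y - 1) ∉ Λ ∧
    lt (x, y + 1) ∈ Λ ∧ lt (x, y - 1) ∈ Λ ∧ lt (x, y + 1) ∉ D ∧ lt (x, y - 1) ∉ D ∧
    (lt (x, y + 1) ∈ w ↔ lt (x, y - 1) ∉ w)

/-- outside -/
def Osd (Λ : Set (ℤ × ℤ)) (c : ℤ × ℤ) : Prop := lab c ∉ Λ ∨ plab c ∉ Λ

lemma Osd.isEnd {c : ℤ × ℤ} (h : Osd Λ c) : IsEnd (SG Λ D w) c := isEnd_of_notMem h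

lemma osd_of {e c : ℤ × ℤ} (he : e ∉ Λ) (h : e = lab c ∨ e = plab c) : Osd Λ c := by
  rcases h with rfl | rfl
  · exact Or.inl he
  · exact Or.inr he

lemma tv'_rng (X Y : ℤ) (k : ℕ) : X - 1 ≤ (tv' X Y k).1 ∧ (tv' X Y k).1 ≤ X ∧
    Y - 1 ≤ (tv' X Y k).2 ∧ (tv' X Y k).2 ≤ Y := by
  unfold tv'
  split_ifs <;> simp only <;> omega

/-- the strand through a deleted tile of the layer -/
lemma del_pair {x y ε : ℤ} (hε : ε = 1 ∨ ε = -1) (h0 : lt (x, y) ∈ Λ) (hD : lt (x, y) ∈ D)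
    (h1 : lt (x, y + 1) ∈ Λ) (h2 : lt (x, y - 1) ∈ Λ) (d1 : lt (x, y + 1) ∉ D)
    (d2 : lt (x, y - 1) ∉ D) (ho : lt (x, y + 1) ∈ w ↔ lt (x, y - 1) ∉ w)
    (ht : Al w x (y + 1) ↔ ε = 1) :
    (ε = 1 → (SG Λ D w).Reachable (eE (lt (x, y + 1))) (eE (lt (x, y - 1)))) ∧
    (ε = -1 → (SG Λ D w).Reachable (eW (lt (x, y + 1))) (eW (lt (x, y - 1)))) := by
  have hd : (SG Λ D w).Adj (eS (lt (x, y))) (eN (lt (x, y))) := ⟨_, h0, TJ_del hD⟩
  have hs : Al w x (y - 1) ↔ ¬ Al w x (y + 1) := by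
    unfold Al
    have : (x + (y - 1)) % 2 = 0 ↔ (x + (y + 1)) % 2 = 0 := by omega
    rw [this, ho]
    tauto
  have e1 : eN (lt (x, y)) = eS (lt (x, y + 1)) := eN_lt x y
  have e2 : eN (lt (x, y - 1)) = eS (lt (x, y)) := by rw [eN_lt, sub_add_cancel]
  constructor
  · intro h
    have ha := ht.2 h
    have hb : ¬ Al w x (y - 1) := fun h' => hs.1 h' ha
    have a1 : (SG Λ D w).Adj (eS (lt (x, y + 1))) (eE (lt (x, y + 1))) := ⟨_, h1, (TJ_al d1 ha).2⟩
    have a2 : (SG Λ D w).Adj (eN (lt (x, y - 1))) (eE (lt (x, y - 1))) := ⟨_, h2, (TJ_be d2 hb).2⟩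
    rw [← e1] at a1
    rw [e2] at a2
    exact (a1.reachable.symm.trans hd.symm.reachable).trans a2.reachable
  · intro h
    have ha : ¬ Al w x (y + 1) := fun h' => by have := ht.1 h'; omega
    have hb := hs.2 ha
    have a1 : (SG Λ D w).Adj (eW (lt (x, y + 1))) (eS (lt (x, y + 1))) := ⟨_, h1, (TJ_be d1 ha).1⟩
    have a2 : (SG Λ D w).Adj (eW (lt (x, y - 1))) (eN (lt (x, y - 1))) := ⟨_, h2, (TJ_al d2 hb).1⟩
    rw [← e1] at a1
    rw [e2] at a2
    exact (a1.reachable.trans hd.symm.reachable).trans a2.symm.reachable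

variable {Q M : ℤ → ℤ → Prop}

/-- the side between two consecutive tiles at a point -/
lemma c_form {X Y : ℤ} {k m : ℕ} (hkm : m = k + 3 ∨ k = m + 3) {c : ℤ × ℤ}
    (hc : c = if m = k + 3 then sv X Y k else sv X Y m) :
    ((tv' X Y k).2 = (tv' X Y m).2 ∧ (tv' X Y k).1 + (tv' X Y m).1 = 2 * X - 1 ∧
      c = eW (lt (X, (tv' X Y k).2))) ∨
    ((tv' X Y k).1 = (tv' X Y m).1 ∧ (tv' X Y k).2 + (tv' X Y m).2 = 2 * Y - 1 ∧
      c = eS (lt ((tv' X Y k).1, Y))) := by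
  rcases hkm with rfl | rfl
  · rw [if_pos rfl] at hc
    subst hc
    unfold tv' sv
    rcases mod4 k with h | h | h | h
    · have h3 : (k + 3) % 4 = 3 := by omega
      left
      simp only [h, h3, if_true, OfNat.ofNat_ne_zero, OfNat.ofNat_ne_one, if_false,
        Nat.reduceEqDiff]
      exact ⟨trivial, by ring, trivial⟩
    · have h3 : (k + 3) % 4 = 0 := by omega
      right
      simp only [h, h3, if_true, one_ne_zero, if_false]
      exact ⟨trivial, by ring, trivial⟩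
    · have h3 : (k + 3) % 4 = 1 := by omega
      left
      simp only [h, h3, if_true, OfNat.ofNat_ne_zero, OfNat.ofNat_ne_one, one_ne_zero, if_false]
      exact ⟨trivial, by ring, trivial⟩
    · have h3 : (k + 3) % 4 = 2 := by omega
      right
      simp only [h, h3, if_true, OfNat.ofNat_ne_zero, OfNat.ofNat_ne_one, if_false,
        Nat.reduceEqDiff]
      exact ⟨trivial, by ring, trivial⟩
  · rw [if_neg (by omega)] at hc
    subst hc
    unfold tv' sv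
    rcases mod4 m with h | h | h | h
    · have h3 : (m + 3) % 4 = 3 := by omega
      left
      simp only [h, h3, if_true, OfNat.ofNat_ne_zero, OfNat.ofNat_ne_one, if_false,
        Nat.reduceEqDiff]
      exact ⟨trivial, by ring, trivial⟩
    · have h3 : (m + 3) % 4 = 0 := by omega
      right
      simp only [h, h3, if_true, one_ne_zero, if_false]
      exact ⟨trivial, by ring, trivial⟩
    · have h3 : (m + 3) % 4 = 1 := by omega
      left
      simp only [h, h3, if_true, OfNat.ofNat_ne_zero, OfNat.ofNat_ne_one, one_ne_zero, if_false]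
      exact ⟨trivial, by ring, trivial⟩
    · have h3 : (m + 3) % 4 = 2 := by omega
      right
      simp only [h, h3, if_true, OfNat.ofNat_ne_zero, OfNat.ofNat_ne_one, if_false,
        Nat.reduceEqDiff]
      exact ⟨trivial, by ring, trivial⟩

/-- `(a, b)` is the tile number `k` at the point -/
lemma tv'_surj {X Y a b : ℤ} (h1 : X - 1 ≤ a) (h2 : a ≤ X) (h3 : Y - 1 ≤ b) (h4 : b ≤ Y) :
    ∃ k, tv' X Y k = (a, b) := by
  have ha : a = X - 1 ∨ a = X := by omega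
  have hb : b = Y - 1 ∨ b = Y := by omega
  rcases ha with rfl | rfl <;> rcases hb with rfl | rfl
  · exact ⟨1, rfl⟩
  · exact ⟨0, rfl⟩
  · exact ⟨2, rfl⟩
  · exact ⟨3, rfl⟩

lemma Layer.del_case (L : Layer Λ D w Q M) {X Y : ℤ} {u v t c : ℤ × ℤ}
    (hQ : ∀ a b, X - 1 ≤ a → a ≤ X → Y - 1 ≤ b → b ≤ Y → ¬ Q a b)
    (c1 : X - 1 ≤ u.1) (c2 : u.1 ≤ X) (c3 : Y - 1 ≤ u.2) (c4 : u.2 ≤ Y)
    (a1 : X - 1 ≤ t.1) (a2 : t.1 ≤ X) (a3 : Y - 1 ≤ t.2) (a4 : t.2 ≤ Y)
    (hk : lt u ∈ Λ) (hm : lt v ∉ Λ) (hD : lt u ∉ D) (ht : Trn w X Y u) (hj : lt t ∈ Λ)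
    (hjD : lt t ∈ D)
    (hform : (u.2 = v.2 ∧ u.1 + v.1 = 2 * X - 1 ∧ c = eW (lt (X, u.2))) ∨
      (u.1 = v.1 ∧ u.2 + v.2 = 2 * Y - 1 ∧ c = eS (lt (u.1, Y)))) :
    ∃ c', c' ≠ c ∧ Osd Λ c' ∧ (SG Λ D w).Reachable c c' := by
  obtain ⟨x0, y0⟩ := t
  obtain ⟨xk, yk⟩ := u
  obtain ⟨xm, ym⟩ := v
  simp only at *
  obtain ⟨ε, hε, q1, o0, o1, o2, n1, n2, d1, d2, ho⟩ := L.del _ _ hj hjD (hQ _ _ a1 a2 a3 a4)
  have hnot : ¬ (X - 1 ≤ x0 - ε ∧ x0 - ε ≤ X) := fun h => hQ _ _ h.1 h.2 a3 a4 q1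
  have hne1 : (xk, yk) ≠ (x0, y0) := fun h => hD (h ▸ hjD)
  have hne2 : (xm, ym) ≠ (x0, y0) := fun h => hm (h ▸ hj)
  have hxk : xk = x0 := by
    by_contra hne
    have h1 : xk = x0 + ε := by omega
    subst h1
    rcases (show yk = y0 ∨ yk = y0 + 1 ∨ yk = y0 - 1 by omega) with h | h | h
    · subst h; exact o0 hk
    · subst h; exact o1 hk
    · subst h; exact o2 hk
  subst hxk
  have hyk : yk ≠ y0 := fun h => hne1 (by rw [h])
  rcases hform with ⟨e1, e2, e3⟩ | ⟨e1, e2, -⟩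
  · subst e3
    have hpar : Al w xk (y0 + 1) ↔ ε = 1 := by
      unfold Trn at ht
      unfold Al
      rcases (show yk = y0 + 1 ∨ yk = y0 - 1 by omega) with h | h
      · subst h
        rw [ht]
        omega
      · subst h
        rw [ho, ht]
        omega
    obtain ⟨p1, p2⟩ := del_pair hε hj hjD n1 n2 d1 d2 ho hpar
    rcases hε with rfl | rfl
    · have hX : X = xk + 1 := by omega
      subst hX
      have p1 := p1 rfl
      rw [eE_lt, eE_lt] at p1
      rcases (show yk = y0 + 1 ∨ yk = y0 - 1 by omega) with h | h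
      · subst h
        exact ⟨_, fun h => by have := (eW_inj' h).2; omega, osd_of o2 (eW_sides _ _).1, p1⟩
      · subst h
        exact ⟨_, fun h => by have := (eW_inj' h).2; omega, osd_of o1 (eW_sides _ _).1, p1.symm⟩
    · have hX : X = xk := by omega
      subst hX
      have p2 := p2 rfl
      have e : X - 1 = X + -1 := by ring
      rcases (show yk = y0 + 1 ∨ yk = y0 - 1 by omega) with h | h
      · subst h
        exact ⟨_, fun h => by have := (eW_inj' h).2; omega,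
          osd_of (e ▸ o2 : lt (X - 1, y0 - 1) ∉ Λ) (eW_sides _ _).2, p2⟩
      · subst h
        exact ⟨_, fun h => by have := (eW_inj' h).2; omega,
          osd_of (e ▸ o1 : lt (X - 1, y0 + 1) ∉ Λ) (eW_sides _ _).2, p2.symm⟩
  · exact absurd (show ((xm, ym) : ℤ × ℤ) = (xk, y0) by
      rw [← e1]; congr 1; omega) hne2

/-- an outer side at the point `(X, Y)`, not at a mark, whose inner tile is natural and turns there -/
lemma Layer.pair (L : Layer Λ D w Q M) {X Y : ℤ} {k m : ℕ} (hkm : m = k + 3 ∨ k = m + 3)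
    (hk : lt (tv' X Y k) ∈ Λ) (hm : lt (tv' X Y m) ∉ Λ) (hmM : ¬ M (tv' X Y m).1 (tv' X Y m).2)
    (hD : lt (tv' X Y k) ∉ D) (ht : Trn w X Y (tv' X Y k)) (c : ℤ × ℤ)
    (hc : c = if m = k + 3 then sv X Y k else sv X Y m) :
    ∃ c', c' ≠ c ∧ Osd Λ c' ∧ (SG Λ D w).Reachable c c' := by
  have hQ : ∀ j, ¬ Q (tv' X Y j).1 (tv' X Y j).2 := by
    intro j
    obtain ⟨a1, a2, a3, a4⟩ := tv'_rng X Y j
    obtain ⟨b1, b2, b3, b4⟩ := tv'_rng X Y m
    have := L.near (tv' X Y m).1 (tv' X Y m).2 hm hmM ((tv' X Y j).1 - (tv' X Y m).1)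
      ((tv' X Y j).2 - (tv' X Y m).2) (by omega) (by omega) (by omega) (by omega)
    rwa [add_sub_cancel, add_sub_cancel] at this
  by_cases hall : ∀ j, lt (tv' X Y j) ∈ Λ → lt (tv' X Y j) ∉ D
  · -- rotation
    have hA : ∀ j, lt (tv' X Y j) ∈ Λ → lt (tv' X Y j) ∉ D ∧ Trn w X Y (tv' X Y j) := by
      intro j hj
      refine ⟨hall j hj, ?_⟩
      obtain ⟨a1, a2, a3, a4⟩ := tv'_rng X Y j
      obtain ⟨b1, b2, b3, b4⟩ := tv'_rng X Y m
      obtain ⟨c1, c2, c3, c4⟩ := tv'_rng X Y k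
      have e1 : (tv' X Y k).1 + ((tv' X Y j).1 - (tv' X Y k).1) = (tv' X Y j).1 := by ring
      have e2 : (tv' X Y k).2 + ((tv' X Y j).2 - (tv' X Y k).2) = (tv' X Y j).2 := by ring
      have h1 := L.same (tv' X Y k).1 (tv' X Y k).2 ((tv' X Y j).1 - (tv' X Y k).1)
        ((tv' X Y j).2 - (tv' X Y k).2) (tv' X Y m).1 (tv' X Y m).2 hk
        (by rw [e1, e2]; exact hj) (by omega) (by omega) (by omega) (by omega) (hQ k)
        (by rw [e1, e2]; exact hQ j) hD (by rw [e1, e2]; exact hall j hj) hm hmM (by omega)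
        (by omega) (by omega) (by omega) (by omega) (by omega) (by omega) (by omega)
      rw [e1, e2] at h1
      unfold Trn at ht ⊢
      exact h1.symm.trans ht
    rcases hkm with rfl | rfl
    · rw [if_pos rfl] at hc
      obtain ⟨m', h1, h2, h3⟩ := rot_pair hA (k := k) (Or.inl ⟨hk, hm⟩)
      rw [hc]
      refine ⟨_, h1, ?_, h3⟩
      rcases h2 with h2 | h2
      · exact osd_of h2 (sv_sides X Y m').1
      · exact osd_of h2 (sv_sides X Y m').2
    · rw [if_neg (by omega)] at hc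
      obtain ⟨m', h1, h2, h3⟩ := rot_pair hA (k := m) (Or.inr ⟨hm, hk⟩)
      rw [hc]
      refine ⟨_, h1, ?_, h3⟩
      rcases h2 with h2 | h2
      · exact osd_of h2 (sv_sides X Y m').1
      · exact osd_of h2 (sv_sides X Y m').2
  · -- through a deleted tile
    push Not at hall
    obtain ⟨j, hj, hjD⟩ := hall
    obtain ⟨a1, a2, a3, a4⟩ := tv'_rng X Y j
    obtain ⟨b1, b2, b3, b4⟩ := tv'_rng X Y m
    obtain ⟨c1, c2, c3, c4⟩ := tv'_rng X Y k
    refine L.del_case ?_ c1 c2 c3 c4 a1 a2 a3 a4 hk hm hD ht hj hjD (c_form hkm hc)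
    intro a b h1 h2 h3 h4
    obtain ⟨k', hk'⟩ := tv'_surj h1 h2 h3 h4
    have := hQ k'
    rw [hk'] at this
    exact this

/-- **Outer sides.** A side of a tile of `Λ` towards the outside, not at a mark: it is isolated (west or
east side of a deleted tile) or joined to another outer side. -/
theorem Layer.outer (L : Layer Λ D w Q M) {x y : ℤ} :
    (lt (x, y) ∈ Λ → lt (x - 1, y) ∉ Λ → ¬ M (x - 1) y → lt (x, y) ∉ D →
      ∃ c', c' ≠ eW (lt (x, y)) ∧ Osd Λ c' ∧ (SG Λ D w).Reachable (eW (lt (x, y))) c') ∧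
    (lt (x - 1, y) ∈ Λ → lt (x, y) ∉ Λ → ¬ M x y → lt (x - 1, y) ∉ D →
      ∃ c', c' ≠ eW (lt (x, y)) ∧ Osd Λ c' ∧ (SG Λ D w).Reachable (eW (lt (x, y))) c') ∧
    (lt (x, y) ∈ Λ → lt (x, y - 1) ∉ Λ → ¬ M x (y - 1) → lt (x, y) ∉ D →
      ∃ c', c' ≠ eS (lt (x, y)) ∧ Osd Λ c' ∧ (SG Λ D w).Reachable (eS (lt (x, y))) c') ∧
    (lt (x, y - 1) ∈ Λ → lt (x, y) ∉ Λ → ¬ M x y → lt (x, y - 1) ∉ D →
      ∃ c', c' ≠ eS (lt (x, y)) ∧ Osd Λ c' ∧ (SG Λ D w).Reachable (eS (lt (x, y))) c') := by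
  have flip : ∀ {e : ℤ × ℤ} {X Y X' Y' : ℤ}, ¬ Trn w X Y e → X' + Y' = X + Y + 1 → Trn w X' Y' e := by
    intro e X Y X' Y' h h'
    unfold Trn at *
    rw [h']
    by_cases h1 : lt e ∈ w
    · simp only [h1, true_iff] at h ⊢; omega
    · simp only [h1, false_iff] at h ⊢; omega
  have ex : x + 1 - 1 = x := by ring
  have ey : y + 1 - 1 = y := by ring
  refine ⟨fun hk hm hM hD => ?_, fun hk hm hM hD => ?_, fun hk hm hM hD => ?_,
    fun hk hm hM hD => ?_⟩
  · by_cases ht : Trn w x y (x, y)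
    · exact L.pair (X := x) (Y := y) (k := 3) (m := 0) (Or.inr rfl) hk hm hM hD ht _ rfl
    · have ht' : Trn w x (y + 1) (x, y + 1 - 1) := by
        rw [ey]; exact flip ht (by ring)
      rw [← ey] at hk hm hM hD ⊢
      exact L.pair (X := x) (Y := y + 1) (k := 2) (m := 5) (Or.inl rfl) hk hm hM hD ht' _ rfl
  · by_cases ht : Trn w x y (x - 1, y)
    · exact L.pair (X := x) (Y := y) (k := 0) (m := 3) (Or.inl rfl) hk hm hM hD ht _ rfl
    · have ht' : Trn w x (y + 1) (x - 1, y + 1 - 1) := by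
        rw [ey]; exact flip ht (by ring)
      rw [← ey] at hk hm hM hD ⊢
      exact L.pair (X := x) (Y := y + 1) (k := 5) (m := 2) (Or.inr rfl) hk hm hM hD ht' _ rfl
  · by_cases ht : Trn w x y (x, y)
    · exact L.pair (X := x) (Y := y) (k := 3) (m := 6) (Or.inl rfl) hk hm hM hD ht _ rfl
    · have ht' : Trn w (x + 1) y (x + 1 - 1, y) := by
        rw [ex]; exact flip ht (by ring)
      rw [← ex] at hk hm hM hD ⊢
      exact L.pair (X := x + 1) (Y := y) (k := 4) (m := 1) (Or.inr rfl) hk hm hM hD ht' _ rfl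
  · by_cases ht : Trn w x y (x, y - 1)
    · exact L.pair (X := x) (Y := y) (k := 6) (m := 3) (Or.inr rfl) hk hm hM hD ht _ rfl
    · have ht' : Trn w (x + 1) y (x + 1 - 1, y - 1) := by
        rw [ex]; exact flip ht (by ring)
      rw [← ex] at hk hm hM hD ⊢
      exact L.pair (X := x + 1) (Y := y) (k := 1) (m := 4) (Or.inl rfl) hk hm hM hD ht' _ rfl

/-! ### Inner sides -/

/-- a horizontal side between two tiles of `Λ` is not an end -/
lemma not_isEnd_eS (h1 : lt (x, y) ∈ Λ) (h2 : lt (x, y - 1) ∈ Λ) :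
    ¬ IsEnd (SG Λ D w) (eS (lt (x, y))) := by
  intro hE
  have ey : eN (lt (x, y - 1)) = eS (lt (x, y)) := by rw [eN_lt, sub_add_cancel]
  -- neighbour through the upper tile
  have hup : ∃ c, (SG Λ D w).Adj (eS (lt (x, y))) c ∧
      (c = eW (lt (x, y)) ∨ c = eW (lt (x + 1, y)) ∨ c = eS (lt (x, y + 1))) := by
    by_cases hD : lt (x, y) ∈ D
    · exact ⟨_, ⟨_, h1, TJ_del hD⟩, Or.inr (Or.inr (eN_lt _ _))⟩
    · by_cases ha : Al w x y
      · exact ⟨_, ⟨_, h1, (TJ_al hD ha).2⟩, Or.inr (Or.inl (eE_lt _ _))⟩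
      · exact ⟨_, ⟨_, h1, (TJ_be hD ha).1.symm⟩, Or.inl rfl⟩
  have hdn : ∃ c, (SG Λ D w).Adj (eS (lt (x, y))) c ∧
      (c = eW (lt (x, y - 1)) ∨ c = eW (lt (x + 1, y - 1)) ∨ c = eS (lt (x, y - 1))) := by
    rw [← ey]
    by_cases hD : lt (x, y - 1) ∈ D
    · exact ⟨_, ⟨_, h2, (H21.W.TJ_del hD).symm⟩, Or.inr (Or.inr rfl)⟩
    · by_cases ha : Al w x (y - 1)
      · exact ⟨_, ⟨_, h2, (TJ_al hD ha).1.symm⟩, Or.inl rfl⟩
      · exact ⟨_, ⟨_, h2, (TJ_be hD ha).2⟩, Or.inr (Or.inl (eE_lt _ _))⟩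
  obtain ⟨c, hc, hc'⟩ := hup
  obtain ⟨d, hd, hd'⟩ := hdn
  have := hE _ _ hc hd
  subst this
  rcases hc' with h | h | h <;> rcases hd' with h' | h' | h' <;>
    first
    | exact eW_ne_eS _ _ _ _ (h.symm.trans h')
    | exact eW_ne_eS _ _ _ _ (h'.symm.trans h)
    | (have := eW_inj' (h.symm.trans h'); omega)
    | (have := eS_inj' (h.symm.trans h'); omega)

/-- a vertical side between two natural tiles of `Λ` is not an end -/
lemma not_isEnd_eW (h1 : lt (x, y) ∈ Λ) (h2 : lt (x - 1, y) ∈ Λ) (d1 : lt (x, y) ∉ D)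
    (d2 : lt (x - 1, y) ∉ D) : ¬ IsEnd (SG Λ D w) (eW (lt (x, y))) := by
  intro hE
  have ex : eE (lt (x - 1, y)) = eW (lt (x, y)) := by rw [eE_lt, sub_add_cancel]
  have hr : ∃ c, (SG Λ D w).Adj (eW (lt (x, y))) c ∧
      (c = eS (lt (x, y)) ∨ c = eS (lt (x, y + 1))) := by
    by_cases ha : Al w x y
    · exact ⟨_, ⟨_, h1, (TJ_al d1 ha).1⟩, Or.inr (eN_lt _ _)⟩
    · exact ⟨_, ⟨_, h1, (TJ_be d1 ha).1⟩, Or.inl rfl⟩
  have hl : ∃ c, (SG Λ D w).Adj (eW (lt (x, y))) c ∧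
      (c = eS (lt (x - 1, y)) ∨ c = eS (lt (x - 1, y + 1))) := by
    rw [← ex]
    by_cases ha : Al w (x - 1) y
    · exact ⟨_, ⟨_, h2, (TJ_al d2 ha).2.symm⟩, Or.inl rfl⟩
    · exact ⟨_, ⟨_, h2, (TJ_be d2 ha).2.symm⟩, Or.inr (eN_lt _ _)⟩
  obtain ⟨c, hc, hc'⟩ := hr
  obtain ⟨d, hd, hd'⟩ := hl
  have := hE _ _ hc hd
  subst this
  rcases hc' with h | h <;> rcases hd' with h' | h' <;>
    (have := eS_inj' (h.symm.trans h'); omega)

/-- a vertical side none of whose tiles is natural in `Λ` is isolated -/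
lemma iso_eW (h1 : lt (x, y) ∈ Λ → lt (x, y) ∈ D) (h2 : lt (x - 1, y) ∈ Λ → lt (x - 1, y) ∈ D)
    (c : ℤ × ℤ) : ¬ (SG Λ D w).Adj (eW (lt (x, y))) c := by
  have ex : eE (lt (x - 1, y)) = eW (lt (x, y)) := by rw [eE_lt, sub_add_cancel]
  rintro ⟨e, he, h⟩
  have hl : e = lt (x, y) ∨ e = lt (x - 1, y) := by
    have h3 := h.label
    obtain ⟨k1, k2⟩ := eW_sides x y
    have hne : lt (x, y) ≠ lt (x - 1, y) := fun h => by
      have h4 := congrArg Prod.fst (lt_inj h)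
      simp only at h4
      omega
    rcases h3 with h3 | h3 <;> rcases k1 with k1 | k1 <;> rcases k2 with k2 | k2
    all_goals first
      | exact Or.inl (h3.trans k1.symm)
      | exact Or.inr (h3.trans k2.symm)
      | exact absurd (k1.trans k2.symm) hne
  rcases hl with rfl | rfl
  · exact not_TJ_eW (h1 he) h
  · rw [← ex] at h
    exact not_TJ_eE (h2 he) h

/-- a horizontal side none of whose tiles belongs to `Λ` is isolated -/
lemma iso_eS (h1 : lt (x, y) ∉ Λ) (h2 : lt (x, y - 1) ∉ Λ)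
    (c : ℤ × ℤ) : ¬ (SG Λ D w).Adj (eS (lt (x, y))) c := by
  rintro ⟨e, he, h⟩
  have hl : e = lt (x, y) ∨ e = lt (x, y - 1) := by
    have h3 := h.label
    obtain ⟨k1, k2⟩ := eS_sides x y
    have hne : lt (x, y) ≠ lt (x, y - 1) := fun h => by
      have h4 := congrArg Prod.snd (lt_inj h)
      simp only at h4
      omega
    rcases h3 with h3 | h3 <;> rcases k1 with k1 | k1 <;> rcases k2 with k2 | k2
    all_goals first
      | exact Or.inl (h3.trans k1.symm)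
      | exact Or.inr (h3.trans k2.symm)
      | exact absurd (k1.trans k2.symm) hne
  rcases hl with rfl | rfl
  · exact h1 he
  · exact h2 he

/-- a deleted tile has its lower and upper neighbours in `Λ`, except at a mark -/
lemma Layer.del_up (L : Layer Λ D w Q M) (h1 : lt (x, y) ∈ Λ) (hD : lt (x, y) ∈ D) :
    (lt (x, y - 1) ∈ Λ ∨ M x (y - 1)) ∧ (lt (x, y + 1) ∈ Λ ∨ M x (y + 1)) := by
  by_cases hQ : Q x y
  · constructor
    · by_contra hno
      push Not at hno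
      have := L.near x (y - 1) hno.1 hno.2 0 1 (by norm_num) (by norm_num) (by norm_num) (by norm_num)
      rw [add_zero, sub_add_cancel] at this
      exact this hQ
    · by_contra hno
      push Not at hno
      have := L.near x (y + 1) hno.1 hno.2 0 (-1) (by norm_num) (by norm_num) (by norm_num)
        (by norm_num)
      rw [add_zero, add_neg_cancel_right] at this
      exact this hQ
  · obtain ⟨ε, -, -, -, -, -, n1, n2, -⟩ := L.del x y h1 hD hQ
    exact ⟨Or.inl n2, Or.inl n1⟩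

/-! ### The far end -/

/-- **Existence of the far end**, for every configuration. `F` contains the sides of `Λ` at the marks and
the inner ends of the deleted rows other than `z`. -/
theorem Layer.far (L : Layer Λ D w Q M) (hfin : Λ.Finite) {z : ℤ × ℤ} (hz : IsEnd (SG Λ D w) z)
    (hz' : ∃ a, (SG Λ D w).Adj z a) (hzi : ¬ Osd Λ z) {F : Set (ℤ × ℤ)}
    (hM : ∀ x y, M x y → ∀ c, (lt (x, y) = lab c ∨ lt (x, y) = plab c) →
      (lab c ∈ Λ ∨ plab c ∈ Λ) → c ∈ F)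
    (hin : ∀ x y, lt (x - 1, y) ∈ Λ → lt (x, y) ∈ Λ → ¬ (lt (x - 1, y) ∈ D ↔ lt (x, y) ∈ D) →
      eW (lt (x, y)) = z ∨ eW (lt (x, y)) ∈ F) :
    ∃ c ∈ F, c ≠ z ∧ IsEnd (SG Λ D w) c ∧ (SG Λ D w).Reachable z c := by
  obtain ⟨b, hbz, hb, hzb⟩ := sg_partner hfin hz hz'
  have hnb : ∃ a, (SG Λ D w).Adj b a := by
    obtain ⟨p⟩ := hzb.symm
    cases p with
    | nil => exact absurd rfl hbz
    | cons h _ => exact ⟨_, h⟩
  have hno : ¬ ∃ c', c' ≠ b ∧ Osd Λ c' ∧ (SG Λ D w).Reachable b c' := by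
    rintro ⟨c', h1, h2, h3⟩
    rcases ends_two SG_deg2 hz hb h2.isEnd hzb (hzb.trans h3) hbz.symm with h4 | h4
    · exact hzi (h4 ▸ h2)
    · exact h1 h4
  suffices hF : b ∈ F from ⟨b, hF, hbz, hb, hzb⟩
  rcases side_exists b with ⟨x, y, rfl⟩ | ⟨x, y, rfl⟩
  · obtain ⟨s1, s2⟩ := eW_sides x y
    have hor : ∀ {e : ℤ × ℤ}, (e = lab (eW (lt (x, y))) ∨ e = plab (eW (lt (x, y)))) → e ∈ Λ →
        (lab (eW (lt (x, y))) ∈ Λ ∨ plab (eW (lt (x, y))) ∈ Λ) := by
      rintro e (rfl | rfl) h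
      · exact Or.inl h
      · exact Or.inr h
    by_cases h1 : lt (x, y) ∈ Λ <;> by_cases h2 : lt (x - 1, y) ∈ Λ
    · by_cases hd : lt (x - 1, y) ∈ D ↔ lt (x, y) ∈ D
      · by_cases hd2 : lt (x, y) ∈ D
        · exact absurd hnb.choose_spec (iso_eW (fun _ => hd2) (fun _ => hd.2 hd2) _)
        · exact absurd hb (not_isEnd_eW h1 h2 hd2 (fun h => hd2 (hd.1 h)))
      · exact (hin x y h2 h1 hd).resolve_left hbz
    · by_cases hM' : M (x - 1) y
      · exact hM _ _ hM' _ s2 (hor s1 h1)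
      · by_cases hD : lt (x, y) ∈ D
        · exact absurd hnb.choose_spec (iso_eW (fun _ => hD) (fun h => absurd h h2) _)
        · exact absurd (L.outer.1 h1 h2 hM' hD) hno
    · by_cases hM' : M x y
      · exact hM _ _ hM' _ s1 (hor s2 h2)
      · by_cases hD : lt (x - 1, y) ∈ D
        · exact absurd hnb.choose_spec (iso_eW (fun h => absurd h h1) (fun _ => hD) _)
        · exact absurd (L.outer.2.1 h2 h1 hM' hD) hno
    · exact absurd hnb.choose_spec (iso_eW (fun h => absurd h h1) (fun h => absurd h h2) _)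
  · obtain ⟨s1, s2⟩ := eS_sides x y
    have hor : ∀ {e : ℤ × ℤ}, (e = lab (eS (lt (x, y))) ∨ e = plab (eS (lt (x, y)))) → e ∈ Λ →
        (lab (eS (lt (x, y))) ∈ Λ ∨ plab (eS (lt (x, y))) ∈ Λ) := by
      rintro e (rfl | rfl) h
      · exact Or.inl h
      · exact Or.inr h
    by_cases h1 : lt (x, y) ∈ Λ <;> by_cases h2 : lt (x, y - 1) ∈ Λ
    · exact absurd hb (not_isEnd_eS h1 h2)
    · by_cases hM' : M x (y - 1)
      · exact hM _ _ hM' _ s2 (hor s1 h1)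
      · by_cases hD : lt (x, y) ∈ D
        · exact absurd (L.del_up h1 hD).1 (not_or.2 ⟨h2, hM'⟩)
        · exact absurd (L.outer.2.2.1 h1 h2 hM' hD) hno
    · by_cases hM' : M x y
      · exact hM _ _ hM' _ s1 (hor s2 h2)
      · by_cases hD : lt (x, y - 1) ∈ D
        · have := (L.del_up h2 hD).2
          rw [sub_add_cancel] at this
          exact absurd this (not_or.2 ⟨h1, hM'⟩)
        · exact absurd (L.outer.2.2.2 h2 h1 hM' hD) hno
    · exact absurd hnb.choose_spec (iso_eS h1 h2 _)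

end Pool.Agent.H80.W
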