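import Mathlib
import Pool.Agent.H80.W.Ends
import Pool.Agent.H70.W.WallBlk

set_option autoImplicit false
open Finset

/-! # A block of the upper part of a world is a block of the whole world

The mark on the upper bank of the solid chunk `P`: row `0` is deleted left of `x1`, the rows `1 ..` left of `x1`
have the colour `¬ o`, everything else near the rows `-1 .. 1` has the colour `o`. `Λ` is cut along the line
`y = 1`: a set `I` with one exit for the tiles `y ≥ 1` extends to a set with the same exit for all tiles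
(`Slb.glue`), because the solid tiles below the line join the interface sides in the same pairs as the solid
tiles above it, except the foot of the gap strand, which is joined to the mark end `mc`. -/

namespace Pool.Agent.H80.W

open Pool.Agent.H75.Perc Pool.Agent.H75.TwoArm Pool.Agent.H13.W Pool.Agent.H99.W Pool.Agent.H33.Q1
open Pool.Agent.H21.W Pool.Agent.H47.W

variable {Λ D : Set (ℤ × ℤ)} {w : Finset (ℤ × ℤ)} {x y x1 xa xb : ℤ} {o : Prop}

/-- tiles in the rows `≥ k` -/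
def Upp (Λ : Set (ℤ × ℤ)) (k : ℤ) : Set (ℤ × ℤ) := {e | e ∈ Λ ∧ k ≤ (tt e).2}

/-- tiles in the rows `< k` -/
def Low (Λ : Set (ℤ × ℤ)) (k : ℤ) : Set (ℤ × ℤ) := {e | e ∈ Λ ∧ (tt e).2 < k}

lemma mem_Upp {k : ℤ} : lt (x, y) ∈ Upp Λ k ↔ lt (x, y) ∈ Λ ∧ k ≤ y := by
  unfold Upp; rw [Set.mem_ofPred_eq, tt_lt]

lemma mem_Low {k : ℤ} : lt (x, y) ∈ Low Λ k ↔ lt (x, y) ∈ Λ ∧ y < k := by
  unfold Low; rw [Set.mem_ofPred_eq, tt_lt]

/-- **The solid slab near the mark**, columns `xa ≤ x ≤ xb` -/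
structure Slb (Λ D : Set (ℤ × ℤ)) (w : Finset (ℤ × ℤ)) (x1 xa xb : ℤ) (o : Prop) : Prop where
  ha : xa + 1 < x1
  hb : x1 + 1 < xb
  mem : ∀ x y, xa ≤ x → x ≤ xb → -1 ≤ y → y ≤ 1 → lt (x, y) ∈ Λ
  d1 : ∀ x, xa ≤ x → x ≤ xb → lt (x, 1) ∉ D ∧ lt (x, -1) ∉ D
  d0 : ∀ x, xa ≤ x → x ≤ xb → (lt (x, 0) ∈ D ↔ x < x1)
  w1 : ∀ x, xa ≤ x → x < x1 → (lt (x, 1) ∈ w ↔ ¬ o)
  w1' : ∀ x, x1 ≤ x → x ≤ xb → (lt (x, 1) ∈ w ↔ o)
  w0 : ∀ x, x1 ≤ x → x ≤ xb → (lt (x, 0) ∈ w ↔ o)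
  wl : ∀ x, xa ≤ x → x ≤ xb → (lt (x, -1) ∈ w ↔ o)

variable (S : Slb Λ D w x1 xa xb o)

include S

/-- states in the slab: row `1` to the right -/
lemma Slb.al_pos (h1 : x1 ≤ x) (h2 : x ≤ xb) : (Al w x 1 ↔ ¬ Al w x 0) ∧ (Al w x 0 ↔ ¬ Al w x (-1)) := by
  have ha := S.ha
  have a1 := S.w1' x h1 h2
  have a0 := S.w0 x h1 h2
  have a2 := S.wl x (by omega) h2
  unfold Al
  rw [a1, a0, a2]
  have e1 : (x + 1) % 2 = 0 ↔ ¬ (x + 0) % 2 = 0 := by omega
  have e2 : (x + -1) % 2 = 0 ↔ ¬ (x + 0) % 2 = 0 := by omega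
  rw [e1, e2]
  tauto

lemma Slb.al_neg (h1 : xa ≤ x) (h2 : x < x1) : (Al w x 1 ↔ ¬ Al w x (-1)) := by
  have hb := S.hb
  have a1 := S.w1 x h1 h2
  have a2 := S.wl x h1 (by omega)
  unfold Al
  rw [a1, a2]
  have e2 : (x + -1) % 2 = 0 ↔ (x + 1) % 2 = 0 := by omega
  rw [e2]
  tauto

/-- the rows alternate -/
lemma Slb.al_step1 (h1 : xa ≤ x) (h2 : x < xb) :
    (Al w x 1 ↔ (if x + 1 = x1 then Al w (x + 1) 1 else ¬ Al w (x + 1) 1)) ∧
      (Al w x (-1) ↔ ¬ Al w (x + 1) (-1)) := by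
  have c2 := S.wl x h1 h2.le
  have c2' := S.wl (x + 1) (by omega) (by omega)
  have e1 : (x + 1 + 1) % 2 = 0 ↔ ¬ (x + 1) % 2 = 0 := by omega
  have e2 : (x + 1 + -1) % 2 = 0 ↔ ¬ (x + -1) % 2 = 0 := by omega
  refine ⟨?_, ?_⟩
  · unfold Al
    rw [e1]
    by_cases h3 : x + 1 = x1
    · rw [if_pos h3, S.w1 x h1 (by omega), S.w1' (x + 1) (by omega) (by omega)]
      tauto
    · rw [if_neg h3]
      rcases lt_or_ge x x1 with h4 | h4
      · rw [S.w1 x h1 h4, S.w1 (x + 1) (by omega) (by omega)]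
        tauto
      · rw [S.w1' x h4 h2.le, S.w1' (x + 1) (by omega) (by omega)]
        tauto
  · unfold Al
    rw [c2, c2', e2]
    tauto

lemma Slb.al_step0 (h1 : x1 ≤ x) (h2 : x < xb) : Al w x 0 ↔ ¬ Al w (x + 1) 0 := by
  unfold Al
  have e2 : (x + 1 + 0) % 2 = 0 ↔ ¬ (x + 0) % 2 = 0 := by omega
  rw [S.w0 x h1 h2.le, S.w0 (x + 1) (by omega) (by omega), e2]
  tauto

/-- **the pairing below the line**, two neighbouring columns on the same side of `x1` -/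
lemma Slb.low_pair (h1 : xa ≤ x) (h2 : x < xb) (hx : x + 1 ≠ x1) (ha : Al w x 1) :
    (SG (Low Λ 1) D w).Reachable (eS (lt (x, 1))) (eS (lt (x + 1, 1))) := by
  have hb := S.hb
  have haa := S.ha
  have ee : eE (lt (x, 0)) = eW (lt (x + 1, 0)) := eE_lt _ _
  have ee' : eE (lt (x, -1)) = eW (lt (x + 1, -1)) := eE_lt _ _
  have en : ∀ x : ℤ, eN (lt (x, 0)) = eS (lt (x, 1)) := fun x => by
    have := eN_lt x 0; simpa using this
  have en' : ∀ x : ℤ, eN (lt (x, -1)) = eS (lt (x, 0)) := fun x => by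
    have := eN_lt x (-1); simpa using this
  have m0 : ∀ x, xa ≤ x → x ≤ xb → lt (x, 0) ∈ Low Λ 1 := fun x h1 h2 =>
    mem_Low.2 ⟨S.mem x 0 h1 h2 (by norm_num) (by norm_num), by norm_num⟩
  have m1 : ∀ x, xa ≤ x → x ≤ xb → lt (x, -1) ∈ Low Λ 1 := fun x h1 h2 =>
    mem_Low.2 ⟨S.mem x (-1) h1 h2 (by norm_num) (by norm_num), by norm_num⟩
  rcases lt_or_ge x x1 with h3 | h3
  · -- left of `x1` : through the deleted row
    have h4 : x + 1 < x1 := by omega
    have b1 : ¬ Al w x (-1) := (S.al_neg h1 h3).1 ha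
    have b2 : Al w (x + 1) (-1) := by
      have := (S.al_step1 h1 h2).2
      tauto
    have s1 : (SG (Low Λ 1) D w).Adj (eS (lt (x, 0))) (eN (lt (x, 0))) :=
      ⟨_, m0 x h1 h2.le, H21.W.TJ_del ((S.d0 x h1 h2.le).2 h3)⟩
    have s2 : (SG (Low Λ 1) D w).Adj (eN (lt (x, -1))) (eE (lt (x, -1))) :=
      ⟨_, m1 x h1 h2.le, (TJ_be (S.d1 x h1 h2.le).2 b1).2⟩
    have s3 : (SG (Low Λ 1) D w).Adj (eW (lt (x + 1, -1))) (eN (lt (x + 1, -1))) :=
      ⟨_, m1 _ (by omega) (by omega), (TJ_al (S.d1 _ (by omega) (by omega)).2 b2).1⟩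
    have s4 : (SG (Low Λ 1) D w).Adj (eS (lt (x + 1, 0))) (eN (lt (x + 1, 0))) :=
      ⟨_, m0 _ (by omega) (by omega), H21.W.TJ_del ((S.d0 _ (by omega) (by omega)).2 h4)⟩
    rw [en] at s1 s4
    rw [en', ee'] at s2
    rw [en'] at s3
    exact ((s1.symm.reachable.trans s2.reachable).trans s3.reachable).trans s4.reachable
  · have b1 : ¬ Al w x 0 := (S.al_pos h3 h2.le).1.1 ha
    have b2 : Al w (x + 1) 0 := by
      have := S.al_step0 h3 h2
      tauto
    have s2 : (SG (Low Λ 1) D w).Adj (eN (lt (x, 0))) (eE (lt (x, 0))) :=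
      ⟨_, m0 x h1 h2.le, (TJ_be (fun h => absurd ((S.d0 x h1 h2.le).1 h) (by omega)) b1).2⟩
    have s3 : (SG (Low Λ 1) D w).Adj (eW (lt (x + 1, 0))) (eN (lt (x + 1, 0))) :=
      ⟨_, m0 _ (by omega) (by omega),
        (TJ_al (fun h => absurd ((S.d0 _ (by omega) (by omega)).1 h) (by omega)) b2).1⟩
    rw [en, ee] at s2
    rw [en] at s3
    exact s2.reachable.trans s3.reachable

/-- **the pairing above the line** -/
lemma Slb.upp_pair (h1 : xa ≤ x) (h2 : x < xb) (hx : x + 1 ≠ x1) (ha : Al w x 1) :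
    (SG (Upp Λ 1) D w).Adj (eS (lt (x, 1))) (eW (lt (x + 1, 1))) ∧
      (SG (Upp Λ 1) D w).Adj (eW (lt (x + 1, 1))) (eS (lt (x + 1, 1))) := by
  have m1 : ∀ x, xa ≤ x → x ≤ xb → lt (x, 1) ∈ Upp Λ 1 := fun x h1 h2 =>
    mem_Upp.2 ⟨S.mem x 1 h1 h2 (by norm_num) (by norm_num), le_rfl⟩
  have b2 : ¬ Al w (x + 1) 1 := by
    have := (S.al_step1 h1 h2).1
    rw [if_neg hx] at this
    tauto
  refine ⟨?_, ⟨_, m1 _ (by omega) (by omega), (TJ_be (S.d1 _ (by omega) (by omega)).1 b2).1⟩⟩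
  have := (TJ_al (w := w) (S.d1 x h1 h2.le).1 ha).2
  rw [eE_lt] at this
  exact ⟨_, m1 x h1 h2.le, this⟩

/-- the foot of the gap strand is joined to the mark end below the line -/
lemma Slb.low_mc : (Al w x1 1 → (SG (Low Λ 1) D w).Reachable (eS (lt (x1 - 1, 1))) (eW (lt (x1, 0)))) ∧
    (¬ Al w x1 1 → (SG (Low Λ 1) D w).Reachable (eS (lt (x1, 1))) (eW (lt (x1, 0)))) := by
  have hb := S.hb
  have haa := S.ha
  have ee' : eE (lt (x1 - 1, -1)) = eW (lt (x1, -1)) := by rw [eE_lt, sub_add_cancel]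
  have en : ∀ x : ℤ, eN (lt (x, 0)) = eS (lt (x, 1)) := fun x => by
    have := eN_lt x 0; simpa using this
  have en' : ∀ x : ℤ, eN (lt (x, -1)) = eS (lt (x, 0)) := fun x => by
    have := eN_lt x (-1); simpa using this
  have m0 : ∀ x, xa ≤ x → x ≤ xb → lt (x, 0) ∈ Low Λ 1 := fun x h1 h2 =>
    mem_Low.2 ⟨S.mem x 0 h1 h2 (by norm_num) (by norm_num), by norm_num⟩
  have m1 : ∀ x, xa ≤ x → x ≤ xb → lt (x, -1) ∈ Low Λ 1 := fun x h1 h2 =>
    mem_Low.2 ⟨S.mem x (-1) h1 h2 (by norm_num) (by norm_num), by norm_num⟩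
  have hd0 : lt (x1, 0) ∉ D := fun h => absurd ((S.d0 x1 (by omega) (by omega)).1 h) (by omega)
  obtain ⟨p1, p2⟩ := S.al_pos (le_refl x1) (by omega : x1 ≤ xb)
  constructor
  · intro ha
    have b0 : ¬ Al w x1 0 := p1.1 ha
    have b1 : Al w x1 (-1) := by tauto
    have b2 : ¬ Al w (x1 - 1) (-1) := by
      have := (S.al_step1 (x := x1 - 1) (by omega) (by omega)).2
      rw [sub_add_cancel] at this
      tauto
    have s1 : (SG (Low Λ 1) D w).Adj (eW (lt (x1, 0))) (eS (lt (x1, 0))) :=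
      ⟨_, m0 _ (by omega) (by omega), (TJ_be hd0 b0).1⟩
    have s2 : (SG (Low Λ 1) D w).Adj (eW (lt (x1, -1))) (eN (lt (x1, -1))) :=
      ⟨_, m1 _ (by omega) (by omega), (TJ_al (S.d1 _ (by omega) (by omega)).2 b1).1⟩
    have s3 : (SG (Low Λ 1) D w).Adj (eN (lt (x1 - 1, -1))) (eE (lt (x1 - 1, -1))) :=
      ⟨_, m1 _ (by omega) (by omega), (TJ_be (S.d1 _ (by omega) (by omega)).2 b2).2⟩
    have s4 : (SG (Low Λ 1) D w).Adj (eS (lt (x1 - 1, 0))) (eN (lt (x1 - 1, 0))) :=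
      ⟨_, m0 _ (by omega) (by omega),
        H21.W.TJ_del ((S.d0 (x1 - 1) (by omega) (by omega)).2 (by omega))⟩
    rw [en'] at s2 s3
    rw [ee'] at s3
    rw [en] at s4
    exact ((s4.symm.reachable.trans s3.reachable).trans s2.reachable).trans s1.symm.reachable
  · intro ha
    have b0 : Al w x1 0 := by tauto
    have s1 : (SG (Low Λ 1) D w).Adj (eW (lt (x1, 0))) (eN (lt (x1, 0))) :=
      ⟨_, m0 _ (by omega) (by omega), (TJ_al hd0 b0).1⟩
    rw [en] at s1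
    exact s1.symm.reachable

omit S in
/-- a vertical side whose left tile is deleted is an end -/
lemma isEnd_eW_del (h : lt (x - 1, y) ∈ D) : IsEnd (SG Λ D w) (eW (lt (x, y))) := by
  have ex : eE (lt (x - 1, y)) = eW (lt (x, y)) := by rw [eE_lt, sub_add_cancel]
  have key : ∀ e, ∀ c, TJ D w e (eW (lt (x, y))) c → e = lt (x, y) := by
    intro e c hT
    have h3 := hT.label
    obtain ⟨k1, k2⟩ := eW_sides x y
    have hne : lt (x, y) ≠ lt (x - 1, y) := fun h => by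
      have h4 := congrArg Prod.fst (lt_inj h)
      simp only at h4
      omega
    have hl : e = lt (x, y) ∨ e = lt (x - 1, y) := by
      rcases h3 with h3 | h3 <;> rcases k1 with k1 | k1 <;> rcases k2 with k2 | k2
      all_goals first
        | exact Or.inl (h3.trans k1.symm)
        | exact Or.inr (h3.trans k2.symm)
        | exact absurd (k1.trans k2.symm) hne
    rcases hl with rfl | rfl
    · rfl
    · rw [← ex] at hT
      exact absurd hT (not_TJ_eE h)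
  rintro a b ⟨e1, -, h1⟩ ⟨e2, -, h2⟩
  have := key _ _ h1
  have := key _ _ h2
  subst e1; subst e2
  exact h1.unique h2

omit S in
lemma eS_isEnd_low : IsEnd (SG (Low Λ 1) D w) (eS (lt (x, 1))) :=
  isEnd_side (e := lt (x, 1)) (fun h => absurd (mem_Low.1 h).2 (by norm_num)) (eS_sides x 1).1

/-- **the partner below the line** -/
lemma Slb.partner {I : Set (ℤ × ℤ)} {b : ℤ × ℤ}
    (hI : ∀ u v, u ∈ I → v ∉ I → (SG (Upp Λ 1) D w).Adj u v → v = b)
    (hb1 : ∀ x, b ≠ eW (lt (x, 1))) (hb2 : ∀ x, b ≠ eS (lt (x, 1))) (h1 : xa < x) (h2 : x < xb)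
    (hx : eS (lt (x, 1)) ∈ I) :
    ∃ p, p ≠ eS (lt (x, 1)) ∧ IsEnd (SG (Low Λ 1) D w) p ∧
      (SG (Low Λ 1) D w).Reachable (eS (lt (x, 1))) p ∧
      (p = eW (lt (x1, 0)) ∨ ∃ x', p = eS (lt (x', 1)) ∧ p ∈ I) := by
  have hb := S.hb
  have haa := S.ha
  have hmc : IsEnd (SG (Low Λ 1) D w) (eW (lt (x1, 0))) :=
    isEnd_eW_del ((S.d0 (x1 - 1) (by omega) (by omega)).2 (by omega))
  by_cases ha : Al w x 1
  · by_cases hx1 : x + 1 = x1
    · have ha' : Al w x1 1 := by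
        have := (S.al_step1 h1.le h2).1
        rw [if_pos hx1] at this
        rw [← hx1]; exact this.1 ha
      have hr := S.low_mc.1 ha'
      rw [← hx1, add_sub_cancel_right] at hr
      exact ⟨eW (lt (x1, 0)), eW_ne_eS _ _ _ _, hmc, by rw [← hx1]; exact hr, Or.inl rfl⟩
    · obtain ⟨p1, p2⟩ := S.upp_pair h1.le h2 hx1 ha
      have q1 : eW (lt (x + 1, 1)) ∈ I := by
        by_contra hn
        exact hb1 _ (hI _ _ hx hn p1).symm
      have q2 : eS (lt (x + 1, 1)) ∈ I := by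
        by_contra hn
        exact hb2 _ (hI _ _ q1 hn p2).symm
      exact ⟨eS (lt (x + 1, 1)), fun h => by have := (eS_inj' h).1; omega, eS_isEnd_low,
        S.low_pair h1.le h2 hx1 ha, Or.inr ⟨_, rfl, q2⟩⟩
  · by_cases hx1 : x = x1
    · subst hx1
      exact ⟨eW (lt (x, 0)), eW_ne_eS _ _ _ _, hmc, S.low_mc.2 ha, Or.inl rfl⟩
    · have ha' : Al w (x - 1) 1 := by
        have := (S.al_step1 (x := x - 1) (by omega) (by omega)).1
        rw [sub_add_cancel, if_neg hx1] at this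
        exact this.2 ha
      have hx2 : x - 1 + 1 ≠ x1 := by rw [sub_add_cancel]; exact hx1
      obtain ⟨p1, p2⟩ := S.upp_pair (x := x - 1) (by omega) (by omega) hx2 ha'
      have hl := S.low_pair (x := x - 1) (by omega) (by omega) hx2 ha'
      rw [sub_add_cancel] at p1 p2 hl
      have q1 : eW (lt (x, 1)) ∈ I := by
        by_contra hn
        exact hb1 _ (hI _ _ hx hn p2.symm).symm
      have q2 : eS (lt (x - 1, 1)) ∈ I := by
        by_contra hn
        exact hb2 _ (hI _ _ q1 hn p1.symm).symm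
      exact ⟨eS (lt (x - 1, 1)), fun h => by have := (eS_inj' h).1; omega, eS_isEnd_low,
        hl.symm, Or.inr ⟨_, rfl, q2⟩⟩

omit S in
/-- a side of an upper tile and of a lower tile is an interface side -/
lemma interface {c d d' : ℤ × ℤ} (h1 : (SG (Upp Λ 1) D w).Adj c d)
    (h2 : (SG (Low Λ 1) D w).Adj c d') : ∃ x, c = eS (lt (x, 1)) := by
  obtain ⟨e1, ⟨-, k1⟩, t1⟩ := h1
  obtain ⟨e2, ⟨-, k2⟩, t2⟩ := h2
  have l1 := t1.label
  have l2 := t2.label
  rcases side_exists c with ⟨x, y, rfl⟩ | ⟨x, y, rfl⟩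
  · exfalso
    obtain ⟨s1, s2⟩ := eW_sides x y
    have hne : lt (x, y) ≠ lt (x - 1, y) := fun h => by
      have h4 := congrArg Prod.fst (lt_inj h)
      simp only at h4
      omega
    have row : ∀ e, (e = lab (eW (lt (x, y))) ∨ e = plab (eW (lt (x, y)))) → (tt e).2 = y := by
      intro e he
      have : e = lt (x, y) ∨ e = lt (x - 1, y) := by
        rcases he with h3 | h3 <;> rcases s1 with k1 | k1 <;> rcases s2 with k2 | k2
        all_goals first
          | exact Or.inl (h3.trans k1.symm)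
          | exact Or.inr (h3.trans k2.symm)
          | exact absurd (k1.trans k2.symm) hne
      rcases this with rfl | rfl <;> rw [tt_lt]
    rw [row _ l1] at k1
    rw [row _ l2] at k2
    omega
  · obtain ⟨s1, s2⟩ := eS_sides x y
    have hne : lt (x, y) ≠ lt (x, y - 1) := fun h => by
      have h4 := congrArg Prod.snd (lt_inj h)
      simp only at h4
      omega
    have row : ∀ e, (e = lab (eS (lt (x, y))) ∨ e = plab (eS (lt (x, y)))) →
        (tt e).2 = y ∨ (tt e).2 = y - 1 := by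
      intro e he
      have : e = lt (x, y) ∨ e = lt (x, y - 1) := by
        rcases he with h3 | h3 <;> rcases s1 with k1 | k1 <;> rcases s2 with k2 | k2
        all_goals first
          | exact Or.inl (h3.trans k1.symm)
          | exact Or.inr (h3.trans k2.symm)
          | exact absurd (k1.trans k2.symm) hne
      rcases this with rfl | rfl <;> rw [tt_lt]
      · exact Or.inl rfl
      · exact Or.inr rfl
    have r1 := row _ l1
    have r2 := row _ l2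
    refine ⟨x, ?_⟩
    have : y = 1 := by omega
    rw [this]

omit S in
lemma SG_cut {k : ℤ} {c d : ℤ × ℤ} (h : (SG Λ D w).Adj c d) :
    (SG (Upp Λ k) D w).Adj c d ∨ (SG (Low Λ k) D w).Adj c d := by
  obtain ⟨e, he, hT⟩ := h
  rcases lt_or_ge (tt e).2 k with h1 | h1
  · exact Or.inr ⟨e, ⟨he, h1⟩, hT⟩
  · exact Or.inl ⟨e, ⟨he, h1⟩, hT⟩

omit S in
/-- removing the isolated corners does not create exits -/
lemma noniso {G : SimpleGraph (ℤ × ℤ)} {I : Set (ℤ × ℤ)} {b : ℤ × ℤ}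
    (hI : ∀ u v, u ∈ I → v ∉ I → G.Adj u v → v = b) :
    ∀ u v, u ∈ {c | c ∈ I ∧ ∃ d, G.Adj c d} → v ∉ {c | c ∈ I ∧ ∃ d, G.Adj c d} → G.Adj u v → v = b := by
  rintro u v ⟨hu, -⟩ hv ha
  by_cases h : v ∈ I
  · exact absurd ⟨h, u, ha.symm⟩ hv
  · exact hI u v hu h ha

/-- **The block of the upper part extends to the whole world.** -/
theorem Slb.glue {I : Set (ℤ × ℤ)} {b : ℤ × ℤ}
    (hI : ∀ u v, u ∈ I → v ∉ I → (SG (Upp Λ 1) D w).Adj u v → v = b)
    (hb1 : ∀ x, b ≠ eW (lt (x, 1))) (hb2 : ∀ x, b ≠ eS (lt (x, 1)))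
    (hr : ∀ x, eS (lt (x, 1)) ∈ I → xa < x ∧ x < xb)
    (hin : eS (lt (x1 - 1, 1)) ∈ I) (hin' : eS (lt (x1, 1)) ∈ I) :
    ∃ I' : Set (ℤ × ℤ), (∀ c ∈ I, (∃ d, (SG (Upp Λ 1) D w).Adj c d) → c ∈ I') ∧
      eW (lt (x1, 0)) ∈ I' ∧
      (∀ u v, u ∈ I' → v ∉ I' → (SG Λ D w).Adj u v → v = b) ∧
      (∀ f, f ∉ I → IsEnd (SG (Low Λ 1) D w) f → f ≠ eW (lt (x1, 0)) → f ∉ I') ∧
      ∀ u ∈ I', u ∉ I → ∃ x, eS (lt (x, 1)) ∈ I ∧ (SG (Low Λ 1) D w).Reachable (eS (lt (x, 1))) u := by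
  set I0 : Set (ℤ × ℤ) := {c | c ∈ I ∧ ∃ d, (SG (Upp Λ 1) D w).Adj c d} with hI0
  have hI0' := noniso hI
  rw [← hI0] at hI0'
  have hbb := S.hb
  have haa := S.ha
  have hni : ∀ x, xa < x → x < xb → eS (lt (x, 1)) ∈ I → eS (lt (x, 1)) ∈ I0 := by
    intro x h1 h2 h3
    have m1 : lt (x, 1) ∈ Upp Λ 1 :=
      mem_Upp.2 ⟨S.mem x 1 h1.le h2.le (by norm_num) (by norm_num), le_rfl⟩
    by_cases ha : Al w x 1
    · exact ⟨h3, _, ⟨_, m1, (TJ_al (S.d1 x h1.le h2.le).1 ha).2⟩⟩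
    · exact ⟨h3, _, ⟨_, m1, (TJ_be (S.d1 x h1.le h2.le).1 ha).1.symm⟩⟩
  have hcl : ∀ x u, eS (lt (x, 1)) ∈ I0 → (SG (Low Λ 1) D w).Reachable (eS (lt (x, 1))) u →
      IsEnd (SG (Low Λ 1) D w) u → u ∈ I0 ∨ u = eW (lt (x1, 0)) := by
    intro x u hx hu he
    obtain ⟨hr1, hr2⟩ := hr x hx.1
    obtain ⟨p, p1, p2, p3, p4⟩ := S.partner hI0' hb1 hb2 hr1 hr2 hx
    rcases ends_two SG_deg2 eS_isEnd_low p2 he p3 hu p1.symm with h | h
    · rw [h]; exact Or.inl hx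
    · rw [h]
      rcases p4 with h4 | ⟨-, -, h4⟩
      · exact Or.inr h4
      · exact Or.inl h4
  refine ⟨I0 ∪ {u | ∃ x, eS (lt (x, 1)) ∈ I0 ∧ (SG (Low Λ 1) D w).Reachable (eS (lt (x, 1))) u},
    fun c hc hd => Or.inl ⟨hc, hd⟩, ?_, ?_, ?_, ?_⟩
  · right
    by_cases ha : Al w x1 1
    · exact ⟨x1 - 1, hni _ (by omega) (by omega) hin, S.low_mc.1 ha⟩
    · exact ⟨x1, hni _ (by omega) (by omega) hin', S.low_mc.2 ha⟩
  · intro u v hu hv ha
    rw [Set.mem_union, not_or] at hv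
    rcases SG_cut (k := 1) ha with ha | ha
    · have huI : u ∈ I0 := by
        rcases hu with hu | ⟨x, hx, hu⟩
        · exact hu
        · by_cases hxu : u = eS (lt (x, 1))
          · rw [hxu]; exact hx
          · obtain ⟨p⟩ := hu.symm
            cases p with
            | nil => exact absurd rfl hxu
            | cons h _ =>
              obtain ⟨x', rfl⟩ := interface ha h
              rcases hcl x _ hx hu eS_isEnd_low with h' | h'
              · exact h'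
              · exact absurd h'.symm (eW_ne_eS _ _ _ _)
      exact hI0' u v huI hv.1 ha
    · exfalso
      apply hv.2
      rcases hu with hu | ⟨x, hx, hu⟩
      · obtain ⟨x, rfl⟩ := interface hu.2.choose_spec ha
        exact ⟨x, hu, ha.reachable⟩
      · exact ⟨x, hx, hu.trans ha.reachable⟩
  · intro f hf he hmc hf'
    rcases hf' with hf' | ⟨x, hx, hf'⟩
    · exact hf hf'.1
    · rcases hcl x f hx hf' he with h | h
      · exact hf h.1
      · exact hmc h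
  · intro u hu hu'
    rcases hu with h | ⟨x, hx, h⟩
    · exact absurd h.1 hu'
    · exact ⟨x, hx.1, h⟩

end Pool.Agent.H80.W
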