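import Mathlib
import Pool.Agent.H80.W.XPGlue
import Pool.Agent.H80.W.XPSt
import Pool.Agent.H70.W.WallCor
import Pool.Agent.H7.W.XMove
import Pool.Agent.H45.W.EndsJ8

set_option autoImplicit false
set_option linter.unusedSectionVars false
open Finset

/-! # (C6) (J5) (c), XP: the block

`XPG` : the half circuit of 70 in the upper part of the world `XB` around the mark on the bank of `P`. `XPG.blk` :
the set `I` with one exit, in the whole world. -/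

namespace Pool.Agent.H80.W

open Pool.Agent.H61.W Pool.Agent.H6.W Pool.Agent.H58.W Pool.Agent.H21.W Pool.Agent.H50.W
open Pool.Agent.H82.W (WD LMove)
open Pool.Agent.H13.W Pool.Agent.H71.W Pool.Agent.H75.Perc Pool.Agent.H75.TwoArm Pool.Agent.H99.W
open Pool.Agent.H70.W (SyC RoomW LayW HC BlkE ExS IsSd)
open Pool.Agent.H99.NC (BR)
open Pool.Agent.H45.W (od sq sq_iff lab_iff adj_of isEnd_dead)
open Pool.Agent.H19.W (cx cy lt_cc cx_lt cy_lt cx_up cy_up cx_dn cy_dn tile_ext odd_dn odd_up)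
open Pool.Agent.H33.Q1 (lt tt TL ct mem_TL lt_odd lt_inj tt_lt)

variable {δ σ : ℝ} {b : JBox} {h : ℕ} {M : Finset (Bool × ℕ)} {bse o : Bool}
  {x1 a0 a1 y1 : ℤ} {v : ℤ × ℤ}

/-- **The half disc around the mark**, `E` = room labels, `xa .. xb` = columns, `yt` = rows. -/
structure XPG (b : JBox) (h : ℕ) (M : Finset (Bool × ℕ)) (bse o : Bool) (x1 a0 a1 y1 : ℤ) (Φ : SyC)
    (E : Finset (ℤ × ℤ)) (z : ℤ × ℤ) (ρ Mh B N τ xa xb yt : ℤ) : Prop where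
  R : RoomW Φ E z B N
  Y : ∀ ω, ω ⊆ (XB b h M bse o x1).E → LayW Φ E (Upp (Lam b (2 * h) M) 1) (XB b h M bse o x1).D
    ((XB b h M bse o x1).st ω) z ρ B τ (o = true) (¬ o = true)
  hρ : 1 ≤ ρ
  hρM : ρ ≤ Mh
  hB1 : Mh + N + 2 ≤ B
  hB2 : Mh + τ + 2 ≤ B
  hN : 0 ≤ N
  hτ : 0 ≤ τ
  hE : ∀ e ∈ E, 2 ≤ cy e
  /-- the block is inside -/
  hin : ∀ e ∈ XBl a0 a1 y1, (e.1 + e.2) % 2 = 1 → e ∈ BR z (ρ - 1)
  /-- the box of the half disc -/
  hBR : ∀ e ∈ BR z B, (xa + 1 ≤ cx e ∧ cx e + 1 ≤ xb) ∧ (-yt ≤ cy e ∧ cy e ≤ yt)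
  hxa : -(b.m * b.M * (2 * h) : ℤ) ≤ xa
  hxb : xb < 0
  hyt : yt + 4 ≤ b.H * (2 * h)

lemma isSd_iff {e c : ℤ × ℤ} (ho : (e.1 + e.2) % 2 = 1) : IsSd e c ↔ (e = lab c ∨ e = plab c) := by
  rw [lab_iff]
  have : od e := ho
  rw [sq_iff this]
  constructor
  · rintro (g | g | g | g)
    · exact ⟨this, Or.inl g⟩
    · exact ⟨this, Or.inr (Or.inl g)⟩
    · exact ⟨this, Or.inr (Or.inr (Or.inl g))⟩
    · exact ⟨this, Or.inr (Or.inr (Or.inr g))⟩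
  · rintro ⟨-, g | g | g | g⟩
    · exact Or.inl g
    · exact Or.inr (Or.inl g)
    · exact Or.inr (Or.inr (Or.inl g))
    · exact Or.inr (Or.inr (Or.inr g))

/-- a side of a room tile is above the line -/
lemma sd_high {e c : ℤ × ℤ} (ho : (e.1 + e.2) % 2 = 1) (he : 2 ≤ cy e) (hs : IsSd e c) (x : ℤ) :
    c ≠ eW (lt (x, 1)) ∧ c ≠ eS (lt (x, 1)) := by
  have h0 := lt_cc ho
  rw [← h0] at hs
  have k1 : eE (lt (cx e, cy e)) = eW (lt (cx e + 1, cy e)) := eE_lt _ _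
  have k2 : eN (lt (cx e, cy e)) = eS (lt (cx e, cy e + 1)) := eN_lt _ _
  rcases hs with g | g | g | g
  · rw [g]
    exact ⟨fun q => by have := (eW_inj' q).2; omega, eW_ne_eS _ _ _ _⟩
  · rw [g, k1]
    exact ⟨fun q => by have := (eW_inj' q).2; omega, eW_ne_eS _ _ _ _⟩
  · rw [g]
    exact ⟨fun q => (eW_ne_eS _ _ _ _) q.symm, fun q => by have := (eS_inj' q).2; omega⟩
  · rw [g, k2]
    exact ⟨fun q => (eW_ne_eS _ _ _ _) q.symm, fun q => by have := (eS_inj' q).2; omega⟩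

section blk

variable {Φ : SyC} {E : Finset (ℤ × ℤ)} {z : ℤ × ℤ} {ρ Mh B N τ xa xb yt : ℤ}
  (U : XPH δ σ b h x1 a0 a1 y1 v) (G : XPG b h M bse o x1 a0 a1 y1 Φ E z ρ Mh B N τ xa xb yt)

include U

/-- tiles of the inner band of the box -/
lemma XPH.band {x y : ℤ} (h1 : -(b.X * (2 * h) : ℤ) ≤ x) (h2 : x < 0) (h3 : -(b.H * (2 * h) : ℤ) ≤ y)
    (h4 : y < b.H * (2 * h)) : InQ b (2 * h) x y := by
  rw [InQ_band U.ok U.hn h3 h4]
  have : (0 : ℤ) ≤ b.X * (2 * h) := by positivity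
  exact ⟨h1, by linarith⟩

lemma XPH.amX : -(b.X * (2 * h) : ℤ) ≤ -(b.m * b.M * (2 * h) : ℤ) := by
  have h1 := X_eq U.ok
  have h2 : (b.m : ℤ) ≤ nP b := by exact_mod_cast U.mn
  have h3 : (b.m : ℤ) * b.M ≤ nP b * b.M := mul_le_mul_of_nonneg_right h2 (by positivity)
  have h4 := mul_le_mul_of_nonneg_right h3 U.hn.le
  rw [h1]
  linarith

/-- columns of `P` are in plates of `P`, rows near the line of the slit -/
lemma XPH.cplP {x y : ℤ} (h1 : -(b.m * b.M * (2 * h) : ℤ) ≤ x) (h2 : x < 0)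
    (h3 : -(2 * h : ℤ) ≤ y) (h4 : y < 2 * h) : ∃ i < b.m, cpl b (2 * h) (lt (x, y)) = some i := by
  have hMn : (0 : ℤ) < b.M * (2 * h) := mul_pos (by exact_mod_cast U.hM) U.hn
  refine ⟨pin b (2 * h) x, ?_, ?_⟩
  · have h5 := ((pin_eq U.hM U.hn h2).1 rfl)
    by_contra hc
    have h6 : (b.m : ℤ) ≤ pin b (2 * h) x := by exact_mod_cast not_lt.1 hc
    have : (b.m : ℤ) * (b.M * (2 * h)) ≤ pin b (2 * h) x * (b.M * (2 * h)) :=
      mul_le_mul_of_nonneg_right h6 hMn.le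
    linarith [h5.2]
  · rw [cpl_some U.hM U.hn, cx_lt, cy_lt]
    refine ⟨(pin_eq U.hM U.hn h2).1 rfl, ?_, ?_⟩
    · linarith [U.tau0, U.tau_le (pin b (2 * h) x)]
    · linarith [U.tau0, U.tau_le (pin b (2 * h) x)]

/-- states of the solid tiles near the line of the slit -/
lemma XPH.stP {ω : Finset (ℤ × ℤ)} (hω : ω ⊆ (XB b h M bse o x1).E) {x y : ℤ}
    (h1 : -(b.m * b.M * (2 * h) : ℤ) ≤ x) (h2 : x < 0) (h3 : -1 ≤ y) (h4 : y ≤ 1) :
    lt (x, y) ∈ (XB b h M bse o x1).st ω ↔ Xor (o = true) (x < x1 ∧ 0 < y) := by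
  have hh : (1 : ℤ) ≤ h := by exact_mod_cast U.hh
  have hQ : InQ b (2 * h) x y := by
    have := U.amX
    have h5 := U.yb
    have h6 := U.yH
    have h7 := U.two_le (nP b)
    exact U.band (by linarith) h2 (by linarith) (by linarith)
  have hB : lt (x, y) ∈ b.B h := (mem_B U.hh).2 ⟨lt_odd _, by rwa [cx_lt, cy_lt]⟩
  have hC : ¬ CrR b (2 * h) (lt (x, y)) := by
    rintro ⟨g1, g2⟩
    rw [cy_lt] at g1
    rw [cx_lt, cy_lt] at g2
    have := U.ceil hQ g1 g2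
    linarith [U.yH, U.yb, U.two_le (nP b)]
  have := st_PB U (M := M) (bse := bse) (o := o) hω hB (U.cplP h1 h2 (by linarith) (by linarith)) hC
  rw [cx_lt, cy_lt] at this
  exact this

omit U in
lemma XPG.hsub (G : XPG b h M bse o x1 a0 a1 y1 Φ E z ρ Mh B N τ xa xb yt) (e : ℤ × ℤ)
    (he : e ∈ BR z (ρ - 1)) : e ∈ BR z B := by
  rw [Pool.Agent.H70.W.mem_BR] at he ⊢
  have g1 := G.hB1
  have g2 := G.hN
  have g3 := G.hρM
  obtain ⟨⟨p1, p2⟩, ⟨p3, p4⟩, p5⟩ := he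
  exact ⟨⟨by linarith, by linarith⟩, ⟨by linarith, by linarith⟩, p5⟩

include G

/-- the solid slab -/
lemma XPG.slb {ω : Finset (ℤ × ℤ)} (hω : ω ⊆ (XB b h M bse o x1).E) :
    Slb (Lam b (2 * h) M) (XB b h M bse o x1).D ((XB b h M bse o x1).st ω) x1 xa xb (o = true) := by
  have hc : ∀ x y, xa ≤ x → x ≤ xb → -1 ≤ y → y ≤ 1 → -(b.m * b.M * (2 * h) : ℤ) ≤ x ∧ x < 0 := by
    intro x y g1 g2 _ _
    exact ⟨by linarith [G.hxa], by linarith [G.hxb]⟩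
  -- the tiles `(x1 - 1, 1)`, `(x1 + 1, 1)` belong to the block
  have hy1 : 1 ≤ y1 := by linarith [U.yb, U.two_le (nP b)]
  have e1 := G.hin (lt (x1 - 1, 1)) (by
    show (a0 ≤ cx (lt (x1 - 1, 1)) ∧ cx (lt (x1 - 1, 1)) ≤ a1) ∧ _
    rw [cx_lt, cy_lt]
    exact ⟨⟨by linarith [U.a0x], by linarith [U.xa1]⟩, by linarith, hy1⟩) (lt_odd _)
  have e2 := G.hin (lt (x1 + 1, 1)) (by
    show (a0 ≤ cx (lt (x1 + 1, 1)) ∧ cx (lt (x1 + 1, 1)) ≤ a1) ∧ _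
    rw [cx_lt, cy_lt]
    exact ⟨⟨by linarith [U.a0x], by linarith [U.xa1]⟩, by linarith, hy1⟩) (lt_odd _)
  have q1 := (G.hBR _ (G.hsub _ e1)).1
  have q2 := (G.hBR _ (G.hsub _ e2)).1
  rw [cx_lt] at q1 q2
  refine ⟨by linarith [q1.1], by linarith [q2.2], ?_, ?_, ?_, ?_, ?_, ?_, ?_⟩
  · intro x y g1 g2 g3 g4
    obtain ⟨k1, k2⟩ := hc x y g1 g2 g3 g4
    rw [mem_Lam, cx_lt, cy_lt]
    refine ⟨lt_odd _, Or.inl (U.band (by linarith [U.amX]) k2 ?_ ?_)⟩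
    · linarith [U.yH, U.yb, U.two_le (nP b)]
    · linarith [U.yH, U.yb, U.two_le (nP b)]
  · intro x _ _
    rw [mem_XBD (lt_odd _), mem_XBD (lt_odd _), cy_lt, cy_lt]
    omega
  · intro x _ _
    rw [mem_XBD (lt_odd _), cx_lt, cy_lt]
    simp
  · intro x g1 g2
    obtain ⟨k1, k2⟩ := hc x 1 g1 (by linarith [q1.2]) (by norm_num) le_rfl
    rw [U.stP hω k1 k2 (by norm_num) le_rfl]
    simp [g2, Xor]
  · intro x g1 g2
    obtain ⟨k1, k2⟩ := hc x 1 (by linarith [q1.1]) g2 (by norm_num) le_rfl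
    rw [U.stP hω k1 k2 (by norm_num) le_rfl]
    simp [not_lt.2 g1, Xor]
  · intro x g1 g2
    obtain ⟨k1, k2⟩ := hc x 0 (by linarith [q1.1]) g2 (by norm_num) (by norm_num)
    rw [U.stP hω k1 k2 (by norm_num) (by norm_num)]
    simp [not_lt.2 g1, Xor]
  · intro x g1 g2
    obtain ⟨k1, k2⟩ := hc x (-1) g1 g2 (by norm_num) (by norm_num)
    rw [U.stP hω k1 k2 (by norm_num) (by norm_num)]
    simp [Xor]

/-- tiles of the block -/
lemma XPG.bl_tile {e : ℤ × ℤ} (he : e ∈ XBl a0 a1 y1) (ho : (e.1 + e.2) % 2 = 1) :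
    e ∈ Upp (Lam b (2 * h) M) 1 ∧ e ∉ (XB b h M bse o x1).D ∧ e ∈ BR z (ρ - 1) := by
  obtain ⟨⟨g1, g2⟩, g3, g4⟩ := id he
  refine ⟨⟨?_, g3⟩, ?_, G.hin e he ho⟩
  · rw [mem_Lam]
    refine ⟨ho, Or.inl (U.band (by linarith [U.amX, U.am]) (by linarith [U.a10]) ?_ ?_)⟩
    · have : (0 : ℤ) ≤ b.H * (2 * h) := by positivity
      linarith
    · linarith [U.yH]
  · rw [mem_XBD ho]
    omega

/-- **The block with one exit.** -/
theorem XPG.blk {ω : Finset (ℤ × ℤ)} (hω : ω ⊆ (XB b h M bse o x1).E)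
    (hH : HC Φ E z B ρ Mh ((XB b h M bse o x1).st ω)) :
    ∃ (I : Set (ℤ × ℤ)) (p : ℤ × ℤ),
      (∀ u v, u ∈ I → v ∉ I → ((XB b h M bse o x1).G ω).Adj u v → v = p) ∧
      (∀ c ∈ KB (XBl a0 a1 y1), c ∈ I) ∧ mc true x1 ∈ I ∧
      ∀ f, (∀ e ∈ BR z B, ¬ IsSd e f) →
        IsEnd (SG (Low (Lam b (2 * h) M) 1) (XB b h M bse o x1).D ((XB b h M bse o x1).st ω)) f →
        f ≠ mc true x1 → f ∉ I := by
  obtain ⟨I0, bp, bq, h1, h2, h3⟩ := hH.blk G.R (G.Y ω hω) G.hρ G.hB1 G.hB2 G.hN G.hτ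
  have S := G.slb U hω
  have hy1 : 1 ≤ y1 := by linarith [U.yb, U.two_le (nP b)]
  have ht : ∀ x, a0 ≤ x → x ≤ a1 → lt (x, 1) ∈ XBl a0 a1 y1 := by
    intro x g1 g2
    show (a0 ≤ cx (lt (x, 1)) ∧ cx (lt (x, 1)) ≤ a1) ∧ _
    rw [cx_lt, cy_lt]
    exact ⟨⟨g1, g2⟩, le_rfl, hy1⟩
  -- one exit
  obtain ⟨p, hp, hp1⟩ : ∃ p, (∀ u v, u ∈ I0 → v ∉ I0 →
      (SG (Upp (Lam b (2 * h) M) 1) (XB b h M bse o x1).D ((XB b h M bse o x1).st ω)).Adj u v → v = p) ∧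
      ∀ x, p ≠ eW (lt (x, 1)) ∧ p ≠ eS (lt (x, 1)) := by
    by_cases hex : ∃ u v, u ∈ I0 ∧ v ∉ I0 ∧
        (SG (Upp (Lam b (2 * h) M) 1) (XB b h M bse o x1).D ((XB b h M bse o x1).st ω)).Adj u v
    · obtain ⟨u0, v0, hu0, hv0, ha0⟩ := hex
      refine ⟨v0, fun u v hu hv ha => ?_, fun x => ?_⟩
      · rcases h1 u v hu hv ha with ⟨k1, k2, -⟩ | ⟨k1, k2, -⟩ <;>
          rcases h1 u0 v0 hu0 hv0 ha0 with ⟨j1, j2, -⟩ | ⟨j1, j2, -⟩
        · rw [k2, j2]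
        · exact absurd k1 j1
        · exact absurd j1 k1
        · rw [k2, j2]
      · have hs : ∃ e0 ∈ E, IsSd e0 v0 := by
          rcases h1 u0 v0 hu0 hv0 ha0 with ⟨-, -, -, -, -, -, -, -, -, e0, q1, -, q2⟩ |
            ⟨-, -, -, -, -, -, -, -, -, e0, q1, -, q2⟩
          · exact ⟨e0, q1, q2⟩
          · exact ⟨e0, q1, q2⟩
        obtain ⟨e0, q1, q2⟩ := hs
        exact sd_high (G.R.odd e0 q1) (G.hE e0 q1) q2 x
    · refine ⟨eW (lt (0, 2)), fun u v hu hv ha => absurd ⟨u, v, hu, hv, ha⟩ hex, fun x => ?_⟩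
      exact sd_high (e := lt (0, 2)) (lt_odd _) (by rw [cy_lt]) (Or.inl rfl) x
  have hI : ∀ e ∈ XBl a0 a1 y1, (e.1 + e.2) % 2 = 1 → ∀ c, IsSd e c → c ∈ I0 := by
    intro e he ho c hs
    obtain ⟨g1, -, g3⟩ := G.bl_tile U he ho
    exact h2 e g1 g3 c hs
  obtain ⟨I', i1, i2, i3, i4, -⟩ := S.glue hp (fun x => (hp1 x).1) (fun x => (hp1 x).2)
    (fun x hx => by
      obtain ⟨e, he, hs⟩ := h3 _ hx
      have ho : (e.1 + e.2) % 2 = 1 := (Pool.Agent.H70.W.mem_BR.1 he).2.2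
      have hb' := (G.hBR e he).1
      have h0 := lt_cc ho
      rw [← h0] at hs
      have k1 : eE (lt (cx e, cy e)) = eW (lt (cx e + 1, cy e)) := eE_lt _ _
      have k2 : eN (lt (cx e, cy e)) = eS (lt (cx e, cy e + 1)) := eN_lt _ _
      rcases hs with g | g | g | g
      · exact absurd g.symm (eW_ne_eS _ _ _ _)
      · rw [k1] at g
        exact absurd g.symm (eW_ne_eS _ _ _ _)
      · have := (eS_inj' g).1
        constructor <;> linarith [hb'.1, hb'.2]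
      · rw [k2] at g
        have := (eS_inj' g).1
        constructor <;> linarith [hb'.1, hb'.2])
    (hI _ (ht (x1 - 1) (by linarith [U.a0x]) (by linarith [U.xa1])) (lt_odd _) _
      (Or.inr (Or.inr (Or.inl rfl))))
    (hI _ (ht x1 (by linarith [U.a0x]) (by linarith [U.xa1])) (lt_odd _) _
      (Or.inr (Or.inr (Or.inl rfl))))
  refine ⟨I', p, i3, ?_, i2, ?_⟩
  · intro c hc
    rw [Pool.Agent.H7.W.KB_iff] at hc
    obtain ⟨e, he, ho, hs⟩ := hc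
    have hs' : IsSd e c := hs
    obtain ⟨g1, g2, -⟩ := G.bl_tile U he ho
    refine i1 c (hI e he ho c hs') ?_
    refine adj_of (e := e) ho ?_ g1 g2
    rw [isSd_iff ho] at hs'
    exact ((lab_iff c e).1 hs').2
  · intro f hf he hne
    refine i4 f (fun hfI => ?_) he hne
    obtain ⟨e, he', hs⟩ := h3 f hfI
    exact hf e he' hs

end blk

end Pool.Agent.H80.W
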