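import Mathlib
import Pool.Agent.H82.W.S3

set_option autoImplicit false
set_option linter.unusedSectionVars false
open Finset

/-! # Comparison of two worlds, block constant configurations

`BC E b ω` : the configuration is constant on the blocks. `LMove.diff_BC` : if the events agree for corresponding
block constant configurations with a block, their probabilities differ by at most `P (no block)`. -/

namespace Pool.Agent.H80.W

open Pool.Agent.H58.W Pool.Agent.H35.W Pool.Agent.H99.W Pool.Agent.H13.W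
open Pool.Agent.H82.W

section
variable {α β : Type*} [DecidableEq α] [DecidableEq β]

/-- block constant -/
def BC (E : Finset α) (b : α → β) (ω : Finset α) : Prop :=
  ∀ e ∈ E, ∀ e' ∈ E, b e = b e' → (e ∈ ω ↔ e' ∈ ω)

lemma BC_up (E : Finset α) (b : α → β) (η : Finset β) : BC E b (up E b η) := by
  intro e he e' he' h
  rw [mem_up, mem_up, h]
  simp only [he, he', true_and]

/-- `PB` sees only block constant configurations -/
lemma PB_congrBC {E : Finset α} {b : α → β} {P Q : Finset α → Prop}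
    (h : ∀ ω, ω ⊆ E → BC E b ω → (P ω ↔ Q ω)) : PB E b P = PB E b Q := by
  unfold PB
  exact Pool.Agent.H75.Perc.Pr_congr fun η _ => h _ (up_subset _ _ _) (BC_up _ _ _)

/-- block constant extension -/
lemma BC_ext {E O ξ : Finset α} {b : α → β} (hO : O ⊆ E) (hξ : ξ ⊆ O) (hc : BC O b ξ) :
    ∃ ω, ω ⊆ E ∧ BC E b ω ∧ ω ∩ O = ξ := by
  refine ⟨up E b (ξ.image b), up_subset _ _ _, BC_up _ _ _, ?_⟩
  ext l
  rw [mem_inter, mem_up, mem_image]
  constructor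
  · rintro ⟨⟨-, l', h1, h2⟩, h3⟩
    exact (hc l' (hξ h1) l h3 h2).1 h1
  · exact fun h => ⟨⟨hO (hξ h), l, h, rfl⟩, hξ h⟩

end

section
variable {β γ : Type*} [DecidableEq β] [DecidableEq γ]
variable {A : WD β} {B : WD γ} {φ : ℤ × ℤ → ℤ × ℤ} {S : Set (ℤ × ℤ)} {O1 O2 : Finset (ℤ × ℤ)}

lemma mem_LT (L : LMove A B φ S O1 O2) {η : Finset (ℤ × ℤ)} (hη : η ⊆ O1) {l : ℤ × ℤ} (hl : l ∈ O1) :
    φ l ∈ LT A B φ S O1 η ↔ Xor (l ∈ η) (l ∈ fl A B φ S O1) :=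
  mem_Tm fl_subset L.inj hη hl

/-- forth -/
lemma BC_LT (L : LMove A B φ S O1 O2) {η : Finset (ℤ × ℤ)} (hη : η ⊆ O1) :
    BC O2 B.b (LT A B φ S O1 η) ↔ BC O1 A.b η := by
  constructor
  · intro h l hl l' hl' hb
    have h1 := h (φ l) (L.im ▸ mem_image_of_mem φ hl) (φ l') (L.im ▸ mem_image_of_mem φ hl')
      ((L.blk l hl l' hl').1 hb)
    rw [mem_LT L hη hl, mem_LT L hη hl'] at h1
    have h2 := L.par l hl l' hl' hb
    have h3 := L.par l' hl' l hl hb.symm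
    by_cases a1 : l ∈ fl A B φ S O1
    · have a2 := h2 a1
      by_cases a3 : l ∈ η <;> by_cases a4 : l' ∈ η <;> simp [a1, a2, a3, a4, Xor] at h1 ⊢
    · have a2 : l' ∉ fl A B φ S O1 := fun h => a1 (h3 h)
      by_cases a3 : l ∈ η <;> by_cases a4 : l' ∈ η <;> simp [a1, a2, a3, a4, Xor] at h1 ⊢
  · intro h m hm m' hm' hb
    rw [← L.im, mem_image] at hm hm'
    obtain ⟨l, hl, rfl⟩ := hm
    obtain ⟨l', hl', rfl⟩ := hm'
    have hb' := (L.blk l hl l' hl').2 hb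
    rw [mem_LT L hη hl, mem_LT L hη hl']
    have h1 := h l hl l' hl' hb'
    have h2 := L.par l hl l' hl' hb'
    have h3 := L.par l' hl' l hl hb'.symm
    have h4 : l ∈ fl A B φ S O1 ↔ l' ∈ fl A B φ S O1 := ⟨h2, h3⟩
    rw [h1, h4]

/-- **Agreement for block constant configurations.** -/
theorem LMove.diff_BC (L : LMove A B φ S O1 O2) {Blk P P' : Finset (ℤ × ℤ) → Prop}
    (h : ∀ ω1 ω2, Cor A B φ S O1 O2 ω1 ω2 → BC A.E A.b ω1 → BC B.E B.b ω2 → Blk (ω2 ∩ O2) →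
      (P ω1 ↔ P' ω2)) :
    |PB A.E A.b P - PB B.E B.b P'| ≤ PB B.E B.b (fun ω => ¬ Blk (ω ∩ O2)) := by
  have C := L.coup Blk
  set T := LT A B φ S O1 with hT
  -- the event of the outside
  let Q : Finset (ℤ × ℤ) → Prop := fun ξ => Blk ξ ∧ ∃ ω, ω ⊆ B.E ∧ BC B.E B.b ω ∧ ω ∩ O2 = ξ ∧ P' ω
  have hBC : ∀ {ω}, BC A.E A.b ω → BC O1 A.b (ω ∩ O1) := by
    intro ω hω e he e' he' hb
    rw [mem_inter, mem_inter]
    simp only [he, he', and_true]
    exact hω e (L.s1 he) e' (L.s1 he') hb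
  have hBC2 : ∀ {ω}, BC B.E B.b ω → BC O2 B.b (ω ∩ O2) := by
    intro ω hω e he e' he' hb
    rw [mem_inter, mem_inter]
    simp only [he, he', and_true]
    exact hω e (L.s2 he) e' (L.s2 he') hb
  have e1 : PB A.E A.b (fun ω => P ω ∧ Blk (T (ω ∩ O1))) = PB A.E A.b (fun ω => Q (T (ω ∩ O1))) := by
    refine PB_congrBC fun ω hω hc => ?_
    constructor
    · rintro ⟨h1, h2⟩
      obtain ⟨ω2, g1, g2, g3⟩ := BC_ext L.s2 (C.sub _ inter_subset_right)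
        ((BC_LT L inter_subset_right).2 (hBC hc))
      refine ⟨h2, ω2, g1, g2, g3, ?_⟩
      exact (h ω ω2 ⟨hω, g1, g3⟩ hc g2 (by rw [g3]; exact h2)).1 h1
    · rintro ⟨h2, ω2, g1, g2, g3, g4⟩
      exact ⟨(h ω ω2 ⟨hω, g1, g3⟩ hc g2 (by rw [g3]; exact h2)).2 g4, h2⟩
  have e2 : PB B.E B.b (fun ω => P' ω ∧ Blk (ω ∩ O2)) = PB B.E B.b (fun ω => Q (ω ∩ O2)) := by
    refine PB_congrBC fun ω hω hc => ?_
    constructor
    · rintro ⟨h1, h2⟩
      exact ⟨h2, ω, hω, hc, rfl, h1⟩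
    · rintro ⟨h2, ω2, g1, g2, g3, g4⟩
      obtain ⟨η, k1, k2⟩ := C.surj (ω ∩ O2) inter_subset_right
      have k3 : BC O1 A.b η := (BC_LT L k1).1 (by
        rw [← hT, k2]; exact hBC2 hc)
      obtain ⟨ω1, q1, q2, q3⟩ := BC_ext L.s1 k1 k3
      have r1 := h ω1 ω ⟨q1, hω, by rw [q3]; exact k2.symm⟩ q2 hc h2
      have r2 := h ω1 ω2 ⟨q1, g1, by rw [q3, g3]; exact k2.symm⟩ q2 g2 (by rw [g3]; exact h2)
      exact ⟨r1.1 (r2.2 g4), h2⟩
  have e3 : PB A.E A.b (fun ω => Q (T (ω ∩ O1))) = PB B.E B.b (fun ω => Q (ω ∩ O2)) := by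
    rw [PB_restrict L.s1 A.b (fun η => Q (T η)), PB_restrict L.s2 B.b (fun ξ => Q ξ), C.meas]
  have s1 := PB_and_add A.E A.b P (fun ω => Blk (T (ω ∩ O1)))
  have s2 := PB_and_add B.E B.b P' (fun ω => Blk (ω ∩ O2))
  have n1 : PB A.E A.b (fun ω => P ω ∧ ¬ Blk (T (ω ∩ O1))) ≤
      PB B.E B.b (fun ω => ¬ Blk (ω ∩ O2)) := by
    rw [← C.not_eq]
    exact PB_mono fun ω _ hω => hω.2
  have n2 : PB B.E B.b (fun ω => P' ω ∧ ¬ Blk (ω ∩ O2)) ≤
      PB B.E B.b (fun ω => ¬ Blk (ω ∩ O2)) := PB_mono fun ω _ hω => hω.2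
  have p1 := PB_nonneg A.E A.b (fun ω => P ω ∧ ¬ Blk (T (ω ∩ O1)))
  have p2 := PB_nonneg B.E B.b (fun ω => P' ω ∧ ¬ Blk (ω ∩ O2))
  rw [abs_le]
  constructor <;> linarith

end

end Pool.Agent.H80.W
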