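import Mathlib
import Pool.Agent.H80.W.XPBlk
import Pool.Agent.H80.W.XPQ

set_option autoImplicit false
set_option linter.unusedSectionVars false
open Finset

/-! # (C6) (J5) (c), XP: the comparison in one box

`xp_fix` : for a moving end `v` near the upper bank of `P` and the mark `x1` on this bank the laws of the far end
differ by at most twice the probability that there is no half circuit, plus the two forced row terms. -/

namespace Pool.Agent.H80.W

open Pool.Agent.H61.W Pool.Agent.H6.W Pool.Agent.H58.W Pool.Agent.H21.W Pool.Agent.H50.W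
open Pool.Agent.H82.W (WD LMove Half Cor)
open Pool.Agent.H35.W (Force mem_Force)
open Pool.Agent.H73.W (LamT)
open Pool.Agent.H13.W Pool.Agent.H71.W Pool.Agent.H75.Perc Pool.Agent.H75.TwoArm Pool.Agent.H99.W
open Pool.Agent.H70.W (SyC RoomW LayW HC BlkE ExS IsSd)
open Pool.Agent.H99.NC (BR)
open Pool.Agent.H45.W (JW BG al JW_X JW_XT JW_P DD_X DD_P LamT_iff QS FF AS Wld AS isF1 cc_flip)
open Pool.Agent.H7.W (PSt xp_simu KB_img zc_KB R_true R_false mark_dn)
open Pool.Agent.H19.W (cx cy lt_cc cx_lt cy_lt cx_up cy_up cx_dn cy_dn tile_ext odd_dn odd_up)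
open Pool.Agent.H33.Q1 (lt tt TL ct mem_TL lt_odd lt_inj tt_lt)

variable {δ σ : ℝ} {b : JBox} {h : ℕ} {M : Finset (Bool × ℕ)} {w o : Bool}
  {x1 a0 a1 y1 : ℤ} {v : ℤ × ℤ}

/-- alive corner of a mark, world `XA` -/
noncomputable def xA (b : JBox) (h : ℕ) (M : Finset (Bool × ℕ)) (w : Bool) (v : ℤ × ℤ) (q : Bool × ℕ) :
    ℤ × ℤ := al b (2 * h) (colM (bs w) M (some v.2)) q

/-- its image in the world `XB` -/
noncomputable def yB (b : JBox) (h : ℕ) (M : Finset (Bool × ℕ)) (w : Bool) (v : ℤ × ℤ) (q : Bool × ℕ) :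
    ℤ × ℤ := if q.1 then dn (xA b h M w v q) else xA b h M w v q

lemma not_bs (w : Bool) : (!(bs w)) = w := by cases w <;> rfl

section fix

variable (U : XPH δ σ b h x1 a0 a1 y1 v)
include U

/-- the states of `XA` as labels of the box and of the layer -/
lemma stA_eq {ω : Finset (ℤ × ℤ)} (hω : ω ⊆ (XA b h M (bs w) o x1 a0 v).E) :
    ∃ w0 ⊆ b.B h, (XA b h M (bs w) o x1 a0 v).st ω = w0 ∪ Wl b (2 * h) (colM (bs w) M (some v.2)) := by
  classical
  refine ⟨ω ∪ (b.B h).filter fun e => (∃ i < b.m, lpl b (2 * h) a0 e = some i) ∧ o = true, ?_, ?_⟩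
  · refine union_subset (fun e he => ?_) (filter_subset _ _)
    exact (mem_filter.1 (show e ∈ (b.B h).filter _ from hω he)).1
  · ext e
    rw [mem_Astate]
    show _ ∨ e ∈ Wl b (2 * h) (colM (bs w) M (some v.2)) ∪ (b.B h).filter _ ↔ _
    rw [mem_union, mem_union, mem_union]
    tauto

/-- the states of `XB` as labels of the box and of the layer -/
lemma stB_eq {ω : Finset (ℤ × ℤ)} (hω : ω ⊆ (XB b h M (bs w) o x1).E) :
    ∃ w0 ⊆ b.B h, (XB b h M (bs w) o x1).st ω = w0 ∪ Wl b (2 * h) (colM w M none) := by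
  classical
  refine ⟨symmDiff ω (XB b h M (bs w) o x1).F ∪
    ((b.B h).filter (fun e => (∃ i < b.m, cpl b (2 * h) e = some i) ∧
      Xor (o = true) (cx e < x1 ∧ 0 < cy e)) ∪
    (b.B h).filter (fun e => CrR b (2 * h) e ∧
      lcol b (2 * h) (colM (!(bs w)) M none) (cx e) (cy e + 1) = true)), ?_, ?_⟩
  · refine union_subset (fun e he => ?_) (union_subset (filter_subset _ _) (filter_subset _ _))
    rw [mem_symmDiff] at he
    rcases he with ⟨g, -⟩ | ⟨g, -⟩
    · exact (mem_filter.1 (show e ∈ (b.B h).filter _ from hω g)).1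
    · exact (mem_filter.1 (show e ∈ (b.B h).filter _ from g)).1
  · have hW : (XB b h M (bs w) o x1).W = Wl b (2 * h) (colM (!(bs w)) M none) ∪
      ((b.B h).filter (fun e => (∃ i < b.m, cpl b (2 * h) e = some i) ∧
        Xor (o = true) (cx e < x1 ∧ 0 < cy e)) ∪
      (b.B h).filter (fun e => CrR b (2 * h) e ∧
        lcol b (2 * h) (colM (!(bs w)) M none) (cx e) (cy e + 1) = true)) := rfl
    unfold WD.st
    rw [hW, not_bs, union_assoc, union_assoc]
    congr 1
    rw [union_comm, union_assoc]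

lemma bg : BG b := BG.of_ok U.ok

lemma InQ_v : InQ b (2 * h) v.1 v.2 := by
  have h1 := U.am
  have h2 := U.a0v
  have h3 := U.va1
  have h4 := U.a10
  have h5 := U.v2
  have : (0 : ℤ) ≤ b.H * (2 * h) := by positivity
  exact U.band (by linarith [U.amX]) (by linarith) (by linarith) (by linarith [U.vy, U.yH])

variable (hMK : ∀ q ∈ M, q.2 < b.K) (hc : par M.card = true)
include hMK hc

lemma jwA {ω : Finset (ℤ × ℤ)} (hω : ω ⊆ (XA b h M (bs w) o x1 a0 v).E) :
    JW b (2 * h) M (some v) none (bs w) (Lam b (2 * h) M) ((XA b h M (bs w) o x1 a0 v).st ω) := by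
  obtain ⟨w0, h0, h1⟩ := stA_eq U hω
  rw [h1]
  exact JW_X (bg U) U.hh hMK hc (InQ_v U) h0

lemma jwAT {ω : Finset (ℤ × ℤ)} (hω : ω ⊆ (XA b h M (bs w) o x1 a0 v).E) :
    JW b (2 * h) M (some v) none (bs w) (LamT b (2 * h) M) ((XA b h M (bs w) o x1 a0 v).st ω) := by
  obtain ⟨w0, h0, h1⟩ := stA_eq U hω
  rw [h1]
  exact JW_XT (bg U) U.hh hMK hc (InQ_v U) h0

lemma jwB {ω : Finset (ℤ × ℤ)} (hω : ω ⊆ (XB b h M (bs w) o x1).E) :
    JW b (2 * h) M none (some (x1, Yr true)) w (Lam b (2 * h) M) ((XB b h M (bs w) o x1).st ω) := by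
  obtain ⟨w0, h0, h1⟩ := stB_eq U hω
  rw [h1]
  have := U.amX
  have hX : (0 : ℤ) ≤ b.X * (2 * h) := by positivity
  exact JW_P (bg U) U.hh hMK hc (by linarith [U.am, U.a0x]) (by linarith [U.xa1, U.a10]) h0

/-- `RF` in the thick world is reachability of the alive corner in the thin one -/
lemma A_thin {ω : Finset (ℤ × ℤ)} (hω : ω ⊆ (XA b h M (bs w) o x1 a0 v).E) {q : Bool × ℕ} (hq : q ∈ M) :
    RF b (2 * h) (SG (Lam b (2 * h) M) (lt '' strD v) ((XA b h M (bs w) o x1 a0 v).st ω)) (zc v) q ↔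
      (SG (LamT b (2 * h) M) (lt '' strD v) ((XA b h M (bs w) o x1 a0 v).st ω)).Reachable (zc v)
        (xA b h M w v q) := by
  have W := jwA U hMK hc hω
  have hA := W.zc_AS (v := v) rfl
  have h1 := W.RF_iff hA hq
  have h2 := W.wld.thin (Λ' := LamT b (2 * h) M) (d := xA b h M w v q)
    (fun e he => ((LamT_iff (bg U) U.hn hMK).1 he).1)
    (fun e he ht => (LamT_iff (bg U) U.hn hMK).2 ⟨he, ht⟩) hA
  rw [DD_X] at h1 h2
  exact h1.trans h2

/-- `RF` in the world `XB` -/
lemma B_al {ω : Finset (ℤ × ℤ)} (hω : ω ⊆ (XB b h M (bs w) o x1).E) {q : Bool × ℕ} (hq : q ∈ M) :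
    RF b (2 * h) ((XB b h M (bs w) o x1).G ω) (mc true x1) q ↔
      ((XB b h M (bs w) o x1).G ω).Reachable (mc true x1) (al b (2 * h) (colM w M none) q) := by
  have W := jwB U hMK hc hω
  have hA := W.mc_AS (s := (x1, Yr true)) rfl
  have h1 := W.RF_iff hA hq
  rw [DD_P] at h1
  exact h1

omit hMK hc in
lemma cc_u (i : ℕ) : Pool.Agent.H45.W.cc (colM w M none) (true, i) i =
    !Pool.Agent.H45.W.cc (colM (bs w) M (some v.2)) (true, i) i := by
  unfold Pool.Agent.H45.W.cc colM
  simp only [if_true]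
  cases w <;> simp [bs]

omit hMK in
lemma cc_l (j i : ℕ) : Pool.Agent.H45.W.cc (colM w M none) (false, i) j =
    Pool.Agent.H45.W.cc (colM (bs w) M (some v.2)) (false, i) j := by
  unfold Pool.Agent.H45.W.cc colM
  simp only [Bool.false_eq_true, if_false, Option.isSome_none, Option.isSome_some]
  cases w <;> simp [bs]

/-- the image of the alive corner is joined to the alive corner -/
lemma yB_al {ω : Finset (ℤ × ℤ)} (hω : ω ⊆ (XB b h M (bs w) o x1).E) {q : Bool × ℕ} (hq : q ∈ M) :
    ((XB b h M (bs w) o x1).G ω).Reachable (yB b h M w v q) (al b (2 * h) (colM w M none) q) := by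
  obtain ⟨s, i⟩ := q
  have hn2 : (2 * h : ℤ) % 2 = 0 := by omega
  cases s
  · -- floor: the same corner
    have : yB b h M w v (false, i) = al b (2 * h) (colM w M none) (false, i) := by
      unfold yB xA al
      simp only [Bool.false_eq_true, if_false]
      have h1 := Pool.Agent.H45.W.isF1_even (b := b) (q := (false, i))
        (cl := colM (bs w) M (some v.2)) hn2
      have h2 := Pool.Agent.H45.W.isF1_even (b := b) (q := (false, i)) (cl := colM w M none) hn2
      rw [cc_l U hc] at h2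
      simp only [h1, h2]
    rw [this]
  · have hi := hMK _ hq
    obtain ⟨m1, m2⟩ := mark_dn (M := M) (w := w) (w2 := (XB b h M (bs w) o x1).st ω)
      (D2 := (XB b h M (bs w) o x1).D) U.ok U.hh
      (by
        intro e he
        obtain ⟨p, hp, rfl⟩ := he
        rw [cy_lt]
        have : p.2 = 0 := hp.1
        rw [this]
        exact mul_pos (by exact_mod_cast U.ok.H0) U.hn)
      (by
        intro x y hL hQ
        have h3 : ∃ i j : ℤ, |i| ≤ 3 ∧ |j| ≤ 3 ∧ InQ b (2 * h) (x + i) (y + j) := by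
          have := (mem_Lam.1 hL).2
          rw [cx_lt, cy_lt] at this
          rcases this with g | g
          · exact absurd g hQ
          · exact g.1.2
        have := st_lay2 U (M := M) (bse := bs w) (o := o) hω hQ h3
        rw [not_bs] at this
        exact this)
      (by
        intro x y hQ hy hC
        have := st_F U (M := M) (bse := bs w) (o := o) hω hQ hy hC
        rw [not_bs] at this
        exact this) hi hq
    have h1 := Pool.Agent.H45.W.isF1_even (b := b) (q := (true, i))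
      (cl := colM (bs w) M (some v.2)) hn2
    have h2 := Pool.Agent.H45.W.isF1_even (b := b) (q := (true, i)) (cl := colM w M none) hn2
    have e1 : (colM w M none).u i = Pool.Agent.H45.W.cc (colM w M none) (true, i) i := rfl
    have e2 := cc_flip (base := w) (ex := none) hq
    have e3 := cc_flip (base := bs w) (ex := some v.2) hq
    have e4 := cc_u U (M := M) (w := w) i
    simp only at e2 e3 h1 h2
    rw [e1] at m1 m2
    unfold yB xA al
    simp only [if_true]
    rw [e3] at h1
    rw [e2] at h2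
    rw [e4] at h2 m1 m2
    cases hcc : Pool.Agent.H45.W.cc (colM (bs w) M (some v.2)) (true, i) i
    · rw [hcc] at h1 h2 m1
      rw [if_neg (by rw [h1]; simp), if_pos (by rw [h2]; rfl)]
      exact m1 rfl
    · rw [hcc] at h1 h2 m2
      rw [if_pos (by rw [h1]; rfl), if_neg (by rw [h2]; simp)]
      exact m2 rfl

end fix

end Pool.Agent.H80.W
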