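import Mathlib
import Pool.Agent.H80.W.XP
import Pool.Agent.H80.W.BCoup
import Pool.Agent.H86.W.XPSolid

set_option autoImplicit false
set_option linter.unusedSectionVars false
open Finset

/-! # (C6) (J5) (c), XP: the comparison in one box

`xp_fix` : for a moving end `v` near the upper bank of `P` and the mark `x1` on this bank the laws of the far end
differ by at most the probability that there is no half circuit, plus the two forced row terms. -/

namespace Pool.Agent.H80.W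

open Pool.Agent.H61.W Pool.Agent.H6.W Pool.Agent.H58.W Pool.Agent.H21.W Pool.Agent.H50.W
open Pool.Agent.H82.W (WD LMove Half Cor)
open Pool.Agent.H35.W (Force mem_Force)
open Pool.Agent.H73.W (LamT)
open Pool.Agent.H13.W Pool.Agent.H71.W Pool.Agent.H75.Perc Pool.Agent.H75.TwoArm Pool.Agent.H99.W
open Pool.Agent.H70.W (SyC RoomW LayW HC BlkE ExS IsSd An)
open Pool.Agent.H99.NC (BR)
open Pool.Agent.H45.W (JW BG al JW_X JW_XT JW_P DD_X DD_P LamT_iff QS FF AS Wld AS isF1 cc_flip exX exP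
  dgt_notInQ SRd)
open Pool.Agent.H7.W (PSt xp_simu KB_img zc_KB R_true R_false mark_dn DX BX SX XG AbL BeL)
open Pool.Agent.H19.W (cx cy lt_cc cx_lt cy_lt cx_up cy_up cx_dn cy_dn tile_ext odd_dn odd_up)
open Pool.Agent.H33.Q1 (lt tt TL ct mem_TL lt_odd lt_inj tt_lt)

variable {δ σ : ℝ} {b : JBox} {h : ℕ} {M : Finset (Bool × ℕ)} {w o : Bool}
  {x1 a0 a1 y1 : ℤ} {v : ℤ × ℤ}

lemma dn_lt' (x y : ℤ) : dn (lt (x, y)) = lt (x, y - 1) := by
  unfold dn lt
  exact Prod.ext (by simp only; ring) (by simp only; ring)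

/-- rows of the tiles at a side -/
lemma side_row {e c : ℤ × ℤ} (ho : (e.1 + e.2) % 2 = 1) (hs : IsSd e c) {x y : ℤ}
    (hc : c = eW (lt (x, y)) ∨ c = eS (lt (x, y))) : y - 1 ≤ cy e ∧ cy e ≤ y := by
  have h0 := lt_cc ho
  rw [← h0] at hs
  have k1 : eE (lt (cx e, cy e)) = eW (lt (cx e + 1, cy e)) := eE_lt _ _
  have k2 : eN (lt (cx e, cy e)) = eS (lt (cx e, cy e + 1)) := eN_lt _ _
  rcases hc with rfl | rfl
  · rcases hs with g | g | g | g
    · have := (eW_inj' g).2; omega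
    · rw [k1] at g
      have := (eW_inj' g).2; omega
    · exact absurd g (eW_ne_eS _ _ _ _)
    · rw [k2] at g
      exact absurd g (eW_ne_eS _ _ _ _)
  · rcases hs with g | g | g | g
    · exact absurd g.symm (eW_ne_eS _ _ _ _)
    · rw [k1] at g
      exact absurd g.symm (eW_ne_eS _ _ _ _)
    · have := (eS_inj' g).2; omega
    · rw [k2] at g
      have := (eS_inj' g).2; omega

section fix

variable (U : XPH δ σ b h x1 a0 a1 y1 v)
include U

lemma xg : XG b (2 * h) v x1 a0 a1 y1 := by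
  have h1 := U.amX
  have h2 := U.two_le (nP b)
  have h3 : (0 : ℤ) ≤ b.X * (2 * h) := by positivity
  exact ⟨by linarith [U.am], by linarith [U.a10], U.a0v.le, U.va1.le, U.a0x.le, U.xa1.le,
    by linarith [U.v2], U.vy.le, by linarith [U.yb], by linarith [U.yH]⟩

/-- **States of two corresponding configurations.** -/
lemma pst {ω1 ω2 : Finset (ℤ × ℤ)} (hC : Cor (XA b h M (bs w) o x1 a0 v) (XB b h M (bs w) o x1)
      (mvd (XS a0 a1 y1 v.2)) (XS a0 a1 y1 v.2) (XO1 b h x1 a0 a1 y1 v) (XO2 b h x1 a0 a1 y1 v) ω1 ω2) :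
    PSt b (2 * h) v w M x1 a0 a1 y1 ((XA b h M (bs w) o x1 a0 v).st ω1)
      ((XB b h M (bs w) o x1).st ω2) := by
  have k1 := U.v2
  have k2 := U.yb
  have k3 := U.two_le (nP b)
  have k4 := U.a0x
  have k5 := U.vy
  have k6 := U.xa1
  constructor
  · intro x y hL hQ
    refine st_lay1 U hC.1 hQ ?_
    rw [Pool.Agent.H7.W.mem_LamT] at hL
    obtain ⟨⟨i, j, hi, hj, h1⟩, -⟩ := hL
    exact ⟨i, j, by linarith, by linarith, h1⟩
  · intro x y hL hQ
    have := st_lay2 U (M := M) (bse := bs w) (o := o) hC.2.1 hQ (by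
      rw [Pool.Agent.H7.W.mem_Lam'] at hL
      rcases hL with g | g
      · exact absurd g hQ
      · exact g.1.2)
    rw [not_bs] at this
    exact this
  · intro x y hQ hy hc
    have := st_F U (M := M) (bse := bs w) (o := o) hC.2.1 hQ hy hc
    rw [not_bs] at this
    exact this
  · intro x y hQ hA
    have he : lt (x, y) ∈ b.B h := (mem_B U.hh).2 ⟨lt_odd _, by rwa [cx_lt, cy_lt]⟩
    have hS : lt (x, y) ∈ XS a0 a1 y1 v.2 := by
      show (cx (lt (x, y)) < a0 ∧ 2 ≤ cy (lt (x, y))) ∨ (a1 < cx (lt (x, y)) ∧ v.2 < cy (lt (x, y))) ∨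
        ((a0 ≤ cx (lt (x, y)) ∧ cx (lt (x, y)) ≤ a1) ∧ y1 < cy (lt (x, y)))
      rw [cx_lt, cy_lt]
      exact hA
    have := st_DN U hC he hS
    rw [dn_lt'] at this
    exact this
  · intro x y hQ hA
    have he : lt (x, y) ∈ b.B h := (mem_B U.hh).2 ⟨lt_odd _, by rwa [cx_lt, cy_lt]⟩
    refine st_PL U hC he ?_ ?_ ?_
    · show ¬ ((cx (lt (x, y)) < a0 ∧ 2 ≤ cy (lt (x, y))) ∨
        (a1 < cx (lt (x, y)) ∧ v.2 < cy (lt (x, y))) ∨
        ((a0 ≤ cx (lt (x, y)) ∧ cx (lt (x, y)) ≤ a1) ∧ y1 < cy (lt (x, y))))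
      rw [cx_lt, cy_lt]
      unfold BeL at hA
      omega
    · show ¬ ((a0 ≤ cx (lt (x, y)) ∧ cx (lt (x, y)) ≤ a1) ∧ (1 ≤ cy (lt (x, y)) ∧ cy (lt (x, y)) ≤ y1))
      rw [cx_lt, cy_lt]
      unfold BeL at hA
      omega
    · rw [mem_XAD (lt_odd _), cx_lt, cy_lt]
      unfold BeL at hA
      omega

/-- a far end in coordinates -/
lemma far_cor (q : Bool × ℕ) (hq : q.2 < b.K) :
    (q.1 = true → ∃ x y : ℤ, (b.H : ℤ) * (2 * h) ≤ y - 1 ∧
      (yB b h M w v q = eW (lt (x, y)) ∨ yB b h M w v q = eS (lt (x, y)))) ∧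
    (q.1 = false → ∃ x y : ℤ, y ≤ -((b.H : ℤ) * (2 * h)) ∧
      (yB b h M w v q = eW (lt (x, y)) ∨ yB b h M w v q = eS (lt (x, y))) ∧
      IsSd (lt (dgt b (2 * h) q)) (yB b h M w v q)) := by
  obtain ⟨s, i⟩ := q
  have hn := U.hn
  have hh : (1 : ℤ) ≤ h := by exact_mod_cast U.hh
  have hx : xA b h M w v (s, i) = f1 b (2 * h) (s, i) ∨ xA b h M w v (s, i) = f2 b (2 * h) (s, i) := by
    unfold xA al
    split_ifs
    · exact Or.inl rfl
    · exact Or.inr rfl
  have e1 : ((b.H : ℤ) + i + 1) * (2 * h) = b.H * (2 * h) + i * (2 * h) + 2 * h := by ring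
  have e0 : (0 : ℤ) ≤ i * (2 * h) := by positivity
  constructor
  · intro hs
    simp only at hs
    subst hs
    have hy : yB b h M w v (true, i) = dn (xA b h M w v (true, i)) := by
      unfold yB; rw [if_pos rfl]
    rw [hy]
    rcases hx with hx | hx
    · refine ⟨b.st i * (2 * h), ((b.H : ℤ) + i + 1) * (2 * h) - 1, by linarith, Or.inl ?_⟩
      rw [hx, Pool.Agent.H7.W.f1_eq, Pool.Agent.H7.W.dgt_t]
      unfold eW dn lt
      exact Prod.ext (by simp only; ring) (by simp only; ring)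
    · refine ⟨b.st i * (2 * h) - 1, ((b.H : ℤ) + i + 1) * (2 * h) - 1, by linarith, Or.inr ?_⟩
      rw [hx]
      unfold f2
      rw [if_pos rfl, Pool.Agent.H7.W.dgt_t]
      unfold eS dn lt
      exact Prod.ext (by simp only; ring) (by simp only; ring)
  · intro hs
    simp only at hs
    subst hs
    have hy : yB b h M w v (false, i) = xA b h M w v (false, i) := by
      unfold yB; rw [if_neg (by simp)]
    rw [hy]
    rcases hx with hx | hx
    · refine ⟨b.st i * (2 * h), -(((b.H : ℤ) + i + 1) * (2 * h)) - 1, by linarith, Or.inl ?_, ?_⟩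
      · rw [hx, Pool.Agent.H7.W.f1_eq, Pool.Agent.H7.W.dgt_f]
        simp only [sub_add_cancel]
      · rw [hx]
        exact Or.inr (Or.inl rfl)
    · refine ⟨b.st i * (2 * h) - 1, -(((b.H : ℤ) + i + 1) * (2 * h)), by linarith, Or.inr ?_, ?_⟩
      · rw [hx]
        unfold f2
        rw [if_neg (by simp), Pool.Agent.H7.W.dgt_f]
        unfold eN eS lt
        exact Prod.ext (by simp only; ring) (by simp only; ring)
      · rw [hx]
        unfold f2
        rw [if_neg (by simp)]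
        exact Or.inr (Or.inr (Or.inr rfl))

variable {Φ : SyC} {E : Finset (ℤ × ℤ)} {z : ℤ × ℤ} {ρ Mh B N τ xa xb yt : ℤ}

/-- **The far ends are outside the block.** -/
lemma far_out (G : XPG b h M (bs w) o x1 a0 a1 y1 Φ E z ρ Mh B N τ xa xb yt) {q : Bool × ℕ}
    (hq : q ∈ M) (hqK : q.2 < b.K) {W : Finset (ℤ × ℤ)} {D : Set (ℤ × ℤ)} :
    (∀ e ∈ BR z B, ¬ IsSd e (yB b h M w v q)) ∧
      IsEnd (SG (Low (Lam b (2 * h) M) 1) D W) (yB b h M w v q) ∧ yB b h M w v q ≠ mc true x1 := by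
  have hH : (0 : ℤ) ≤ b.H * (2 * h) := by positivity
  have h4 := G.hyt
  have hH2 : (2 : ℤ) ≤ b.H * (2 * h) := by
    linarith [U.yH, U.yb, U.two_le (nP b)]
  obtain ⟨hT, hF⟩ := far_cor (M := M) (w := w) U q hqK
  have hmc : mc true x1 = eW (lt (x1, 0)) := rfl
  have hro : ∀ {x y x' y' : ℤ} {c : ℤ × ℤ}, (c = eW (lt (x, y)) ∨ c = eS (lt (x, y))) →
      c = eW (lt (x', y')) → y = y' := by
    rintro x y x' y' c (g | g) g'
    · exact (eW_inj' (g.symm.trans g')).2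
    · exact absurd (g'.symm.trans g) (eW_ne_eS _ _ _ _)
  rcases hs : q.1 with _ | _
  · obtain ⟨x, y, g1, g2, g3⟩ := hF hs
    refine ⟨fun e he hse => ?_, ?_, ?_⟩
    · have ho := (Pool.Agent.H70.W.mem_BR.1 he).2.2
      have k1 := side_row ho hse g2
      have k2 := (G.hBR e he).2
      linarith [k1.2, k2.1]
    · refine Pool.Agent.H45.W.isEnd_dead (e := lt (dgt b (2 * h) q)) (lt_odd _) ?_ ?_
      · rw [isSd_iff (lt_odd _)] at g3
        exact ((Pool.Agent.H45.W.lab_iff _ _).1 g3).2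
      · rintro ⟨⟨x', y', he, hl⟩, -⟩
        have := lt_inj he
        rcases hl with hl | hl
        · apply dgt_notInQ (bg U) U.hn hqK
          rw [this]
          exact hl
        · exact hl.2 q hq this.symm
    · intro hm
      have := hro g2 (hm.trans hmc)
      linarith
  · obtain ⟨x, y, g1, g2⟩ := hT hs
    refine ⟨fun e he hse => ?_, ?_, ?_⟩
    · have ho := (Pool.Agent.H70.W.mem_BR.1 he).2.2
      have k1 := side_row ho hse g2
      have k2 := (G.hBR e he).2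
      linarith [k1.1, k2.2]
    · rintro a c ⟨e, ⟨he, he1⟩, hT'⟩
      exfalso
      have ho : (e.1 + e.2) % 2 = 1 := by
        obtain ⟨x', y', rfl, -⟩ := he
        exact lt_odd _
      have k1 := side_row ho (show IsSd e _ from hT'.sd) g2
      have k2 : cy e < 1 := he1
      linarith [k1.1]
    · intro hm
      have := hro g2 (hm.trans hmc)
      linarith

variable (hMK : ∀ q ∈ M, q.2 < b.K) (hc : par M.card = true)

include hMK hc

omit hMK in
/-- the deleted rows in the solid plates do nothing (86) -/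
lemma sol (hh2 : 2 ≤ h) (hM3 : M.card = 3) {ω : Finset (ℤ × ℤ)} (hω : ω ⊆ (XA b h M (bs w) o x1 a0 v).E)
    (hbc : BC (XA b h M (bs w) o x1 a0 v).E (XA b h M (bs w) o x1 a0 v).b ω) {q : Bool × ℕ} (hq : q ∈ M) :
    (SG (LamT b (2 * h) M) (lt '' strD v) ((XA b h M (bs w) o x1 a0 v).st ω)).Reachable (zc v)
        (xA b h M w v q) ↔
      ((XA b h M (bs w) o x1 a0 v).G ω).Reachable (zc v) (xA b h M w v q) := by
  refine Pool.Agent.H86.W.xp_solid_st U hh2 hM3 hω hbc (Or.inl rfl) (Or.inr ⟨q, hq, ?_⟩)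
  unfold xA al
  split_ifs
  · exact Or.inl rfl
  · exact Or.inr rfl

/-- **The far ends agree** for corresponding block constant configurations with a half circuit. -/
theorem xp_agree (hh2 : 2 ≤ h) (hM3 : M.card = 3)
    (G : XPG b h M (bs w) o x1 a0 a1 y1 Φ E z ρ Mh B N τ xa xb yt)
    (hE0 : ∀ e ∈ E, cpl b (2 * h) e = none) {ω1 ω2 : Finset (ℤ × ℤ)}
    (hC : Cor (XA b h M (bs w) o x1 a0 v) (XB b h M (bs w) o x1)
      (mvd (XS a0 a1 y1 v.2)) (XS a0 a1 y1 v.2) (XO1 b h x1 a0 a1 y1 v) (XO2 b h x1 a0 a1 y1 v) ω1 ω2)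
    (hbc : BC (XA b h M (bs w) o x1 a0 v).E (XA b h M (bs w) o x1 a0 v).b ω1)
    (hB : HC Φ E z B ρ Mh (ω2 ∩ XO2 b h x1 a0 a1 y1 v)) {q : Bool × ℕ} (hq : q ∈ M) :
    ((XA b h M (bs w) o x1 a0 v).G ω1).Reachable (zc v) (xA b h M w v q) ↔
      ((XB b h M (bs w) o x1).G ω2).Reachable (mc true x1) (yB b h M w v q) := by
  have hn2 : (2 : ℤ) ≤ 2 * h := by
    have : (1 : ℤ) ≤ h := by exact_mod_cast U.hh
    linarith
  have L := U.lm (M := M) (bse := bs w) (o := o)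
  have hst : HC Φ E z B ρ Mh ((XB b h M (bs w) o x1).st ω2) := by
    refine hB.mono fun e he => ?_
    rw [mem_inter, mem_inter] at he
    obtain ⟨⟨h1, h2⟩, h3⟩ := he
    rw [WD.mem_st (L.w2 e h2)]
    refine Or.inl ⟨h1, fun h4 => ?_⟩
    classical
    obtain ⟨-, ⟨i, -, hi⟩, -⟩ := mem_filter.1 (show e ∈ (b.B h).filter _ from h4)
    rw [hE0 e (mem_inter.1 h3).1] at hi
    exact absurd hi (by simp)
  obtain ⟨I, p, h1, h2, h3, h4⟩ := G.blk U hC.2.1 hst
  have Mv := xp_simu U.ok U.hn (xg U) (pst U hC)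
  have hR : ∀ q : {q // q ∈ M}, SRd (LamT b (2 * h) M) (DX v x1) (BX a0 a1 y1) (SX v a0 a1 y1)
      (xA b h M w v q) (yB b h M w v q) := by
    rintro ⟨⟨s, i⟩, hq⟩
    have hi := hMK _ hq
    have hx : xA b h M w v (s, i) = f1 b (2 * h) (s, i) ∨ xA b h M w v (s, i) = f2 b (2 * h) (s, i) := by
      unfold xA al
      split_ifs
      · exact Or.inl rfl
      · exact Or.inr rfl
    cases s
    · obtain ⟨g1, g2⟩ := R_false (M := M) U.ok hn2 (xg U) hi
      have hy : yB b h M w v (false, i) = xA b h M w v (false, i) := by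
        unfold yB; rw [if_neg (by simp)]
      simp only [hy]
      rcases hx with hx | hx <;> rw [hx]
      · exact g1
      · exact g2
    · obtain ⟨g1, g2⟩ := R_true (M := M) U.ok hn2 (xg U) hi
      have hy : yB b h M w v (true, i) = dn (xA b h M w v (true, i)) := by
        unfold yB; rw [if_pos rfl]
      simp only [hy]
      rcases hx with hx | hx <;> rw [hx]
      · exact g1
      · exact g2
  have key := Mv.far (z := zc v) (z' := mc true x1) (ι := {q // q ∈ M}) (I := I) (b := p)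
    (x := fun q => xA b h M w v q) (y := fun q => yB b h M w v q) h1
    (fun c hc c' hR => h2 c' (KB_img (xg U) hc hR)) (zc_KB (xg U)) h3 hR ?_ ?_ ?_ ?_ ⟨q, hq⟩
  · exact key
  · rintro ⟨q, hq⟩
    obtain ⟨k1, k2, k3⟩ := far_out (w := w) U G hq (hMK q hq)
      (W := (XB b h M (bs w) o x1).st ω2) (D := (XB b h M (bs w) o x1).D)
    exact h4 _ k1 k2 k3
  · have W := jwAT U hMK hc hC.1
    obtain ⟨q, ⟨hq, h1⟩, -⟩ := exX W
    rw [W.RF_iff (W.zc_AS rfl) hq, DD_X] at h1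
    exact ⟨⟨q, hq⟩, (sol U hc hh2 hM3 hC.1 hbc hq).1 h1⟩
  · have W := jwB U hMK hc hC.2.1
    obtain ⟨q, ⟨hq, h1⟩, -⟩ := exP W
    rw [W.RF_iff (W.mc_AS rfl) hq, DD_P] at h1
    exact ⟨⟨q, hq⟩, h1.trans (yB_al U hMK hc hC.2.1 hq).symm⟩
  · rintro ⟨q, hq⟩ ⟨q', hq'⟩ h1 h2
    have W := jwB U hMK hc hC.2.1
    have k1 := h1.trans (yB_al U hMK hc hC.2.1 hq)
    have k2 := h2.trans (yB_al U hMK hc hC.2.1 hq')
    have hA := W.mc_AS (s := (x1, Yr true)) rfl
    have e1 := W.RF_iff hA hq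
    have e2 := W.RF_iff hA hq'
    rw [DD_P] at e1 e2
    have := W.mc_uniq (s := (x1, Yr true)) rfl hq hq' (by rw [DD_P]; exact e1.2 k1)
      (by rw [DD_P]; exact e2.2 k2)
    exact Subtype.ext this

end fix

/-! ### The forced rows -/

/-- forced row of the world of the moving end: the rows of the room over the plates left of `a0` -/
def RowA (b : JBox) (h : ℕ) (M : Finset (Bool × ℕ)) (w o : Bool) (a0 : ℤ) (v : ℤ × ℤ) (q : Bool × ℕ)
    (η : ℝ) : Prop :=
  b.PJ h (fun ω => ¬ (RF b (2 * h) (SG (Lam b (2 * h) M) (lt '' strD v)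
      (cfg b h o ω ∪ Wl b (2 * h) (colM (bs w) M (some v.2)))) (zc v) q ↔
    RF b (2 * h) (SG (Lam b (2 * h) M) (lt '' strD v) (Force (FA b h a0) dn
      (cfg b h o ω ∪ Wl b (2 * h) (colM (bs w) M (some v.2))))) (zc v) q)) ≤ η

/-- forced row of the world of the mark: the row below the ceiling -/
def RowB (b : JBox) (h : ℕ) (M : Finset (Bool × ℕ)) (w o : Bool) (x1 : ℤ) (q : Bool × ℕ)
    (η : ℝ) : Prop :=
  b.PJ h (fun ω => ¬ (RF b (2 * h) (SG (Lam b (2 * h) M) (lt '' slD true x1)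
      (symmDiff (cfg b h o ω) (flp b h true x1) ∪ Wl b (2 * h) (colM w M none))) (mc true x1) q ↔
    RF b (2 * h) (SG (Lam b (2 * h) M) (lt '' slD true x1) (Force (FB b h) up
      (symmDiff (cfg b h o ω) (flp b h true x1) ∪ Wl b (2 * h) (colM w M none)))) (mc true x1) q)) ≤ η

lemma PJ_diff {P Q : Finset (ℤ × ℤ) → Prop} {η : ℝ} (hη : b.PJ h (fun ω => ¬ (P ω ↔ Q ω)) ≤ η) :
    |b.PJ h P - b.PJ h Q| ≤ η := by
  refine le_trans ?_ hη
  unfold JBox.PJ
  have h1 : PB (b.B h) (bk (2 * (h : ℤ)) (chn 0 b.M b.τ)) P ≤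
      PB (b.B h) (bk (2 * (h : ℤ)) (chn 0 b.M b.τ)) Q +
        PB (b.B h) (bk (2 * (h : ℤ)) (chn 0 b.M b.τ)) (fun ω => ¬ (P ω ↔ Q ω)) := by
    refine le_trans (PB_mono (B := fun ω => Q ω ∨ ¬ (P ω ↔ Q ω)) fun ω _ hp => ?_) (PB_or_le _ _ _ _)
    tauto
  have h2 : PB (b.B h) (bk (2 * (h : ℤ)) (chn 0 b.M b.τ)) Q ≤
      PB (b.B h) (bk (2 * (h : ℤ)) (chn 0 b.M b.τ)) P +
        PB (b.B h) (bk (2 * (h : ℤ)) (chn 0 b.M b.τ)) (fun ω => ¬ (P ω ↔ Q ω)) := by
    refine le_trans (PB_mono (B := fun ω => P ω ∨ ¬ (P ω ↔ Q ω)) fun ω _ hp => ?_) (PB_or_le _ _ _ _)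
    tauto
  rw [abs_le]
  constructor <;> linarith

/-- **XP in one box.** -/
theorem xp_fix (U : XPH δ σ b h x1 a0 a1 y1 v) (hh2 : 2 ≤ h) {Φ : SyC} {E : Finset (ℤ × ℤ)} {z : ℤ × ℤ}
    {ρ Mh B N τ xa xb yt : ℤ} {c2 c3 c4 : Bool × ℕ}
    (G : XPG b h {c2, c3, c4} (bs w) o x1 a0 a1 y1 Φ E z ρ Mh B N τ xa xb yt)
    (hO : E ∩ An z ρ Mh ⊆ XO2 b h x1 a0 a1 y1 v) (hE0 : ∀ e ∈ E, cpl b (2 * h) e = none)
    (k2 : c2.2 < b.K) (k3 : c3.2 < b.K) (k4 : c4.2 < b.K)
    (n23 : c2 ≠ c3) (n24 : c2 ≠ c4) (n34 : c3 ≠ c4)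
    {q : Bool × ℕ} (hq : q ∈ ({c2, c3, c4} : Finset (Bool × ℕ)))
    {ηA ηB : ℝ} (hA : RowA b h {c2, c3, c4} w o a0 v q ηA) (hB : RowB b h {c2, c3, c4} w o x1 q ηB) :
    eQ b h w true o x1 c2 c3 c4 q v ≤ ηA + ηB + PB (XB b h {c2, c3, c4} (bs w) o x1).E
      (XB b h {c2, c3, c4} (bs w) o x1).b (fun ω => ¬ HC Φ E z B ρ Mh ω) := by
  classical
  set M : Finset (Bool × ℕ) := {c2, c3, c4} with hM
  have hM3 : M.card = 3 := card_eq_three.2 ⟨c2, c3, c4, n23, n24, n34, rfl⟩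
  have hMK : ∀ q ∈ M, q.2 < b.K := by
    intro q hq
    rw [hM] at hq
    simp only [mem_insert, mem_singleton] at hq
    rcases hq with rfl | rfl | rfl
    · exact k2
    · exact k3
    · exact k4
  have hc : par M.card = true := Pool.Agent.H45.W.par3 n23 n24 n34
  have r1 := PJ_diff hA
  have r2 := PJ_diff hB
  have L1 := law_A U (M := M) (bse := bs w) (o := o) (fun ω => RF b (2 * h)
    (SG (Lam b (2 * h) M) (lt '' strD v) ω) (zc v) q)
  have L2 := law_B U (M := M) (bse := bs w) (o := o) (fun ω => RF b (2 * h)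
    (SG (Lam b (2 * h) M) (lt '' slD true x1) ω) (mc true x1) q)
  rw [not_bs] at L2
  have e1 : PB (XA b h M (bs w) o x1 a0 v).E (XA b h M (bs w) o x1 a0 v).b
      (fun ω => RF b (2 * h) (SG (Lam b (2 * h) M) (lt '' strD v)
        ((XA b h M (bs w) o x1 a0 v).st ω)) (zc v) q) =
      PB (XA b h M (bs w) o x1 a0 v).E (XA b h M (bs w) o x1 a0 v).b
      (fun ω => ((XA b h M (bs w) o x1 a0 v).G ω).Reachable (zc v) (xA b h M w v q)) :=
    PB_congrBC fun ω hω hbc => (A_thin U hMK hc hω hq).trans (sol U hc hh2 hM3 hω hbc hq)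
  have e2 : PB (XB b h M (bs w) o x1).E (XB b h M (bs w) o x1).b
      (fun ω => RF b (2 * h) (SG (Lam b (2 * h) M) (lt '' slD true x1)
        ((XB b h M (bs w) o x1).st ω)) (mc true x1) q) =
      PB (XB b h M (bs w) o x1).E (XB b h M (bs w) o x1).b
      (fun ω => ((XB b h M (bs w) o x1).G ω).Reachable (mc true x1) (yB b h M w v q)) := by
    refine Pool.Agent.H58.W.PB_congr fun ω hω => ?_
    have h1 := B_al U hMK hc hω hq
    have h2 := yB_al (v := v) U hMK hc hω hq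
    exact ⟨fun g => (h1.1 g).trans h2.symm, fun g => h1.2 (g.trans h2)⟩
  have key := LMove.diff_BC (U.lm (M := M) (bse := bs w) (o := o)) (Blk := HC Φ E z B ρ Mh)
    (P := fun ω => ((XA b h M (bs w) o x1 a0 v).G ω).Reachable (zc v) (xA b h M w v q))
    (P' := fun ω => ((XB b h M (bs w) o x1).G ω).Reachable (mc true x1) (yB b h M w v q))
    (fun ω1 ω2 hC hbc _ hBl => xp_agree U hMK hc hh2 hM3 G hE0 hC hbc hBl hq)
  have hHC : PB (XB b h M (bs w) o x1).E (XB b h M (bs w) o x1).b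
      (fun ω => ¬ HC Φ E z B ρ Mh (ω ∩ XO2 b h x1 a0 a1 y1 v)) ≤
      PB (XB b h M (bs w) o x1).E (XB b h M (bs w) o x1).b (fun ω => ¬ HC Φ E z B ρ Mh ω) := by
    refine PB_mono fun ω _ hn hH => hn (hH.mono fun e he => ?_)
    rw [mem_inter] at he ⊢
    exact ⟨he.1, hO he.2⟩
  have hXP : eQ b h w true o x1 c2 c3 c4 q v =
      |b.PJ h (fun ω => RF b (2 * h) (SG (Lam b (2 * h) M) (lt '' strD v)
        (cfg b h o ω ∪ Wl b (2 * h) (colM (bs w) M (some v.2)))) (zc v) q) -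
      b.PJ h (fun ω => RF b (2 * h) (SG (Lam b (2 * h) M) (lt '' slD true x1)
        (symmDiff (cfg b h o ω) (flp b h true x1) ∪ Wl b (2 * h) (colM w M none)))
          (mc true x1) q)| := rfl
  rw [hXP]
  rw [L1, e1] at r1
  rw [L2, e2] at r2
  rw [abs_le] at r1 r2 key ⊢
  constructor <;> linarith [r1.1, r1.2, r2.1, r2.2, key.1, key.2]

end Pool.Agent.H80.W
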