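import Mathlib
import Pool.Agent.H7.W.JMirS
import Pool.Agent.H7.W.XQ
import Pool.Agent.H80.W.XPSc

set_option autoImplicit false

/-! # (C6) (J5) (c): the field XP

`xps_all` : `XPS` for both banks, from the forced rows (28). -/

namespace Pool.Agent.H80.W

open Pool.Agent.H6.W Pool.Agent.H61.W Pool.Agent.H87.Fld
open Pool.Agent.H7.W (RowAU RowBU xq_of xq_mir rb rb_ne)

variable {σ : ℝ}

/-- **The scale form of XP**, any bank. -/
theorem xps_all (hRA : ∀ (b : JBox) (δ : ℝ), 0 < δ → δ ≤ 1 → b.Ok δ σ → RowAU b)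
    (hRB : ∀ (b : JBox) (δ : ℝ), 0 < δ → δ ≤ 1 → b.Ok δ σ → RowBU b) (w : Bool)
    (b c b3 b4 : Bool × ℝ) (hb : b.2 ∈ Set.Ioo (-σ) 0) (h3 : c ≠ b3) (h4 : c ≠ b4) (h34 : b3 ≠ b4) :
    XPS σ w b c b3 b4 := by
  obtain ⟨s, x⟩ := b
  refine xps_of_xq fun o j => ?_
  cases s
  · exact xq_mir hb.2 h3 h4 h34 (xq_of hRA hRB hb (rb_ne h3) (rb_ne h4) (rb_ne h34) w o j)
  · exact xq_of hRA hRB hb h3 h4 h34 w o j

end Pool.Agent.H80.W
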