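import Pool.Agent.H16.W.Strip
import Pool.Agent.H61.W.JData
import Pool.Agent.H87.W.HalfE

/-!
# The half disc chart of the slit strip (route W, W-C)

`Ps v = psi (v ^ 2)` maps the right half disc `HA 0` onto the slit strip `SStrip`, `Ph z = sqrt (th z)`
is the inverse. Boundary: `cis (ang b / 2) ↔ bdp b`, `± i t ↔ - bk t` from above / below.
-/

set_option autoImplicit false

namespace H80.W

open Complex Set Filter Topology
open scoped ComplexConjugate
open Pool.Agent.H16.W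
open Pool.Agent.H61.W (SStrip bdp ang sgn)
open Pool.Agent.H87.W (HA cis)

/-- from the half disc to the slit strip -/
noncomputable def Ps (v : ℂ) : ℂ := psi (v ^ 2)

/-- from the slit strip to the half disc -/
noncomputable def Ph (z : ℂ) : ℂ := (th z) ^ (1 / 2 : ℂ)

lemma mem_HA {v : ℂ} : v ∈ HA 0 ↔ ‖v‖ < 1 ∧ 0 < v.re := by
  constructor
  · exact fun h => h.2
  · intro h
    refine ⟨?_, h⟩
    rw [norm_pos_iff]
    rintro rfl
    exact lt_irrefl _ h.2

lemma isOpen_HA0 : IsOpen (HA 0) := Pool.Agent.H87.W.isOpen_HA 0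

lemma sq_re (v : ℂ) : (v ^ 2).re = v.re ^ 2 - v.im ^ 2 := by rw [sq, Complex.mul_re]; ring

lemma sq_im (v : ℂ) : (v ^ 2).im = 2 * v.re * v.im := by rw [sq, Complex.mul_im]; ring

lemma sq_norm_lt {v : ℂ} (hv : v ∈ HA 0) : ‖v ^ 2‖ < 1 := by
  rw [norm_pow]
  exact pow_lt_one₀ (norm_nonneg _) (mem_HA.1 hv).1 two_ne_zero

lemma sq_DC {v : ℂ} (hv : v ∈ HA 0) : v ^ 2 ∈ DC := ball_sub_DC (sq_norm_lt hv)

lemma Ps_diff : DifferentiableOn ℂ Ps (HA 0) :=
  psi_diff.comp (by fun_prop) fun _ hv => sq_DC hv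

/-- continuity up to the boundary -/
lemma Ps_cont : ContinuousOn Ps {v | v ^ 2 ∈ DC} :=
  psi_cont.comp (by fun_prop) fun _ hv => hv

lemma Ps_tendsto {v : ℂ} (hv : v ^ 2 ∈ DC) : Tendsto Ps (𝓝[HA 0] v) (𝓝 (Ps v)) :=
  (Ps_cont v hv).mono_left (nhdsWithin_mono _ fun _ hv => sq_DC hv)

lemma Ps_im_pos {v : ℂ} (hv : v ^ 2 ∈ DC) (h0 : 0 < v.re) (h : 0 < v.im) : 0 < (Ps v).im :=
  psi_im_pos hv (by rw [sq_im]; positivity)

lemma Ps_im_neg {v : ℂ} (hv : v ^ 2 ∈ DC) (h0 : 0 < v.re) (h : v.im < 0) : (Ps v).im < 0 :=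
  psi_im_neg hv (by rw [sq_im]; exact mul_neg_of_pos_of_neg (by linarith) h)

lemma Ps_maps : MapsTo Ps (HA 0) SStrip := by
  intro v hv
  have h1 := sq_norm_lt hv
  obtain ⟨h2, h3⟩ := mem_HA.1 hv
  refine ⟨psi_strip' h1, fun hcon => ?_⟩
  rcases lt_trichotomy v.im 0 with h4 | h4 | h4
  · exact (Ps_im_neg (sq_DC hv) h3 h4).ne hcon.1
  · have h5 : v ^ 2 = ((v.re ^ 2 : ℝ) : ℂ) := by
      apply Complex.ext
      · rw [sq_re, h4, ofReal_re]; ring
      · rw [sq_im, h4, ofReal_im]; ring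
    have h6 : v.re ^ 2 < 1 := by
      rw [h5, norm_real, Real.norm_eq_abs, abs_of_nonneg (sq_nonneg _)] at h1
      exact h1
    have h7 : 0 < v.re ^ 2 := by positivity
    have h8 := hcon.2
    unfold Ps at h8
    rw [h5, psi_ofReal (by linarith) h6, ofReal_re] at h8
    have h9 : 0 < Real.log ((1 + v.re ^ 2) / (1 - v.re ^ 2)) := by
      apply Real.log_pos
      rw [lt_div_iff₀ (by linarith)]
      linarith
    have := mul_pos (show 0 < 2 / Real.pi by positivity) h9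
    linarith
  · exact (Ps_im_pos (sq_DC hv) h3 h4).ne' hcon.1

lemma SStrip_SC {z : ℂ} (hz : z ∈ SStrip) : z ∈ SC := hz.1.le

lemma th_slit {z : ℂ} (hz : z ∈ SStrip) : th z ∈ slitPlane := by
  rw [Complex.mem_slitPlane_iff]
  by_contra hcon
  rw [not_or, not_lt, not_not] at hcon
  obtain ⟨h1, h2⟩ := hcon
  have h3 : th z = ((th z).re : ℂ) := Complex.ext rfl (by simpa using h2)
  have h4 := th_norm_lt hz.1
  rw [h3, norm_real, Real.norm_eq_abs, abs_lt] at h4
  have h5 := psi_th (SStrip_SC hz)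
  rw [h3, psi_ofReal h4.1 h4.2] at h5
  apply hz.2
  rw [← h5]
  refine ⟨ofReal_im _, ?_⟩
  rw [ofReal_re]
  apply mul_nonpos_of_nonneg_of_nonpos (by positivity)
  apply Real.log_nonpos
  · exact div_nonneg (by linarith) (by linarith)
  · rw [div_le_one (by linarith)]
    linarith

lemma Ph_sq (z : ℂ) : (Ph z) ^ 2 = th z := by
  unfold Ph
  rw [← Complex.cpow_nat_mul]
  norm_num

lemma Ph_maps : MapsTo Ph SStrip (HA 0) := by
  intro z hz
  have h1 := th_slit hz
  have h2 := th_norm_lt hz.1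
  rw [mem_HA]
  refine ⟨?_, ?_⟩
  · have h3 : ‖Ph z‖ ^ 2 = ‖th z‖ := by rw [← norm_pow, Ph_sq]
    by_contra hcon
    push Not at hcon
    nlinarith
  · have h0 : th z ≠ 0 := slitPlane_ne_zero h1
    unfold Ph
    rw [Complex.cpow_def_of_ne_zero h0, Complex.exp_re]
    refine mul_pos (Real.exp_pos _) (Real.cos_pos_of_mem_Ioo ?_)
    have h4 : (Complex.log (th z) * (1 / 2)).im = (th z).arg / 2 := by
      rw [Complex.mul_im, Complex.log_im]
      norm_num
      ring
    rw [h4]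
    have h6 := Complex.neg_pi_lt_arg (th z)
    have h7 : (th z).arg < Real.pi :=
      lt_of_le_of_ne (Complex.arg_le_pi _) (Complex.slitPlane_arg_ne_pi h1)
    constructor <;> linarith

lemma Ps_Ph {z : ℂ} (hz : z ∈ SStrip) : Ps (Ph z) = z := by
  unfold Ps
  rw [Ph_sq, psi_th (SStrip_SC hz)]

lemma Ph_Ps {v : ℂ} (hv : v ∈ HA 0) : Ph (Ps v) = v := by
  have h1 := Ph_maps (Ps_maps hv)
  have h2 := Ph_sq (Ps v)
  have h3 : th (Ps v) = v ^ 2 := th_psi (sq_DC hv)
  rw [h3, sq_eq_sq_iff_eq_or_eq_neg] at h2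
  rcases h2 with h2 | h2
  · exact h2
  · exfalso
    have h4 := (mem_HA.1 h1).2
    rw [h2, Complex.neg_re] at h4
    have := (mem_HA.1 hv).2
    linarith

lemma th_diff : DifferentiableOn ℂ th SC := by
  intro z hz
  have h1 := exp_add_ne hz
  have h2 : DifferentiableAt ℂ (fun z : ℂ => (exp ((Real.pi / 2 : ℝ) * z) - 1) /
      (exp ((Real.pi / 2 : ℝ) * z) + 1)) z :=
    DifferentiableAt.div (by fun_prop) (by fun_prop) h1
  exact h2.differentiableWithinAt

lemma Ph_diff : DifferentiableOn ℂ Ph SStrip := by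
  intro z hz
  have h1 : DifferentiableWithinAt ℂ th SStrip z :=
    (th_diff z (SStrip_SC hz)).mono fun _ h => SStrip_SC h
  exact h1.cpow_const (th_slit hz)

/-! ### The arc -/

lemma sgn_true : sgn true = 1 := rfl

lemma sgn_false : sgn false = -1 := rfl

lemma abs_sgn (s : Bool) : |sgn s| = 1 := by cases s <;> simp [sgn]

lemma sgn_sq (s : Bool) : sgn s * sgn s = 1 := by cases s <;> simp [sgn]

lemma bdp_im (b : Bool × ℝ) : (bdp b).im = sgn b.1 := rfl

lemma bdp_re (b : Bool × ℝ) : (bdp b).re = b.2 := rfl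

lemma bdp_SC (b : Bool × ℝ) : bdp b ∈ SC := by
  show |(bdp b).im| ≤ 1
  rw [bdp_im, abs_sgn]

lemma cis_arctan (E : ℝ) : cis (2 * Real.arctan E) = (1 + E * I) / (1 - E * I) := by
  have h0 : (0:ℝ) < √(1 + E ^ 2) := Real.sqrt_pos.2 (by positivity)
  have h1 : cis (Real.arctan E) = (1 + E * I) / (√(1 + E ^ 2) : ℝ) := by
    unfold cis
    rw [exp_mul_I, ← ofReal_cos, ← ofReal_sin, Real.cos_arctan, Real.sin_arctan]
    push_cast
    ring
  have h2 : cis (-Real.arctan E) = (1 - E * I) / (√(1 + E ^ 2) : ℝ) := by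
    rw [← Pool.Agent.H87.W.conj_cis, h1]
    simp [sub_eq_add_neg]
  have h3 : cis (2 * Real.arctan E) * cis (-Real.arctan E) = cis (Real.arctan E) := by
    rw [← Pool.Agent.H87.W.cis_add]
    congr 1
    ring
  have h4 : (1 - E * I : ℂ) ≠ 0 := by
    intro h
    have := congrArg re h
    simp at this
  have h5 : ((√(1 + E ^ 2) : ℝ) : ℂ) ≠ 0 := ofReal_ne_zero.2 h0.ne'
  rw [h1, h2] at h3
  rw [eq_div_iff h4]
  field_simp at h3
  exact h3

lemma th_bdp (b : Bool × ℝ) : th (bdp b) = cis (ang b) := by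
  obtain ⟨s, x⟩ := b
  set E : ℝ := Real.exp (-(Real.pi * x / 2)) with hE
  have hE0 : E ≠ 0 := (Real.exp_pos _).ne'
  have hT : cexp ((Real.pi / 2 : ℝ) * (x : ℂ)) = ((E⁻¹ : ℝ) : ℂ) := by
    rw [hE, ← Real.exp_neg, ofReal_exp]
    congr 1
    push_cast
    ring
  have hEc : (E : ℂ) ≠ 0 := ofReal_ne_zero.2 hE0
  have hn1 : (1 - E * I : ℂ) ≠ 0 := by
    intro h
    have := congrArg re h
    simp at this
  have hn2 : (1 + E * I : ℂ) ≠ 0 := by
    intro h
    have := congrArg re h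
    simp at this
  have hI : I * I = -1 := I_mul_I
  cases s
  · have h1 : bdp (false, x) = (x : ℂ) + (-1 : ℂ) * I := by
      apply Complex.ext <;> simp [bdp, sgn]
    have h2 : cexp ((Real.pi / 2 : ℝ) * bdp (false, x)) = ((E⁻¹ : ℝ) : ℂ) * (-I) := by
      rw [h1, mul_add, Complex.exp_add, hT]
      congr 1
      have : ((Real.pi / 2 : ℝ) : ℂ) * (-1 * I) = -(Real.pi / 2 * I) := by push_cast; ring
      rw [this, Complex.exp_neg, exp_pi_div_two_mul_I, inv_I]
    have h3 : ang (false, x) = -(2 * Real.arctan E) := by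
      unfold ang; simp [sgn, hE]
    rw [h3, ← Pool.Agent.H87.W.conj_cis, cis_arctan]
    unfold th
    rw [h2]
    have h4 : conj ((1 + (E : ℂ) * I) / (1 - E * I)) = (1 - E * I) / (1 + E * I) := by
      simp [sub_eq_add_neg]
    have h6 : ((E⁻¹ : ℝ) : ℂ) * (-I) + 1 ≠ 0 := by
      intro h
      have h7 := congrArg im h
      simp at h7
      exact hE0 h7
    rw [h4, div_eq_div_iff h6 hn2]
    push_cast
    field_simp
    linear_combination (-2 * (E : ℂ)) * I_sq
  · have h1 : bdp (true, x) = (x : ℂ) + I := by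
      apply Complex.ext <;> simp [bdp, sgn]
    have h2 : cexp ((Real.pi / 2 : ℝ) * bdp (true, x)) = ((E⁻¹ : ℝ) : ℂ) * I := by
      rw [h1, mul_add, Complex.exp_add, hT]
      congr 1
      have : ((Real.pi / 2 : ℝ) : ℂ) * I = (Real.pi / 2 * I) := by push_cast; ring
      rw [this, exp_pi_div_two_mul_I]
    have h3 : ang (true, x) = 2 * Real.arctan E := by
      unfold ang; simp [sgn, hE]
    rw [h3, cis_arctan]
    unfold th
    rw [h2]
    have h6 : ((E⁻¹ : ℝ) : ℂ) * I + 1 ≠ 0 := by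
      intro h
      have h7 := congrArg im h
      simp at h7
      exact hE0 h7
    rw [div_eq_div_iff h6 hn1]
    push_cast
    field_simp
    linear_combination (-2 * (E : ℂ)) * I_sq

lemma cis_half_sq (a : ℝ) : cis (a / 2) ^ 2 = cis a := by
  rw [sq, ← Pool.Agent.H87.W.cis_add]
  congr 1
  ring

lemma cis_ang_DC (b : Bool × ℝ) : cis (ang b) ∈ DC := by
  rw [← th_bdp]
  exact th_DC (bdp_SC b)

lemma Ps_cis_ang (b : Bool × ℝ) : Ps (cis (ang b / 2)) = bdp b := by
  unfold Ps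
  rw [cis_half_sq, ← th_bdp, psi_th (bdp_SC b)]

/-- **(1)** the arc -/
theorem Ps_arc (b : Bool × ℝ) :
    Tendsto Ps (𝓝[HA 0] (cis (ang b / 2))) (𝓝[SStrip] (bdp b)) := by
  rw [tendsto_nhdsWithin_iff]
  refine ⟨?_, eventually_mem_nhdsWithin.mono fun v hv => Ps_maps hv⟩
  rw [← Ps_cis_ang]
  exact Ps_tendsto (by rw [cis_half_sq]; exact cis_ang_DC b)

lemma ang_true (x : ℝ) : ang (true, x) = 2 * Real.arctan (Real.exp (-(Real.pi * x / 2))) := by
  unfold ang; simp [sgn]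

lemma ang_false (x : ℝ) : ang (false, x) = -(2 * Real.arctan (Real.exp (-(Real.pi * x / 2)))) := by
  unfold ang; simp [sgn]

lemma ang_neg (x : ℝ) : ang (false, x) = -ang (true, x) := by rw [ang_true, ang_false]

lemma ang_true_pos (x : ℝ) : 0 < ang (true, x) := by
  rw [ang_true]
  have := Real.arctan_pos.2 (Real.exp_pos (-(Real.pi * x / 2)))
  linarith

lemma ang_true_lt (x : ℝ) : ang (true, x) < Real.pi := by
  rw [ang_true]
  have := Real.arctan_lt_pi_div_two (Real.exp (-(Real.pi * x / 2)))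
  linarith

lemma ang_mem (b : Bool × ℝ) : ang b ∈ Ioo (-Real.pi) Real.pi := by
  obtain ⟨s, x⟩ := b
  have h1 := ang_true_pos x
  have h2 := ang_true_lt x
  have h3 := Real.pi_pos
  cases s
  · rw [ang_neg]; constructor <;> linarith
  · constructor <;> linarith

lemma ang_ne_zero (b : Bool × ℝ) : ang b ≠ 0 := by
  obtain ⟨s, x⟩ := b
  have h1 := ang_true_pos x
  cases s
  · rw [ang_neg]; linarith
  · exact h1.ne'

lemma ang_pos_iff (b : Bool × ℝ) : 0 < ang b ↔ b.1 = true := by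
  obtain ⟨s, x⟩ := b
  have h1 := ang_true_pos x
  cases s
  · rw [ang_neg]
    constructor
    · intro h; linarith
    · intro h; cases h
  · exact ⟨fun _ => rfl, fun _ => h1⟩

/-- the boundary point of angle `a` -/
noncomputable def barc (a : ℝ) : Bool × ℝ :=
  (decide (0 < a), -(2 / Real.pi * Real.log (Real.tan (|a| / 2))))

lemma barc_fst (a : ℝ) : (barc a).1 = decide (0 < a) := rfl

lemma barc_snd (a : ℝ) : (barc a).2 = -(2 / Real.pi * Real.log (Real.tan (|a| / 2))) := rfl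

lemma ang_barc {a : ℝ} (h : a ∈ Ioo (-Real.pi) Real.pi) (h0 : a ≠ 0) : ang (barc a) = a := by
  have hp := Real.pi_pos
  have ha : 0 < |a| := abs_pos.2 h0
  have ha' : |a| < Real.pi := abs_lt.2 h
  have ht : 0 < Real.tan (|a| / 2) :=
    Real.tan_pos_of_pos_of_lt_pi_div_two (by linarith) (by linarith)
  have key : 2 * Real.arctan (Real.exp (-(Real.pi * (barc a).2 / 2))) = |a| := by
    rw [barc_snd]
    have h1 : -(Real.pi * -(2 / Real.pi * Real.log (Real.tan (|a| / 2))) / 2) =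
        Real.log (Real.tan (|a| / 2)) := by
      field_simp
    rw [h1, Real.exp_log ht, Real.arctan_tan (by linarith) (by linarith)]
    ring
  rcases lt_or_gt_of_ne h0 with h1 | h1
  · have h2 : barc a = (false, (barc a).2) := by
      rw [Prod.ext_iff, barc_fst]
      exact ⟨by simpa using h1.le, rfl⟩
    rw [h2, ang_false, key, abs_of_neg h1]
    ring
  · have h2 : barc a = (true, (barc a).2) := by
      rw [Prod.ext_iff, barc_fst]
      exact ⟨by simpa using h1, rfl⟩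
    rw [h2, ang_true, key, abs_of_pos h1]

lemma barc_ang (b : Bool × ℝ) : barc (ang b) = b := by
  have hp := Real.pi_pos
  have key : ∀ x, barc (ang (true, x)) = (true, x) := by
    intro x
    have h1 := ang_true_pos x
    rw [Prod.ext_iff, barc_fst, barc_snd, abs_of_pos h1]
    refine ⟨by simpa using h1, ?_⟩
    have h2 : ang (true, x) / 2 = Real.arctan (Real.exp (-(Real.pi * x / 2))) := by
      rw [ang_true]; ring
    rw [h2, Real.tan_arctan, Real.log_exp]
    simp only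
    field_simp
  obtain ⟨s, x⟩ := b
  cases s
  · have h1 := ang_true_pos x
    have h2 := key x
    rw [Prod.ext_iff, barc_snd] at h2
    rw [Prod.ext_iff, barc_fst, barc_snd, ang_neg, abs_neg]
    exact ⟨by simpa using h1.le, h2.2⟩
  · exact key x

lemma ang_inj {b c : Bool × ℝ} (h : ang b = ang c) : b = c := by
  rw [← barc_ang b, h, barc_ang]

/-! ### The banks -/

/-- the bank point `± i t` is at distance `bk t` of the tip -/
noncomputable def bk (t : ℝ) : ℝ := 2 / Real.pi * Real.log ((1 + t ^ 2) / (1 - t ^ 2))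

/-- the inverse of `bk` -/
noncomputable def tk (x : ℝ) : ℝ :=
  √((Real.exp (Real.pi * x / 2) - 1) / (Real.exp (Real.pi * x / 2) + 1))

lemma bk_neg (t : ℝ) : bk (-t) = bk t := by unfold bk; rw [neg_sq]

lemma bk_zero : bk 0 = 0 := by unfold bk; simp

lemma bk_mono : StrictMonoOn bk (Ico 0 1) := by
  intro s hs t ht hst
  unfold bk
  have h1 : s ^ 2 < t ^ 2 := pow_lt_pow_left₀ hst hs.1 two_ne_zero
  have h2 : t ^ 2 < 1 := by
    have := ht.1; have := ht.2; nlinarith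
  have h3 : (1 + s ^ 2) / (1 - s ^ 2) < (1 + t ^ 2) / (1 - t ^ 2) := by
    rw [div_lt_div_iff₀ (by linarith) (by linarith)]
    nlinarith
  have h5 : 0 < (1 + s ^ 2) / (1 - s ^ 2) := div_pos (by positivity) (by linarith)
  have h4 := Real.log_lt_log h5 h3
  have := Real.pi_pos
  gcongr

lemma tk_mem {x : ℝ} (h : 0 < x) : tk x ∈ Ioo (0:ℝ) 1 := by
  have hp := Real.pi_pos
  have h1 : 1 < Real.exp (Real.pi * x / 2) := Real.one_lt_exp_iff.2 (by positivity)
  have h2 : 0 < (Real.exp (Real.pi * x / 2) - 1) / (Real.exp (Real.pi * x / 2) + 1) :=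
    div_pos (by linarith) (by linarith)
  refine ⟨Real.sqrt_pos.2 h2, ?_⟩
  unfold tk
  rw [Real.sqrt_lt' one_pos, one_pow, div_lt_one (by linarith)]
  linarith

lemma tk_sq {x : ℝ} (h : 0 ≤ x) :
    tk x ^ 2 = (Real.exp (Real.pi * x / 2) - 1) / (Real.exp (Real.pi * x / 2) + 1) := by
  have hp := Real.pi_pos
  have h1 : 1 ≤ Real.exp (Real.pi * x / 2) := Real.one_le_exp (by positivity)
  exact Real.sq_sqrt (div_nonneg (by linarith) (by linarith))

lemma bk_tk {x : ℝ} (h : 0 ≤ x) : bk (tk x) = x := by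
  have hp := Real.pi_pos
  unfold bk
  rw [tk_sq h]
  set E := Real.exp (Real.pi * x / 2) with hE
  have hE0 : 0 < E := Real.exp_pos _
  have h1 : (1 + (E - 1) / (E + 1)) / (1 - (E - 1) / (E + 1)) = E := by
    have h2 : 1 + (E - 1) / (E + 1) = 2 * E / (E + 1) := by field_simp; ring
    have h3 : 1 - (E - 1) / (E + 1) = 2 / (E + 1) := by field_simp; ring
    rw [h2, h3]
    field_simp
  rw [h1, hE, Real.log_exp]
  field_simp

lemma tk_bk {t : ℝ} (h0 : 0 ≤ t) (h1 : t < 1) : tk (bk t) = t := by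
  have hp := Real.pi_pos
  have h2 : t ^ 2 < 1 := by nlinarith
  unfold tk bk
  have h3 : Real.pi * (2 / Real.pi * Real.log ((1 + t ^ 2) / (1 - t ^ 2))) / 2 =
      Real.log ((1 + t ^ 2) / (1 - t ^ 2)) := by field_simp
  have h4 : 0 < (1 + t ^ 2) / (1 - t ^ 2) := div_pos (by positivity) (by linarith)
  rw [h3, Real.exp_log h4]
  have h5 : (1 - t ^ 2 : ℝ) ≠ 0 := by linarith
  have h6 : (1 + t ^ 2) / (1 - t ^ 2) - 1 = 2 * t ^ 2 / (1 - t ^ 2) := by field_simp; ring
  have h7 : (1 + t ^ 2) / (1 - t ^ 2) + 1 = 2 / (1 - t ^ 2) := by field_simp; ring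
  have h8 : 2 * t ^ 2 / (1 - t ^ 2) / (2 / (1 - t ^ 2)) = t ^ 2 := by field_simp
  rw [h6, h7, h8, Real.sqrt_sq h0]

lemma bk_pos {t : ℝ} (h0 : 0 < t) (h1 : t < 1) : 0 < bk t := by
  rw [← bk_zero]
  exact bk_mono ⟨le_rfl, one_pos⟩ ⟨h0.le, h1⟩ h0

lemma bk_lt_iff {t x : ℝ} (h0 : 0 ≤ t) (h1 : t < 1) (hx : 0 < x) : bk t < x ↔ t < tk x := by
  have h2 := tk_mem hx
  conv_lhs => rw [← bk_tk hx.le]
  exact bk_mono.lt_iff_lt ⟨h0, h1⟩ ⟨h2.1.le, h2.2⟩

lemma lt_bk_iff {t x : ℝ} (h0 : 0 ≤ t) (h1 : t < 1) (hx : 0 < x) : x < bk t ↔ tk x < t := by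
  have h2 := tk_mem hx
  conv_lhs => rw [← bk_tk hx.le]
  exact bk_mono.lt_iff_lt ⟨h2.1.le, h2.2⟩ ⟨h0, h1⟩

lemma bank_sq (t : ℝ) : ((t : ℂ) * I) ^ 2 = ((-(t ^ 2) : ℝ) : ℂ) := by
  rw [mul_pow, I_sq]
  push_cast
  ring

lemma bank_DC {t : ℝ} (h1 : |t| < 1) : ((t : ℂ) * I) ^ 2 ∈ DC := by
  rw [bank_sq]
  refine ball_sub_DC ?_
  rw [norm_real, Real.norm_eq_abs, abs_neg, abs_pow]
  exact pow_lt_one₀ (abs_nonneg _) h1 two_ne_zero

lemma Ps_bank_eq {t : ℝ} (h1 : |t| < 1) : Ps ((t : ℂ) * I) = ((-bk t : ℝ) : ℂ) := by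
  have h2 : t ^ 2 < 1 := (sq_lt_one_iff_abs_lt_one t).2 h1
  have h3 := sq_nonneg t
  unfold Ps
  rw [bank_sq, psi_ofReal (by linarith) (by linarith)]
  congr 1
  unfold bk
  have h4 : (1 + -t ^ 2) / (1 - -t ^ 2) = ((1 + t ^ 2) / (1 - t ^ 2))⁻¹ := by
    rw [inv_div]
    congr 1
    ring
  rw [h4, Real.log_inv]
  ring

/-- **(2)** the banks -/
theorem Ps_bank {t : ℝ} (h0 : t ≠ 0) (h1 : |t| < 1) :
    Tendsto Ps (𝓝[HA 0] ((t : ℂ) * I)) (𝓝[{z | 0 < sgn (decide (0 < t)) * z.im}] ((-bk t : ℝ) : ℂ)) := by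
  rw [tendsto_nhdsWithin_iff]
  constructor
  · rw [← Ps_bank_eq h1]
    exact Ps_tendsto (bank_DC h1)
  · rcases lt_or_gt_of_ne h0 with h2 | h2
    · have h3 : ∀ᶠ v : ℂ in 𝓝[HA 0] ((t : ℂ) * I), v.im < 0 := by
        refine Filter.Eventually.filter_mono nhdsWithin_le_nhds ?_
        refine (isOpen_lt continuous_im continuous_const).mem_nhds ?_
        show ((t : ℂ) * I).im < 0
        simpa using h2
      filter_upwards [h3, self_mem_nhdsWithin] with v hv1 hv2
      have h4 := Ps_im_neg (sq_DC hv2) (mem_HA.1 hv2).2 hv1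
      show 0 < sgn (decide (0 < t)) * (Ps v).im
      rw [decide_eq_false (not_lt.2 h2.le), sgn_false]
      linarith
    · have h3 : ∀ᶠ v : ℂ in 𝓝[HA 0] ((t : ℂ) * I), 0 < v.im := by
        refine Filter.Eventually.filter_mono nhdsWithin_le_nhds ?_
        refine (isOpen_lt continuous_const continuous_im).mem_nhds ?_
        show 0 < ((t : ℂ) * I).im
        simpa using h2
      filter_upwards [h3, self_mem_nhdsWithin] with v hv1 hv2
      have h4 := Ps_im_pos (sq_DC hv2) (mem_HA.1 hv2).2 hv1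
      show 0 < sgn (decide (0 < t)) * (Ps v).im
      rw [decide_eq_true h2, sgn_true]
      linarith

/-- upper bank -/
theorem Ps_bank_up {t : ℝ} (h0 : 0 < t) (h1 : t < 1) :
    Tendsto Ps (𝓝[HA 0] ((t : ℂ) * I)) (𝓝[{z | 0 < z.im}] ((-bk t : ℝ) : ℂ)) := by
  have h := Ps_bank h0.ne' (by rwa [abs_of_pos h0])
  simpa [h0, sgn_true] using h

/-- lower bank -/
theorem Ps_bank_down {t : ℝ} (h0 : 0 < t) (h1 : t < 1) :
    Tendsto Ps (𝓝[HA 0] (-((t : ℂ) * I))) (𝓝[{z | z.im < 0}] ((-bk t : ℝ) : ℂ)) := by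
  have h := Ps_bank (t := -t) (by linarith) (by rwa [abs_neg, abs_of_pos h0])
  have h2 : ¬ (0 < -t) := by linarith
  simpa [h2, sgn_false, bk_neg] using h

/-! ### Near the tip -/

lemma norm_psi_near {w : ℂ} (hw : ‖w‖ ≤ 1 / 8) :
    ‖psi w - (4 / Real.pi : ℝ) * w‖ ≤ 1 / 10 * (4 / Real.pi * ‖w‖) := by
  have hp := Real.pi_pos
  have h0 := norm_nonneg w
  have h1 : log ((1 + w) / (1 - w)) = log (1 + w) - log (1 - w) := by
    have hn1 : (1 + w : ℂ) ≠ 0 := by
      intro h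
      have : ‖(-1 : ℂ)‖ = ‖w‖ := by congr 1; linear_combination -h
      rw [norm_neg, norm_one] at this
      linarith
    have hn2 : (1 - w : ℂ) ≠ 0 := by
      intro h
      have : ‖(1 : ℂ)‖ = ‖w‖ := by congr 1; linear_combination h
      rw [norm_one] at this
      linarith
    have hr1 : 0 < (1 + w).re := by
      have := abs_le.1 (Complex.abs_re_le_norm w)
      rw [add_re, one_re]; linarith [this.1]
    have hr2 : 0 < (1 - w).re := by
      have := abs_le.1 (Complex.abs_re_le_norm w)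
      rw [sub_re, one_re]; linarith [this.2]
    have ha1 := abs_lt.1 (abs_arg_lt_pi_div_two_iff.2 (Or.inl hr1))
    have ha2 := abs_lt.1 (abs_arg_lt_pi_div_two_iff.2 (Or.inl hr2))
    apply Complex.ext
    · rw [sub_re, log_re, log_re, log_re, norm_div, Real.log_div (norm_ne_zero_iff.2 hn1)
        (norm_ne_zero_iff.2 hn2)]
    · rw [sub_im, log_im, log_im, log_im, div_eq_mul_inv, Complex.arg_mul hn1 (inv_ne_zero hn2),
        Complex.arg_inv, if_neg (by linarith [ha2.2, ha2.1]), ← sub_eq_add_neg]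
      rw [Complex.arg_inv, if_neg (by linarith [ha2.2, ha2.1])]
      constructor <;> linarith [ha1.1, ha1.2, ha2.1, ha2.2]
  have h2 := Complex.norm_log_one_add_sub_self_le (z := w) (by linarith)
  have h3 := Complex.norm_log_one_add_sub_self_le (z := -w) (by rw [norm_neg]; linarith)
  rw [norm_neg] at h3
  have h4 : psi w - (4 / Real.pi : ℝ) * w =
      (2 / Real.pi : ℝ) * ((log (1 + w) - w) - (log (1 + -w) - -w)) := by
    unfold psi
    rw [h1]
    push_cast
    ring_nf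
  rw [h4, norm_mul, norm_real, Real.norm_eq_abs, abs_of_pos (by positivity)]
  have h5 : ‖(log (1 + w) - w) - (log (1 + -w) - -w)‖ ≤ ‖w‖ ^ 2 * (1 - ‖w‖)⁻¹ := by
    refine (norm_sub_le _ _).trans ?_
    linarith
  have h6 : ‖w‖ ^ 2 * (1 - ‖w‖)⁻¹ ≤ 2 / 10 * ‖w‖ := by
    have h7 : (1 - ‖w‖)⁻¹ ≤ 8 / 7 := by
      rw [inv_le_comm₀ (by linarith) (by norm_num)]
      norm_num
      linarith
    have h8 : ‖w‖ ^ 2 * (1 - ‖w‖)⁻¹ ≤ ‖w‖ ^ 2 * (8 / 7) :=
      mul_le_mul_of_nonneg_left h7 (sq_nonneg _)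
    nlinarith
  calc 2 / Real.pi * ‖(log (1 + w) - w) - (log (1 + -w) - -w)‖
      ≤ 2 / Real.pi * (2 / 10 * ‖w‖) := by
        refine mul_le_mul_of_nonneg_left (h5.trans h6) (by positivity)
    _ = 1 / 10 * (4 / Real.pi * ‖w‖) := by ring

lemma psi_near_le {w : ℂ} (hw : ‖w‖ ≤ 1 / 8) :
    9 / 10 * (4 / Real.pi * ‖w‖) ≤ ‖psi w‖ ∧ ‖psi w‖ ≤ 11 / 10 * (4 / Real.pi * ‖w‖) := by
  have hp := Real.pi_pos
  have h1 := norm_psi_near hw
  have h2 : ‖((4 / Real.pi : ℝ) : ℂ) * w‖ = 4 / Real.pi * ‖w‖ := by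
    rw [norm_mul, norm_real, Real.norm_eq_abs, abs_of_pos (by positivity)]
  have h3 := norm_sub_norm_le (((4 / Real.pi : ℝ) : ℂ) * w) (psi w)
  have h4 := norm_sub_norm_le (psi w) (((4 / Real.pi : ℝ) : ℂ) * w)
  rw [norm_sub_rev] at h3
  rw [h2] at h3 h4
  constructor <;> linarith

lemma le_bk {t : ℝ} (h1 : |t| < 1) : 3 / Real.pi * t ^ 2 ≤ bk t := by
  have hp := Real.pi_pos
  have h2 : t ^ 2 < 1 := (sq_lt_one_iff_abs_lt_one t).2 h1
  have h3 := sq_nonneg t
  unfold bk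
  rw [Real.log_div (by positivity) (by linarith)]
  have h4 := Real.log_le_sub_one_of_pos (show 0 < 1 - t ^ 2 by linarith)
  have h5 := Real.log_le_sub_one_of_pos (show 0 < (1 + t ^ 2)⁻¹ by positivity)
  rw [Real.log_inv] at h5
  have h6 : (1 + t ^ 2)⁻¹ - 1 ≤ -(t ^ 2 / 2) := by
    have h7 : (1 + t ^ 2)⁻¹ - 1 = -(t ^ 2 / (1 + t ^ 2)) := by field_simp; ring
    rw [h7, neg_le_neg_iff]
    gcongr
    linarith
  have h8 : 3 / 2 * t ^ 2 ≤ Real.log (1 + t ^ 2) - Real.log (1 - t ^ 2) := by linarith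
  calc 3 / Real.pi * t ^ 2 = 2 / Real.pi * (3 / 2 * t ^ 2) := by ring
    _ ≤ _ := by gcongr

lemma tk_sq_le {x : ℝ} (h : 0 < x) : tk x ^ 2 ≤ Real.pi / 3 * x := by
  have hp := Real.pi_pos
  have h1 := tk_mem h
  have h2 := le_bk (t := tk x) (by rw [abs_of_pos h1.1]; exact h1.2)
  rw [bk_tk h.le] at h2
  calc tk x ^ 2 = Real.pi / 3 * (3 / Real.pi * tk x ^ 2) := by field_simp
    _ ≤ _ := by gcongr

lemma tk_sq_le' {x : ℝ} (h : 0 < x) : tk x ^ 2 ≤ 2 * x := by
  have h1 := tk_sq_le h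
  have h2 := Real.pi_lt_d2
  nlinarith

/-- **(3)** the half circle `|v| = sqrt 2 * tk δ` -/
theorem Ps_near {δ : ℝ} (h0 : 0 < δ) (h1 : δ ≤ 1 / 20) {v : ℂ} (hv : ‖v‖ = √2 * tk δ) :
    δ < ‖Ps v‖ ∧ ‖Ps v‖ < 4 * δ := by
  have hp := Real.pi_pos
  have ht := tk_mem h0
  have h2 : ‖v ^ 2‖ = 2 * tk δ ^ 2 := by
    rw [norm_pow, hv, mul_pow, Real.sq_sqrt (by norm_num)]
  have h3 : tk δ ^ 2 ≤ 1 / 16 := by
    have h4 := tk_sq_le h0
    have h5 := Real.pi_lt_d2
    nlinarith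
  have h4 := psi_near_le (w := v ^ 2) (by rw [h2]; linarith)
  rw [h2] at h4
  have h5 : ‖psi (((-(tk δ ^ 2) : ℝ) : ℂ))‖ = δ := by
    have h6 := Ps_bank_eq (t := tk δ) (by rw [abs_of_pos ht.1]; exact ht.2)
    unfold Ps at h6
    rw [bank_sq, bk_tk h0.le] at h6
    rw [h6, norm_real, Real.norm_eq_abs, abs_neg, abs_of_pos h0]
  have h6 : ‖((-(tk δ ^ 2) : ℝ) : ℂ)‖ = tk δ ^ 2 := by
    rw [norm_real, Real.norm_eq_abs, abs_neg, abs_of_nonneg (sq_nonneg _)]
  have h7 := psi_near_le (w := ((-(tk δ ^ 2) : ℝ) : ℂ)) (by rw [h6]; linarith)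
  rw [h5, h6] at h7
  have h8 : 0 < 4 / Real.pi * tk δ ^ 2 := by
    have := ht.1
    positivity
  have h9 : 4 / Real.pi * (2 * tk δ ^ 2) = 2 * (4 / Real.pi * tk δ ^ 2) := by ring
  rw [h9] at h4
  unfold Ps
  constructor <;> linarith [h4.1, h4.2, h7.1, h7.2]

/-! ### Lengths of arcs -/

lemma hasDerivAt_ang (x : ℝ) :
    HasDerivAt (fun x => ang (true, x)) (-(Real.pi / 2 / Real.cosh (Real.pi * x / 2))) x := by
  have h1 : HasDerivAt (fun x : ℝ => -(Real.pi / 2) * x) (-(Real.pi / 2)) x := by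
    have := (hasDerivAt_id x).const_mul (-(Real.pi / 2))
    simpa using this
  have h1' : HasDerivAt (fun x : ℝ => -(Real.pi * x / 2)) (-(Real.pi / 2)) x := by
    have e : (fun x : ℝ => -(Real.pi * x / 2)) = fun x : ℝ => -(Real.pi / 2) * x := by
      funext x; ring
    rw [e]; exact h1
  have h2 := (h1'.exp.arctan).const_mul 2
  have h3 : (fun x => ang (true, x)) =
      fun x => 2 * Real.arctan (Real.exp (-(Real.pi * x / 2))) := funext ang_true
  rw [h3]
  have h5 : -(Real.pi / 2 / Real.cosh (Real.pi * x / 2)) =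
      2 * (1 / (1 + Real.exp (-(Real.pi * x / 2)) ^ 2) *
        (Real.exp (-(Real.pi * x / 2)) * -(Real.pi / 2))) := ?_
  · rw [h5]; exact h2
  rw [Real.cosh_eq]
  set E := Real.exp (-(Real.pi * x / 2)) with hE
  have hE0 : 0 < E := Real.exp_pos _
  have h4 : Real.exp (Real.pi * x / 2) = E⁻¹ := by
    rw [hE, ← Real.exp_neg, neg_neg]
  rw [h4]
  field_simp

lemma ang_true_anti : StrictAnti fun x => ang (true, x) := by
  intro x y h
  show ang (true, y) < ang (true, x)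
  rw [ang_true, ang_true]
  have h1 : Real.exp (-(Real.pi * y / 2)) < Real.exp (-(Real.pi * x / 2)) := by
    rw [Real.exp_lt_exp]
    have := Real.pi_pos
    nlinarith
  have := Real.arctan_strictMono h1
  linarith

lemma ang_true_cont : Continuous fun x => ang (true, x) :=
  continuous_iff_continuousAt.2 fun x => (hasDerivAt_ang x).continuousAt

/-- **(4)** lower bound for the length of an arc -/
theorem ang_lip {L x y : ℝ} (hx : |x| ≤ L) (hy : |y| ≤ L) (h : x ≤ y) :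
    Real.pi / 2 / Real.cosh (Real.pi * L / 2) * (y - x) ≤ ang (true, x) - ang (true, y) := by
  have hp := Real.pi_pos
  have key := Convex.mul_sub_le_image_sub_of_le_deriv (D := Icc x y) (convex_Icc x y)
    (f := fun x => -ang (true, x)) (C := Real.pi / 2 / Real.cosh (Real.pi * L / 2))
    ang_true_cont.neg.continuousOn
    (fun z _ => (hasDerivAt_ang z).neg.differentiableAt.differentiableWithinAt)
    (fun z hz => by
      rw [interior_Icc] at hz
      have h0 : deriv (fun x => -ang (true, x)) z = - -(Real.pi / 2 / Real.cosh (Real.pi * z / 2)) :=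
        (hasDerivAt_ang z).neg.deriv
      rw [h0, neg_neg]
      have h1 : Real.cosh (Real.pi * z / 2) ≤ Real.cosh (Real.pi * L / 2) := by
        rw [Real.cosh_le_cosh]
        have h2 := abs_le.1 hx
        have h3 := abs_le.1 hy
        have h4 : |z| ≤ L := abs_le.2 ⟨by linarith [hz.1, h2.1], by linarith [hz.2, h3.2]⟩
        have h5 : 0 ≤ L := (abs_nonneg _).trans h4
        rw [abs_div, abs_div, abs_mul, abs_mul, abs_of_pos hp, abs_of_nonneg h5]
        gcongr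
      have h6 := Real.cosh_pos (Real.pi * z / 2)
      gcongr)
    x (left_mem_Icc.2 h) y (right_mem_Icc.2 h) h
  linarith

/-- the arc over an interval of the floor or of the ceiling -/
theorem exists_arc (s : Bool) {L l x : ℝ} (hl : 0 < l) (h1 : -L ≤ x) (h2 : x + l ≤ L) :
    ∃ a b : ℝ, a < b ∧ Real.pi / 2 / Real.cosh (Real.pi * L / 2) * l ≤ b - a ∧
      Icc a b ⊆ Ioo (-Real.pi) Real.pi ∧ (0:ℝ) ∉ Icc a b ∧
      ∀ c ∈ Icc a b, ∃ y ∈ Icc x (x + l), ang (s, y) = c := by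
  have hp := Real.pi_pos
  have hlip := ang_lip (L := L) (x := x) (y := x + l) (abs_le.2 ⟨h1, by linarith⟩)
    (abs_le.2 ⟨by linarith, h2⟩) (by linarith)
  have e : x + l - x = l := by ring
  rw [e] at hlip
  have hlt := ang_true_anti (show x < x + l by linarith)
  simp only at hlt
  have hm1 := ang_true_pos (x + l)
  have hm2 := ang_true_lt x
  have ivt := intermediate_value_Icc' (show x ≤ x + l by linarith) ang_true_cont.continuousOn
  cases s
  · refine ⟨ang (false, x), ang (false, x + l), ?_, ?_, ?_, ?_, ?_⟩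
    · rw [ang_neg, ang_neg]; linarith
    · rw [ang_neg, ang_neg]; linarith
    · rw [ang_neg, ang_neg]
      intro c hc
      exact ⟨by linarith [hc.1], by linarith [hc.2]⟩
    · rw [ang_neg, ang_neg]
      intro hc
      linarith [hc.2]
    · rw [ang_neg, ang_neg]
      intro c hc
      obtain ⟨y, hy, hy2⟩ := ivt (show -c ∈ Icc (ang (true, x + l)) (ang (true, x)) from
        ⟨by linarith [hc.2], by linarith [hc.1]⟩)
      refine ⟨y, hy, ?_⟩
      rw [ang_neg]
      simp only at hy2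
      rw [hy2, neg_neg]
  · refine ⟨ang (true, x + l), ang (true, x), hlt, hlip, ?_, ?_, ?_⟩
    · intro c hc
      exact ⟨by linarith [hc.1], by linarith [hc.2]⟩
    · intro hc
      linarith [hc.1]
    · intro c hc
      exact ivt hc

end H80.W
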