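import Mathlib
import Pool.Agent.H28.W.JRowV
import Pool.Agent.H87.W.JYEv
import Pool.Agent.H50.W.FNum
import Pool.Agent.H7.W.JCeilY
import Pool.Agent.H71.W.JY4

set_option autoImplicit false
open Finset

/-! # (J5) (d), the floor: `YFl` from the floor move and the forced row -/

namespace Pool.Agent.H80.W

open Pool.Agent.H33.Q1 Pool.Agent.H6.W Pool.Agent.H61.W Pool.Agent.H87.W
open Pool.Agent.H87.Fld (Rb ScB EvB)
open Pool.Agent.H16.W (cntq)
open Pool.Agent.H28.W (ChgR row_force RF_of_chg mc_of_chg outC_mc outC_f PB_diff slD_far flp_sub PlF_flp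
  lamOK_Lam dgt_notLam)
open Pool.Agent.H92.W (OutC)
open Pool.Agent.H13.W (SG)
open Pool.Agent.H73.W (ph)
open Pool.Agent.H7.W (V1q YFl yfl_mir)
open Pool.Agent.Q1.M4 (lat)

variable {b : JBox} {δ σ : ℝ} {h : ℕ} {s w o : Bool}

/-- two values with close laws -/
lemma V1q_diff {h : ℕ} {s : Bool} {x1 : ℤ} {q : Bool × ℕ} {G G' : Finset (ℤ × ℤ) → SimpleGraph (ℤ × ℤ)}
    {c c' : ℤ × ℤ} {ε : ℝ}
    (h1 : |b.PJ h (fun ω => RF b (2 * h) (G ω) c q) - b.PJ h (fun ω => RF b (2 * h) (G' ω) c' q)| ≤ ε)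
    (h2 : ∀ P : ℕ → Prop, |b.PJ h (fun ω => (G ω).Reachable c (mc s x1) ∧ P (cntq b h s x1 q (G ω))) -
      b.PJ h (fun ω => (G' ω).Reachable c' (mc s x1) ∧ P (cntq b h s x1 q (G' ω)))| ≤ ε) :
    ‖V1q b h s x1 q G c - V1q b h s x1 q G' c'‖ ≤ 3 * ε := by
  have d2 := h2 (fun k => Even k)
  have d3 := h2 (fun k => ¬ Even k)
  have hph : ‖ph‖ = 1 := Pool.Agent.H73.W.ph_norm
  unfold V1q
  generalize b.PJ h (fun ω => RF b (2 * h) (G ω) c q) = a1 at *
  generalize b.PJ h (fun ω => RF b (2 * h) (G' ω) c' q) = a2 at *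
  generalize b.PJ h (fun ω => (G ω).Reachable c (mc s x1) ∧ Even (cntq b h s x1 q (G ω))) = a3 at *
  generalize b.PJ h (fun ω => (G' ω).Reachable c' (mc s x1) ∧ Even (cntq b h s x1 q (G' ω))) = a4 at *
  generalize b.PJ h (fun ω => (G ω).Reachable c (mc s x1) ∧ ¬ Even (cntq b h s x1 q (G ω))) = a5 at *
  generalize b.PJ h (fun ω => (G' ω).Reachable c' (mc s x1) ∧ ¬ Even (cntq b h s x1 q (G' ω))) = a6 at *
  have e : ((a1 : ℂ) + ph * (a3 : ℂ) + ph⁻¹ * (a5 : ℂ)) - ((a2 : ℂ) + ph * (a4 : ℂ) + ph⁻¹ * (a6 : ℂ)) =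
      ((a1 - a2 : ℝ) : ℂ) + ph * ((a3 - a4 : ℝ) : ℂ) + ph⁻¹ * ((a5 - a6 : ℝ) : ℂ) := by
    push_cast
    ring
  rw [e]
  refine (norm_add₃_le).trans ?_
  rw [norm_mul, norm_mul, norm_inv, hph, Complex.norm_real, Complex.norm_real, Complex.norm_real,
    Real.norm_eq_abs, Real.norm_eq_abs, Real.norm_eq_abs]
  linarith

/-- the number of passages of the strand of `q` -/
lemma cntq_of_chg {Λ D : Set (ℤ × ℤ)} {x1 : ℤ} {q : Bool × ℕ} {w w' : Finset (ℤ × ℤ)}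
    (hD : slD s x1 ⊆ D) (hq : lt (dgt b (2 * h) q) ∉ Λ) (hC : ¬ ChgR Λ (lt '' D) w w') :
    cntq b h s x1 q (SG Λ (lt '' D) w) = cntq b h s x1 q (SG Λ (lt '' D) w') := by
  unfold cntq
  congr 1
  ext x
  simp only [Set.mem_ofPred_eq]
  refine and_congr_right fun hx => RF_of_chg hq ?_ hC
  exact Pool.Agent.H28.W.outC_D ⟨(x, Yr s), hD ⟨rfl, hx⟩, rfl⟩ (lt_odd _) (Or.inr (Or.inr (Or.inl rfl)))

/-- **the forced row in the world `GP`** -/
theorem row_Y (hb : b.Ok δ σ) (hd : δ ≤ 1) (hσ : σ ≤ 1) {ε : ℝ} (hε : 0 < ε) :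
    ∃ h0 : ℕ, ∀ h : ℕ, h0 ≤ h → ∀ (w s o : Bool) (x1 : ℤ) (i : ℕ) (M : Finset (Bool × ℕ))
    (q : Bool × ℕ), i < b.K → (∀ c ∈ M, c.2 < b.K) → q ∈ M →
    ‖V1q b h s x1 q (GYF b h w s x1 i M o) (aY b h w s i M) -
      V1q b h s x1 q (fun ω => GG b (2 * h) (insert (false, i) M)
        (colM (bsP w s) (insert (false, i) M) none) (slD s x1) (symmDiff (cfg b h o ω) (flp b h s x1)))
        (aY b h w s i M)‖ ≤ 3 * ε := by
  obtain ⟨h0, H⟩ := row_force hb hd hσ hε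
  refine ⟨max h0 2, fun h hh w s o x1 i M q hi hM hq => ?_⟩
  have hh2 : 2 ≤ h := (le_max_right _ _).trans hh
  have hpos : 0 < h := by omega
  have hM' : ∀ c ∈ insert (false, i) M, c.2 < b.K := by
    intro c hc
    rcases mem_insert.1 hc with rfl | hc
    · exact hi
    · exact hM c hc
  have hq' : q ∈ insert (false, i) M := mem_insert_of_mem hq
  have h1 := H h ((le_max_left _ _).trans hh) (false, i) (insert (false, i) M) (Lam b (2 * h) (insert (false, i) M))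
    (slD s x1) (flp b h s x1) (bsP w s) o hi hM' lamOK_Lam (slD_far hb hh2) flp_sub PlF_flp
  have n0 := Pool.Agent.H28.W.n_pos hpos
  have a1 : OutC (Lam b (2 * h) (insert (false, i) M)) (lt '' slD s x1) (aY b h w s i M) := by
    obtain ⟨k1, k2⟩ := outC_f (b := b) (D := lt '' (slD s x1 : Set (ℤ × ℤ)))
      (dgt_notLam (M := insert (false, i) M) hb n0 (mem_insert_self _ _) hi)
    unfold aY Pool.Agent.H45.W.al
    split_ifs
    · exact k1
    · exact k2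
  have a2 := outC_mc (s := s) (Λ := Lam b (2 * h) (insert (false, i) M)) (x1 := x1)
    (D := slD s x1) (subset_refl _)
  have a3 := dgt_notLam (M := insert (false, i) M) hb n0 hq' (hM q hq)
  refine V1q_diff ?_ fun P => ?_
  · exact (PB_diff fun ω _ hC => RF_of_chg a3 a1 hC).trans h1
  · refine (PB_diff fun ω _ hC => ?_).trans h1
    show (SG _ _ _).Reachable _ _ ∧ _ ↔ (SG _ _ _).Reachable _ _ ∧ _
    rw [mc_of_chg a1 a2 hC]
    refine and_congr_right fun _ => ?_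
    have := cntq_of_chg (b := b) (h := h) (s := s) (x1 := x1) (q := q) (subset_refl _) a3 hC
    unfold GYF GG
    rw [this]

/-- the mark on `P` of a fine box -/
lemma gp_mem (hb : b.Ok δ σ) (hd : δ ≤ 1) (hσ0 : 0 ≤ σ) (hσ1 : σ ≤ 1) {j : ℕ} (hj : 0 < j)
    (hjm : j < b.m) {x1 : ℤ} (e1 : x1 = -((j : ℤ) * b.M * (2 * h))) (hh : 0 < h) :
    -((b.X : ℤ) * (2 * h)) < x1 ∧ x1 < 0 := by
  have hn : (0 : ℤ) < 2 * h := by positivity
  have hM0 : (0 : ℤ) < b.M := by exact_mod_cast hb.M0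
  have hmX : (b.m : ℤ) * b.M ≤ b.X := by
    have hm := Pool.Agent.H50.W.JF.m_le hb (by nlinarith : σ * δ ≤ 1)
    rw [Pool.Agent.H21.W.X_eq hb]
    have : (b.m : ℤ) ≤ (Pool.Agent.H21.W.nP b : ℤ) := by exact_mod_cast hm
    exact mul_le_mul_of_nonneg_right this hM0.le
  have hjM : (j : ℤ) * b.M < b.X := by
    have h1 : (j : ℤ) < b.m := by exact_mod_cast hjm
    have h2 := mul_lt_mul_of_pos_right h1 hM0
    linarith
  have hj0 : (0 : ℤ) < (j : ℤ) * b.M := by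
    have : (0 : ℤ) < j := by exact_mod_cast hj
    positivity
  rw [e1]
  have h1 := mul_lt_mul_of_pos_right hjM hn
  have h2 : (0 : ℤ) < (j : ℤ) * b.M * (2 * h) := mul_pos hj0 hn
  constructor <;> linarith

/-- **`YFl` at the floor.** -/
theorem yfl_floor (hσ1 : σ ≤ 1) {xb x : ℝ} (hx : xb ∈ Set.Ioo (-σ) 0) {b3 b4 q0 : Bool × ℝ}
    (n3 : (false, x) ≠ b3) (n4 : (false, x) ≠ b4) (n34 : b3 ≠ b4) (hq : q0 = b3 ∨ q0 = b4)
    (w s o : Bool) : YFl σ w s xb (false, x) b3 b4 q0 o := by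
  classical
  obtain ⟨C0, α, hC0, hα, HA⟩ := moveY
  obtain ⟨r0, hr0, H⟩ := Pool.Agent.H50.W.JF.floor_num' (σ := σ) x {b3, b4} (by
    intro c hc
    simp only [Finset.mem_insert, Finset.mem_singleton] at hc
    rcases hc with rfl | rfl
    · exact n3.symm
    · exact n4.symm)
  refine ⟨3 * (C0 * 2 ^ α), α, r0, hα, hr0, fun t ht htr η hη => ?_⟩
  obtain ⟨δ1, hδ1, H1⟩ := H t ht htr
  obtain ⟨δ2, hδ2, H2⟩ := Pool.Agent.H71.W.gp_box hx
  obtain ⟨δ3, hδ3, H3⟩ := Pool.Agent.H7.W.cor_box_ne n3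
  obtain ⟨δ4, hδ4, H4⟩ := Pool.Agent.H7.W.cor_box_ne n4
  obtain ⟨δ5, hδ5, H5⟩ := Pool.Agent.H7.W.cor_box_ne n34
  refine ⟨min (min (min δ1 δ2) (min δ3 (min δ4 δ5))) 1,
    lt_min (lt_min (lt_min hδ1 hδ2) (lt_min hδ3 (lt_min hδ4 hδ5))) one_pos,
    fun b δ hδ hδ0 hb K hK hKc => ?_⟩
  simp only [le_min_iff] at hδ0
  obtain ⟨⟨⟨d1, d2⟩, d3, d4, d5⟩, d6⟩ := hδ0
  obtain ⟨h1, G1⟩ := H1 b δ hδ d1 hb
  obtain ⟨j, hj, hjm, hgp, -, -⟩ := H2 b δ hδ d2 hb
  have m3 := H3 b δ σ hδ d3 hb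
  have m4 := H4 b δ σ hδ d4 hb
  have m34 := H5 b δ σ hδ d5 hb
  obtain ⟨h2, G2⟩ := row_Y hb d6 hσ1 (ε := η / 3) (by positivity)
  refine ⟨max (max h1 h2) 1, fun h hh v hv hv' => ?_⟩
  have g1 : h1 ≤ h := ((le_max_left _ _).trans (le_max_left _ _)).trans hh
  have g2 : h2 ≤ h := ((le_max_right _ _).trans (le_max_left _ _)).trans hh
  have g3 : 1 ≤ h := (le_max_right _ _).trans hh
  obtain ⟨xl, xr, yt, B, ρ, R, U, -, hP, hρ, hR, hρR⟩ := G1 h g1 v (hK hv) hv'.1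
    {cor b b3, cor b b4} (by
      intro a ha
      simp only [Finset.mem_insert, Finset.mem_singleton] at ha
      rcases ha with rfl | rfl
      · exact ⟨b3, by simp, rfl⟩
      · exact ⟨b4, by simp, rfl⟩)
  set i := (cor b (false, x)).2 with hi
  have ei : cor b (false, x) = (false, i) := rfl
  rw [ei] at m3 m4
  have hn : (0 : ℤ) < 2 * h := by positivity
  set x1 := gp b (2 * h) xb with hx1
  obtain ⟨k1, k2'⟩ := gp_mem hb d6 (by linarith [hx.1, hx.2]) hσ1 hj hjm (hgp (2 * h)) (by omega : 0 < h)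
  have k2 : x1 < b.X * (2 * h) := by
    have h2 : (0 : ℤ) ≤ b.X * (2 * h) := by positivity
    exact k2'.trans_le h2
  have hq' : cor b q0 ∈ ({cor b b3, cor b b4} : Finset (Bool × ℕ)) := by
    rcases hq with rfl | rfl <;> simp
  obtain ⟨A1, A2⟩ := HA w s o U m3 m4 m34 hP k1 k2 hq'
  have B1 := V1q_diff (b := b) (h := h) (s := s) (x1 := x1) (q := cor b q0)
    (G := GYM b h w s x1 {cor b b3, cor b b4} v o) (G' := GYF b h w s x1 i {cor b b3, cor b b4} o)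
    (c := zc v) (c' := aY b h w s i {cor b b3, cor b b4}) A1 A2
  have B2 := G2 h g2 w s o x1 i {cor b b3, cor b b4} (cor b q0) U.hi U.hM hq'
  have e2 : aY b h w s i {cor b b3, cor b b4} =
      Pool.Agent.H73.W.fa b (2 * h) (colM (bsP w s) {(false, i), cor b b3, cor b b4} none) (false, i) := by
    rw [Pool.Agent.H73.W.fa_al]
    rfl
  rw [e2] at B1 B2
  have e3 : ((ρ : ℝ) / R) ^ α ≤ 2 ^ α * (t / r0) ^ α := by
    have hρ' : (0 : ℝ) < ρ := by exact_mod_cast hρ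
    have hR' : (0 : ℝ) < R := by exact_mod_cast hR
    rw [← Real.mul_rpow (by norm_num) (by positivity)]
    exact Real.rpow_le_rpow (by positivity) hρR hα.le
  have e4 := mul_le_mul_of_nonneg_left e3 hC0.le
  have B3 := norm_sub_le_norm_sub_add_norm_sub
    (V1q b h s x1 (cor b q0) (GY b h w s x1 (cor b b3) (cor b b4) v o) (zc v))
    (V1q b h s x1 (cor b q0) (GYF b h w s x1 i {cor b b3, cor b b4} o)
      (Pool.Agent.H73.W.fa b (2 * h) (colM (bsP w s) {(false, i), cor b b3, cor b b4} none) (false, i)))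
    (V1q b h s x1 (cor b q0) (GP b h w s x1 (false, i) (cor b b3) (cor b b4) o)
      (Pool.Agent.H73.W.fa b (2 * h) (colM (bsP w s) {(false, i), cor b b3, cor b b4} none) (false, i)))
  show ‖V1q b h s x1 (cor b q0) (GY b h w s x1 (cor b b3) (cor b b4) v o) (zc v) -
    V1q b h s x1 (cor b q0) (GP b h w s x1 (false, i) (cor b b3) (cor b b4) o)
      (Pool.Agent.H73.W.fa b (2 * h) (colM (bsP w s) {(false, i), cor b b3, cor b b4} none) (false, i))‖ ≤ _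
  refine B3.trans ?_
  have B1' : ‖V1q b h s x1 (cor b q0) (GY b h w s x1 (cor b b3) (cor b b4) v o) (zc v) -
      V1q b h s x1 (cor b q0) (GYF b h w s x1 i {cor b b3, cor b b4} o)
        (Pool.Agent.H73.W.fa b (2 * h) (colM (bsP w s) {(false, i), cor b b3, cor b b4} none)
          (false, i))‖ ≤ 3 * (C0 * ((ρ : ℝ) / R) ^ α) := B1
  have B2' : ‖V1q b h s x1 (cor b q0) (GYF b h w s x1 i {cor b b3, cor b b4} o)
        (Pool.Agent.H73.W.fa b (2 * h) (colM (bsP w s) {(false, i), cor b b3, cor b b4} none)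
          (false, i)) -
      V1q b h s x1 (cor b q0) (GP b h w s x1 (false, i) (cor b b3) (cor b b4) o)
        (Pool.Agent.H73.W.fa b (2 * h) (colM (bsP w s) {(false, i), cor b b3, cor b b4} none)
          (false, i))‖ ≤ 3 * (η / 3) := B2
  calc _ ≤ 3 * (C0 * ((ρ : ℝ) / R) ^ α) + 3 * (η / 3) := add_le_add B1' B2'
    _ ≤ 3 * (C0 * (2 ^ α * (t / r0) ^ α)) + η := by linarith
    _ = 3 * (C0 * 2 ^ α) * (t / r0) ^ α + η := by ring

/-- **`YFl` at the floor and the ceiling.** -/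
theorem yfl_all (hσ1 : σ ≤ 1) {xb : ℝ} (hx : xb ∈ Set.Ioo (-σ) 0) {c b3 b4 q0 : Bool × ℝ}
    (n3 : c ≠ b3) (n4 : c ≠ b4) (n34 : b3 ≠ b4) (hq : q0 = b3 ∨ q0 = b4)
    (w s o : Bool) : YFl σ w s xb c b3 b4 q0 o := by
  obtain ⟨u, x⟩ := c
  cases u
  · exact yfl_floor hσ1 hx n3 n4 n34 hq w s o
  · have r1 : ∀ {p q : Bool × ℝ}, p ≠ q → Pool.Agent.H7.W.rb p ≠ Pool.Agent.H7.W.rb q := by
      intro p q hpq he
      apply hpq
      have h1 := congrArg Prod.fst he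
      have h2 := congrArg Prod.snd he
      simp only [Pool.Agent.H7.W.rb] at h1 h2
      exact Prod.ext (by simpa using h1) h2
    refine yfl_mir n3 n4 n34 ?_
    exact yfl_floor hσ1 hx (r1 n3) (r1 n4) (r1 n34) (by
      rcases hq with rfl | rfl
      · exact Or.inl rfl
      · exact Or.inr rfl) w (!s) o

end Pool.Agent.H80.W
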