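import Mathlib
import Pool.Agent.H80.W.YFlo
import Pool.Agent.H73.W.JBdry2
import Pool.Agent.H50.W.JXW

set_option autoImplicit false
open Finset

/-! # (J5) (d): `YBdS` from `YFl` and the boundary identity -/

namespace Pool.Agent.H80.W

open Pool.Agent.H6.W Pool.Agent.H61.W
open Pool.Agent.H87.Fld (Rb ScB EvB YBdS)
open Pool.Agent.H73.W (V1_bdry)
open Pool.Agent.H7.W (V1q YFl)

variable {b : JBox} {δ σ : ℝ}

/-- **(J5) (d)**: the field `Y` at the floor and the ceiling, scale form. -/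
theorem ybds_all (hσ1 : σ ≤ 1) (w : Bool) {p c b3 b4 : Bool × ℝ} (hp : p.2 ∈ Set.Ioo (-σ) 0)
    (n3 : c ≠ b3) (n4 : c ≠ b4) (n34 : b3 ≠ b4) : YBdS σ w p c b3 b4 := by
  obtain ⟨s, xb⟩ := p
  have hσ0 : 0 < σ := by
    have h1 := hp.1
    have h2 := hp.2
    linarith
  have F := fun (q0 : Bool × ℝ) (hq : q0 = b3 ∨ q0 = b4) (o : Bool) =>
    yfl_all (σ := σ) hσ1 hp n3 n4 n34 hq w s o
  have h1 := ((F b3 (Or.inl rfl) true).add (F b4 (Or.inr rfl) true)).add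
    ((F b3 (Or.inl rfl) false).add (F b4 (Or.inr rfl) false))
  obtain ⟨δ2, hδ2, H2⟩ := Pool.Agent.H71.W.gp_box hp
  obtain ⟨δ3, hδ3, H3⟩ := Pool.Agent.H71.W.exists_fine2 n3
  obtain ⟨δ4, hδ4, H4⟩ := Pool.Agent.H71.W.exists_fine2 n4
  obtain ⟨δ5, hδ5, H5⟩ := Pool.Agent.H71.W.exists_fine2 n34
  refine Pool.Agent.H50.W.JF.scb_ev h1 ⟨min (min δ2 (min δ3 (min δ4 δ5))) 1,
    lt_min (lt_min hδ2 (lt_min hδ3 (lt_min hδ4 hδ5))) one_pos, fun b δ hδ hδ0 hb => ⟨2, fun h hh v => ?_⟩⟩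
  simp only [le_min_iff] at hδ0
  obtain ⟨⟨d2, d3, d4, d5⟩, d6⟩ := hδ0
  obtain ⟨j, hj, hjm, hgp, -, -⟩ := H2 b δ hδ d2 hb
  obtain ⟨k2, k3, m3⟩ := H3 b δ σ hδ d3 hb
  obtain ⟨-, k4, m4⟩ := H4 b δ σ hδ d4 hb
  obtain ⟨-, -, m34⟩ := H5 b δ σ hδ d5 hb
  obtain ⟨q1, q2⟩ := gp_mem hb d6 hσ0.le hσ1 hj hjm (hgp (2 * h)) (by omega : 0 < h)
  set x1 := gp b (2 * h) xb with hx1
  have B := fun o : Bool => V1_bdry (w := w) (s := s) (o := o) (x1 := x1) hb d6 hσ1 hh k2 k3 k4 m3 m4 m34 q1 q2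
  have key : ∀ o : Bool, ‖V1 b h s x1 (cor b b3) (cor b b4) (GY b h w s x1 (cor b b3) (cor b b4) v o) (zc v) -
      V0 b h (cor b c) (cor b b3) (cor b b4) (GP b h w s x1 (cor b c) (cor b b3) (cor b b4) o) (mc s x1)‖ ≤
      ‖V1q b h s x1 (cor b b3)
        (GY b h w s x1 (cor b b3) (cor b b4) v o) (zc v) -
      V1q b h s x1 (cor b b3)
        (GP b h w s x1 (cor b c) (cor b b3) (cor b b4) o)
        (Pool.Agent.H73.W.fa b (2 * h) (colM (bsP w s) {cor b c, cor b b3, cor b b4} none) (cor b c))‖ +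
      ‖V1q b h s x1 (cor b b4)
        (GY b h w s x1 (cor b b3) (cor b b4) v o) (zc v) -
      V1q b h s x1 (cor b b4)
        (GP b h w s x1 (cor b c) (cor b b3) (cor b b4) o)
        (Pool.Agent.H73.W.fa b (2 * h) (colM (bsP w s) {cor b c, cor b b3, cor b b4} none) (cor b c))‖ := by
    intro o
    rw [← B o]
    have e : ∀ (G : Finset (ℤ × ℤ) → SimpleGraph (ℤ × ℤ)) (z : ℤ × ℤ),
        V1 b h s x1 (cor b b3) (cor b b4) G z = V1q b h s x1 (fst2 b (cor b b3) (cor b b4)) G z :=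
      fun _ _ => rfl
    rw [e, e]
    rcases Pool.Agent.H73.W.fst_snd b (cor b b3) (cor b b4) with ⟨e1, -⟩ | ⟨e1, -⟩
    · rw [e1]
      exact le_add_of_nonneg_right (norm_nonneg _)
    · rw [e1]
      exact le_add_of_nonneg_left (norm_nonneg _)
  have e : Yf b h w s x1 (cor b b3) (cor b b4) v - Gf b h w s x1 (cor b c) (cor b b3) (cor b b4) =
      (V1 b h s x1 (cor b b3) (cor b b4) (GY b h w s x1 (cor b b3) (cor b b4) v true) (zc v) -
        V0 b h (cor b c) (cor b b3) (cor b b4) (GP b h w s x1 (cor b c) (cor b b3) (cor b b4) true)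
          (mc s x1)) -
      (V1 b h s x1 (cor b b3) (cor b b4) (GY b h w s x1 (cor b b3) (cor b b4) v false) (zc v) -
        V0 b h (cor b c) (cor b b3) (cor b b4) (GP b h w s x1 (cor b c) (cor b b3) (cor b b4) false)
          (mc s x1)) := by
    unfold Yf Gf
    ring
  show ‖Yf b h w s x1 (cor b b3) (cor b b4) v - Gf b h w s x1 (cor b c) (cor b b3) (cor b b4)‖ ≤ _
  rw [e]
  exact (norm_sub_le _ _).trans (add_le_add (key true) (key false))

end Pool.Agent.H80.W
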