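import Mathlib

/-!
# S5 of note 2028 (route W): the two-constants lemma on annuli, one and three marks

`Ann t` is the open annulus `t < |w| < 1/t`.  For a function `E` analytic on it with
double zeros at the marks `a ∈ S`, the quotient `|E w| / ∏ |w - a|²` at a point of the
unit circle is at most the geometric mean of its values at two mirror points `ζ`,
`1/conj ζ` with `|ζ| = s` (`ann_one`).  Iterating in three variables with the circles
`s, 2s, 4s` gives `junction_three`.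
-/

open Complex Filter Topology Set Metric Asymptotics
open scoped ComplexConjugate

namespace H80.W

/-- open annulus, symmetric under `w ↦ 1/conj w` -/
def Ann (t : ℝ) : Set ℂ := {w | t < ‖w‖ ∧ ‖w‖ < t⁻¹}

lemma isOpen_Ann (t : ℝ) : IsOpen (Ann t) :=
  (isOpen_lt continuous_const continuous_norm).inter (isOpen_lt continuous_norm continuous_const)

/-- Finitely many removable singularities. -/
theorem removable_finset (S : Finset ℂ) : ∀ {U : Set ℂ}, IsOpen U → ∀ {f : ℂ → ℂ},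
    DifferentiableOn ℂ f (U \ S) →
    (∀ a ∈ S, a ∈ U → f =O[𝓝[≠] a] (fun _ => (1 : ℝ))) →
    ∃ Q : ℂ → ℂ, DifferentiableOn ℂ Q U ∧ ∀ w ∈ U, w ∉ S → Q w = f w := by
  classical
  induction S using Finset.induction_on with
  | empty =>
    intro U _ f hf _
    exact ⟨f, by simpa using hf, fun _ _ _ => rfl⟩
  | insert a S ha ih =>
    intro U hU f hf hb
    by_cases haU : a ∈ U
    · have hU' : IsOpen (U \ {a}) := hU.sdiff isClosed_singleton
      obtain ⟨Q, hQ, hQf⟩ := ih hU' (f := f)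
        (hf.mono (by
          intro w hw
          refine ⟨hw.1.1, ?_⟩
          intro h
          rcases Finset.mem_insert.1 (Finset.mem_coe.1 h) with h1 | h1
          · exact hw.1.2 h1
          · exact hw.2 h1))
        (fun b hb' hbU => hb b (Finset.mem_insert_of_mem hb') hbU.1)
      have hS : ∀ᶠ w in 𝓝 a, w ∉ S := by
        have : IsOpen ((S : Set ℂ)ᶜ) := S.finite_toSet.isClosed.isOpen_compl
        exact this.mem_nhds (by simpa using ha)
      obtain ⟨C, hC⟩ := (hb a (Finset.mem_insert_self a S) haU).bound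
      have hev : ∀ᶠ w in 𝓝 a, w ∈ U ∧ (w ≠ a → ‖Q w‖ ≤ C) := by
        filter_upwards [hU.mem_nhds haU, eventually_nhdsWithin_iff.1 hC, hS] with w h1 h2 h3
        refine ⟨h1, fun h => ?_⟩
        rw [hQf w ⟨h1, h⟩ h3]
        simpa using h2 h
      obtain ⟨ε, hε, hball⟩ := Metric.eventually_nhds_iff_ball.1 hev
      have hd1 : DifferentiableOn ℂ Q (ball a ε \ {a}) :=
        hQ.mono fun w hw => ⟨(hball w hw.1).1, hw.2⟩
      have hbd : BddAbove (norm ∘ Q '' (ball a ε \ {a})) := by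
        refine ⟨C, ?_⟩
        rintro x ⟨w, hw, rfl⟩
        exact (hball w hw.1).2 hw.2
      have hd2 := differentiableOn_update_limUnder_of_bddAbove (ball_mem_nhds a hε) hd1 hbd
      set Q1 : ℂ → ℂ := Function.update Q a (limUnder (𝓝[≠] a) Q) with hQ1
      refine ⟨Q1, ?_, ?_⟩
      · intro w hw
        by_cases hwa : w = a
        · rw [hwa]
          exact (hd2.differentiableAt (ball_mem_nhds a hε)).differentiableWithinAt
        · have h7 : Q1 =ᶠ[𝓝 w] Q := by
            filter_upwards [isOpen_ne.mem_nhds hwa] with v hv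
            rw [hQ1, Function.update_of_ne hv]
          exact ((h7.differentiableAt_iff).2
            (hQ.differentiableAt (hU'.mem_nhds ⟨hw, hwa⟩))).differentiableWithinAt
      · intro w hw hwS
        have hwa : w ≠ a := fun h => hwS (h ▸ Finset.mem_insert_self a S)
        rw [hQ1, Function.update_of_ne hwa]
        exact hQf w ⟨hw, hwa⟩ (fun h => hwS (Finset.mem_insert_of_mem h))
    · obtain ⟨Q, hQ, hQf⟩ := ih hU (f := f)
        (hf.mono (by
          intro w hw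
          refine ⟨hw.1, ?_⟩
          intro h
          rcases Finset.mem_insert.1 (Finset.mem_coe.1 h) with h1 | h1
          · exact haU (h1 ▸ hw.1)
          · exact hw.2 h1))
        (fun b hb' hbU => hb b (Finset.mem_insert_of_mem hb') hbU)
      exact ⟨Q, hQ, fun w hw hwS => hQf w hw (fun h => hwS (Finset.mem_insert_of_mem h))⟩

/-- Dividing out double zeros at finitely many points. -/
theorem exists_quot {U : Set ℂ} (hU : IsOpen U) {E : ℂ → ℂ} (S : Finset ℂ)
    (hE : DifferentiableOn ℂ E (U \ S))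
    (hO : ∀ a ∈ S, a ∈ U → E =O[𝓝[≠] a] fun w => (w - a) ^ 2) :
    ∃ Q : ℂ → ℂ, DifferentiableOn ℂ Q U ∧
      ∀ w ∈ U, w ∉ S → Q w = E w / ∏ a ∈ S, (w - a) ^ 2 := by
  classical
  refine removable_finset S hU (f := fun w => E w / ∏ a ∈ S, (w - a) ^ 2) ?_ ?_
  · intro w hw
    have h1 : DifferentiableAt ℂ E w := hE.differentiableAt
      ((hU.sdiff S.finite_toSet.isClosed).mem_nhds hw)
    have h2 : (∏ b ∈ S, (w - b) ^ 2) ≠ 0 := by
      rw [Finset.prod_ne_zero_iff]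
      intro b hb
      exact pow_ne_zero 2 (sub_ne_zero.2 (fun h => hw.2 (h ▸ hb)))
    have h3 : DifferentiableAt ℂ (fun w : ℂ => ∏ b ∈ S, (w - b) ^ 2) w := by fun_prop
    exact (h1.div h3 h2).differentiableWithinAt
  · intro a ha haU
    have hprod : (fun w : ℂ => (∏ b ∈ S.erase a, (w - b) ^ 2)⁻¹) =O[𝓝[≠] a]
        (fun _ => (1 : ℝ)) := by
      have hne : (∏ b ∈ S.erase a, (a - b) ^ 2) ≠ 0 := by
        rw [Finset.prod_ne_zero_iff]
        intro b hb
        exact pow_ne_zero 2 (sub_ne_zero.2 (Finset.ne_of_mem_erase hb).symm)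
      have hc : ContinuousAt (fun w : ℂ => (∏ b ∈ S.erase a, (w - b) ^ 2)⁻¹) a := by
        exact ContinuousAt.inv₀ (f := fun w : ℂ => ∏ b ∈ S.erase a, (w - b) ^ 2)
          (by fun_prop) hne
      exact (hc.tendsto.isBigO_one ℝ).mono nhdsWithin_le_nhds
    have h3 : (fun w => E w / ∏ b ∈ S, (w - b) ^ 2) =
        fun w => (E w * ((w - a) ^ 2)⁻¹) * (∏ b ∈ S.erase a, (w - b) ^ 2)⁻¹ := by
      funext w
      rw [← Finset.mul_prod_erase S _ ha, div_eq_mul_inv, mul_inv, mul_assoc]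
    have h5 : (fun w => E w * ((w - a) ^ 2)⁻¹) =O[𝓝[≠] a] (fun _ => (1 : ℝ)) := by
      have h6 : (fun w : ℂ => ((w - a) ^ 2) * ((w - a) ^ 2)⁻¹) =O[𝓝[≠] a]
          (fun _ => (1 : ℝ)) := by
        apply IsBigO.of_bound 1
        filter_upwards [self_mem_nhdsWithin] with w hw
        have : (w - a) ^ 2 ≠ 0 := pow_ne_zero 2 (sub_ne_zero.2 hw)
        rw [mul_inv_cancel₀ this]
        simp
      exact ((hO a ha haU).mul (isBigO_refl _ _)).trans h6
    rw [h3]
    simpa using h5.mul hprod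

/-- the conjugate-reflected function is analytic -/
lemma refl_diff {t : ℝ} (ht : 0 < t) {Q : ℂ → ℂ} (hQ : DifferentiableOn ℂ Q (Ann t)) :
    DifferentiableOn ℂ (fun w => conj (Q (conj w⁻¹))) (Ann t) := by
  intro w hw
  have hw0 : w ≠ 0 := by
    rintro rfl
    have := hw.1
    rw [norm_zero] at this
    linarith
  have hmem : conj w⁻¹ ∈ Ann t := by
    refine ⟨?_, ?_⟩
    · rw [RCLike.norm_conj, norm_inv]
      exact lt_inv_of_lt_inv₀ (norm_pos_iff.2 hw0) hw.2
    · rw [RCLike.norm_conj, norm_inv]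
      exact (inv_lt_inv₀ (norm_pos_iff.2 hw0) ht).2 hw.1
  have h1 : DifferentiableAt ℂ Q (conj w⁻¹) := hQ.differentiableAt ((isOpen_Ann t).mem_nhds hmem)
  have h2 : DifferentiableAt ℂ (conj ∘ Q ∘ conj) (w⁻¹) := by
    have := h1.conj_conj
    rwa [Complex.conj_conj] at this
  have h3 : DifferentiableAt ℂ (fun w : ℂ => w⁻¹) w := differentiableAt_inv hw0
  exact (h2.comp w h3).differentiableWithinAt

/-- **One mark.** `E` analytic on the annulus `t < |w| < 1/t` with double zeros at the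
points of `S`; `t < s < 1`, no point of `S` on the two circles `|w| = s`, `|w| = 1/s`.
The quotient at a point of the unit circle is at most the geometric mean of its values
at two mirror points of these circles. -/
theorem ann_one {t s : ℝ} (ht : 0 < t) (hts : t < s) (hs : s < 1) {E : ℂ → ℂ}
    (S : Finset ℂ) (hE : DifferentiableOn ℂ E (Ann t \ S))
    (hO : ∀ a ∈ S, a ∈ Ann t → E =O[𝓝[≠] a] fun w => (w - a) ^ 2)
    (hSs : ∀ a ∈ S, ‖a‖ ≠ s ∧ ‖a‖ ≠ s⁻¹) {w : ℂ} (hw : ‖w‖ = 1) (hwS : w ∉ S) :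
    ∃ ζ ζ' : ℂ, ‖ζ‖ = s ∧ ‖ζ'‖ = s⁻¹ ∧
      (‖E w‖ / ∏ a ∈ S, ‖w - a‖ ^ 2) ^ 2 ≤
        (‖E ζ‖ / ∏ a ∈ S, ‖ζ - a‖ ^ 2) * (‖E ζ'‖ / ∏ a ∈ S, ‖ζ' - a‖ ^ 2) := by
  classical
  have hs0 : 0 < s := ht.trans hts
  have hs1 : 1 < s⁻¹ := (one_lt_inv₀ hs0).2 hs
  have hst : s⁻¹ < t⁻¹ := (inv_lt_inv₀ hs0 ht).2 hts
  obtain ⟨Q, hQ, hQE⟩ := exists_quot (isOpen_Ann t) S hE hO
  set F : ℂ → ℂ := fun w => Q w * conj (Q (conj w⁻¹)) with hF
  have hFd : DifferentiableOn ℂ F (Ann t) := hQ.mul (refl_diff ht hQ)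
  have hFn : ∀ z, ‖F z‖ = ‖Q z‖ * ‖Q (conj z⁻¹)‖ := by
    intro z
    rw [hF]
    simp only [norm_mul, RCLike.norm_conj]
  have hrefl : ∀ z : ℂ, conj (conj z⁻¹)⁻¹ = z := by
    intro z
    simp
  have hFr : ∀ z, ‖F (conj z⁻¹)‖ = ‖F z‖ := by
    intro z
    rw [hFn, hFn, hrefl, mul_comm]
  have hcl : closure (Ann s) ⊆ Ann t := by
    have hc : IsClosed {w : ℂ | s ≤ ‖w‖ ∧ ‖w‖ ≤ s⁻¹} :=
      (isClosed_le continuous_const continuous_norm).inter
        (isClosed_le continuous_norm continuous_const)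
    have h1 : closure (Ann s) ⊆ {w : ℂ | s ≤ ‖w‖ ∧ ‖w‖ ≤ s⁻¹} :=
      closure_minimal (fun w hw => ⟨hw.1.le, hw.2.le⟩) hc
    exact fun w hw => ⟨hts.trans_le (h1 hw).1, (h1 hw).2.trans_lt hst⟩
  have hfr : ∀ z ∈ frontier (Ann s), ‖z‖ = s ∨ ‖z‖ = s⁻¹ := by
    intro z hz
    have hc : IsClosed {w : ℂ | s ≤ ‖w‖ ∧ ‖w‖ ≤ s⁻¹} :=
      (isClosed_le continuous_const continuous_norm).inter
        (isClosed_le continuous_norm continuous_const)
    have h0 : closure (Ann s) ⊆ {w : ℂ | s ≤ ‖w‖ ∧ ‖w‖ ≤ s⁻¹} :=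
      closure_minimal (fun w hw => ⟨hw.1.le, hw.2.le⟩) hc
    have h1 := h0 hz.1
    have h2 : z ∉ Ann s := by
      have := hz.2
      rwa [(isOpen_Ann s).interior_eq] at this
    by_contra hcon
    rw [not_or] at hcon
    exact h2 ⟨lt_of_le_of_ne h1.1 (Ne.symm hcon.1), lt_of_le_of_ne h1.2 hcon.2⟩
  have hsph : sphere (0 : ℂ) s ⊆ Ann t := by
    intro z hz
    rw [mem_sphere_zero_iff_norm] at hz
    exact ⟨by rw [hz]; exact hts, by rw [hz]; exact hs.trans (hs1.trans hst)⟩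
  obtain ⟨ζ, hζ, hmax⟩ := (isCompact_sphere (0 : ℂ) s).exists_isMaxOn
    (NormedSpace.sphere_nonempty.2 hs0.le) ((hFd.continuousOn.mono hsph).norm)
  rw [mem_sphere_zero_iff_norm] at hζ
  have hζ' : ‖(conj ζ⁻¹ : ℂ)‖ = s⁻¹ := by rw [RCLike.norm_conj, norm_inv, hζ]
  have hbd : ∀ z ∈ frontier (Ann s), ‖F z‖ ≤ ‖F ζ‖ := by
    intro z hz
    rcases hfr z hz with h | h
    · exact hmax (mem_sphere_zero_iff_norm.2 h)
    · rw [← hFr z]
      refine hmax (mem_sphere_zero_iff_norm.2 ?_)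
      rw [RCLike.norm_conj, norm_inv, h, inv_inv]
  have hbdd : Bornology.IsBounded (Ann s) := by
    refine (isBounded_iff_forall_norm_le).2 ⟨s⁻¹, fun z hz => hz.2.le⟩
  have hwA : w ∈ Ann s := ⟨by rw [hw]; exact hs, by rw [hw]; exact hs1⟩
  have hmain : ‖F w‖ ≤ ‖F ζ‖ :=
    Complex.norm_le_of_forall_mem_frontier_norm_le hbdd
      ((hFd.mono hcl).diffContOnCl) hbd (subset_closure hwA)
  have hww : conj w⁻¹ = w := by
    have h1 : w ≠ 0 := by
      rintro rfl
      rw [norm_zero] at hw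
      exact zero_ne_one hw
    rw [map_inv₀, inv_eq_iff_eq_inv, Complex.inv_def, Complex.normSq_eq_norm_sq, hw]
    simp
  rw [hFn, hFn, hww] at hmain
  have hζS : ζ ∉ S := fun h => (hSs ζ h).1 hζ
  have hζS' : conj ζ⁻¹ ∉ S := fun h => (hSs _ h).2 hζ'
  have hwt : w ∈ Ann t := hcl (subset_closure hwA)
  have hζt : ζ ∈ Ann t := hsph (mem_sphere_zero_iff_norm.2 hζ)
  have hζt' : conj ζ⁻¹ ∈ Ann t :=
    ⟨by rw [hζ']; exact hts.trans (hs.trans hs1), by rw [hζ']; exact hst⟩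
  have hnorm : ∀ z : ℂ, z ∈ Ann t → z ∉ S → ‖Q z‖ = ‖E z‖ / ∏ a ∈ S, ‖z - a‖ ^ 2 := by
    intro z hz hzS
    rw [hQE z hz hzS, norm_div, norm_prod]
    simp only [norm_pow]
  refine ⟨ζ, conj ζ⁻¹, hζ, hζ', ?_⟩
  rw [← hnorm w hwt hwS, ← hnorm ζ hζt hζS, ← hnorm _ hζt' hζS', sq]
  exact hmain

/-! ### Several marks -/

variable {ι : Type*} [Fintype ι] [DecidableEq ι]


/-- `E` is analytic in each mark (in the annulus `Ann t`, away from the other marks) and
vanishes to second order when two marks meet. -/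
structure MarkFn (t : ℝ) (E : (ι → ℂ) → ℂ) : Prop where
  diff : ∀ w : ι → ℂ, (∀ j, w j ∈ Ann t) → ∀ i, (∀ j k, j ≠ i → k ≠ i → j ≠ k → w j ≠ w k) →
    DifferentiableOn ℂ (fun z => E (Function.update w i z)) (Ann t \ {z | ∃ j ≠ i, z = w j})
  zero : ∀ w : ι → ℂ, (∀ j, w j ∈ Ann t) → ∀ i, (∀ j k, j ≠ i → k ≠ i → j ≠ k → w j ≠ w k) →
    ∀ j, j ≠ i → (fun z => E (Function.update w i z)) =O[𝓝[≠] (w j)] fun z => (z - w j) ^ 2

/-- the quotient by the square of the Vandermonde (ordered pairs, each to the power one) -/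
noncomputable def G (E : (ι → ℂ) → ℂ) (w : ι → ℂ) : ℝ :=
  ‖E w‖ / ∏ p ∈ (Finset.univ : Finset ι).offDiag, ‖w p.1 - w p.2‖

omit [DecidableEq ι] in
lemma G_nonneg (E : (ι → ℂ) → ℂ) (w : ι → ℂ) : 0 ≤ G E w :=
  div_nonneg (norm_nonneg _) (Finset.prod_nonneg fun _ _ => norm_nonneg _)

/-- splitting off the factors which contain `i` -/
lemma prod_split (i : ι) (w : ι → ℂ) :
    ∏ p ∈ (Finset.univ : Finset ι).offDiag, ‖w p.1 - w p.2‖ =
      (∏ j ∈ Finset.univ.erase i, ‖w i - w j‖ ^ 2) *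
        ∏ p ∈ (Finset.univ.erase i).offDiag, ‖w p.1 - w p.2‖ := by
  have h1 : (Finset.univ : Finset ι) = insert i (Finset.univ.erase i) := by
    rw [Finset.insert_erase (Finset.mem_univ i)]
  conv_lhs => rw [h1]
  rw [Finset.offDiag_insert (Finset.notMem_erase i _), Finset.prod_union, Finset.prod_union,
    Finset.prod_product, Finset.prod_product_right, Finset.prod_singleton,
    Finset.prod_singleton]
  · simp only [sq, Finset.prod_mul_distrib]
    have h2 : ∏ j ∈ Finset.univ.erase i, ‖w j - w i‖ = ∏ j ∈ Finset.univ.erase i, ‖w i - w j‖ :=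
      Finset.prod_congr rfl fun j _ => norm_sub_rev _ _
    rw [h2]
    ring
  · rw [Finset.disjoint_left]
    rintro ⟨a, b⟩ h3 h4
    simp only [Finset.mem_offDiag, Finset.mem_product, Finset.mem_singleton,
      Finset.mem_erase] at h3 h4
    exact h3.1.1 h4.1
  · rw [Finset.disjoint_left]
    rintro ⟨a, b⟩ h3 h4
    simp only [Finset.mem_offDiag, Finset.mem_product, Finset.mem_singleton,
      Finset.mem_erase, Finset.mem_union] at h3 h4
    rcases h3 with h3 | h3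
    · exact h3.2.1.1 h4.2
    · exact h4.1.1 h3.1

lemma G_update (E : (ι → ℂ) → ℂ) (w : ι → ℂ) (i : ι) (z : ℂ) :
    G E (Function.update w i z) = (‖E (Function.update w i z)‖ /
      ∏ j ∈ Finset.univ.erase i, ‖z - w j‖ ^ 2) /
        ∏ p ∈ (Finset.univ.erase i).offDiag, ‖w p.1 - w p.2‖ := by
  rw [G, prod_split i, div_div]
  congr 2
  · refine Finset.prod_congr rfl fun j hj => ?_
    rw [Function.update_self, Function.update_of_ne (Finset.ne_of_mem_erase hj)]
  · refine Finset.prod_congr rfl fun p hp => ?_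
    rw [Finset.mem_offDiag] at hp
    rw [Function.update_of_ne (Finset.ne_of_mem_erase hp.1),
      Function.update_of_ne (Finset.ne_of_mem_erase hp.2.1)]

/-- **One step**: the mark `i` is moved from the unit circle to two mirror points of the
circles of radius `r`, `1/r`. -/
theorem G_step {t r : ℝ} (ht : 0 < t) (htr : t < r) (hr : r < 1) {E : (ι → ℂ) → ℂ}
    (hE : MarkFn t E) {w : ι → ℂ} (hw : ∀ j, w j ∈ Ann t) (hinj : Function.Injective w) (i : ι)
    (hi : ‖w i‖ = 1) (hne : ∀ j, j ≠ i → ‖w j‖ ≠ r ∧ ‖w j‖ ≠ r⁻¹) :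
    ∃ ζ ζ' : ℂ, ‖ζ‖ = r ∧ ‖ζ'‖ = r⁻¹ ∧
      (G E w) ^ 2 ≤ G E (Function.update w i ζ) * G E (Function.update w i ζ') := by
  have hd : ∀ j k, j ≠ i → k ≠ i → j ≠ k → w j ≠ w k := fun j k _ _ h h' => h (hinj h')
  set S : Finset ℂ := (Finset.univ.erase i).image w with hS
  have hmem : ∀ a, a ∈ S ↔ ∃ j, j ≠ i ∧ w j = a := by
    intro a
    simp [hS]
  have hprod : ∀ z : ℂ, ∏ a ∈ S, ‖z - a‖ ^ 2 = ∏ j ∈ Finset.univ.erase i, ‖z - w j‖ ^ 2 := by
    intro z
    rw [hS, Finset.prod_image (fun a _ b _ h => hinj h)]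
  have h1 := ann_one ht htr hr (E := fun z => E (Function.update w i z)) S
    ((hE.diff w hw i hd).mono (by
      intro z hz
      refine ⟨hz.1, ?_⟩
      rintro ⟨j, hj, rfl⟩
      exact hz.2 (Finset.mem_coe.2 ((hmem _).2 ⟨j, hj, rfl⟩))))
    (by
      intro a ha _
      obtain ⟨j, hj, rfl⟩ := (hmem a).1 ha
      exact hE.zero w hw i hd j hj)
    (by
      intro a ha
      obtain ⟨j, hj, rfl⟩ := (hmem a).1 ha
      exact hne j hj)
    hi (by
      intro h
      obtain ⟨j, hj, hj'⟩ := (hmem _).1 h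
      exact hj (hinj hj'))
  obtain ⟨ζ, ζ', hζ, hζ', hle⟩ := h1
  refine ⟨ζ, ζ', hζ, hζ', ?_⟩
  rw [hprod, hprod, hprod] at hle
  have h0 : G E w = (‖E (Function.update w i (w i))‖ /
      ∏ j ∈ Finset.univ.erase i, ‖w i - w j‖ ^ 2) /
        ∏ p ∈ (Finset.univ.erase i).offDiag, ‖w p.1 - w p.2‖ := by
    rw [← G_update, Function.update_eq_self]
  set R := ∏ p ∈ (Finset.univ.erase i).offDiag, ‖w p.1 - w p.2‖
  have hR : 0 ≤ R := Finset.prod_nonneg fun _ _ => norm_nonneg _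
  rw [h0, G_update, G_update, div_pow, div_mul_div_comm, ← sq]
  exact div_le_div_of_nonneg_right hle (sq_nonneg _)

/-- **Moving a set of marks.** `I` is the set of marks moved, `ρ i` the radius of the
circle of the mark `i`; `K A` bounds `G` on the torus where the marks of `A ⊆ I` are on
the small circles and those of `I \ A` on the large ones. -/
theorem G_move {t : ℝ} (ht : 0 < t) {E : (ι → ℂ) → ℂ} (hE : MarkFn t E) (ρ : ι → ℝ)
    (I : Finset ι) : ∀ (w : ι → ℂ), (∀ i ∈ I, t < ρ i ∧ ρ i < 1) →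
    (∀ i ∈ I, ∀ j ∈ I, i ≠ j → ρ i ≠ ρ j) →
    (∀ j, w j ∈ Ann t) → Function.Injective w → (∀ i ∈ I, ‖w i‖ = 1) →
    (∀ i ∈ I, ∀ j, j ∉ I → ‖w j‖ ≠ ρ i ∧ ‖w j‖ ≠ (ρ i)⁻¹) →
    ∀ K : Finset ι → ℝ,
    (∀ A, A ⊆ I → ∀ z : ι → ℂ, (∀ j, j ∉ I → z j = w j) → (∀ j ∈ A, ‖z j‖ = ρ j) →
      (∀ j ∈ I, j ∉ A → ‖z j‖ = (ρ j)⁻¹) → G E z ≤ K A) →
    (G E w) ^ (2 ^ I.card) ≤ ∏ A ∈ I.powerset, K A := by
  induction I using Finset.induction_on with
  | empty =>
    intro w _ _ _ _ _ _ K hK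
    simpa using hK ∅ (Finset.Subset.refl _) w (fun _ _ => rfl) (by simp) (by simp)
  | insert i I hiI ih =>
    intro w hρ hρne hw hinj hw1 hwρ K hK
    have hi := hρ i (Finset.mem_insert_self i I)
    have hr0 : 0 < ρ i := ht.trans hi.1
    have hr1 : 1 < (ρ i)⁻¹ := (one_lt_inv₀ hr0).2 hi.2
    have hrt : (ρ i)⁻¹ < t⁻¹ := (inv_lt_inv₀ hr0 ht).2 hi.1
    obtain ⟨ζ, ζ', hζ, hζ', hle⟩ := G_step ht hi.1 hi.2 hE hw hinj i
      (hw1 i (Finset.mem_insert_self i I)) (by
        intro j hj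
        by_cases hjI : j ∈ I
        · rw [hw1 j (Finset.mem_insert_of_mem hjI)]
          exact ⟨hi.2.ne', hr1.ne⟩
        · exact hwρ i (Finset.mem_insert_self i I) j (by simp [hj, hjI]))
    -- properties of the updated configurations
    have key : ∀ v : ℂ, v ∈ Ann t → (‖v‖ = ρ i ∨ ‖v‖ = (ρ i)⁻¹) →
        ∀ K' : Finset ι → ℝ,
        (∀ A, A ⊆ I → ∀ z : ι → ℂ, (∀ j, j ∉ I → z j = Function.update w i v j) →
          (∀ j ∈ A, ‖z j‖ = ρ j) →
          (∀ j ∈ I, j ∉ A → ‖z j‖ = (ρ j)⁻¹) → G E z ≤ K' A) →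
        (G E (Function.update w i v)) ^ (2 ^ I.card) ≤ ∏ A ∈ I.powerset, K' A := by
      intro v hv hvρ K' hK'
      have hvw : ∀ j, j ≠ i → v ≠ w j := by
        intro j hj h
        have h1 : ‖w j‖ ≠ ρ i ∧ ‖w j‖ ≠ (ρ i)⁻¹ := by
          by_cases hjI : j ∈ I
          · rw [hw1 j (Finset.mem_insert_of_mem hjI)]
            exact ⟨hi.2.ne', hr1.ne⟩
          · exact hwρ i (Finset.mem_insert_self i I) j (by simp [hj, hjI])
        rw [h] at hvρ
        rcases hvρ with h2 | h2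
        · exact h1.1 h2
        · exact h1.2 h2
      refine ih (Function.update w i v) (fun k hk => hρ k (Finset.mem_insert_of_mem hk))
        (fun k hk l hl => hρne k (Finset.mem_insert_of_mem hk) l (Finset.mem_insert_of_mem hl))
        ?_ ?_ ?_ ?_ K' hK'
      · intro j
        by_cases hj : j = i
        · rw [hj, Function.update_self]; exact hv
        · rw [Function.update_of_ne hj]; exact hw j
      · intro j k hjk
        by_cases hj : j = i
        · by_cases hk : k = i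
          · rw [hj, hk]
          · rw [hj, Function.update_self, Function.update_of_ne hk] at hjk
            exact absurd hjk (hvw k hk)
        · by_cases hk : k = i
          · rw [hk, Function.update_self, Function.update_of_ne hj] at hjk
            exact absurd hjk.symm (hvw j hj)
          · rw [Function.update_of_ne hj, Function.update_of_ne hk] at hjk
            exact hinj hjk
      · intro k hk
        rw [Function.update_of_ne (by rintro rfl; exact hiI hk)]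
        exact hw1 k (Finset.mem_insert_of_mem hk)
      · intro k hk j hj
        have hki : k ≠ i := fun h => hiI (h ▸ hk)
        have hk' := hρ k (Finset.mem_insert_of_mem hk)
        have hk0 : 0 < ρ k := ht.trans hk'.1
        have hk1 : 1 < (ρ k)⁻¹ := (one_lt_inv₀ hk0).2 hk'.2
        by_cases hji : j = i
        · rw [hji, Function.update_self]
          have h3 : ρ i ≠ ρ k := hρne i (Finset.mem_insert_self i I) k
            (Finset.mem_insert_of_mem hk) hki.symm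
          rcases hvρ with h2 | h2
          · rw [h2]
            exact ⟨h3, (hi.2.trans hk1).ne⟩
          · rw [h2]
            exact ⟨(hk'.2.trans hr1).ne', fun h => h3 (inv_injective h)⟩
        · rw [Function.update_of_ne hji]
          exact hwρ k (Finset.mem_insert_of_mem hk) j (by simp [hji, hj])
    have hζt : ζ ∈ Ann t :=
      ⟨by rw [hζ]; exact hi.1, by rw [hζ]; exact hi.2.trans (hr1.trans hrt)⟩
    have hζt' : ζ' ∈ Ann t :=
      ⟨by rw [hζ']; exact hi.1.trans (hi.2.trans hr1), by rw [hζ']; exact hrt⟩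
    have hA := key ζ hζt (Or.inl hζ) (fun A => K (insert i A)) (by
      intro A hAI z hz1 hz2 hz3
      have hzi : z i = ζ := by rw [hz1 i hiI, Function.update_self]
      refine hK (insert i A) (Finset.insert_subset_insert i hAI) z ?_ ?_ ?_
      · intro j hj
        rw [Finset.mem_insert, not_or] at hj
        rw [hz1 j hj.2, Function.update_of_ne hj.1]
      · intro j hj
        rcases Finset.mem_insert.1 hj with h | h
        · rw [h, hzi, hζ]
        · exact hz2 j h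
      · intro j hj hj'
        rw [Finset.mem_insert, not_or] at hj'
        exact hz3 j ((Finset.mem_insert.1 hj).resolve_left hj'.1) hj'.2)
    have hB := key ζ' hζt' (Or.inr hζ') K (by
      intro A hAI z hz1 hz2 hz3
      have hzi : z i = ζ' := by rw [hz1 i hiI, Function.update_self]
      refine hK A (hAI.trans (Finset.subset_insert i I)) z ?_ hz2 ?_
      · intro j hj
        rw [Finset.mem_insert, not_or] at hj
        rw [hz1 j hj.2, Function.update_of_ne hj.1]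
      · intro j hj hj'
        rcases Finset.mem_insert.1 hj with h | h
        · rw [h, hzi, hζ']
        · exact hz3 j h hj')
    rw [Finset.card_insert_of_notMem hiI, pow_succ', pow_mul, Finset.prod_powerset_insert hiI,
      mul_comm (∏ t ∈ I.powerset, K t)]
    calc ((G E w) ^ 2) ^ 2 ^ I.card
        ≤ (G E (Function.update w i ζ) * G E (Function.update w i ζ')) ^ 2 ^ I.card :=
          pow_le_pow_left₀ (sq_nonneg _) hle _
      _ = (G E (Function.update w i ζ)) ^ 2 ^ I.card *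
          (G E (Function.update w i ζ')) ^ 2 ^ I.card := mul_pow _ _ _
      _ ≤ _ := mul_le_mul hA hB (pow_nonneg (G_nonneg _ _) _)
          ((pow_nonneg (G_nonneg _ _) _).trans hA)

/-- the weights of the ordered pairs `p` when the marks of `A` are on the small circles -/
noncomputable def phi (I : Finset ι) (s : ℝ) (p : ι × ι) (A : Finset ι) : ℝ :=
  64 * (if p.1 ∈ I then (if p.2 ∈ I then (if p.1 ∈ A ∧ p.2 ∈ A then s⁻¹ else s)
    else (if p.1 ∈ A then 1 else s)) else (if p.2 ∈ A then 1 else s))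

omit [Fintype ι] in
lemma phi_pos (I : Finset ι) {s : ℝ} (hs : 0 < s) (p : ι × ι) (A : Finset ι) :
    0 < phi I s p A := by
  unfold phi
  have := inv_pos.2 hs
  split_ifs <;> positivity

omit [Fintype ι] in
/-- product over the powerset of a function which depends on one membership only -/
lemma prod_one (I : Finset ι) {i : ι} (hi : i ∈ I) (f : Finset ι → ℝ) (x y : ℝ)
    (hf : ∀ A ⊆ I, f A = if i ∈ A then x else y) :
    (∏ A ∈ I.powerset, f A) ^ 2 = (x * y) ^ (2 ^ I.card) := by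
  obtain ⟨J, hiJ, rfl⟩ : ∃ J, i ∉ J ∧ I = insert i J :=
    ⟨I.erase i, Finset.notMem_erase i I, (Finset.insert_erase hi).symm⟩
  rw [Finset.prod_powerset_insert hiJ, Finset.card_insert_of_notMem hiJ]
  have h1 : ∏ t ∈ J.powerset, f t = y ^ 2 ^ J.card := by
    rw [← Finset.card_powerset]
    refine Finset.prod_eq_pow_card ?_
    intro A hA
    rw [Finset.mem_powerset] at hA
    rw [hf A (hA.trans (Finset.subset_insert i J)), if_neg (fun h => hiJ (hA h))]
  have h2 : ∏ t ∈ J.powerset, f (insert i t) = x ^ 2 ^ J.card := by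
    rw [← Finset.card_powerset]
    refine Finset.prod_eq_pow_card ?_
    intro A hA
    rw [Finset.mem_powerset] at hA
    rw [hf _ (Finset.insert_subset_insert i hA), if_pos (Finset.mem_insert_self i A)]
  rw [h1, h2, ← mul_pow, ← pow_mul, pow_succ, mul_comm y x]

omit [Fintype ι] in
/-- product over the powerset of a function which depends on two memberships only -/
lemma prod_two (I : Finset ι) {i j : ι} (hi : i ∈ I) (hj : j ∈ I) (hij : i ≠ j)
    (f : Finset ι → ℝ) (x y : ℝ)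
    (hf : ∀ A ⊆ I, f A = if i ∈ A ∧ j ∈ A then x else y) :
    (∏ A ∈ I.powerset, f A) ^ 4 = (x * y ^ 3) ^ (2 ^ I.card) := by
  obtain ⟨J, hiJ, rfl⟩ : ∃ J, i ∉ J ∧ I = insert i J :=
    ⟨I.erase i, Finset.notMem_erase i I, (Finset.insert_erase hi).symm⟩
  have hjJ : j ∈ J := (Finset.mem_insert.1 hj).resolve_left hij.symm
  rw [Finset.prod_powerset_insert hiJ, Finset.card_insert_of_notMem hiJ]
  have h1 : ∏ t ∈ J.powerset, f t = y ^ 2 ^ J.card := by
    rw [← Finset.card_powerset]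
    refine Finset.prod_eq_pow_card ?_
    intro A hA
    rw [Finset.mem_powerset] at hA
    rw [hf A (hA.trans (Finset.subset_insert i J)), if_neg (fun h => hiJ (hA h.1))]
  have h2 : (∏ t ∈ J.powerset, f (insert i t)) ^ 2 = (x * y) ^ 2 ^ J.card := by
    refine prod_one J hjJ (fun t => f (insert i t)) x y ?_
    intro A hA
    rw [hf _ (Finset.insert_subset_insert i hA)]
    simp [hij.symm]
  have h3 : (∏ t ∈ J.powerset, f (insert i t)) ^ 4 = ((x * y) ^ 2) ^ 2 ^ J.card := by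
    have : (∏ t ∈ J.powerset, f (insert i t)) ^ 4 =
      ((∏ t ∈ J.powerset, f (insert i t)) ^ 2) ^ 2 := by ring
    rw [this, h2, pow_right_comm]
  have h4 : (y ^ 2 ^ J.card) ^ 4 = (y ^ 4) ^ 2 ^ J.card := pow_right_comm _ _ _
  have h5 : (x * y ^ 3) ^ 2 ^ (J.card + 1) = ((x * y ^ 3) ^ 2) ^ 2 ^ J.card := by
    rw [pow_succ 2, mul_comm (2 ^ J.card) 2, pow_mul]
  rw [h1, mul_pow, h3, h4, ← mul_pow, h5]
  congr 1
  ring

omit [Fintype ι] in
lemma phi_prod (I : Finset ι) {s : ℝ} (hs : 0 < s) (p : ι × ι) (hp : p.1 ≠ p.2)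
    (hpI : p.1 ∈ I ∨ p.2 ∈ I) :
    (∏ A ∈ I.powerset, phi I s p A) ^ 2 = (64 ^ 2 * s) ^ (2 ^ I.card) := by
  have hprod0 : 0 ≤ ∏ A ∈ I.powerset, phi I s p A :=
    Finset.prod_nonneg fun A _ => (phi_pos I hs p A).le
  by_cases h1 : p.1 ∈ I
  · by_cases h2 : p.2 ∈ I
    · have h3 := prod_two I h1 h2 hp (phi I s p) (64 * s⁻¹) (64 * s) (by
        intro A _
        simp only [phi, h1, h2, if_true]
        split_ifs <;> rfl)
      have h4 : (64 * s⁻¹ * (64 * s) ^ 3) = (64 ^ 2 * s) ^ 2 := by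
        field_simp
      rw [h4, pow_right_comm] at h3
      have h5 : ((∏ A ∈ I.powerset, phi I s p A) ^ 2) ^ 2 =
          ((64 ^ 2 * s) ^ (2 ^ I.card)) ^ 2 := by
        rw [← h3]; ring
      exact (pow_left_inj₀ (by positivity) (by positivity) two_ne_zero).1 h5
    · rw [prod_one I h1 (phi I s p) 64 (64 * s) (by
        intro A _
        simp only [phi, h1, h2, if_true, if_false]
        split_ifs <;> ring)]
      congr 1
      ring
  · have h2 : p.2 ∈ I := hpI.resolve_left h1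
    rw [prod_one I h2 (phi I s p) 64 (64 * s) (by
        intro A _
        simp only [phi, h1, if_false]
        split_ifs <;> ring)]
    congr 1
    ring

/-- lower bounds for the distances of two marks -/
lemma dist_aux {s x y : ℝ} (hs0 : 0 < s) (hs : s ≤ 1 / 16) (hx : s ≤ x) (hx' : x ≤ 8 * s)
    (hy : s ≤ y) (hy' : y ≤ 8 * s) :
    (1 ≤ 64 * s * (y⁻¹ - x)) ∧ (1 ≤ 64 * (1 - x)) ∧ (1 ≤ 64 * s * (x⁻¹ - 1)) ∧
      (s ≤ |x - y| → 1 ≤ 64 * s⁻¹ * |x - y| ∧ 1 ≤ 64 * s * |x⁻¹ - y⁻¹|) := by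
  have hx0 : 0 < x := hs0.trans_le hx
  have hy0 : 0 < y := hs0.trans_le hy
  have h1 : (8 * s)⁻¹ ≤ y⁻¹ := (inv_le_inv₀ (by positivity) hy0).2 hy'
  have h1' : (8 * s)⁻¹ ≤ x⁻¹ := (inv_le_inv₀ (by positivity) hx0).2 hx'
  have h2 : 64 * s * (8 * s)⁻¹ = 8 := by
    field_simp
    norm_num
  have h3 : 64 * s * (8 * s)⁻¹ ≤ 64 * s * y⁻¹ :=
    mul_le_mul_of_nonneg_left h1 (by positivity)
  have h3' : 64 * s * (8 * s)⁻¹ ≤ 64 * s * x⁻¹ :=
    mul_le_mul_of_nonneg_left h1' (by positivity)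
  refine ⟨?_, ?_, ?_, ?_⟩
  · have h4 : 64 * s * x ≤ 2 := by nlinarith
    nlinarith
  · nlinarith
  · nlinarith
  · intro h
    constructor
    · have h5 : 64 * s⁻¹ * s ≤ 64 * s⁻¹ * |x - y| :=
        mul_le_mul_of_nonneg_left h (by positivity)
      have h6 : 64 * s⁻¹ * s = 64 := by field_simp
      linarith
    · have h7 : |x⁻¹ - y⁻¹| = |x - y| / (x * y) := by
        rw [inv_sub_inv hx0.ne' hy0.ne', abs_div, abs_of_pos (mul_pos hx0 hy0), abs_sub_comm]
      have h8 : x * y ≤ 64 * s ^ 2 := by nlinarith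
      rw [h7, ← mul_div_assoc, le_div_iff₀ (mul_pos hx0 hy0)]
      nlinarith

omit [Fintype ι] in
lemma phi_bound {s : ℝ} (hs0 : 0 < s) (hs : s ≤ 1 / 16) {I : Finset ι} {ρ : ι → ℝ}
    (hρ : ∀ i ∈ I, s ≤ ρ i ∧ ρ i ≤ 8 * s)
    (hρ2 : ∀ i ∈ I, ∀ j ∈ I, i ≠ j → s ≤ |ρ i - ρ j|) {A : Finset ι} {z : ι → ℂ}
    (hz1 : ∀ j, j ∉ I → ‖z j‖ = 1) (hz2 : ∀ j ∈ I, j ∈ A → ‖z j‖ = ρ j)
    (hz3 : ∀ j ∈ I, j ∉ A → ‖z j‖ = (ρ j)⁻¹) {p : ι × ι} (hp : p.1 ≠ p.2)
    (hpI : p.1 ∈ I ∨ p.2 ∈ I) :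
    1 ≤ phi I s p A * ‖z p.1 - z p.2‖ := by
  have hn : |‖z p.1‖ - ‖z p.2‖| ≤ ‖z p.1 - z p.2‖ := abs_norm_sub_norm_le _ _
  refine le_trans ?_ (mul_le_mul_of_nonneg_left hn (phi_pos I hs0 p A).le)
  unfold phi
  by_cases h1 : p.1 ∈ I
  · have hx := hρ _ h1
    by_cases h2 : p.2 ∈ I
    · have hy := hρ _ h2
      have haux := dist_aux hs0 hs hx.1 hx.2 hy.1 hy.2
      have haux' := dist_aux hs0 hs hy.1 hy.2 hx.1 hx.2
      have hd := haux.2.2.2 (hρ2 _ h1 _ h2 hp)
      by_cases h3 : p.1 ∈ A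
      · by_cases h4 : p.2 ∈ A
        · rw [hz2 _ h1 h3, hz2 _ h2 h4]
          simp only [h1, h2, h3, h4, and_self, if_true]
          exact hd.1
        · rw [hz2 _ h1 h3, hz3 _ h2 h4]
          simp only [h1, h2, h3, h4, and_false, if_true, if_false]
          refine haux.1.trans (mul_le_mul_of_nonneg_left ?_ (by positivity))
          rw [abs_sub_comm]
          exact le_abs_self _
      · by_cases h4 : p.2 ∈ A
        · rw [hz3 _ h1 h3, hz2 _ h2 h4]
          simp only [h1, h2, h3, h4, false_and, if_true, if_false]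
          exact haux'.1.trans (mul_le_mul_of_nonneg_left (le_abs_self _) (by positivity))
        · rw [hz3 _ h1 h3, hz3 _ h2 h4]
          simp only [h1, h2, h3, h4, false_and, if_true, if_false]
          exact hd.2
    · have haux := dist_aux hs0 hs hx.1 hx.2 hx.1 hx.2
      rw [hz1 _ h2]
      by_cases h3 : p.1 ∈ A
      · rw [hz2 _ h1 h3]
        simp only [h1, h2, h3, if_true, if_false]
        rw [mul_one, abs_sub_comm]
        exact haux.2.1.trans (mul_le_mul_of_nonneg_left (le_abs_self _) (by positivity))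
      · rw [hz3 _ h1 h3]
        simp only [h1, h2, h3, if_true, if_false]
        exact haux.2.2.1.trans (mul_le_mul_of_nonneg_left (le_abs_self _) (by positivity))
  · have h2 : p.2 ∈ I := hpI.resolve_left h1
    have hy := hρ _ h2
    have haux := dist_aux hs0 hs hy.1 hy.2 hy.1 hy.2
    rw [hz1 _ h1]
    by_cases h3 : p.2 ∈ A
    · rw [hz2 _ h2 h3]
      simp only [h1, h3, if_true, if_false]
      rw [mul_one]
      exact haux.2.1.trans (mul_le_mul_of_nonneg_left (le_abs_self _) (by positivity))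
    · rw [hz3 _ h2 h3]
      simp only [h1, h3, if_false]
      rw [abs_sub_comm]
      exact haux.2.2.1.trans (mul_le_mul_of_nonneg_left (le_abs_self _) (by positivity))

/-- **Junction lemma, any number of marks** (single valued form of 2028 (2)(b)). -/
theorem junction_marks {t s : ℝ} (ht : 0 < t) (hts : t < s) (hs : s ≤ 1 / 16)
    {E : (ι → ℂ) → ℂ} (hE : MarkFn t E) (I : Finset ι) (ρ : ι → ℝ)
    (hρ : ∀ i ∈ I, s ≤ ρ i ∧ ρ i ≤ 8 * s)
    (hρ2 : ∀ i ∈ I, ∀ j ∈ I, i ≠ j → s ≤ |ρ i - ρ j|)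
    {w : ι → ℂ} (hw : ∀ j, ‖w j‖ = 1) (hinj : Function.Injective w) (M : Finset ι → ℝ)
    (hM : ∀ A, A ⊆ I → ∀ z : ι → ℂ, (∀ j, j ∉ I → z j = w j) → (∀ j ∈ A, ‖z j‖ = ρ j) →
      (∀ j ∈ I, j ∉ A → ‖z j‖ = (ρ j)⁻¹) → ‖E z‖ ≤ M A) :
    (‖E w‖ ^ (2 ^ I.card)) ^ 2 ≤
      ((128 ^ 2 * s) ^ (2 ^ I.card)) ^
        ((Finset.univ : Finset ι).offDiag.filter (fun p => p.1 ∈ I ∨ p.2 ∈ I)).card *
      (∏ A ∈ I.powerset, M A) ^ 2 := by
  have hs0 : 0 < s := ht.trans hts
  set P := (Finset.univ : Finset ι).offDiag.filter (fun p => p.1 ∈ I ∨ p.2 ∈ I) with hP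
  set R := ∏ p ∈ (Finset.univ : Finset ι).offDiag.filter (fun p => ¬ (p.1 ∈ I ∨ p.2 ∈ I)),
    ‖w p.1 - w p.2‖ with hR
  have hRpos : 0 < R := by
    refine Finset.prod_pos fun p hp => norm_pos_iff.2 (sub_ne_zero.2 ?_)
    rw [Finset.mem_filter, Finset.mem_offDiag] at hp
    exact fun h => hp.1.2.2 (hinj h)
  have hsplit : ∀ z : ι → ℂ, (∀ j, j ∉ I → z j = w j) →
      ∏ p ∈ (Finset.univ : Finset ι).offDiag, ‖z p.1 - z p.2‖ =
        (∏ p ∈ P, ‖z p.1 - z p.2‖) * R := by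
    intro z hz
    rw [← Finset.prod_filter_mul_prod_filter_not _ (fun p => p.1 ∈ I ∨ p.2 ∈ I)]
    congr 1
    refine Finset.prod_congr rfl fun p hp => ?_
    rw [Finset.mem_filter, not_or] at hp
    rw [hz _ hp.2.1, hz _ hp.2.2]
  set K : Finset ι → ℝ := fun A => M A * (∏ p ∈ P, phi I s p A) / R with hK
  have hGw : G E w = ‖E w‖ / ((∏ p ∈ P, ‖w p.1 - w p.2‖) * R) := by
    rw [G, hsplit w (fun _ _ => rfl)]
  have hmv := G_move ht hE ρ I w
    (fun i hi => ⟨hts.trans_le (hρ i hi).1, by linarith [(hρ i hi).2]⟩)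
    (fun i hi j hj hij h => by
      have := hρ2 i hi j hj hij
      rw [h, sub_self, abs_zero] at this
      linarith)
    (fun j => ⟨by rw [hw j]; linarith, by
      rw [hw j]; exact (one_lt_inv₀ ht).2 (by linarith)⟩)
    hinj (fun i _ => hw i)
    (fun i hi j _ => by
      have h0 : 0 < ρ i := hs0.trans_le (hρ i hi).1
      have h1 : ρ i < 1 := by linarith [(hρ i hi).2]
      rw [hw j]
      exact ⟨h1.ne', ((one_lt_inv₀ h0).2 h1).ne⟩)
    K (by
      intro A hA z hz1 hz2 hz3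
      rw [G, hsplit z hz1, hK]
      have hb : ∀ p ∈ P, 1 ≤ phi I s p A * ‖z p.1 - z p.2‖ := by
        intro p hp
        rw [hP, Finset.mem_filter, Finset.mem_offDiag] at hp
        exact phi_bound hs0 hs hρ hρ2 (fun j hj => by rw [hz1 j hj, hw j])
          (fun j _ hj => hz2 j hj) hz3 hp.1.2.2 hp.2
      have hprod : 1 ≤ (∏ p ∈ P, phi I s p A) * ∏ p ∈ P, ‖z p.1 - z p.2‖ := by
        rw [← Finset.prod_mul_distrib]
        have h0 := Finset.prod_le_prod (s := P) (f := fun _ => (1 : ℝ))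
          (fun _ _ => zero_le_one) hb
        simpa using h0
      have hzp : 0 < ∏ p ∈ P, ‖z p.1 - z p.2‖ := by
        refine Finset.prod_pos fun p hp => ?_
        by_contra hcon
        have h0 : ‖z p.1 - z p.2‖ = 0 := le_antisymm (not_lt.1 hcon) (norm_nonneg _)
        have := hb p hp
        rw [h0, mul_zero] at this
        linarith
      rw [← div_div]
      refine div_le_div_of_nonneg_right ?_ hRpos.le
      rw [div_le_iff₀ hzp]
      have hMA := hM A hA z hz1 hz2 hz3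
      have hMA0 : 0 ≤ M A := (norm_nonneg _).trans hMA
      calc ‖E z‖ ≤ M A := hMA
        _ ≤ M A * ((∏ p ∈ P, phi I s p A) * ∏ p ∈ P, ‖z p.1 - z p.2‖) :=
            le_mul_of_one_le_right hMA0 hprod
        _ = _ := by ring)
  have hprodK : ∏ A ∈ I.powerset, K A =
      (∏ A ∈ I.powerset, M A) * (∏ A ∈ I.powerset, ∏ p ∈ P, phi I s p A) / R ^ 2 ^ I.card := by
    rw [hK, Finset.prod_div_distrib, Finset.prod_mul_distrib, Finset.prod_const,
      Finset.card_powerset]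
  rw [hprodK, hGw, div_pow] at hmv
  set V := ∏ p ∈ P, ‖w p.1 - w p.2‖ with hV
  have hVpos : 0 < V := by
    refine Finset.prod_pos fun p hp => norm_pos_iff.2 (sub_ne_zero.2 ?_)
    rw [hP, Finset.mem_filter, Finset.mem_offDiag] at hp
    exact fun h => hp.1.2.2 (hinj h)
  have hVle : V ≤ 2 ^ P.card := by
    rw [hV]
    refine (Finset.prod_le_prod (g := fun _ => (2 : ℝ)) (fun _ _ => norm_nonneg _)
      fun p _ => ?_).trans_eq (by rw [Finset.prod_const])
    calc ‖w p.1 - w p.2‖ ≤ ‖w p.1‖ + ‖w p.2‖ := norm_sub_le _ _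
      _ = 2 := by rw [hw, hw]; norm_num
  have hMn : 0 ≤ ∏ A ∈ I.powerset, M A := by
    refine Finset.prod_nonneg fun A hA => ?_
    rw [Finset.mem_powerset] at hA
    refine (norm_nonneg _).trans (hM A hA
      (fun j => if j ∈ I then (if j ∈ A then (ρ j : ℂ) else ((ρ j)⁻¹ : ℂ)) else w j) ?_ ?_ ?_)
    · intro j hj
      simp [hj]
    · intro j hj
      have : 0 ≤ ρ j := hs0.le.trans (hρ j (hA hj)).1
      simp [hj, hA hj, abs_of_nonneg this]
    · intro j hj hj'
      have : 0 ≤ ρ j := hs0.le.trans (hρ j hj).1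
      simp [hj, hj', abs_of_nonneg this]
  have hΦ : (∏ A ∈ I.powerset, ∏ p ∈ P, phi I s p A) ^ 2 =
      ((64 ^ 2 * s) ^ (2 ^ I.card)) ^ P.card := by
    rw [Finset.prod_comm, ← Finset.prod_pow]
    refine Finset.prod_eq_pow_card fun p hp => ?_
    rw [hP, Finset.mem_filter, Finset.mem_offDiag] at hp
    exact phi_prod I hs0 p hp.1.2.2 hp.2
  have hΦ0 : 0 ≤ ∏ A ∈ I.powerset, ∏ p ∈ P, phi I s p A :=
    Finset.prod_nonneg fun A _ => Finset.prod_nonneg fun p _ => (phi_pos I hs0 p A).le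
  have hle1 : ‖E w‖ ^ 2 ^ I.card ≤
      (∏ A ∈ I.powerset, M A) * (∏ A ∈ I.powerset, ∏ p ∈ P, phi I s p A) * V ^ 2 ^ I.card := by
    rw [div_le_div_iff₀ (by positivity) (by positivity), mul_pow] at hmv
    have hR2 : 0 < R ^ 2 ^ I.card := by positivity
    refine le_of_mul_le_mul_right ?_ hR2
    calc ‖E w‖ ^ 2 ^ I.card * R ^ 2 ^ I.card ≤ _ := hmv
      _ = _ := by ring
  have hE0 : 0 ≤ ‖E w‖ ^ 2 ^ I.card := by positivity
  calc (‖E w‖ ^ (2 ^ I.card)) ^ 2
      ≤ ((∏ A ∈ I.powerset, M A) * (∏ A ∈ I.powerset, ∏ p ∈ P, phi I s p A) *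
          V ^ 2 ^ I.card) ^ 2 := pow_le_pow_left₀ hE0 hle1 2
    _ = (∏ A ∈ I.powerset, M A) ^ 2 * ((64 ^ 2 * s) ^ (2 ^ I.card)) ^ P.card *
          (V ^ 2 ^ I.card) ^ 2 := by rw [mul_pow, mul_pow, hΦ]
    _ ≤ (∏ A ∈ I.powerset, M A) ^ 2 * ((64 ^ 2 * s) ^ (2 ^ I.card)) ^ P.card *
          ((2 ^ P.card) ^ 2 ^ I.card) ^ 2 := by
        refine mul_le_mul_of_nonneg_left ?_ (by positivity)
        gcongr
    _ = _ := by
        have h1 : (((2 : ℝ) ^ P.card) ^ 2 ^ I.card) ^ 2 = ((2 ^ 2) ^ 2 ^ I.card) ^ P.card := by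
          rw [← pow_mul, ← pow_mul, ← pow_mul, ← pow_mul]
          congr 1
          ring
        rw [h1, mul_assoc, ← mul_pow, ← mul_pow]
        rw [show (64 ^ 2 * s * 2 ^ 2 : ℝ) = 128 ^ 2 * s by ring]
        ring

lemma pow_aux : ((0 : Fin 4) : ℕ) = 0 ∧ ((1 : Fin 4) : ℕ) = 1 ∧ ((2 : Fin 4) : ℕ) = 2 := by
  decide

/-- **Four marks, three of them moved** (`D⁶ = E`): the junction four arm bound.  If the
amplitude `D` is at most `m A` on the torus `A ⊆ {0,1,2}` (marks of `A` on the small circles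
`s, 2s, 4s`, the others on the mirror circles), then on the unit circle
`|D|⁸ ≤ (2¹⁴ s)⁸ ∏ m A`: exponent one, and more as soon as two of the `m A` are small. -/
theorem junction_three {t s : ℝ} (ht : 0 < t) (hts : t < s) (hs : s ≤ 1 / 16)
    {E : (Fin 4 → ℂ) → ℂ} (hE : MarkFn t E) {w : Fin 4 → ℂ} (hw : ∀ j, ‖w j‖ = 1)
    (hinj : Function.Injective w) {d : ℝ} (hdE : d ^ 6 = ‖E w‖)
    (m : Finset (Fin 4) → ℝ) (hm0 : ∀ A, 0 ≤ m A)
    (hm : ∀ A, A ⊆ {0, 1, 2} → ∀ z : Fin 4 → ℂ, z 3 = w 3 →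
      (∀ j ∈ A, ‖z j‖ = 2 ^ (j : ℕ) * s) →
      (∀ j ∈ ({0, 1, 2} : Finset (Fin 4)), j ∉ A → ‖z j‖ = (2 ^ (j : ℕ) * s)⁻¹) →
      ‖E z‖ ≤ m A ^ 6) :
    d ^ 8 ≤ (2 ^ 14 * s) ^ 8 * ∏ A ∈ ({0, 1, 2} : Finset (Fin 4)).powerset, m A := by
  have hs0 : 0 < s := ht.trans hts
  have h := junction_marks ht hts hs hE ({0, 1, 2} : Finset (Fin 4))
    (fun j => 2 ^ (j : ℕ) * s) (by
      intro i hi
      simp only [Finset.mem_insert, Finset.mem_singleton] at hi
      rcases hi with rfl | rfl | rfl <;>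
        simp only [pow_aux.1, pow_aux.2.1, pow_aux.2.2] <;> constructor <;> linarith)
    (by
      intro i hi j hj hij
      rw [le_abs]
      simp only [Finset.mem_insert, Finset.mem_singleton] at hi hj
      rcases hi with rfl | rfl | rfl <;> rcases hj with rfl | rfl | rfl <;>
        first
          | exact absurd rfl hij
          | (left; simp only [pow_aux.1, pow_aux.2.1, pow_aux.2.2]; linarith)
          | (right; simp only [pow_aux.1, pow_aux.2.1, pow_aux.2.2]; linarith))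
    hw hinj (fun A => m A ^ 6) (by
      intro A hA z hz1 hz2 hz3
      exact hm A hA z (hz1 3 (by decide)) hz2 hz3)
  have hcard : (({0, 1, 2} : Finset (Fin 4))).card = 3 := by decide
  have hcardP : ((Finset.univ : Finset (Fin 4)).offDiag.filter
      (fun p => p.1 ∈ ({0, 1, 2} : Finset (Fin 4)) ∨ p.2 ∈ ({0, 1, 2} : Finset (Fin 4)))).card
      = 12 := by decide
  rw [hcard, hcardP, Finset.prod_pow, ← hdE] at h
  have hprod : 0 ≤ ∏ A ∈ ({0, 1, 2} : Finset (Fin 4)).powerset, m A :=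
    Finset.prod_nonneg fun A _ => hm0 A
  set B := ∏ A ∈ ({0, 1, 2} : Finset (Fin 4)).powerset, m A
  have h1 : (d ^ 8) ^ 12 ≤ ((2 ^ 14 * s) ^ 8 * B) ^ 12 := by
    calc (d ^ 8) ^ 12 = ((d ^ 6) ^ 2 ^ 3) ^ 2 := by ring
      _ ≤ _ := h
      _ = _ := by ring
  exact (pow_le_pow_iff_left₀ (by positivity) (by positivity) (by norm_num)).1 h1
end H80.W
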