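import Mathlib
import Pool.Agent.H87.W.JLab

set_option autoImplicit false
set_option linter.unusedSectionVars false
open Finset

/-! # (J5) the floor: laws of 87's worlds `WT` and `WF`

`law_WT` : the world `WT` has the law of `symmDiff (cfg b h o ω) fp ∪ Wl cl`; `law_WF` : the world `WF` has the law
of the same configuration with 87's forced row. For any set `C` of deleted tiles and any flipped labels `fp`. -/

namespace Pool.Agent.H80.W

open Pool.Agent.H33.Q1 Pool.Agent.H6.W Pool.Agent.H50.W Pool.Agent.H61.W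
open Pool.Agent.H58.W hiding up
open Pool.Agent.H21.W Pool.Agent.H82.W Pool.Agent.H87.W

variable {b : JBox} {δ σ : ℝ} {h i : ℕ} {M : Finset (Bool × ℕ)} {v : ℤ × ℤ} {xl xr yt : ℤ}
  {C : Set (ℤ × ℤ)} {fp : Finset (ℤ × ℤ)} {cl cl2 : Cl} {o : Bool}

/-- membership in a state -/
lemma mem_st_iff {β : Type*} {A : WD β} {ω : Finset (ℤ × ℤ)} {e : ℤ × ℤ} :
    e ∈ A.st ω ↔ ((e ∈ ω ∧ e ∉ A.F) ∨ (e ∈ A.F ∧ e ∉ ω)) ∨ e ∈ A.W := by
  unfold WD.st
  rw [mem_union, mem_symmDiff]

/-- the configuration of the box, label by label -/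
lemma mem_cfg_fp {ω : Finset (ℤ × ℤ)} {e : ℤ × ℤ} : e ∈ symmDiff (cfg b h o ω) fp ↔
    (e ∈ PP b h fp o) ∨ (e ∉ b.Pl h ∧ ((e ∈ ω ∧ e ∉ fp) ∨ (e ∈ fp ∧ e ∉ ω))) := by
  unfold cfg PP
  rw [mem_symmDiff]
  by_cases h1 : e ∈ b.Pl h <;> by_cases h2 : e ∈ fp <;> by_cases h3 : e ∈ ω <;> cases o <;>
    simp [h1, h2, h3]

/-- **The law of the world of the moving end.** -/
theorem law_WT (Φ : Finset (ℤ × ℤ) → Prop) :
    b.PJ h (fun ω => Φ (symmDiff (cfg b h o ω) fp ∪ Wl b (2 * h) cl)) =
      PB (WT b h M cl v C fp o).E (WT b h M cl v C fp o).b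
        (fun ω => Φ ((WT b h M cl v C fp o).st ω)) := by
  classical
  have hE : (WT b h M cl v C fp o).E = b.B h \ b.Pl h := rfl
  have hb : (WT b h M cl v C fp o).b = bk (2 * h) (chn 0 b.M b.τ) := rfl
  rw [hE, hb, ← PB_restrict (sdiff_subset : b.B h \ b.Pl h ⊆ b.B h) (bk (2 * h) (chn 0 b.M b.τ))
    (fun ω => Φ ((WT b h M cl v C fp o).st ω))]
  unfold JBox.PJ
  refine PB_congr fun ω hω => ?_
  have e : symmDiff (cfg b h o ω) fp ∪ Wl b (2 * h) cl =
      (WT b h M cl v C fp o).st (ω ∩ (b.B h \ b.Pl h)) := by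
    ext e
    have hF : (WT b h M cl v C fp o).F = fp \ b.Pl h := rfl
    have hW : (WT b h M cl v C fp o).W = Wl b (2 * h) cl ∪ PP b h fp o := rfl
    rw [mem_st_iff, hF, hW, mem_union, mem_union, mem_cfg_fp, mem_inter, mem_sdiff, mem_sdiff]
    have h4 : e ∈ ω → e ∈ b.B h := fun g => hω g
    have h5 : e ∈ PP b h fp o → e ∈ b.Pl h := fun g => PP_sub g
    generalize (e ∈ b.B h) = p1 at h4 ⊢
    generalize (e ∈ b.Pl h) = p2 at h5 ⊢
    generalize (e ∈ PP b h fp o) = p3 at h5 ⊢
    generalize (e ∈ ω) = p4 at h4 ⊢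
    generalize (e ∈ fp) = p5
    generalize (e ∈ Wl b (2 * h) cl) = p6
    by_cases a1 : p2 <;> by_cases a2 : p4 <;> by_cases a3 : p5 <;> simp only [a1, a2, a3, h4, true_and,
      and_true, false_and, and_false, not_true_eq_false, not_false_eq_true, or_false, false_or, or_true,
      true_or] at h4 h5 ⊢ <;> tauto
  rw [e]

/-- **The law of the world with the mark and the forced row.** -/
theorem law_WF (G : FlG δ σ b h i M v xl xr yt C fp) (M' : Finset (Bool × ℕ)) (Φ : Finset (ℤ × ℤ) → Prop) :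
    b.PJ h (fun ω => Φ (force b h (false, i) cl2 (symmDiff (cfg b h o ω) fp) ∪ Wl b (2 * h) cl2)) =
      PB (WF b h i M' cl2 C fp o).E (WF b h i M' cl2 C fp o).b
        (fun ω => Φ ((WF b h i M' cl2 C fp o).st ω)) := by
  classical
  have hE : (WF b h i M' cl2 C fp o).E =
      (b.B h \ b.Pl h).filter fun e => ¬ fr b (2 * h) (false, i) (tt e).1 (tt e).2 := rfl
  have hb : (WF b h i M' cl2 C fp o).b = bk (2 * h) (chn 0 b.M b.τ) := rfl
  have hs : (WF b h i M' cl2 C fp o).E ⊆ b.B h := by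
    rw [hE]
    exact (filter_subset _ _).trans sdiff_subset
  rw [hb, ← PB_restrict hs (bk (2 * h) (chn 0 b.M b.τ))
    (fun ω => Φ ((WF b h i M' cl2 C fp o).st ω))]
  unfold JBox.PJ
  refine PB_congr fun ω hω => ?_
  have e : force b h (false, i) cl2 (symmDiff (cfg b h o ω) fp) ∪ Wl b (2 * h) cl2 =
      (WF b h i M' cl2 C fp o).st (ω ∩ (WF b h i M' cl2 C fp o).E) := by
    ext e
    have hF : (WF b h i M' cl2 C fp o).F = fp \ b.Pl h := rfl
    have hW : (WF b h i M' cl2 C fp o).W = Wl b (2 * h) cl2 ∪ (PP b h fp o ∪ FO b h i cl2) := rfl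
    rw [mem_st_iff, hF, hW, mem_union, mem_union, mem_union, mem_inter, hE, mem_filter, mem_sdiff,
      mem_sdiff]
    have h4 : e ∈ ω → e ∈ b.B h := fun g => hω g
    by_cases hB : e ∈ b.B h
    · obtain ⟨x, y, rfl, hQ⟩ := of_B G.hh hB
      have hWl : lt (x, y) ∉ Wl b (2 * h) cl2 := notMem_Wl hQ
      rw [mem_force G.hh, mem_cfg_fp, mem_FO G.hh, tt_lt]
      by_cases hf : fr b (2 * h) (false, i) x y
      · have hy := G.fr_row hf
        have h1 : lt (x, y) ∉ b.Pl h := G.not_Pl hy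
        have h2 : lt (x, y) ∉ fp := fun g => by
          have := G.fp_row g
          omega
        have h3 : lt (x, y) ∉ PP b h fp o := fun g => h1 (PP_sub g)
        simp only [hf, h1, h2, h3, hWl, true_and, not_true_eq_false, false_and, and_false, or_false,
          false_or, not_false_eq_true]
      · simp only [hf, hWl, hB, false_and, not_false_eq_true, true_and, false_or, or_false, and_true]
        generalize (lt (x, y) ∈ b.Pl h) = p2
        generalize (lt (x, y) ∈ PP b h fp o) = p3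
        generalize (lt (x, y) ∈ ω) = p4
        generalize (lt (x, y) ∈ fp) = p5
        by_cases a1 : p2 <;> by_cases a2 : p4 <;> by_cases a3 : p5 <;> simp [a1, a2, a3]
    · -- no label of the box
      have h0 : e ∉ ω := fun g => hB (h4 g)
      have h1 : e ∉ b.Pl h := fun g => hB (G.plB g)
      have h2 : e ∉ fp := fun g => hB (G.fpB g)
      have h3 : e ∉ PP b h fp o := fun g => h1 (PP_sub g)
      have h5 : e ∉ FO b h i cl2 := fun g => by
        unfold FO at g
        exact hB (mem_filter.1 g).1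
      have h6 : e ∉ force b h (false, i) cl2 (symmDiff (cfg b h o ω) fp) := by
        unfold force
        rw [mem_union, mem_filter, mem_filter, mem_cfg_fp]
        tauto
      simp only [h0, h1, h2, h3, h5, h6, false_and, and_false, or_false, false_or, not_false_eq_true,
        and_true]
  rw [e]

end Pool.Agent.H80.W
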