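import Pool.Agent.H69.Car.Inj
import Pool.Agent.H83.Lo.RMT

/-!
# Geometry of the slit box (route W, group W-C)

A Jordan domain `D`, symmetric about the real axis, with `ball 0 1 ⊆ D ⊆ ball 0 R`.
`Φ : closedBall 0 1 → closure D` is its Caratheodory map with `Φ 0 = 0`, commuting with
conjugation, increasing on `[-1, 1]`; `φ` is the inverse.  The slit is `D ∩ (-∞, 0]`.
-/

set_option autoImplicit false
open Set Metric Filter Topology Complex
open scoped ComplexConjugate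

namespace H80.W

open Pool.Agent.H69.Car (IsCar)
open Pool.Agent.H81.Q1 (IsJordanDomain)
open Pool.Agent.H83.Lo (mob mob_den_ne mob_identity norm_mob_lt hasDerivAt_mob)

/-! ### Reparametrisation of the disc -/

/-- homeomorphism of the closed disc, holomorphic inside -/
structure IsAut (T T' : ℂ → ℂ) : Prop where
  cont : ContinuousOn T (closedBall 0 1)
  diff : DifferentiableOn ℂ T (ball 0 1)
  ball' : MapsTo T (ball 0 1) (ball 0 1)
  sph : MapsTo T (sphere 0 1) (sphere 0 1)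
  ball'' : MapsTo T' (ball 0 1) (ball 0 1)
  sph' : MapsTo T' (sphere 0 1) (sphere 0 1)
  left : ∀ z ∈ closedBall (0:ℂ) 1, T' (T z) = z
  right : ∀ z ∈ closedBall (0:ℂ) 1, T (T' z) = z

lemma IsAut.closed {T T' : ℂ → ℂ} (h : IsAut T T') :
    MapsTo T (closedBall 0 1) (closedBall 0 1) := by
  intro z hz
  rcases (mem_closedBall.1 hz).lt_or_eq with h1 | h1
  · exact ball_subset_closedBall (h.ball' h1)
  · exact sphere_subset_closedBall (h.sph h1)

lemma IsCar.comp {D : Set ℂ} {Φ T T' : ℂ → ℂ} (h : IsCar D Φ) (hT : IsAut T T') :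
    IsCar D (Φ ∘ T) where
  cont := h.cont.comp hT.cont hT.closed
  diff := h.diff.comp hT.diff hT.ball'
  inj := h.inj.comp (fun z hz w hw hzw => by rw [← hT.left z hz, hzw, hT.left w hw]) hT.closed
  image_ball := by
    rw [image_comp, ← h.image_ball]
    congr 1
    refine Subset.antisymm hT.ball'.image_subset fun z hz => ?_
    exact ⟨T' z, hT.ball'' hz, hT.right z (ball_subset_closedBall hz)⟩
  image_sphere := by
    rw [image_comp, ← h.image_sphere]
    congr 1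
    refine Subset.antisymm hT.sph.image_subset fun z hz => ?_
    exact ⟨T' z, hT.sph' hz, hT.right z (sphere_subset_closedBall hz)⟩

lemma isAut_rot {u : ℂ} (hu : ‖u‖ = 1) : IsAut (fun z => u * z) (fun z => u⁻¹ * z) := by
  have hu0 : u ≠ 0 := by rw [← norm_pos_iff, hu]; exact one_pos
  refine ⟨by fun_prop, by fun_prop, ?_, ?_, ?_, ?_, ?_, ?_⟩
  · intro z hz
    rw [mem_ball_zero_iff] at hz ⊢
    rwa [norm_mul, hu, one_mul]
  · intro z hz
    rw [mem_sphere_zero_iff_norm] at hz ⊢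
    rw [norm_mul, hu, one_mul, hz]
  · intro z hz
    rw [mem_ball_zero_iff] at hz ⊢
    rwa [norm_mul, norm_inv, hu, inv_one, one_mul]
  · intro z hz
    rw [mem_sphere_zero_iff_norm] at hz ⊢
    rw [norm_mul, norm_inv, hu, inv_one, one_mul, hz]
  · intro z _
    rw [← mul_assoc, inv_mul_cancel₀ hu0, one_mul]
  · intro z _
    rw [← mul_assoc, mul_inv_cancel₀ hu0, one_mul]

lemma den_ne' {w z : ℂ} (hw : ‖w‖ < 1) (hz : ‖z‖ ≤ 1) : 1 - conj w * z ≠ 0 := by
  intro h
  have h1 : conj w * z = 1 := by linear_combination -h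
  have h2 : ‖conj w * z‖ = 1 := by rw [h1, norm_one]
  rw [norm_mul, RCLike.norm_conj] at h2
  have h3 : ‖w‖ * ‖z‖ ≤ ‖w‖ * 1 := by gcongr
  linarith

lemma mob_sph {w z : ℂ} (hw : ‖w‖ < 1) (hz : ‖z‖ = 1) : ‖mob w z‖ = 1 := by
  have h1 := mob_identity w z
  have h2 : 0 < ‖1 - conj w * z‖ := norm_pos_iff.2 (den_ne' hw hz.le)
  unfold mob
  rw [norm_div, div_eq_one_iff_eq h2.ne']
  rw [hz, one_pow, sub_self, zero_mul] at h1
  exact (pow_left_inj₀ (norm_nonneg _) h2.le two_ne_zero).1 (by linarith)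

lemma mob_inv {w z : ℂ} (hw : ‖w‖ < 1) (hz : ‖z‖ ≤ 1) : mob (-w) (mob w z) = z := by
  have h1 := den_ne' hw hz
  have hz2 : ‖mob w z‖ ≤ 1 := by
    rcases hz.lt_or_eq with h | h
    · exact (norm_mob_lt hw h).le
    · exact (mob_sph hw h).le
  have h2 := den_ne' (w := -w) (by rwa [norm_neg]) hz2
  have h3 : 1 - conj w * w ≠ 0 := den_ne' hw hw.le
  unfold mob at h2 ⊢
  rw [map_neg] at h2 ⊢
  rw [div_eq_iff h2]
  have e : (z - w) / (1 - conj w * z) * (1 - conj w * z) = z - w := div_mul_cancel₀ _ h1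
  generalize (z - w) / (1 - conj w * z) = q at e ⊢
  linear_combination e

lemma isAut_mob {a : ℂ} (ha : ‖a‖ < 1) : IsAut (mob a) (mob (-a)) := by
  have ha' : ‖-a‖ < 1 := by rwa [norm_neg]
  refine ⟨?_, ?_, ?_, ?_, ?_, ?_, ?_, ?_⟩
  · intro z hz
    have h := den_ne' ha (mem_closedBall_zero_iff.1 hz)
    unfold mob
    have h1 : ContinuousAt (fun z : ℂ => z - a) z := by fun_prop
    have h2 : ContinuousAt (fun z : ℂ => 1 - conj a * z) z :=
      (continuous_const.sub (continuous_const.mul continuous_id)).continuousAt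
    exact (h1.div h2 h).continuousWithinAt
  · intro z hz
    exact (hasDerivAt_mob ha (mem_ball_zero_iff.1 hz)).differentiableAt.differentiableWithinAt
  · exact fun z hz => mem_ball_zero_iff.2 (norm_mob_lt ha (mem_ball_zero_iff.1 hz))
  · exact fun z hz => mem_sphere_zero_iff_norm.2 (mob_sph ha (mem_sphere_zero_iff_norm.1 hz))
  · exact fun z hz => mem_ball_zero_iff.2 (norm_mob_lt ha' (mem_ball_zero_iff.1 hz))
  · exact fun z hz => mem_sphere_zero_iff_norm.2 (mob_sph ha' (mem_sphere_zero_iff_norm.1 hz))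
  · exact fun z hz => mob_inv ha (mem_closedBall_zero_iff.1 hz)
  · intro z hz
    have := mob_inv ha' (mem_closedBall_zero_iff.1 hz)
    rwa [neg_neg] at this

/-! ### The symmetric Caratheodory map -/

/-- the data of a symmetric domain with its map -/
structure SymDom (D : Set ℂ) (R : ℝ) (Φ φ : ℂ → ℂ) : Prop where
  car : IsCar D Φ
  zero : Φ 0 = 0
  conj' : ∀ w ∈ closedBall (0:ℂ) 1, Φ (conj w) = conj (Φ w)
  mono : StrictMonoOn (fun t : ℝ => (Φ t).re) (Icc (-1) 1)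
  real' : ∀ t ∈ Icc (-1 : ℝ) 1, (Φ t).im = 0
  maps : ∀ z ∈ closure D, φ z ∈ closedBall (0:ℂ) 1
  left : ∀ w ∈ closedBall (0:ℂ) 1, φ (Φ w) = w
  right : ∀ z ∈ closure D, Φ (φ z) = z
  diff : DifferentiableOn ℂ φ D
  cont : ContinuousOn φ (closure D)
  conj'' : ∀ z ∈ closure D, φ (conj z) = conj (φ z)
  upper : ∀ z, ‖z‖ < 1 → ‖φ z‖ ≤ ‖z‖
  lower : ∀ z ∈ closure D, ‖z‖ ≤ R * ‖φ z‖

/-- The Caratheodory map of a Jordan domain with normalisation at `0`. -/
lemma exists_car0 {D : Set ℂ} (hD : IsJordanDomain D) (h0 : (0:ℂ) ∈ D) :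
    ∃ Φ : ℂ → ℂ, IsCar D Φ ∧ Φ 0 = 0 ∧ ∃ c : ℝ, 0 < c ∧ deriv Φ 0 = c := by
  obtain ⟨Φ₀, hΦ₀⟩ := Pool.Agent.H69.Car.exists_car hD
  obtain ⟨a, ha, ha0⟩ : (0:ℂ) ∈ Φ₀ '' ball 0 1 := by rw [hΦ₀.image_ball]; exact h0
  rw [mem_ball_zero_iff] at ha
  have hna : ‖-a‖ < 1 := by rwa [norm_neg]
  have h1 := IsCar.comp hΦ₀ (isAut_mob hna)
  set Φ₁ := Φ₀ ∘ mob (-a) with hΦ₁
  have h10 : Φ₁ 0 = 0 := by
    rw [hΦ₁]
    simp [mob, ha0]
  have hb0 : (0:ℂ) ∈ ball (0:ℂ) 1 := mem_ball_self one_pos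
  have hd0 : deriv Φ₁ 0 ≠ 0 := Pool.Agent.H83.Lo.deriv_ne_zero isOpen_ball h1.diff
    (h1.inj.mono ball_subset_closedBall) hb0
  set u : ℂ := conj (deriv Φ₁ 0) / ‖deriv Φ₁ 0‖ with hu
  have hun : ‖u‖ = 1 := by
    rw [hu, norm_div, RCLike.norm_conj, Complex.norm_real, norm_norm,
      div_self (norm_ne_zero_iff.2 hd0)]
  have h2 := IsCar.comp h1 (isAut_rot hun)
  refine ⟨_, h2, by simp [h10], ‖deriv Φ₁ 0‖, norm_pos_iff.2 hd0, ?_⟩
  have hda : DifferentiableAt ℂ Φ₁ (u * 0) := by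
    rw [mul_zero]
    exact h1.diff.differentiableAt (isOpen_ball.mem_nhds hb0)
  have h3 : HasDerivAt (fun z : ℂ => u * z) u 0 := by
    simpa using (hasDerivAt_id (0:ℂ)).const_mul u
  have h4 := (hda.hasDerivAt.comp (0:ℂ) h3).deriv
  rw [h4, mul_zero, hu, mul_div_assoc', mul_comm, Complex.conj_mul']
  have : ((‖deriv Φ₁ 0‖ : ℝ) : ℂ) ≠ 0 := by exact_mod_cast norm_ne_zero_iff.2 hd0
  field_simp

lemma IsCar.image_closed {D : Set ℂ} {Φ : ℂ → ℂ} (h : IsCar D Φ) :
    Φ '' closedBall 0 1 = closure D := by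
  rw [← ball_union_sphere, image_union, h.image_ball, h.image_sphere,
    closure_eq_self_union_frontier]

/-- **The symmetric map.** -/
theorem exists_sym {D : Set ℂ} (hD : IsJordanDomain D) (h0 : (0:ℂ) ∈ D)
    (hsym : ∀ z ∈ D, conj z ∈ D) {R : ℝ} (hR : D ⊆ ball 0 R) (hb : ball 0 1 ⊆ D) :
    ∃ Φ φ : ℂ → ℂ, SymDom D R Φ φ := by
  obtain ⟨Φ, hΦ, hΦ0, c, hc, hdc⟩ := exists_car0 hD h0
  have hDo : IsOpen D := hD.1
  have hb0 : (0:ℂ) ∈ ball (0:ℂ) 1 := mem_ball_self one_pos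
  have hcb : (0:ℂ) ∈ closedBall (0:ℂ) 1 := ball_subset_closedBall hb0
  have himc := IsCar.image_closed hΦ
  set φ := Function.invFunOn Φ (closedBall 0 1) with hφ
  have hleft : ∀ w ∈ closedBall (0:ℂ) 1, φ (Φ w) = w :=
    fun w hw => hΦ.inj.leftInvOn_invFunOn hw
  have hmaps : ∀ z ∈ closure D, φ z ∈ closedBall (0:ℂ) 1 := by
    intro z hz
    rw [← himc] at hz
    obtain ⟨w, hw, rfl⟩ := hz
    rw [hleft w hw]
    exact hw
  have hright : ∀ z ∈ closure D, Φ (φ z) = z := by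
    intro z hz
    rw [← himc] at hz
    obtain ⟨w, hw, rfl⟩ := hz
    rw [hleft w hw]
  have hmb : ∀ z ∈ D, φ z ∈ ball (0:ℂ) 1 := by
    intro z hz
    rw [← hΦ.image_ball] at hz
    obtain ⟨w, hw, rfl⟩ := hz
    rw [hleft w (ball_subset_closedBall hw)]
    exact hw
  have hΦm : MapsTo Φ (ball 0 1) D := by
    intro w hw
    rw [← hΦ.image_ball]
    exact mem_image_of_mem _ hw
  have hdiff : DifferentiableOn ℂ φ D := by
    rw [← hΦ.image_ball]
    exact Pool.Agent.H83.Lo.differentiableOn_inv isOpen_ball hΦ.diff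
      (hΦ.inj.mono ball_subset_closedBall) (fun z hz => hleft z (ball_subset_closedBall hz))
  have hcont : ContinuousOn φ (closure D) := by
    rw [continuousOn_iff_isClosed]
    intro t ht
    refine ⟨Φ '' (t ∩ closedBall 0 1), ?_, ?_⟩
    · refine IsCompact.isClosed ?_
      exact ((isCompact_closedBall (0:ℂ) 1).inter_left ht).image_of_continuousOn
        (hΦ.cont.mono inter_subset_right)
    · ext z
      constructor
      · rintro ⟨h1, h2⟩
        exact ⟨⟨φ z, ⟨h1, hmaps z h2⟩, hright z h2⟩, h2⟩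
      · rintro ⟨⟨w, ⟨h1, h2⟩, rfl⟩, h3⟩
        refine ⟨?_, h3⟩
        change φ (Φ w) ∈ t
        rw [hleft w h2]
        exact h1
  have hφ0 : φ 0 = 0 := by
    have := hleft 0 hcb
    rwa [hΦ0] at this
  -- the derivative at zero
  have hdφ : deriv φ 0 = ((c⁻¹ : ℝ) : ℂ) := by
    have h1 : HasDerivAt (φ ∘ Φ) (deriv φ (Φ 0) * deriv Φ 0) 0 := by
      have h2 : DifferentiableAt ℂ φ (Φ 0) := by
        rw [hΦ0]; exact hdiff.differentiableAt (hDo.mem_nhds h0)
      exact h2.hasDerivAt.comp 0 (hΦ.diff.differentiableAt (isOpen_ball.mem_nhds hb0)).hasDerivAt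
    have h3 : HasDerivAt (φ ∘ Φ) 1 0 := by
      apply (hasDerivAt_id (0:ℂ)).congr_of_eventuallyEq
      filter_upwards [isOpen_ball.mem_nhds hb0] with w hw
      exact hleft w (ball_subset_closedBall hw)
    have h4 := h1.unique h3
    rw [hΦ0, hdc] at h4
    rw [Complex.ofReal_inv]
    exact eq_inv_of_mul_eq_one_left h4
  -- symmetry inside
  have hsymD : ∀ z ∈ D, φ (conj z) = conj (φ z) := by
    have hbij : BijOn φ D (ball 0 1) := by
      refine ⟨hmb, ?_, ?_⟩
      · intro z hz z' hz' h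
        rw [← hright z (subset_closure hz), h, hright z' (subset_closure hz')]
      · intro w hw
        exact ⟨Φ w, hΦm hw, hleft w (ball_subset_closedBall hw)⟩
    have hbij2 : BijOn (fun z => conj (φ (conj z))) D (ball 0 1) := by
      refine ⟨?_, ?_, ?_⟩
      · intro z hz
        rw [mem_ball_zero_iff]
        change ‖conj (φ (conj z))‖ < 1
        rw [RCLike.norm_conj]
        exact mem_ball_zero_iff.1 (hmb _ (hsym z hz))
      · intro z hz z' hz' h
        have h1 : φ (conj z) = φ (conj z') := (starRingEnd ℂ).injective h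
        exact (starRingEnd ℂ).injective (hbij.injOn (hsym z hz) (hsym z' hz') h1)
      · intro w hw
        have hw' : conj w ∈ ball (0:ℂ) 1 := by
          rw [mem_ball_zero_iff, RCLike.norm_conj]
          exact mem_ball_zero_iff.1 hw
        refine ⟨conj (Φ (conj w)), hsym _ (hΦm hw'), ?_⟩
        change conj (φ (conj (conj (Φ (conj w))))) = w
        rw [Complex.conj_conj, hleft _ (ball_subset_closedBall hw'), Complex.conj_conj]
    have hd2 : DifferentiableOn ℂ (fun z => conj (φ (conj z))) D := by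
      intro z hz
      have h1 : DifferentiableAt ℂ φ (conj z) := hdiff.differentiableAt (hDo.mem_nhds (hsym z hz))
      have h2 := h1.conj_conj
      rw [Complex.conj_conj] at h2
      exact h2.differentiableWithinAt
    have hder2 : deriv (fun z => conj (φ (conj z))) 0 = ((c⁻¹ : ℝ) : ℂ) := by
      have h1 : deriv (conj ∘ φ ∘ conj) 0 = conj (deriv φ (conj 0)) := by
        rw [deriv_conj_conj]; rfl
      have h2 : (fun z => conj (φ (conj z))) = conj ∘ φ ∘ conj := rfl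
      rw [h2, h1, map_zero, hdφ, Complex.conj_ofReal]
    have hEq := Pool.Agent.H83.Lo.riemann_unique hDo h0 hdiff hd2 hbij hbij2 hφ0
      (by simp [hφ0]) (inv_pos.2 hc) (inv_pos.2 hc) hdφ hder2
    intro z hz
    have h1 := hEq (hsym z hz)
    simp only [Complex.conj_conj] at h1
    exact h1
  have hΦsymb : ∀ w ∈ ball (0:ℂ) 1, Φ (conj w) = conj (Φ w) := by
    intro w hw
    have hw' : conj w ∈ ball (0:ℂ) 1 := by
      rw [mem_ball_zero_iff, RCLike.norm_conj]
      exact mem_ball_zero_iff.1 hw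
    have h1 := hsymD (Φ w) (hΦm hw)
    rw [hleft w (ball_subset_closedBall hw)] at h1
    rw [← h1, hright _ (subset_closure (hsym _ (hΦm hw)))]
  have hconjc : MapsTo (conj : ℂ → ℂ) (closedBall (0:ℂ) 1) (closedBall 0 1) := by
    intro w hw
    rw [mem_closedBall_zero_iff] at hw ⊢
    rwa [RCLike.norm_conj]
  have hΦsym : ∀ w ∈ closedBall (0:ℂ) 1, Φ (conj w) = conj (Φ w) := by
    have h1 : EqOn (fun w => Φ (conj w)) (fun w => conj (Φ w)) (ball 0 1) := hΦsymb
    refine h1.of_subset_closure ?_ ?_ ball_subset_closedBall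
      (closure_ball (0:ℂ) one_ne_zero).symm.subset
    · exact hΦ.cont.comp Complex.continuous_conj.continuousOn hconjc
    · exact Complex.continuous_conj.comp_continuousOn hΦ.cont
  have hreal : ∀ t ∈ Icc (-1 : ℝ) 1, (Φ t).im = 0 := by
    intro t ht
    have ht' : (t : ℂ) ∈ closedBall (0:ℂ) 1 := by
      rw [mem_closedBall_zero_iff, Complex.norm_real, Real.norm_eq_abs]
      exact abs_le.2 ht
    have h1 := hΦsym t ht'
    rw [Complex.conj_ofReal] at h1
    exact Complex.conj_eq_iff_im.1 h1.symm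
  have hmono : StrictMonoOn (fun t : ℝ => (Φ t).re) (Icc (-1) 1) := by
    have ht' : ∀ t ∈ Icc (-1 : ℝ) 1, (t : ℂ) ∈ closedBall (0:ℂ) 1 := by
      intro t ht
      rw [mem_closedBall_zero_iff, Complex.norm_real, Real.norm_eq_abs]
      exact abs_le.2 ht
    have hc1 : ContinuousOn (fun t : ℝ => (Φ t).re) (Icc (-1) 1) :=
      Complex.continuous_re.comp_continuousOn
        (hΦ.cont.comp Complex.continuous_ofReal.continuousOn ht')
    have hi1 : InjOn (fun t : ℝ => (Φ t).re) (Icc (-1) 1) := by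
      intro t ht t' ht'' h
      have h1 : Φ t = Φ t' := Complex.ext h (by rw [hreal t ht, hreal t' ht''])
      exact Complex.ofReal_injective (hΦ.inj (ht' t ht) (ht' t' ht'') h1)
    rcases hc1.strictMonoOn_of_injOn_Icc' (by norm_num) hi1 with h | h
    · exact h
    · exfalso
      have h1 : HasDerivAt Φ (c : ℂ) ((0:ℝ) : ℂ) := by
        rw [← hdc, Complex.ofReal_zero]
        exact (hΦ.diff.differentiableAt (isOpen_ball.mem_nhds hb0)).hasDerivAt
      have h2 : HasDerivAt (fun t : ℝ => (Φ t).re) c 0 := h1.real_of_complex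
      rw [hasDerivAt_iff_tendsto_slope] at h2
      have h3 : ∀ᶠ t in 𝓝[≠] (0:ℝ), slope (fun t : ℝ => (Φ t).re) 0 t ≤ 0 := by
        have h4 : ∀ᶠ t in 𝓝 (0:ℝ), t ∈ Icc (-1:ℝ) 1 := Icc_mem_nhds (by norm_num) (by norm_num)
        filter_upwards [nhdsWithin_le_nhds h4, self_mem_nhdsWithin] with t ht ht0
        rw [slope_def_field]
        rcases lt_or_gt_of_ne ht0 with h5 | h5
        · have h6 := h ht (by norm_num : (0:ℝ) ∈ Icc (-1:ℝ) 1) h5
          simp only at h6
          exact div_nonpos_of_nonneg_of_nonpos (by linarith) (by linarith)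
        · have h6 := h (by norm_num : (0:ℝ) ∈ Icc (-1:ℝ) 1) ht h5
          simp only at h6
          exact div_nonpos_of_nonpos_of_nonneg (by linarith) (by linarith)
      have := le_of_tendsto h2 h3
      linarith
  have hRpos : 0 ≤ R := by
    have := hR h0
    rw [mem_ball_zero_iff, norm_zero] at this
    exact this.le
  have hlow : ∀ w ∈ closedBall (0:ℂ) 1, ‖Φ w‖ ≤ R * ‖w‖ := by
    intro w hw
    rcases (mem_closedBall_zero_iff.1 hw).lt_or_eq with h1 | h1
    · have hm : MapsTo Φ (ball 0 1) (closedBall (Φ 0) R) := by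
        intro v hv
        rw [hΦ0]
        exact ball_subset_closedBall (hR (hΦm hv))
      have h2 := Complex.dist_le_div_mul_dist_of_mapsTo_ball hΦ.diff hm (mem_ball_zero_iff.2 h1)
      rwa [hΦ0, dist_zero_right, dist_zero_right, div_one] at h2
    · rw [h1, mul_one]
      have h2 : Φ w ∈ closure D := by
        rw [← himc]; exact mem_image_of_mem _ hw
      have h3 : closure D ⊆ closedBall 0 R :=
        closure_minimal (hR.trans ball_subset_closedBall) isClosed_closedBall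
      exact mem_closedBall_zero_iff.1 (h3 h2)
  refine ⟨Φ, φ, hΦ, hΦ0, hΦsym, hmono, hreal, hmaps, hleft, hright, hdiff, hcont, ?_, ?_, ?_⟩
  · intro z hz
    have h1 := hΦsym _ (hmaps z hz)
    rw [hright z hz] at h1
    rw [← h1, hleft _ (hconjc (hmaps z hz))]
  · intro z hz
    refine Complex.norm_le_norm_of_mapsTo_ball (hdiff.mono hb) ?_ hφ0 hz
    intro v hv
    exact ball_subset_closedBall (hmb v (hb hv))
  · intro z hz
    have := hlow _ (hmaps z hz)
    rwa [hright z hz] at this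

/-! ### Convex domains are Jordan domains -/

theorem isJordan_convex {D : Set ℂ} (ho : IsOpen D) (hc : Convex ℝ D)
    (hb : Bornology.IsBounded D) (h0 : (0:ℂ) ∈ D) : IsJordanDomain D := by
  have hn : D ∈ 𝓝 (0:ℂ) := ho.mem_nhds h0
  have habs : Absorbent ℝ D := absorbent_nhds_zero hn
  have hvb : Bornology.IsVonNBounded ℝ D := NormedSpace.isVonNBounded_of_isBounded ℝ hb
  have hpos : ∀ x : ℂ, x ≠ 0 → 0 < gauge D x := fun x hx => (gauge_pos habs hvb).2 hx
  have hcg : Continuous (gauge D) := continuous_gauge hc hn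
  have hne : ∀ ζ : Circle, (ζ : ℂ) ≠ 0 := fun ζ => ζ.coe_ne_zero
  have hg1 : ∀ x : ℂ, x ≠ 0 → gauge D ((gauge D x)⁻¹ • x) = 1 := by
    intro x hx
    rw [gauge_smul_of_nonneg (inv_nonneg.2 (hpos x hx).le), smul_eq_mul,
      inv_mul_cancel₀ (hpos x hx).ne']
  refine ⟨ho, ⟨⟨0, h0⟩, hc.isPreconnected⟩, hb, fun ζ => (gauge D ζ)⁻¹ • (ζ : ℂ), ?_, ?_, ?_⟩
  · have hco : Continuous (fun ζ : Circle => (ζ : ℂ)) := by fun_prop
    have hg : Continuous (fun ζ : Circle => (gauge D ζ)⁻¹) :=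
      (hcg.comp hco).inv₀ fun ζ => (hpos _ (hne ζ)).ne'
    exact hg.smul hco
  · intro ζ ζ' h
    simp only at h
    have h1 : ‖(gauge D ζ)⁻¹ • (ζ : ℂ)‖ = ‖(gauge D ζ')⁻¹ • (ζ' : ℂ)‖ := by rw [h]
    have hp := inv_pos.2 (hpos _ (hne ζ))
    have hp' := inv_pos.2 (hpos _ (hne ζ'))
    rw [norm_smul, norm_smul, Circle.norm_coe, Circle.norm_coe, mul_one, mul_one,
      Real.norm_of_nonneg hp.le, Real.norm_of_nonneg hp'.le] at h1
    rw [h1] at h
    exact Circle.ext (smul_right_injective ℂ hp'.ne' h)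
  · ext x
    rw [← gauge_eq_one_iff_mem_frontier hc hn]
    constructor
    · intro hx
      have hx0 : x ≠ 0 := by
        rintro rfl
        rw [gauge_zero] at hx
        exact zero_ne_one hx
      have hxn : 0 < ‖x‖ := norm_pos_iff.2 hx0
      refine ⟨⟨(‖x‖⁻¹ : ℝ) • x, ?_⟩, ?_⟩
      · exact mem_sphere_zero_iff_norm.2 (by
          rw [norm_smul, norm_inv, norm_norm, inv_mul_cancel₀ hxn.ne'])
      · change (gauge D ((‖x‖⁻¹ : ℝ) • x))⁻¹ • ((‖x‖⁻¹ : ℝ) • x) = x
        rw [gauge_smul_of_nonneg (inv_nonneg.2 hxn.le), hx, smul_eq_mul, mul_one, inv_inv,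
          smul_smul, mul_inv_cancel₀ hxn.ne', one_smul]
    · rintro ⟨ζ, rfl⟩
      exact hg1 _ (hne ζ)

/-! ### The slit domain and the half disc -/

/-- open half disc -/
def HD : Set ℂ := {v | ‖v‖ < 1 ∧ 0 < v.re}

/-- closed half disc -/
def HDc : Set ℂ := {v | ‖v‖ ≤ 1 ∧ 0 ≤ v.re}

lemma HD_sub : HD ⊆ HDc := fun _ hv => ⟨hv.1.le, hv.2.le⟩

lemma isOpen_HD : IsOpen HD :=
  (isOpen_lt continuous_norm continuous_const).inter (isOpen_lt continuous_const continuous_re)

lemma isClosed_HDc : IsClosed HDc :=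
  (isClosed_le continuous_norm continuous_const).inter
    (isClosed_le continuous_const continuous_re)

/-- the slit domain: the slit is the part of `D` on the nonpositive real axis -/
def Slit (D : Set ℂ) : Set ℂ := D \ {z | z.im = 0 ∧ z.re ≤ 0}

/-- the chart of the slit domain, with values on the closed half disc -/
noncomputable def Psi (Φ : ℂ → ℂ) (v : ℂ) : ℂ := Φ (v ^ 2)

/-- its inverse -/
noncomputable def rt (φ : ℂ → ℂ) (z : ℂ) : ℂ := (φ z) ^ (1 / 2 : ℂ)

namespace SymDom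

variable {D : Set ℂ} {R : ℝ} {Φ φ : ℂ → ℂ} (h : SymDom D R Φ φ)
include h

lemma phi_zero : φ 0 = 0 := by
  have := h.left 0 (mem_closedBall_self zero_le_one)
  rwa [h.zero] at this

lemma maps_ball {z : ℂ} (hz : z ∈ D) : φ z ∈ ball (0:ℂ) 1 := by
  rw [← h.car.image_ball] at hz
  obtain ⟨w, hw, rfl⟩ := hz
  rw [h.left w (ball_subset_closedBall hw)]
  exact hw

lemma Phi_ball {w : ℂ} (hw : w ∈ ball (0:ℂ) 1) : Φ w ∈ D := by
  rw [← h.car.image_ball]
  exact mem_image_of_mem _ hw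

lemma maps_sphere {z : ℂ} (hz : z ∈ frontier D) : φ z ∈ sphere (0:ℂ) 1 := by
  rw [← h.car.image_sphere] at hz
  obtain ⟨w, hw, rfl⟩ := hz
  rw [h.left w (sphere_subset_closedBall hw)]
  exact hw

lemma Phi_sphere {w : ℂ} (hw : w ∈ sphere (0:ℂ) 1) : Φ w ∈ frontier D := by
  rw [← h.car.image_sphere]
  exact mem_image_of_mem _ hw

lemma Phi_closed {w : ℂ} (hw : w ∈ closedBall (0:ℂ) 1) : Φ w ∈ closure D := by
  rw [← IsCar.image_closed h.car]
  exact mem_image_of_mem _ hw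

/-- real points of `D` are images of real points -/
lemma real_phi {z : ℂ} (hz : z ∈ closure D) (hi : z.im = 0) : (φ z).im = 0 := by
  have h1 := h.conj'' z hz
  rw [Complex.conj_eq_iff_im.2 hi] at h1
  exact Complex.conj_eq_iff_im.1 h1.symm

lemma re_le_iff {z : ℂ} (hz : z ∈ closure D) (hi : z.im = 0) : (φ z).re ≤ 0 ↔ z.re ≤ 0 := by
  have him := h.real_phi hz hi
  have hz1 : φ z = ((φ z).re : ℂ) := Complex.ext rfl (by simpa using him)
  have hmem : (φ z).re ∈ Icc (-1:ℝ) 1 := by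
    have h1 := mem_closedBall_zero_iff.1 (h.maps z hz)
    exact abs_le.1 ((Complex.abs_re_le_norm _).trans h1)
  have h0 : (0:ℝ) ∈ Icc (-1:ℝ) 1 := by norm_num
  have hv : (Φ ((φ z).re : ℂ)).re = z.re := by rw [← hz1, h.right z hz]
  have hv0 : (Φ ((0:ℝ) : ℂ)).re = 0 := by rw [Complex.ofReal_zero, h.zero, Complex.zero_re]
  have := h.mono.le_iff_le hmem h0
  simp only [hv, hv0] at this
  exact this.symm

lemma mem_slit_iff {z : ℂ} (hz : z ∈ D) : z ∈ Slit D ↔ φ z ∈ slitPlane := by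
  have hzc := subset_closure hz
  constructor
  · intro hs
    rw [Complex.mem_slitPlane_iff]
    by_contra hcon
    rw [not_or, not_lt, not_not] at hcon
    apply hs.2
    have him : (z : ℂ).im = 0 := by
      have h1 := h.conj'' z hzc
      rw [Complex.conj_eq_iff_im.2 hcon.2] at h1
      have hzc' : conj z ∈ closure D := by
        have h2 := h.conj' _ (h.maps z hzc)
        rw [h.right z hzc] at h2
        rw [← h2]
        refine h.Phi_closed ?_
        rw [mem_closedBall_zero_iff, RCLike.norm_conj]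
        exact mem_closedBall_zero_iff.1 (h.maps z hzc)
      have h2 : conj z = z := by
        have e1 := h.right _ hzc'
        rw [h1, h.right z hzc] at e1
        exact e1.symm
      exact Complex.conj_eq_iff_im.1 h2
    exact ⟨him, (h.re_le_iff hzc him).1 hcon.1⟩
  · intro hs
    refine ⟨hz, fun hcon => ?_⟩
    rw [Complex.mem_slitPlane_iff] at hs
    rcases hs with h1 | h1
    · exact absurd ((h.re_le_iff hzc hcon.1).2 hcon.2) (not_le.2 h1)
    · exact h1 (h.real_phi hzc hcon.1)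

lemma sq_sq (z : ℂ) : (rt φ z) ^ 2 = φ z := by
  have := h
  unfold rt
  rw [← Complex.cpow_nat_mul]
  norm_num

lemma sq_norm {z : ℂ} : ‖rt φ z‖ ^ 2 = ‖φ z‖ := by
  rw [← norm_pow, h.sq_sq]

lemma sq_mem {z : ℂ} (hz : z ∈ Slit D) : rt φ z ∈ HD := by
  have h1 := (h.mem_slit_iff hz.1).1 hz
  have h2 := mem_ball_zero_iff.1 (h.maps_ball hz.1)
  refine ⟨?_, ?_⟩
  · have h3 := h.sq_norm (z := z)
    by_contra hcon
    push Not at hcon
    nlinarith
  · have h0 : φ z ≠ 0 := slitPlane_ne_zero h1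
    unfold rt
    rw [Complex.cpow_def_of_ne_zero h0, Complex.exp_re]
    refine mul_pos (Real.exp_pos _) (Real.cos_pos_of_mem_Ioo ?_)
    have h4 : (Complex.log (φ z) * (1 / 2)).im = (φ z).arg / 2 := by
      rw [Complex.mul_im, Complex.log_im]
      norm_num
      ring
    rw [h4]
    have h6 := Complex.neg_pi_lt_arg (φ z)
    have h7 : (φ z).arg < Real.pi :=
      lt_of_le_of_ne (Complex.arg_le_pi _) (Complex.slitPlane_arg_ne_pi h1)
    constructor <;> linarith

lemma psi_sq {z : ℂ} (hz : z ∈ closure D) : Psi Φ (rt φ z) = z := by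
  unfold Psi
  rw [h.sq_sq, h.right z hz]

lemma sq_mem_closed {v : ℂ} (hv : v ∈ HDc) : v ^ 2 ∈ closedBall (0:ℂ) 1 := by
  have := h
  rw [mem_closedBall_zero_iff, norm_pow]
  exact pow_le_one₀ (norm_nonneg _) hv.1

lemma sq_mem_ball {v : ℂ} (hv : ‖v‖ < 1) : v ^ 2 ∈ ball (0:ℂ) 1 := by
  have := h
  rw [mem_ball_zero_iff, norm_pow]
  exact pow_lt_one₀ (norm_nonneg _) hv two_ne_zero

lemma psi_mem {v : ℂ} (hv : v ∈ HD) : Psi Φ v ∈ Slit D := by
  have h1 : v ^ 2 ∈ ball (0:ℂ) 1 := h.sq_mem_ball hv.1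
  have h2 : Psi Φ v ∈ D := h.Phi_ball h1
  rw [h.mem_slit_iff h2]
  unfold Psi
  rw [h.left _ (ball_subset_closedBall h1), Complex.mem_slitPlane_iff]
  by_contra hcon
  rw [not_or, not_lt, not_not] at hcon
  have h3 : (v ^ 2).re = v.re ^ 2 - v.im ^ 2 := by rw [sq, Complex.mul_re]; ring
  have h4 : (v ^ 2).im = 2 * v.re * v.im := by rw [sq, Complex.mul_im]; ring
  rw [h3, h4] at hcon
  have h5 : v.im = 0 := by
    rcases mul_eq_zero.1 hcon.2 with h6 | h6
    · have := hv.2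
      linarith
    · exact h6
  have h6 := hcon.1
  rw [h5] at h6
  have := hv.2
  nlinarith

lemma psi_cont : ContinuousOn (Psi Φ) HDc := by
  refine h.car.cont.comp (by fun_prop) fun v hv => h.sq_mem_closed hv

lemma psi_diff : DifferentiableOn ℂ (Psi Φ) HD := by
  refine h.car.diff.comp (by fun_prop) fun v hv => h.sq_mem_ball hv.1

lemma sq_psi {v : ℂ} (hv : v ∈ HD) : rt φ (Psi Φ v) = v := by
  have h1 := h.sq_mem (h.psi_mem hv)
  have h2 := h.sq_sq (Psi Φ v)
  have h3 : φ (Psi Φ v) = v ^ 2 := h.left _ (ball_subset_closedBall (h.sq_mem_ball hv.1))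
  rw [h3, sq_eq_sq_iff_eq_or_eq_neg] at h2
  rcases h2 with h2 | h2
  · exact h2
  · exfalso
    have h4 := h1.2
    rw [h2, Complex.neg_re] at h4
    have := hv.2
    linarith

lemma sq_diff : DifferentiableOn ℂ (rt φ) (Slit D) := by
  intro z hz
  have h1 : DifferentiableWithinAt ℂ φ (Slit D) z := (h.diff z hz.1).mono sdiff_subset
  exact h1.cpow_const ((h.mem_slit_iff hz.1).1 hz)

/-- the half circle is mapped to the boundary of `D` -/
lemma psi_circle {v : ℂ} (hv : ‖v‖ = 1) : Psi Φ v ∈ frontier D := by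
  refine h.Phi_sphere ?_
  rw [mem_sphere_zero_iff_norm, norm_pow, hv, one_pow]

lemma psi_bank (t : ℝ) : Psi Φ (t * I) = Φ ((-(t ^ 2) : ℝ) : ℂ) := by
  have := h
  unfold Psi
  congr 1
  rw [mul_pow, I_sq]
  push_cast
  ring

lemma psi_bank' (t : ℝ) : Psi Φ (-(t * I)) = Φ ((-(t ^ 2) : ℝ) : ℂ) := by
  rw [← h.psi_bank]
  unfold Psi
  rw [neg_sq]

end SymDom

/-- distance of the bank point `± i t` to the tip of the slit -/
noncomputable def ell (Φ : ℂ → ℂ) (t : ℝ) : ℝ := -(Φ ((-(t ^ 2) : ℝ) : ℂ)).re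

namespace SymDom

variable {D : Set ℂ} {R : ℝ} {Φ φ : ℂ → ℂ} (h : SymDom D R Φ φ)
include h

lemma neg_sq_mem {t : ℝ} (ht : |t| ≤ 1) : -(t ^ 2) ∈ Icc (-1 : ℝ) 1 := by
  have := h
  have h1 : t ^ 2 ≤ 1 := by
    rw [← sq_abs]
    exact pow_le_one₀ (abs_nonneg _) ht
  constructor
  · linarith
  · nlinarith [sq_nonneg t]

lemma psi_bank_eq {t : ℝ} (ht : |t| ≤ 1) : Psi Φ (t * I) = ((-ell Φ t : ℝ) : ℂ) := by
  rw [h.psi_bank]
  refine Complex.ext ?_ ?_
  · rw [Complex.ofReal_re, ell, neg_neg]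
  · rw [Complex.ofReal_im]
    exact h.real' _ (h.neg_sq_mem ht)

lemma psi_bank_eq' {t : ℝ} (ht : |t| ≤ 1) : Psi Φ (-(t * I)) = ((-ell Φ t : ℝ) : ℂ) := by
  rw [h.psi_bank', ← h.psi_bank, h.psi_bank_eq ht]

lemma ell_zero : ell Φ 0 = 0 := by
  unfold ell
  simp [h.zero]

lemma ell_mono : StrictMonoOn (ell Φ) (Icc 0 1) := by
  intro t ht t' ht' htt
  have h1 : -(t' ^ 2) < -(t ^ 2) := by nlinarith [ht.1, ht'.1]
  have h2 := h.mono (h.neg_sq_mem (abs_le.2 ⟨by linarith [ht'.1], ht'.2⟩))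
    (h.neg_sq_mem (abs_le.2 ⟨by linarith [ht.1], ht.2⟩)) h1
  unfold ell
  simp only at h2
  linarith

lemma ell_cont : ContinuousOn (ell Φ) (Icc 0 1) := by
  unfold ell
  refine (Complex.continuous_re.comp_continuousOn (h.car.cont.comp (by fun_prop) ?_)).neg
  intro t ht
  rw [mem_closedBall_zero_iff, Complex.norm_real, Real.norm_eq_abs]
  exact abs_le.2 (h.neg_sq_mem (abs_le.2 ⟨by linarith [ht.1], ht.2⟩))

lemma ell_le {t : ℝ} (ht : |t| ≤ 1) : |ell Φ t| ≤ R * t ^ 2 := by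
  have hmem : ((-(t ^ 2) : ℝ) : ℂ) ∈ closedBall (0:ℂ) 1 := by
    rw [mem_closedBall_zero_iff, Complex.norm_real, Real.norm_eq_abs]
    exact abs_le.2 (h.neg_sq_mem ht)
  have h1 := h.lower _ (h.Phi_closed hmem)
  rw [h.left _ hmem, Complex.norm_real, Real.norm_eq_abs, abs_neg, abs_of_nonneg (sq_nonneg t)]
    at h1
  refine le_trans ?_ h1
  unfold ell
  rw [abs_neg]
  exact Complex.abs_re_le_norm _

lemma le_ell {t : ℝ} (ht : |t| ≤ 1) (hl : |ell Φ t| < 1) : t ^ 2 ≤ |ell Φ t| := by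
  have hmem : ((-(t ^ 2) : ℝ) : ℂ) ∈ closedBall (0:ℂ) 1 := by
    rw [mem_closedBall_zero_iff, Complex.norm_real, Real.norm_eq_abs]
    exact abs_le.2 (h.neg_sq_mem ht)
  have h0 := h.psi_bank_eq ht
  rw [h.psi_bank] at h0
  have hn : ‖Φ ((-(t ^ 2) : ℝ) : ℂ)‖ = |ell Φ t| := by
    rw [h0, Complex.norm_real, Real.norm_eq_abs, abs_neg]
  have h1 := h.upper (Φ ((-(t ^ 2) : ℝ) : ℂ)) (by rw [hn]; exact hl)
  rw [h.left _ hmem, hn, Complex.norm_real, Real.norm_eq_abs, abs_neg,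
    abs_of_nonneg (sq_nonneg t)] at h1
  exact h1

/-- The top of the slit of length `δ < 1` is the segment `|t| ≤ τ`, `δ / R ≤ τ² ≤ δ`. -/
lemma exists_tau {δ : ℝ} (h0 : 0 ≤ δ) (h1 : δ < ell Φ 1) (hδ : δ < 1) :
    ∃ τ ∈ Icc (0:ℝ) 1, ell Φ τ = δ ∧ τ ^ 2 ≤ δ ∧ δ ≤ R * τ ^ 2 ∧
      ∀ t ∈ Icc (0:ℝ) 1, (t ≤ τ ↔ ell Φ t ≤ δ) := by
  obtain ⟨τ, hτ, hτ'⟩ := intermediate_value_Icc (zero_le_one' ℝ) h.ell_cont
    ⟨by rw [h.ell_zero]; exact h0, h1.le⟩
  have ha : |τ| ≤ 1 := abs_le.2 ⟨by linarith [hτ.1], hτ.2⟩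
  refine ⟨τ, hτ, hτ', ?_, ?_, ?_⟩
  · have := h.le_ell ha (by rw [hτ', abs_of_nonneg h0]; exact hδ)
    rwa [hτ', abs_of_nonneg h0] at this
  · have := h.ell_le ha
    rwa [hτ', abs_of_nonneg h0] at this
  · intro t ht
    rw [← hτ', h.ell_mono.le_iff_le ht hτ]

end SymDom

/-! ### The square and the diamond -/

/-- the unit square -/
def Sqr : Set ℂ := {z | |z.re| < 1 ∧ |z.im| < 1}

/-- the unit diamond -/
def Dia : Set ℂ := {z | |z.re| + |z.im| < 2}

theorem exists_sqr : ∃ Φ φ : ℂ → ℂ, SymDom Sqr 2 Φ φ := by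
  refine exists_sym (isJordan_convex ?_ ?_ ?_ ?_) ?_ ?_ ?_ ?_
  · exact (isOpen_lt (continuous_abs.comp continuous_re) continuous_const).inter
      (isOpen_lt (continuous_abs.comp continuous_im) continuous_const)
  · intro z hz w hw a b ha hb hab
    simp only [Sqr, mem_ofPred_eq, abs_lt, add_re, add_im, real_smul, mul_re, mul_im, ofReal_re,
      ofReal_im] at hz hw ⊢
    obtain ⟨⟨h1, h2⟩, h3, h4⟩ := hz
    obtain ⟨⟨h5, h6⟩, h7, h8⟩ := hw
    rcases eq_or_lt_of_le ha with rfl | ha'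
    · have : b = 1 := by linarith
      subst this
      refine ⟨⟨?_, ?_⟩, ?_, ?_⟩ <;> linarith
    · refine ⟨⟨?_, ?_⟩, ?_, ?_⟩ <;> nlinarith
  · refine (Metric.isBounded_ball (x := (0:ℂ)) (r := 2)).subset ?_
    intro z hz
    rw [mem_ball_zero_iff]
    calc ‖z‖ ≤ |z.re| + |z.im| := Complex.norm_le_abs_re_add_abs_im z
      _ < 2 := by linarith [hz.1, hz.2]
  · simp [Sqr]
  · simp [Sqr]
  · intro z hz
    simpa [Sqr] using hz
  · intro z hz
    rw [mem_ball_zero_iff]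
    calc ‖z‖ ≤ |z.re| + |z.im| := Complex.norm_le_abs_re_add_abs_im z
      _ < 2 := by linarith [hz.1, hz.2]
  · intro z hz
    rw [mem_ball_zero_iff] at hz
    exact ⟨(Complex.abs_re_le_norm z).trans_lt hz, (Complex.abs_im_le_norm z).trans_lt hz⟩

theorem exists_dia : ∃ Φ φ : ℂ → ℂ, SymDom Dia 2 Φ φ := by
  have hsub : Dia ⊆ ball 0 2 := by
    intro z hz
    rw [mem_ball_zero_iff]
    exact (Complex.norm_le_abs_re_add_abs_im z).trans_lt hz
  refine exists_sym (isJordan_convex ?_ ?_ ?_ ?_) ?_ ?_ hsub ?_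
  · exact isOpen_lt ((continuous_abs.comp continuous_re).add (continuous_abs.comp continuous_im))
      continuous_const
  · intro z hz w hw a b ha hb hab
    simp only [Dia, mem_ofPred_eq] at hz hw ⊢
    have e1 : (a • z + b • w).re = a * z.re + b * w.re := by simp
    have e2 : (a • z + b • w).im = a * z.im + b * w.im := by simp
    rw [e1, e2]
    have h1 : |a * z.re + b * w.re| ≤ a * |z.re| + b * |w.re| := by
      refine (abs_add_le _ _).trans ?_
      rw [abs_mul, abs_mul, abs_of_nonneg ha, abs_of_nonneg hb]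
    have h2 : |a * z.im + b * w.im| ≤ a * |z.im| + b * |w.im| := by
      refine (abs_add_le _ _).trans ?_
      rw [abs_mul, abs_mul, abs_of_nonneg ha, abs_of_nonneg hb]
    rcases eq_or_lt_of_le ha with rfl | ha'
    · have : b = 1 := by linarith
      subst this
      linarith
    · nlinarith
  · exact Metric.isBounded_ball.subset hsub
  · simp [Dia]
  · simp [Dia]
  · intro z hz
    simpa [Dia] using hz
  · intro z hz
    rw [mem_ball_zero_iff] at hz
    have h1 := Complex.abs_re_le_norm z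
    have h2 := Complex.abs_im_le_norm z
    change |z.re| + |z.im| < 2
    linarith

end H80.W
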